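import Pool.Agent.T6.H25.GG.Stmts

/-! Module A1 of the project MP_b6554e_al: the group exists, and its geodesic words are
the words of `GeoW`. -/

set_option autoImplicit false

namespace Pool.Agent.T6.H25.GG.A1

open Finset

variable {r : ℕ} [NeZero r]

instance nz2 : NeZero (2 * r) := ⟨by have := NeZero.ne r; omega⟩

/-- the form on functions -/
def omf (r : ℕ) [NeZero r] (f g : ZMod (2 * r) → ℤ) : ℤ :=
  ∑ x, ∑ y, f x * g y * b r (y - x)

/-- shift -/
def sh (j : ZMod (2 * r)) (g : ZMod (2 * r) → ℤ) : ZMod (2 * r) → ℤ := fun x => g (x - j)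

omit [NeZero r] in
lemma sh_add (j : ZMod (2 * r)) (g h : ZMod (2 * r) → ℤ) : sh j (g + h) = sh j g + sh j h := rfl

omit [NeZero r] in
lemma sh_neg (j : ZMod (2 * r)) (g : ZMod (2 * r) → ℤ) : sh j (-g) = - sh j g := rfl

omit [NeZero r] in
lemma sh_sh (j k : ZMod (2 * r)) (g : ZMod (2 * r) → ℤ) : sh j (sh k g) = sh (j + k) g := by
  funext x
  simp only [sh]
  congr 1
  ring

omit [NeZero r] in
lemma sh_zero (g : ZMod (2 * r) → ℤ) : sh 0 g = g := by
  funext x
  simp [sh]

omit [NeZero r] in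
lemma sh_zero' (j : ZMod (2 * r)) : sh j (0 : ZMod (2 * r) → ℤ) = 0 := rfl

lemma omf_add_left (f f' g : ZMod (2 * r) → ℤ) : omf r (f + f') g = omf r f g + omf r f' g := by
  unfold omf
  rw [← Finset.sum_add_distrib]
  refine Finset.sum_congr rfl fun x _ => ?_
  rw [← Finset.sum_add_distrib]
  refine Finset.sum_congr rfl fun y _ => ?_
  simp only [Pi.add_apply]
  ring

lemma omf_add_right (f g g' : ZMod (2 * r) → ℤ) : omf r f (g + g') = omf r f g + omf r f g' := by
  unfold omf
  rw [← Finset.sum_add_distrib]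
  refine Finset.sum_congr rfl fun x _ => ?_
  rw [← Finset.sum_add_distrib]
  refine Finset.sum_congr rfl fun y _ => ?_
  simp only [Pi.add_apply]
  ring

lemma omf_neg_left (f g : ZMod (2 * r) → ℤ) : omf r (-f) g = - omf r f g := by
  unfold omf
  rw [← Finset.sum_neg_distrib]
  refine Finset.sum_congr rfl fun x _ => ?_
  rw [← Finset.sum_neg_distrib]
  refine Finset.sum_congr rfl fun y _ => ?_
  simp only [Pi.neg_apply]
  ring

lemma omf_zero_left (g : ZMod (2 * r) → ℤ) : omf r 0 g = 0 := by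
  simp [omf]

lemma omf_zero_right (g : ZMod (2 * r) → ℤ) : omf r g 0 = 0 := by
  simp [omf]

lemma omf_sh (j : ZMod (2 * r)) (f g : ZMod (2 * r) → ℤ) : omf r (sh j f) (sh j g) = omf r f g := by
  unfold omf
  refine (Fintype.sum_equiv (Equiv.addRight j) _ _ fun x => ?_).symm
  refine Fintype.sum_equiv (Equiv.addRight j) _ _ fun y => ?_
  simp only [sh, Equiv.coe_addRight, add_sub_cancel_right, add_sub_add_right_eq_sub]

/-- the big group -/
@[ext] structure Gh (r : ℕ) where
  f : ZMod (2 * r) → ℤ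
  z : ℤ
  j : ZMod (2 * r)

instance : Mul (Gh r) := ⟨fun a c => ⟨a.f + sh a.j c.f, a.z + c.z + omf r a.f (sh a.j c.f), a.j + c.j⟩⟩
instance : One (Gh r) := ⟨⟨0, 0, 0⟩⟩
instance : Inv (Gh r) := ⟨fun a => ⟨- sh (-a.j) a.f, -a.z + omf r a.f a.f, -a.j⟩⟩

lemma mul_def (a c : Gh r) : a * c = ⟨a.f + sh a.j c.f, a.z + c.z + omf r a.f (sh a.j c.f), a.j + c.j⟩ := rfl
omit [NeZero r] in
lemma one_def : (1 : Gh r) = ⟨0, 0, 0⟩ := rfl
lemma inv_def (a : Gh r) : a⁻¹ = ⟨- sh (-a.j) a.f, -a.z + omf r a.f a.f, -a.j⟩ := rfl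

instance : Group (Gh r) := Group.ofLeftAxioms
  (by
    intro a c d
    simp only [mul_def, sh_add, sh_sh, omf_add_left, omf_add_right, Gh.mk.injEq]
    refine ⟨?_, ?_, ?_⟩
    · rw [add_assoc]
    · have := omf_sh a.j c.f (sh c.j d.f)
      rw [sh_sh] at this
      rw [this]
      ring
    · ring)
  (by
    intro a
    simp only [mul_def, one_def, sh_zero, omf_zero_left, zero_add, add_zero])
  (by
    intro a
    simp only [mul_def, one_def, inv_def, omf_neg_left, omf_sh, Gh.mk.injEq]
    refine ⟨?_, ?_, ?_⟩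
    · simp
    · ring
    · simp)

/-- `δ_p - δ_{p+r}` -/
def e (r : ℕ) (p : ZMod (2 * r)) : ZMod (2 * r) → ℤ :=
  fun x => (if x = p then 1 else 0) - (if x = p + (r : ZMod (2 * r)) then 1 else 0)

/-- sum over a path -/
def F (r : ℕ) (D : List (ZMod (2 * r))) : ZMod (2 * r) → ℤ := (D.map (e r)).sum

omit [NeZero r] in
lemma sh_e (j p : ZMod (2 * r)) : sh j (e r p) = e r (p + j) := by
  funext x
  have h1 : (x - j = p) = (x = p + j) := by rw [sub_eq_iff_eq_add]
  have h2 : (x - j = p + (r : ZMod (2 * r))) = (x = p + j + (r : ZMod (2 * r))) := by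
    rw [sub_eq_iff_eq_add]
    congr 1
    ring
  simp only [sh, e, h1, h2]

omit [NeZero r] in
lemma rr : (r : ZMod (2 * r)) + (r : ZMod (2 * r)) = 0 := by
  have : ((2 * r : ℕ) : ZMod (2 * r)) = 0 := ZMod.natCast_self _
  push_cast at this
  rw [← this]; ring

lemma r_val : ((r : ZMod (2 * r))).val = r := by
  rw [ZMod.val_natCast]
  apply Nat.mod_eq_of_lt
  have := NeZero.pos r
  omega

lemma b_add_r (k : ZMod (2 * r)) : b r (k + (r : ZMod (2 * r))) = - b r k := by
  have hr := NeZero.pos r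
  have hk : k.val < 2 * r := ZMod.val_lt k
  unfold b
  rw [ZMod.val_add, r_val]
  unfold bt
  rcases lt_or_ge k.val r with h | h
  · have : (k.val + r) % (2 * r) = k.val + r := Nat.mod_eq_of_lt (by omega)
    rw [this]
    by_cases h0 : k.val = 0
    · simp [h0]
    · have h1 : ¬ (k.val + r = 0 ∨ k.val + r = r) := by omega
      have h2 : ¬ (k.val + r < r) := by omega
      have h3 : ¬ (k.val = 0 ∨ k.val = r) := by omega
      rw [if_neg h1, if_neg h2, if_neg h3, if_pos h]
  · have : (k.val + r) % (2 * r) = k.val - r := by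
      have h2 : k.val + r = (k.val - r) + 2 * r := by omega
      rw [h2, Nat.add_mod_right, Nat.mod_eq_of_lt (by omega)]
    rw [this]
    by_cases h0 : k.val = r
    · simp [h0]
    · have h1 : ¬ (k.val - r = 0 ∨ k.val - r = r) := by omega
      have h2 : (k.val - r < r) := by omega
      have h3 : ¬ (k.val = 0 ∨ k.val = r) := by omega
      have h4 : ¬ (k.val < r) := by omega
      rw [if_neg h1, if_pos h2, if_neg h3, if_neg h4]
      simp

lemma b_sub_r (k : ZMod (2 * r)) : b r (k - (r : ZMod (2 * r))) = - b r k := by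
  have : k - (r : ZMod (2 * r)) = k + (r : ZMod (2 * r)) := by
    rw [sub_eq_iff_eq_add, add_assoc, rr, add_zero]
  rw [this, b_add_r]

lemma omf_e (p q : ZMod (2 * r)) : omf r (e r p) (e r q) = 4 * b r (q - p) := by
  unfold omf
  have h1 : ∀ x : ZMod (2 * r), (∑ y, e r p x * e r q y * b r (y - x)) =
      e r p x * (b r (q - x) - b r (q + (r : ZMod (2 * r)) - x)) := by
    intro x
    have : ∀ y : ZMod (2 * r), e r p x * e r q y * b r (y - x) =
        (if y = q then e r p x * b r (y - x) else 0) -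
        (if y = q + (r : ZMod (2 * r)) then e r p x * b r (y - x) else 0) := by
      intro y
      simp only [e]
      split_ifs <;> ring
    simp only [this, Finset.sum_sub_distrib, Finset.sum_ite_eq', Finset.mem_univ, if_true]
    ring
  simp only [h1]
  have h2 : ∀ x : ZMod (2 * r), e r p x * (b r (q - x) - b r (q + (r : ZMod (2 * r)) - x)) =
      (if x = p then (b r (q - x) - b r (q + (r : ZMod (2 * r)) - x)) else 0) -
      (if x = p + (r : ZMod (2 * r)) then (b r (q - x) - b r (q + (r : ZMod (2 * r)) - x)) else 0) := by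
    intro x
    simp only [e]
    split_ifs <;> ring
  simp only [h2, Finset.sum_sub_distrib, Finset.sum_ite_eq', Finset.mem_univ, if_true]
  have e1 : q + (r : ZMod (2 * r)) - p = (q - p) + (r : ZMod (2 * r)) := by ring
  have e2 : q - (p + (r : ZMod (2 * r))) = (q - p) - (r : ZMod (2 * r)) := by ring
  have e3 : q + (r : ZMod (2 * r)) - (p + (r : ZMod (2 * r))) = q - p := by ring
  rw [e1, e2, e3, b_add_r, b_sub_r]
  ring

lemma omf_F (p : ZMod (2 * r)) (D : List (ZMod (2 * r))) :
    omf r (e r p) (F r D) = 4 * (D.map (fun y => b r (y - p))).sum := by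
  induction D with
  | nil => simp [F, omf_zero_right]
  | cons y D ih =>
    have : F r (y :: D) = e r y + F r D := by simp [F]
    rw [this, omf_add_right, ih, omf_e, List.map_cons, List.sum_cons]
    ring

/-- the letters in the big group -/
def lt (r : ℕ) [NeZero r] : Lt r → Gh r
  | Sum.inl true => ⟨e r 0, 0, 0⟩
  | Sum.inl false => ⟨e r (r : ZMod (2 * r)), 0, 0⟩
  | Sum.inr j => ⟨0, 0, j.1⟩

lemma prod_pth (W : List (Lt r)) : ∀ p : ZMod (2 * r),
    (⟨0, 0, p⟩ : Gh r) * (W.map (lt r)).prod = ⟨F r (pth r p W), 4 * Z r (pth r p W), p + fst r W⟩ := by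
  induction W with
  | nil => intro p; simp [pth, F, Z, fst]
  | cons l W ih =>
    intro p
    rw [List.map_cons, List.prod_cons, ← mul_assoc]
    have key : ∀ q : ZMod (2 * r), (⟨0, 0, p⟩ : Gh r) * ⟨e r q, 0, 0⟩ * (W.map (lt r)).prod =
        ⟨F r ((p + q) :: pth r p W), 4 * Z r ((p + q) :: pth r p W), p + fst r W⟩ := by
      intro q
      have h1 : (⟨0, 0, p⟩ : Gh r) * ⟨e r q, 0, 0⟩ = (⟨e r (p + q), 0, 0⟩ : Gh r) * ⟨0, 0, p⟩ := by
        simp only [mul_def, sh_e, sh_zero, omf_zero_left, omf_zero_right, zero_add, add_zero]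
        rw [add_comm q p]
      rw [h1, mul_assoc, ih p]
      simp only [mul_def, sh_zero, zero_add, omf_F, Z, Gh.mk.injEq]
      refine ⟨?_, ?_, trivial⟩
      · simp [F]
      · ring
    match l with
    | Sum.inl true =>
      have := key 0
      rw [add_zero] at this
      simp only [lt, pth]
      rw [this]
      simp [fst]
    | Sum.inl false =>
      have := key (r : ZMod (2 * r))
      simp only [lt, pth]
      rw [this]
      simp [fst]
    | Sum.inr j =>
      simp only [lt, pth]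
      have h1 : (⟨0, 0, p⟩ : Gh r) * ⟨0, 0, j.1⟩ = ⟨0, 0, p + j.1⟩ := by
        simp only [mul_def, sh_zero', omf_zero_left, add_zero]
      rw [h1, ih]
      simp [fst, add_assoc]

lemma prod_eq (W : List (Lt r)) :
    (W.map (lt r)).prod = ⟨F r (pth r 0 W), 4 * Z r (pth r 0 W), fst r W⟩ := by
  have := prod_pth W 0
  rw [← one_def, one_mul, zero_add] at this
  exact this

omit [NeZero r] in
lemma F_eq_wt (D : List (ZMod (2 * r))) : F r D = wt r D := by
  induction D with
  | nil => funext x; simp [F, wt]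
  | cons y D ih =>
    have h : F r (y :: D) = e r y + F r D := by simp [F]
    rw [h, ih]
    funext x
    simp only [Pi.add_apply, e, wt, List.count_cons, beq_iff_eq]
    have h1 : (y = x) ↔ (x = y) := eq_comm
    have h2 : (y = x + (r : ZMod (2 * r))) ↔ (x = y + (r : ZMod (2 * r))) := by
      constructor
      · rintro rfl
        rw [add_assoc, rr, add_zero]
      · rintro rfl
        rw [add_assoc, rr, add_zero]
    simp only [h1, h2]
    push_cast
    ring

lemma prod_eq_iff (W W' : List (Lt r)) :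
    (W.map (lt r)).prod = (W'.map (lt r)).prod ↔ SameEl r W W' := by
  rw [prod_eq, prod_eq, Gh.mk.injEq, F_eq_wt, F_eq_wt]
  unfold SameEl Eqw
  constructor
  · rintro ⟨h1, h2, h3⟩
    exact ⟨fun x => congrFun h1 x, by linarith, h3⟩
  · rintro ⟨h1, h2, h3⟩
    exact ⟨funext h1, by rw [h2], h3⟩

lemma r_ne_zero : (r : ZMod (2 * r)) ≠ 0 := by
  intro h
  have := congrArg ZMod.val h
  rw [r_val, ZMod.val_zero] at this
  exact NeZero.ne r this

omit [NeZero r] in
lemma e_r : e r (r : ZMod (2 * r)) = - e r 0 := by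
  funext x
  simp only [e, rr, Pi.neg_apply, zero_add]
  ring

lemma e0 : e r 0 0 = 1 := by
  have : (0 : ZMod (2 * r)) ≠ (r : ZMod (2 * r)) := fun h => r_ne_zero h.symm
  simp [e, this]

lemma lt_inj : Function.Injective (lt r) := by
  intro a c h
  match a, c with
  | Sum.inl true, Sum.inl true => rfl
  | Sum.inl false, Sum.inl false => rfl
  | Sum.inl true, Sum.inl false =>
    exfalso
    simp only [lt, Gh.mk.injEq, e_r] at h
    have := congrFun h.1 0
    rw [Pi.neg_apply, e0] at this
    norm_num at this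
  | Sum.inl false, Sum.inl true =>
    exfalso
    simp only [lt, Gh.mk.injEq, e_r] at h
    have := congrFun h.1 0
    rw [Pi.neg_apply, e0] at this
    norm_num at this
  | Sum.inl true, Sum.inr j =>
    exfalso
    simp only [lt, Gh.mk.injEq] at h
    exact j.2 h.2.2.symm
  | Sum.inl false, Sum.inr j =>
    exfalso
    simp only [lt, Gh.mk.injEq] at h
    exact j.2 h.2.2.symm
  | Sum.inr j, Sum.inl true =>
    exfalso
    simp only [lt, Gh.mk.injEq] at h
    exact j.2 h.2.2
  | Sum.inr j, Sum.inl false =>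
    exfalso
    simp only [lt, Gh.mk.injEq] at h
    exact j.2 h.2.2
  | Sum.inr j, Sum.inr k =>
    simp only [lt, Gh.mk.injEq] at h
    congr 1
    exact Subtype.ext h.2.2

/-- inverse letter -/
def iv : Lt r → Lt r
  | Sum.inl c => Sum.inl (!c)
  | Sum.inr j => Sum.inr ⟨-j.1, neg_ne_zero.mpr j.2⟩

lemma e_self (p : ZMod (2 * r)) : omf r (e r p) (e r p) = 0 := by
  rw [omf_e]; simp [b, bt]

lemma lt_iv (l : Lt r) : lt r (iv l) = (lt r l)⁻¹ := by
  match l with
  | Sum.inl true =>
    simp only [iv, lt, inv_def, e_self, Bool.not_true, neg_zero, sh_zero, e_r, add_zero]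
  | Sum.inl false =>
    simp only [iv, lt, inv_def, e_self, Bool.not_false, neg_zero, sh_zero, add_zero]
    rw [e_r, neg_neg]
  | Sum.inr j =>
    simp only [iv, lt, inv_def, sh_zero', omf_zero_left, neg_zero, add_zero]

/-- the generators in the big group -/
noncomputable def T (r : ℕ) [NeZero r] : Finset (Gh r) := by
  classical
  exact (Finset.univ.filter (fun l : Lt r => l ≠ Sum.inl false)).image (lt r)

lemma mem_T (x : Gh r) : x ∈ T r ↔ ∃ l : Lt r, l ≠ Sum.inl false ∧ lt r l = x := by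
  classical
  simp [T]

lemma lt_mem_closure (l : Lt r) : lt r l ∈ Subgroup.closure (T r : Set (Gh r)) := by
  by_cases h : l = Sum.inl false
  · subst h
    have : (lt r (Sum.inl false)) = (lt r (Sum.inl true))⁻¹ := lt_iv (Sum.inl true)
    rw [this]
    apply Subgroup.inv_mem
    apply Subgroup.subset_closure
    rw [Finset.mem_coe, mem_T]
    exact ⟨_, by simp, rfl⟩
  · apply Subgroup.subset_closure
    rw [Finset.mem_coe, mem_T]
    exact ⟨_, h, rfl⟩

/-- the group -/
abbrev Gg (r : ℕ) [NeZero r] : Type := Subgroup.closure (T r : Set (Gh r))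

/-- letters in the group -/
noncomputable def lg (r : ℕ) [NeZero r] (l : Lt r) : Gg r := ⟨lt r l, lt_mem_closure l⟩

lemma lg_inj : Function.Injective (lg r) := by
  intro a c h
  exact lt_inj (congrArg Subtype.val h)

/-- the generating set -/
noncomputable def S (r : ℕ) [NeZero r] : Finset (Gg r) :=
  (T r).preimage Subtype.val (Subtype.val_injective.injOn)

lemma mem_S (x : Gg r) : x ∈ S r ↔ (x : Gh r) ∈ T r := by
  simp [S]

lemma letters (x : Gg r) : (x ∈ S r ∨ x⁻¹ ∈ S r) ↔ ∃ l, lg r l = x := by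
  rw [mem_S, mem_S, mem_T, mem_T]
  constructor
  · rintro (⟨l, -, hl⟩ | ⟨l, -, hl⟩)
    · exact ⟨l, Subtype.ext hl⟩
    · refine ⟨iv l, Subtype.ext ?_⟩
      show lt r (iv l) = x
      rw [lt_iv, hl]
      simp
  · rintro ⟨l, rfl⟩
    by_cases h : l = Sum.inl false
    · right
      refine ⟨Sum.inl true, by simp, ?_⟩
      subst h
      show lt r (Sum.inl true) = ((lg r (Sum.inl false) : Gg r)⁻¹ : Gg r)
      rw [Subgroup.coe_inv]
      exact lt_iv (Sum.inl false)
    · left
      exact ⟨l, h, rfl⟩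

lemma words (w : List (Gg r)) : (∀ x ∈ w, x ∈ S r ∨ x⁻¹ ∈ S r) ↔ ∃ W : List (Lt r), W.map (lg r) = w := by
  constructor
  · intro h
    induction w with
    | nil => exact ⟨[], rfl⟩
    | cons x w ih =>
      obtain ⟨W, hW⟩ := ih (fun y hy => h y (List.mem_cons_of_mem _ hy))
      obtain ⟨l, hl⟩ := (letters x).1 (h x List.mem_cons_self)
      exact ⟨l :: W, by rw [List.map_cons, hW, hl]⟩
  · rintro ⟨W, rfl⟩ x hx
    rw [List.mem_map] at hx
    obtain ⟨l, -, hl⟩ := hx
    exact (letters x).2 ⟨l, hl⟩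

lemma prod_lg (W : List (Lt r)) : (((W.map (lg r)).prod : Gg r) : Gh r) = (W.map (lt r)).prod := by
  induction W with
  | nil => rfl
  | cons l W ih =>
    rw [List.map_cons, List.prod_cons, List.map_cons, List.prod_cons, Subgroup.coe_mul, ih]
    rfl

lemma prod_lg_iff (W W' : List (Lt r)) :
    (W.map (lg r)).prod = (W'.map (lg r)).prod ↔ SameEl r W W' := by
  rw [← prod_eq_iff, ← prod_lg, ← prod_lg]
  exact ⟨fun h => congrArg _ h, fun h => Subtype.ext h⟩

end Pool.Agent.T6.H25.GG.A1

namespace Pool.Agent.T6.H25.GG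

open A1 in
theorem a1 : StmtA1 := by
  intro r _ _
  refine ⟨Gg r, inferInstance, S r, ?_, ?_⟩
  · have h : ((S r : Finset (Gg r)) : Set (Gg r)) =
        ((↑) : Gg r → Gh r) ⁻¹' (T r : Set (Gh r)) := by
      ext x
      simp [mem_S]
    rw [h]
    exact Subgroup.closure_closure_coe_preimage
  · intro n
    have h : {w : List (Gg r) | w.length ≤ n ∧ (∀ x ∈ w, x ∈ S r ∨ x⁻¹ ∈ S r) ∧
        ∀ v : List (Gg r), (∀ x ∈ v, x ∈ S r ∨ x⁻¹ ∈ S r) → v.prod = w.prod → w.length ≤ v.length} =
        (List.map (lg r)) '' {W : List (Lt r) | W.length ≤ n ∧ GeoW r W} := by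
      ext w
      simp only [Set.mem_ofPred_eq, Set.mem_image, words]
      constructor
      · rintro ⟨h1, ⟨W, rfl⟩, h3⟩
        refine ⟨W, ⟨by simpa using h1, ?_⟩, rfl⟩
        intro W' hW'
        have := h3 (W'.map (lg r)) ⟨W', rfl⟩ (((prod_lg_iff _ _).2 hW').symm)
        simpa using this
      · rintro ⟨W, ⟨h1, h2⟩, rfl⟩
        refine ⟨by simpa using h1, ⟨W, rfl⟩, ?_⟩
        rintro v ⟨W', rfl⟩ hv
        have := h2 W' ((prod_lg_iff _ _).1 hv.symm)
        simpa using this
    unfold gam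
    rw [h]
    exact Set.ncard_image_of_injective _ (List.map_injective_iff.2 lg_inj)

end Pool.Agent.T6.H25.GG
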