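import Pool.Agent.T6.H25.GG.Stmts

set_option autoImplicit false

/-!
Project MP_b6554e_al (geodesic growth), module A2: words of the group against paths.
-/

namespace Pool.Agent.T6.H25.GG
namespace A2

open Finset

set_option linter.unusedSectionVars false

variable {r : ℕ} [NeZero r]

theorem two_r : (r : ZMod (2 * r)) + (r : ZMod (2 * r)) = 0 := by
  have h : ((2 * r : ℕ) : ZMod (2 * r)) = 0 := ZMod.natCast_self _
  push_cast at h
  rw [← h]
  ring

theorem r_ne_zero : (r : ZMod (2 * r)) ≠ 0 := by
  have hr : 0 < r := Nat.pos_of_ne_zero (NeZero.ne r)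
  rw [Ne, ZMod.natCast_eq_zero_iff]
  intro h
  have := Nat.le_of_dvd hr h
  omega

theorem add_r_r (x : ZMod (2 * r)) : x + (r : ZMod (2 * r)) + (r : ZMod (2 * r)) = x := by
  rw [add_assoc, two_r, add_zero]

theorem add_r_ne (x : ZMod (2 * r)) : x + (r : ZMod (2 * r)) ≠ x := by
  intro h
  exact r_ne_zero (by simpa using h)

omit [NeZero r] in
theorem ax_refl (x : ZMod (2 * r)) : ax r x x := Or.inl rfl

theorem ax_symm {x y : ZMod (2 * r)} (h : ax r x y) : ax r y x := by
  rcases h with h | h
  · exact Or.inl h.symm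
  · right
    rw [h, add_r_r]

theorem ax_trans {x y z : ZMod (2 * r)} (h : ax r x y) (h' : ax r y z) : ax r x z := by
  rcases h with h | h <;> rcases h' with h' | h'
  · left; rw [h', h]
  · right; rw [h', h]
  · right; rw [h', h]
  · left; rw [h', h, add_r_r]

theorem ax_comm {x y : ZMod (2 * r)} : ax r x y ↔ ax r y x := ⟨ax_symm, ax_symm⟩

theorem ax_left {x x' y : ZMod (2 * r)} (h : ax r x x') : ax r x y ↔ ax r x' y :=
  ⟨fun h' => ax_trans (ax_symm h) h', fun h' => ax_trans h h'⟩

theorem ax_right {x x' y : ZMod (2 * r)} (h : ax r x x') : ax r y x ↔ ax r y x' :=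
  ⟨fun h' => ax_trans h' h, fun h' => ax_trans h' (ax_symm h)⟩

omit [NeZero r] in
theorem hdc_cons (p x : ZMod (2 * r)) (D : List (ZMod (2 * r))) :
    hdc r p (x :: D) = if ax r p x then 0 else 1 := rfl

omit [NeZero r] in
theorem tlc_single (q x : ZMod (2 * r)) : tlc r q [x] = if ax r q x then 0 else 1 := rfl

omit [NeZero r] in
theorem tlc_cons_cons (q x y : ZMod (2 * r)) (D : List (ZMod (2 * r))) :
    tlc r q (x :: y :: D) = tlc r q (y :: D) := by
  unfold tlc
  rw [List.getLast?_cons_cons]

omit [NeZero r] in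
theorem brk_cons_cons (x y : ZMod (2 * r)) (D : List (ZMod (2 * r))) :
    brk r (x :: y :: D) = (if ax r x y then 0 else 1) + brk r (y :: D) := rfl

omit [NeZero r] in
theorem cost_nil (p q : ZMod (2 * r)) : cost r p q [] = if p = q then 0 else 1 := rfl

omit [NeZero r] in
theorem cost_cons (p q x : ZMod (2 * r)) (D : List (ZMod (2 * r))) :
    cost r p q (x :: D) = (x :: D).length + brk r (x :: D) + hdc r p (x :: D) + tlc r q (x :: D) := rfl

/-- the cost of a word of at least two letters, the first one on the axis of the state -/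
theorem cost_cons_cons {p q x y : ZMod (2 * r)} {D : List (ZMod (2 * r))} (h : ax r p x) :
    cost r p q (x :: y :: D) = 1 + cost r p q (y :: D) := by
  rw [cost_cons, cost_cons, brk_cons_cons, hdc_cons, hdc_cons, tlc_cons_cons, if_pos h]
  have h1 : (ax r x y ↔ ax r p y) := ⟨fun h' => ax_trans h h', fun h' => ax_trans (ax_symm h) h'⟩
  by_cases h2 : ax r p y
  · rw [if_pos (h1.2 h2), if_pos h2]
    simp only [List.length_cons]
    ring
  · rw [if_neg (fun h' => h2 (h1.1 h')), if_neg h2]
    simp only [List.length_cons]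
    ring

theorem cost_cons_le {p q x : ZMod (2 * r)} {D : List (ZMod (2 * r))} (h : ax r p x) :
    cost r p q (x :: D) ≤ 1 + cost r p q D := by
  rcases D with _ | ⟨y, D⟩
  · rw [cost_cons, hdc_cons, tlc_single, if_pos h, cost_nil]
    have : brk r [x] = 0 := rfl
    rw [this]
    by_cases h2 : p = q
    · rw [if_pos (by rw [← h2]; exact h)]
      simp
    · rw [if_neg h2]
      split_ifs <;> simp
  · rw [cost_cons_cons h]

theorem cost_state_le (p p' q : ZMod (2 * r)) (D : List (ZMod (2 * r))) :
    cost r p q D ≤ 1 + cost r p' q D := by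
  rcases D with _ | ⟨y, D⟩
  · rw [cost_nil, cost_nil]
    split_ifs <;> omega
  · rw [cost_cons, cost_cons, hdc_cons, hdc_cons]
    split_ifs <;> omega

omit [NeZero r] in
theorem fst_nil : fst r [] = 0 := rfl

omit [NeZero r] in
theorem fst_inl (e : Bool) (W : List (Lt r)) : fst r (Sum.inl e :: W) = fst r W := by
  simp [fst]

omit [NeZero r] in
theorem fst_inr (j : {j : ZMod (2 * r) // j ≠ 0}) (W : List (Lt r)) :
    fst r (Sum.inr j :: W) = j.1 + fst r W := by
  simp [fst]

/-- direction of a letter `s^e` in the state `p` -/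
def dr (r : ℕ) (p : ZMod (2 * r)) (e : Bool) : ZMod (2 * r) := if e then p else p + (r : ZMod (2 * r))

omit [NeZero r] in
theorem pth_inl (p : ZMod (2 * r)) (e : Bool) (W : List (Lt r)) :
    pth r p (Sum.inl e :: W) = dr r p e :: pth r p W := by
  cases e <;> rfl

omit [NeZero r] in
theorem pth_inr (p : ZMod (2 * r)) (j : {j : ZMod (2 * r) // j ≠ 0}) (W : List (Lt r)) :
    pth r p (Sum.inr j :: W) = pth r (p + j.1) W := rfl

omit [NeZero r] in
theorem ax_dr (p : ZMod (2 * r)) (e : Bool) : ax r p (dr r p e) := by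
  cases e
  · exact Or.inr rfl
  · exact Or.inl rfl

theorem dr_inj {p : ZMod (2 * r)} {e e' : Bool} (h : dr r p e = dr r p e') : e = e' := by
  cases e <;> cases e'
  · rfl
  · exact absurd h (add_r_ne p)
  · exact absurd h.symm (add_r_ne p)
  · rfl

omit [NeZero r] in
theorem exists_dr {p x : ZMod (2 * r)} (h : ax r p x) : ∃ e, dr r p e = x := by
  rcases h with h | h
  · exact ⟨true, h.symm⟩
  · exact ⟨false, h.symm⟩

/-- P1: the cost is a lower bound for the length -/
theorem lower (W : List (Lt r)) : ∀ p q : ZMod (2 * r), p + fst r W = q →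
    cost r p q (pth r p W) ≤ W.length := by
  induction W with
  | nil =>
    intro p q h
    rw [fst_nil, add_zero] at h
    show cost r p q [] ≤ 0
    rw [cost_nil, if_pos h]
  | cons l W ih =>
    intro p q h
    rcases l with e | j
    · rw [fst_inl] at h
      rw [pth_inl]
      refine (cost_cons_le (ax_dr p e)).trans ?_
      rw [List.length_cons]
      have := ih p q h
      omega
    · rw [fst_inr, ← add_assoc] at h
      rw [pth_inr]
      refine (cost_state_le p (p + j.1) q _).trans ?_
      rw [List.length_cons]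
      have := ih (p + j.1) q h
      omega

/-- the exceptional words -/
def Bad (r : ℕ) (p q : ZMod (2 * r)) (D : List (ZMod (2 * r))) : Prop :=
  D ≠ [] ∧ (∀ x ∈ D, ax r p x) ∧ q = p + (r : ZMod (2 * r))

/-- P2: existence of a word of length the cost -/
theorem upper (D : List (ZMod (2 * r))) : ∀ p q : ZMod (2 * r), ¬ Bad r p q D →
    ∃ W : List (Lt r), pth r p W = D ∧ p + fst r W = q ∧ W.length = cost r p q D := by
  induction D with
  | nil =>
    intro p q _
    by_cases h : p = q
    · refine ⟨[], rfl, by rw [fst_nil, add_zero, h], ?_⟩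
      rw [cost_nil, if_pos h]
      rfl
    · refine ⟨[Sum.inr ⟨q - p, sub_ne_zero.2 (Ne.symm h)⟩], rfl, ?_, ?_⟩
      · rw [fst_inr, fst_nil]
        simp
      · rw [cost_nil, if_neg h]
        rfl
  | cons x D ih =>
    have key : ∀ p q : ZMod (2 * r), ax r p x → ¬ Bad r p q (x :: D) →
        ∃ W : List (Lt r), pth r p W = x :: D ∧ p + fst r W = q ∧ W.length = cost r p q (x :: D) := by
      intro p q hp hb
      obtain ⟨e, he⟩ := exists_dr hp
      rcases D with _ | ⟨y, D⟩
      · have hbrk : brk r [x] = 0 := rfl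
        have hlen : [x].length = 1 := rfl
        by_cases hq : ax r q x
        · have h1 : ax r p q := ax_trans hp (ax_symm hq)
          rcases h1 with h1 | h1
          · refine ⟨[Sum.inl e], ?_, ?_, ?_⟩
            · rw [pth_inl, he]
              rfl
            · rw [fst_inl, fst_nil, add_zero, h1]
            · rw [cost_cons, hdc_cons, tlc_single, if_pos hp, if_pos hq, hbrk]
              rfl
          · exact absurd ⟨by simp, by simpa using hp, h1⟩ hb
        · have hpq : p ≠ q := fun h => hq (h ▸ hp)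
          refine ⟨[Sum.inl e, Sum.inr ⟨q - p, sub_ne_zero.2 (Ne.symm hpq)⟩], ?_, ?_, ?_⟩
          · rw [pth_inl, he]
            rfl
          · rw [fst_inl, fst_inr, fst_nil]
            simp
          · rw [cost_cons, hdc_cons, tlc_single, if_pos hp, if_neg hq, hbrk]
            rfl
      · have hb' : ¬ Bad r p q (y :: D) := by
          intro h
          apply hb
          refine ⟨by simp, ?_, h.2.2⟩
          intro z hz
          rcases List.mem_cons.1 hz with h' | h'
          · rw [h']; exact hp
          · exact h.2.1 z h'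
        obtain ⟨W, h1, h2, h3⟩ := ih p q hb'
        refine ⟨Sum.inl e :: W, ?_, ?_, ?_⟩
        · rw [pth_inl, he, h1]
        · rw [fst_inl, h2]
        · rw [List.length_cons, h3, cost_cons_cons hp]
          ring
    intro p q hb
    by_cases hp : ax r p x
    · exact key p q hp hb
    · obtain ⟨p', hp', hb'⟩ : ∃ p', ax r p' x ∧ ¬ Bad r p' q (x :: D) := by
        by_cases h : q = x + (r : ZMod (2 * r))
        · refine ⟨x + (r : ZMod (2 * r)), ax_symm (Or.inr rfl), fun h' => ?_⟩
          have h2 := h'.2.2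
          rw [add_r_r, h] at h2
          exact add_r_ne x h2
        · exact ⟨x, ax_refl x, fun h' => h h'.2.2⟩
      obtain ⟨W, h1, h2, h3⟩ := key p' q hp' hb'
      have hne : p ≠ p' := fun h => hp (h ▸ hp')
      refine ⟨Sum.inr ⟨p' - p, sub_ne_zero.2 (Ne.symm hne)⟩ :: W, ?_, ?_, ?_⟩
      · rw [pth_inr]
        have : p + (p' - p) = p' := by ring
        simp only [this]
        exact h1
      · rw [fst_inr, ← h2]
        ring
      · rw [List.length_cons, h3, cost_cons, cost_cons, hdc_cons, hdc_cons, if_neg hp, if_pos hp']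
        ring

/-- the list of the letters `t^j` -/
def tau (r : ℕ) (W : List (Lt r)) : List (ZMod (2 * r)) :=
  W.filterMap (fun l => Sum.elim (fun _ => none) (fun j => some j.1) l)

omit [NeZero r] in
theorem tau_nil : tau r [] = [] := rfl

omit [NeZero r] in
theorem tau_inl (e : Bool) (W : List (Lt r)) : tau r (Sum.inl e :: W) = tau r W := by
  simp [tau]

omit [NeZero r] in
theorem tau_inr (j : {j : ZMod (2 * r) // j ≠ 0}) (W : List (Lt r)) :
    tau r (Sum.inr j :: W) = j.1 :: tau r W := by
  simp [tau]

omit [NeZero r] in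
theorem tau_ne_zero (W : List (Lt r)) : ∀ x ∈ tau r W, x ≠ 0 := by
  induction W with
  | nil => simp [tau]
  | cons l W ih =>
    rcases l with e | j
    · rw [tau_inl]; exact ih
    · rw [tau_inr]
      intro x hx
      rcases List.mem_cons.1 hx with h | h
      · rw [h]; exact j.2
      · exact ih x h

omit [NeZero r] in
theorem length_eq (W : List (Lt r)) : ∀ p, W.length = (pth r p W).length + (tau r W).length := by
  induction W with
  | nil => intro p; rfl
  | cons l W ih =>
    intro p
    rcases l with e | j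
    · rw [tau_inl, pth_inl, List.length_cons, List.length_cons, ih p]
      ring
    · rw [tau_inr, pth_inr, List.length_cons, List.length_cons, ih (p + j.1)]
      ring

omit [NeZero r] in
theorem fst_eq_tau_sum (W : List (Lt r)) : fst r W = (tau r W).sum := by
  induction W with
  | nil => rfl
  | cons l W ih =>
    rcases l with e | j
    · rw [tau_inl, fst_inl, ih]
    · rw [tau_inr, fst_inr, ih, List.sum_cons]

omit [NeZero r] in
theorem fst_of_tau_nil {W : List (Lt r)} (h : tau r W = []) : fst r W = 0 := by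
  rw [fst_eq_tau_sum, h]; rfl

theorem hd_nocost {p p' q x : ZMod (2 * r)} {D : List (ZMod (2 * r))} (h : ax r p x) :
    cost r p q (x :: D) ≤ cost r p' q (x :: D) := by
  rw [cost_cons, cost_cons, hdc_cons, if_pos h]
  omega

/-- P4: a word of minimal length is determined by the path and the letters `t^j` -/
theorem tight_inj (W1 : List (Lt r)) : ∀ (W2 : List (Lt r)) (p q : ZMod (2 * r)),
    pth r p W1 = pth r p W2 → tau r W1 = tau r W2 → p + fst r W1 = q → p + fst r W2 = q →
    W1.length = cost r p q (pth r p W1) → W2.length = cost r p q (pth r p W2) → W1 = W2 := by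
  induction W1 with
  | nil =>
    intro W2 p q h1 h2 _ _ _ _
    rcases W2 with _ | ⟨l, W2⟩
    · rfl
    · rcases l with e | j
      · rw [pth_inl] at h1
        exact absurd h1 (by simp [pth])
      · rw [tau_inr, tau_nil] at h2
        exact absurd h2 (by simp)
  | cons l W1 ih =>
    intro W2 p q h1 h2 h3 h4 h5 h6
    rcases W2 with _ | ⟨l', W2⟩
    · rcases l with e | j
      · rw [pth_inl] at h1
        exact absurd h1 (by simp [pth])
      · rw [tau_inr, tau_nil] at h2
        exact absurd h2 (by simp)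
    · -- tails are tight
      have tl1 : ∀ (e : Bool) (W : List (Lt r)), p + fst r (Sum.inl e :: W) = q →
          (Sum.inl e :: W : List (Lt r)).length = cost r p q (pth r p (Sum.inl e :: W)) →
          W.length = cost r p q (pth r p W) := by
        intro e W hq ht
        rw [fst_inl] at hq
        have a1 := lower W p q hq
        rw [pth_inl, List.length_cons] at ht
        have a2 := cost_cons_le (q := q) (D := pth r p W) (ax_dr p e)
        omega
      have tl2 : ∀ (j : {j : ZMod (2 * r) // j ≠ 0}) (W : List (Lt r)),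
          p + fst r (Sum.inr j :: W) = q →
          (Sum.inr j :: W : List (Lt r)).length = cost r p q (pth r p (Sum.inr j :: W)) →
          W.length = cost r (p + j.1) q (pth r (p + j.1) W) := by
        intro j W hq ht
        rw [fst_inr, ← add_assoc] at hq
        have a1 := lower W (p + j.1) q hq
        rw [pth_inr, List.length_cons] at ht
        have a2 := cost_state_le p (p + j.1) q (pth r (p + j.1) W)
        omega
      have mix : ∀ (e : Bool) (W : List (Lt r)) (j : {j : ZMod (2 * r) // j ≠ 0}) (W' : List (Lt r)),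
          pth r p (Sum.inl e :: W) = pth r p (Sum.inr j :: W') →
          p + fst r (Sum.inr j :: W') = q →
          (Sum.inr j :: W' : List (Lt r)).length = cost r p q (pth r p (Sum.inr j :: W')) → False := by
        intro e W j W' hp hq ht
        have b1 := tl2 j W' hq ht
        rw [pth_inr, List.length_cons] at ht
        rw [pth_inl, pth_inr] at hp
        rw [← hp] at b1 ht
        have b2 := hd_nocost (p' := p + j.1) (q := q) (D := pth r p W) (ax_dr p e)
        omega
      rcases l with e | j <;> rcases l' with e' | j'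
      · have c1 : e = e' := by
          rw [pth_inl, pth_inl] at h1
          exact dr_inj (List.cons.inj h1).1
        subst c1
        have c2 : W1 = W2 := by
          refine ih W2 p q ?_ ?_ ?_ ?_ (tl1 e W1 h3 h5) (tl1 e W2 h4 h6)
          · rw [pth_inl, pth_inl] at h1
            exact (List.cons.inj h1).2
          · rwa [tau_inl, tau_inl] at h2
          · rwa [fst_inl] at h3
          · rwa [fst_inl] at h4
        rw [c2]
      · exact (mix e W1 j' W2 h1 h4 h6).elim
      · exact (mix e' W2 j W1 h1.symm h3 h5).elim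
      · rw [tau_inr, tau_inr] at h2
        have c1 : j = j' := Subtype.ext (List.cons.inj h2).1
        subst c1
        have c2 : W1 = W2 := by
          refine ih W2 (p + j.1) q ?_ (List.cons.inj h2).2 ?_ ?_ (tl2 j W1 h3 h5) (tl2 j W2 h4 h6)
          · rwa [pth_inr, pth_inr] at h1
          · rwa [fst_inr, ← add_assoc] at h3
          · rwa [fst_inr, ← add_assoc] at h4
        rw [c2]

/-! ### words on one axis -/

theorem pth_append (W1 : List (Lt r)) : ∀ (W2 : List (Lt r)) (p : ZMod (2 * r)),
    pth r p (W1 ++ W2) = pth r p W1 ++ pth r (p + fst r W1) W2 := by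
  induction W1 with
  | nil => intro W2 p; simp [pth, fst]
  | cons l W1 ih =>
    intro W2 p
    rcases l with e | j
    · rw [List.cons_append, pth_inl, pth_inl, ih, fst_inl, List.cons_append]
    · rw [List.cons_append, pth_inr, pth_inr, ih, fst_inr, add_assoc]

omit [NeZero r] in
theorem fst_append (W1 W2 : List (Lt r)) : fst r (W1 ++ W2) = fst r W1 + fst r W2 := by
  simp [fst]

omit [NeZero r] in
theorem fst_replicate (k : ℕ) (e : Bool) : fst r (List.replicate k (Sum.inl e)) = 0 := by
  induction k with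
  | zero => rfl
  | succ k ih => rw [List.replicate_succ, fst_inl, ih]

omit [NeZero r] in
theorem pth_replicate (p : ZMod (2 * r)) (k : ℕ) (e : Bool) :
    pth r p (List.replicate k (Sum.inl e)) = List.replicate k (dr r p e) := by
  induction k with
  | zero => rfl
  | succ k ih => rw [List.replicate_succ, pth_inl, ih, List.replicate_succ]

theorem b_ax {x y : ZMod (2 * r)} (hx : ax r 0 x) (hy : ax r 0 y) : b r (y - x) = 0 := by
  have h0 : b r (0 : ZMod (2 * r)) = 0 := by simp [b, bt]
  have hr : b r ((r : ZMod (2 * r))) = 0 := by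
    have hr0 : 0 < r := Nat.pos_of_ne_zero (NeZero.ne r)
    have : ((r : ZMod (2 * r))).val = r := by
      rw [ZMod.val_natCast, Nat.mod_eq_of_lt (by omega)]
    simp [b, bt, this]
  rcases hx with hx | hx <;> rcases hy with hy | hy
  · rw [hx, hy, sub_zero, h0]
  · rw [hx, hy, zero_add, sub_zero, hr]
  · rw [hx, hy, zero_add]
    have : (0 : ZMod (2 * r)) - (r : ZMod (2 * r)) = (r : ZMod (2 * r)) := by
      rw [sub_eq_iff_eq_add, two_r]
    rw [this, hr]
  · rw [hx, hy, sub_self, h0]

theorem Z_ax {D : List (ZMod (2 * r))} (h : ∀ x ∈ D, ax r 0 x) : Z r D = 0 := by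
  induction D with
  | nil => rfl
  | cons x D ih =>
    have h1 : Z r (x :: D) = (D.map (fun y => b r (y - x))).sum + Z r D := rfl
    rw [h1, ih (fun y hy => h y (List.mem_cons_of_mem _ hy)), add_zero]
    apply List.sum_eq_zero
    intro z hz
    obtain ⟨y, hy, rfl⟩ := List.mem_map.1 hz
    exact b_ax (h x (by simp)) (h y (List.mem_cons_of_mem _ hy))

/-- the shortest word on the axis of `0` -/
def can (r : ℕ) (z : ℤ) : List (Lt r) := List.replicate z.natAbs (Sum.inl (decide (0 ≤ z)))

theorem can_length (z : ℤ) : (can r z).length = z.natAbs := by simp [can]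

theorem can_fst (z : ℤ) : fst r (can r z) = 0 := fst_replicate _ _

theorem can_pth_ax (z : ℤ) : ∀ x ∈ pth r 0 (can r z), ax r 0 x := by
  intro x hx
  rw [can, pth_replicate] at hx
  rw [(List.mem_replicate.1 hx).2]
  exact ax_dr 0 _

theorem can_wt (z : ℤ) : wt r (pth r 0 (can r z)) 0 = z := by
  rw [can, pth_replicate]
  unfold wt
  rw [List.count_replicate, List.count_replicate]
  by_cases hz : 0 ≤ z
  · have h1 : dr r (0 : ZMod (2 * r)) (decide (0 ≤ z)) = 0 := by
      simp [dr, hz]
    rw [h1]
    have h2 : ¬ ((0 : ZMod (2 * r)) = 0 + (r : ZMod (2 * r))) := fun h => add_r_ne 0 h.symm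
    simp only [beq_self_eq_true, if_true, beq_iff_eq, h2, if_false]
    omega
  · have h1 : dr r (0 : ZMod (2 * r)) (decide (0 ≤ z)) = 0 + (r : ZMod (2 * r)) := by
      simp [dr, hz]
    rw [h1]
    have h2 : ¬ (0 + (r : ZMod (2 * r)) = (0 : ZMod (2 * r))) := fun h => add_r_ne 0 h
    simp only [beq_self_eq_true, if_true, beq_iff_eq, h2, if_false]
    omega

/-- words on the axis of `0` have the same end point when the weights at `0` agree -/
theorem eqw_ax {D D' : List (ZMod (2 * r))} (h : ∀ x ∈ D, ax r 0 x) (h' : ∀ x ∈ D', ax r 0 x)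
    (hw : wt r D 0 = wt r D' 0) : Eqw r D D' := by
  intro x
  by_cases hx : ax r 0 x
  · rcases hx with hx | hx
    · rw [hx]; exact hw
    · rw [hx]
      unfold wt at hw ⊢
      rw [add_r_r]
      linarith
  · have h1 : ¬ ax r 0 (x + (r : ZMod (2 * r))) := fun h2 => hx (ax_trans h2 (ax_symm (Or.inr rfl)))
    unfold wt
    rw [List.count_eq_zero.2 (fun h2 => hx (h x h2)), List.count_eq_zero.2 (fun h2 => hx (h' x h2)),
      List.count_eq_zero.2 (fun h2 => h1 (h _ h2)), List.count_eq_zero.2 (fun h2 => h1 (h' _ h2))]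

theorem eqw_can {D : List (ZMod (2 * r))} (h : ∀ x ∈ D, ax r 0 x) :
    Eqw r D (pth r 0 (can r (wt r D 0))) :=
  eqw_ax h (can_pth_ax _) (can_wt _).symm

omit [NeZero r] in
theorem eqw_trans {D D' D'' : List (ZMod (2 * r))} (h : Eqw r D D') (h' : Eqw r D' D'') :
    Eqw r D D'' := fun x => (h x).trans (h' x)

omit [NeZero r] in
theorem eqw_symm {D D' : List (ZMod (2 * r))} (h : Eqw r D D') : Eqw r D' D := fun x => (h x).symm

/-- length in terms of counts -/
theorem length_count2 (D : List (ZMod (2 * r))) :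
    D.count 0 + D.count (0 + (r : ZMod (2 * r))) ≤ D.length ∧
    ((∀ x ∈ D, ax r 0 x) → D.count 0 + D.count (0 + (r : ZMod (2 * r))) = D.length) ∧
    ((¬ ∀ x ∈ D, ax r 0 x) → D.count 0 + D.count (0 + (r : ZMod (2 * r))) + 1 ≤ D.length) := by
  have h0 : (0 : ZMod (2 * r)) ≠ 0 + (r : ZMod (2 * r)) := fun h => add_r_ne 0 h.symm
  induction D with
  | nil => simp
  | cons x D ih =>
    obtain ⟨h1, h2, h3⟩ := ih
    rw [List.count_cons, List.count_cons, List.length_cons]
    simp only [beq_iff_eq]
    by_cases hx : ax r 0 x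
    · have hs : (if x = 0 then 1 else 0) + (if x = 0 + (r : ZMod (2 * r)) then 1 else 0) = 1 := by
        rcases hx with hx | hx
        · rw [if_pos hx, if_neg (by rw [hx]; exact h0)]
        · rw [if_neg (by rw [hx]; exact h0.symm), if_pos hx]
      refine ⟨by omega, fun h => ?_, fun h => ?_⟩
      · have := h2 (fun y hy => h y (List.mem_cons_of_mem _ hy))
        omega
      · have : ¬ ∀ x ∈ D, ax r 0 x := by
          intro h'
          apply h
          intro y hy
          rcases List.mem_cons.1 hy with h'' | h''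
          · rw [h'']; exact hx
          · exact h' y h''
        have := h3 this
        omega
    · have hs1 : (if x = 0 then 1 else 0) = 0 := if_neg (fun h => hx (Or.inl h))
      have hs2 : (if x = 0 + (r : ZMod (2 * r)) then 1 else 0) = 0 := if_neg (fun h => hx (Or.inr h))
      refine ⟨by omega, fun h => absurd (h x (by simp)) hx, fun _ => by omega⟩

theorem abs_wt_le (D : List (ZMod (2 * r))) : (wt r D 0).natAbs ≤ D.length ∧
    ((¬ ∀ x ∈ D, ax r 0 x) → (wt r D 0).natAbs + 1 ≤ D.length) := by
  obtain ⟨h1, _, h3⟩ := length_count2 D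
  unfold wt
  refine ⟨by omega, fun h => ?_⟩
  have := h3 h
  omega

theorem tau_ne_nil {W : List (Lt r)} (h : fst r W ≠ 0) : 1 ≤ (tau r W).length := by
  by_contra h'
  apply h
  apply fst_of_tau_nil
  exact List.length_eq_zero_iff.1 (by omega)

theorem tau_one (j : ZMod (2 * r)) (W : List (Lt r)) (h : tau r W = [j]) :
    ∃ (W1 W2 : List (Lt r)) (hj : j ≠ 0), W = W1 ++ Sum.inr ⟨j, hj⟩ :: W2 ∧ tau r W1 = [] ∧
      tau r W2 = [] := by
  induction W with
  | nil => exact absurd h (by simp [tau])
  | cons l W ih =>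
    rcases l with e | j'
    · rw [tau_inl] at h
      obtain ⟨W1, W2, hj, h1, h2, h3⟩ := ih h
      refine ⟨Sum.inl e :: W1, W2, hj, ?_, ?_, h3⟩
      · rw [h1]; rfl
      · rw [tau_inl, h2]
    · rw [tau_inr] at h
      have h1 : j'.1 = j := (List.cons.inj h).1
      have h2 : tau r W = [] := (List.cons.inj h).2
      subst h1
      exact ⟨[], W, j'.2, rfl, rfl, h2⟩

theorem const_word (W : List (Lt r)) (p x : ZMod (2 * r)) (e : Bool) (he : dr r p e = x)
    (h : tau r W = []) (hx : ∀ y ∈ pth r p W, y = x) : W = List.replicate W.length (Sum.inl e) := by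
  induction W with
  | nil => rfl
  | cons l W ih =>
    rcases l with e' | j
    · rw [pth_inl] at hx
      have h1 : dr r p e' = x := hx _ (by simp)
      have h2 : e' = e := dr_inj (h1.trans he.symm)
      rw [tau_inl] at h
      have h3 := ih h (fun y hy => hx y (List.mem_cons_of_mem _ hy))
      rw [List.length_cons, List.replicate_succ, ← h3, h2]
    · rw [tau_inr] at h
      exact absurd h (by simp)

/-- equality of elements from paths -/
theorem geoW_le {W : List (Lt r)} (hW : GeoW r W) {D' : List (ZMod (2 * r))}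
    (h1 : Eqw r (pth r 0 W) D') (h2 : Z r (pth r 0 W) = Z r D') (hb : ¬ Bad r 0 (fst r W) D') :
    W.length ≤ cost r 0 (fst r W) D' := by
  obtain ⟨W', a1, a2, a3⟩ := upper D' 0 (fst r W) hb
  rw [← a3]
  apply hW
  refine ⟨by rw [a1]; exact h1, by rw [a1]; exact h2, ?_⟩
  rw [← a2, zero_add]

theorem geoW_le_ax {W : List (Lt r)} (hW : GeoW r W) (hf : fst r W = (r : ZMod (2 * r)))
    {D' : List (ZMod (2 * r))} (h1 : Eqw r (pth r 0 W) D') (h2 : Z r (pth r 0 W) = Z r D')
    (hD : ∀ x ∈ D', ax r 0 x) : W.length ≤ (wt r D' 0).natAbs + 1 := by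
  set W' : List (Lt r) := can r (wt r D' 0) ++ [Sum.inr ⟨(r : ZMod (2 * r)), r_ne_zero⟩] with hW'
  have hp : pth r 0 W' = pth r 0 (can r (wt r D' 0)) := by
    rw [hW', pth_append, can_fst]
    simp [pth]
  have hlen : W'.length = (wt r D' 0).natAbs + 1 := by
    rw [hW', List.length_append, can_length]
    rfl
  rw [← hlen]
  apply hW
  refine ⟨?_, ?_, ?_⟩
  · rw [hp]
    exact eqw_trans h1 (eqw_can hD)
  · rw [hp, h2, Z_ax hD, Z_ax (can_pth_ax _)]
  · rw [hf, hW', fst_append, can_fst, fst_inr, fst_nil]
    simp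

/-- the exceptional words of the group -/
def bw (r : ℕ) [NeZero r] (i k : ℕ) (e : Bool) : List (Lt r) :=
  List.replicate i (Sum.inl e) ++
    Sum.inr ⟨(r : ZMod (2 * r)), r_ne_zero⟩ :: List.replicate k (Sum.inl (!e))

theorem geoW_bad {W : List (Lt r)} (hW : GeoW r W) (hb : Bad r 0 (fst r W) (pth r 0 W)) :
    ∃ i k e, W = bw r i k e := by
  obtain ⟨hne, hax, hf⟩ := hb
  rw [zero_add] at hf
  have h1 := geoW_le_ax hW hf (fun x => rfl) rfl hax
  have h2 := length_eq W 0
  obtain ⟨_, h3, _⟩ := length_count2 (pth r 0 W)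
  have h4 := h3 hax
  have h5 : 1 ≤ (tau r W).length := tau_ne_nil (by rw [hf]; exact r_ne_zero)
  set a := (pth r 0 W).count 0 with ha
  set c := (pth r 0 W).count (0 + (r : ZMod (2 * r))) with hc
  have h6 : wt r (pth r 0 W) 0 = (a : ℤ) - c := rfl
  rw [h6] at h1
  have h7 : (tau r W).length = 1 := by omega
  have h8 : a = 0 ∨ c = 0 := by omega
  obtain ⟨j, hj⟩ := List.length_eq_one_iff.1 h7
  have hjr : j = (r : ZMod (2 * r)) := by
    rw [← hf, fst_eq_tau_sum, hj]
    simp
  subst hjr
  obtain ⟨W1, W2, hj0, e1, e2, e3⟩ := tau_one _ W hj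
  have hp : pth r 0 W = pth r 0 W1 ++ pth r (0 + (r : ZMod (2 * r))) W2 := by
    conv_lhs => rw [e1]
    rw [pth_append, fst_of_tau_nil e2, pth_inr]
    simp
  rcases h8 with h8 | h8
  · have hx : ∀ y ∈ pth r 0 W, y = 0 + (r : ZMod (2 * r)) := by
      intro y hy
      rcases hax y hy with h9 | h9
      · exfalso
        rw [h9] at hy
        exact (List.count_pos_iff.2 hy).ne' h8
      · exact h9
    have w1 := const_word W1 0 (0 + (r : ZMod (2 * r))) false rfl e2
      (fun y hy => hx y (by rw [hp]; exact List.mem_append_left _ hy))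
    have w2 := const_word W2 (0 + (r : ZMod (2 * r))) (0 + (r : ZMod (2 * r))) true rfl e3
      (fun y hy => hx y (by rw [hp]; exact List.mem_append_right _ hy))
    refine ⟨W1.length, W2.length, false, ?_⟩
    rw [bw]
    conv_lhs => rw [e1, w1, w2]
    rfl
  · have hx : ∀ y ∈ pth r 0 W, y = 0 := by
      intro y hy
      rcases hax y hy with h9 | h9
      · exact h9
      · exfalso
        rw [h9] at hy
        exact (List.count_pos_iff.2 hy).ne' h8
    have w1 := const_word W1 0 0 true rfl e2
      (fun y hy => hx y (by rw [hp]; exact List.mem_append_left _ hy))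
    have w2 := const_word W2 (0 + (r : ZMod (2 * r))) 0 false (add_r_r 0) e3
      (fun y hy => hx y (by rw [hp]; exact List.mem_append_right _ hy))
    refine ⟨W1.length, W2.length, true, ?_⟩
    rw [bw]
    conv_lhs => rw [e1, w1, w2]
    rfl

theorem geoW_good {W : List (Lt r)} (hW : GeoW r W) (hb : ¬ Bad r 0 (fst r W) (pth r 0 W)) :
    W.length = cost r 0 (fst r W) (pth r 0 W) ∧ Geo r 0 (fst r W) (pth r 0 W) := by
  have h0 : W.length = cost r 0 (fst r W) (pth r 0 W) :=
    le_antisymm (geoW_le hW (fun x => rfl) rfl hb) (lower W 0 _ (zero_add _))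
  refine ⟨h0, ?_⟩
  intro D' hD' hZ
  by_cases hb' : Bad r 0 (fst r W) D'
  · obtain ⟨hne', hax', hf'⟩ := hb'
    have hf : fst r W = (r : ZMod (2 * r)) := by rw [hf', zero_add]
    have h1 := geoW_le_ax hW hf hD' hZ.symm hax'
    rw [← hD' 0] at h1
    by_cases hn : pth r 0 W = []
    · rw [hn, cost_nil]
      have : 1 ≤ D'.length := by
        rcases D' with _ | ⟨x, D'⟩
        · exact absurd rfl hne'
        · simp
      have h2 : D'.length ≤ cost r 0 (fst r W) D' := by
        rcases D' with _ | ⟨x, D'⟩
        · exact absurd rfl hne'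
        · rw [cost_cons]; omega
      split_ifs <;> omega
    · exfalso
      have hax : ¬ ∀ x ∈ pth r 0 W, ax r 0 x := fun h => hb ⟨hn, h, hf'⟩
      have h2 := (abs_wt_le (pth r 0 W)).2 hax
      have h3 := length_eq W 0
      have h5 : 1 ≤ (tau r W).length := tau_ne_nil (by rw [hf]; exact r_ne_zero)
      omega
  · rw [← h0]
    exact geoW_le hW hD' hZ.symm hb'

theorem length_le_cost (p q : ZMod (2 * r)) (D : List (ZMod (2 * r))) : D.length ≤ cost r p q D := by
  rcases D with _ | ⟨x, D⟩
  · simp
  · rw [cost_cons]; omega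

theorem geoW_of_tight {W : List (Lt r)} {j : ZMod (2 * r)} (hf : fst r W = j)
    (hG : Geo r 0 j (pth r 0 W)) (ht : W.length = cost r 0 j (pth r 0 W)) : GeoW r W := by
  intro W' h
  obtain ⟨h1, h2, h3⟩ := h
  rw [ht]
  refine (hG (pth r 0 W') h1 h2.symm).trans (lower W' 0 j ?_)
  rw [zero_add, ← h3, hf]

theorem part1 (n : ℕ) (j : ZMod (2 * r)) (D : List (ZMod (2 * r))) (hc : cost r 0 j D ≤ n)
    (hG : Geo r 0 j D) : ∃ W : List (Lt r), (W.length ≤ n ∧ GeoW r W) ∧ pth r 0 W = D := by
  by_cases hb : Bad r 0 j D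
  · obtain ⟨hne, hax, hj⟩ := hb
    have hb0 : ¬ Bad r 0 0 D := fun h => add_r_ne 0 h.2.2.symm
    obtain ⟨W, a1, a2, a3⟩ := upper D 0 0 hb0
    rw [zero_add] at a2
    -- comparison of the two costs
    have hcc : ∀ D' : List (ZMod (2 * r)), D' ≠ [] → cost r 0 0 D' = cost r 0 j D' := by
      intro D' hD'
      rcases D' with _ | ⟨x, D'⟩
      · exact absurd rfl hD'
      · rw [cost_cons, cost_cons]
        have : tlc r 0 (x :: D') = tlc r j (x :: D') := by
          unfold tlc
          rcases (x :: D').getLast? with _ | y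
          · rfl
          · have h0j : ax r 0 j := Or.inr hj
            by_cases hy : ax r 0 y
            · simp only [if_pos hy, if_pos ((ax_left h0j).1 hy)]
            · simp only [if_neg hy, if_neg (fun h => hy ((ax_left h0j).2 h))]
        rw [this]
    have hGe : Geo r 0 0 D := by
      intro D' h1 h2
      by_cases hn : D' = []
      · exfalso
        subst hn
        have h3 := hG [] h1 h2
        rw [cost_nil] at h3
        have h4 : wt r D 0 = 0 := by rw [h1 0]; simp [wt]
        obtain ⟨_, h5, _⟩ := length_count2 D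
        have h6 := h5 hax
        have h7 := length_le_cost 0 j D
        have h8 : 1 ≤ D.length := by
          rcases D with _ | ⟨x, D'⟩
          · exact absurd rfl hne
          · simp
        unfold wt at h4
        split_ifs at h3 <;> omega
      · rw [hcc D hne, hcc D' hn]
        exact hG D' h1 h2
    refine ⟨W, ⟨?_, ?_⟩, a1⟩
    · rw [a3, hcc D hne]
      exact hc
    · exact geoW_of_tight a2 (by rw [a1]; exact hGe) (by rw [a1]; exact a3)
  · obtain ⟨W, a1, a2, a3⟩ := upper D 0 j hb
    rw [zero_add] at a2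
    refine ⟨W, ⟨by rw [a3]; exact hc, ?_⟩, a1⟩
    exact geoW_of_tight a2 (by rw [a1]; exact hG) (by rw [a1]; exact a3)

/-! ### geodesics `0^i 1^k` -/

theorem ne_facts (hr : 2 ≤ r) : (1 : ZMod (2 * r)) ≠ 0 ∧ ¬ ax r 0 (1 : ZMod (2 * r)) := by
  have h1 : (1 : ZMod (2 * r)).val = 1 := by
    have : ((1 : ℕ) : ZMod (2 * r)).val = 1 := by
      rw [ZMod.val_natCast, Nat.mod_eq_of_lt (by omega)]
    simpa using this
  have h2 : ((r : ZMod (2 * r))).val = r := by
    rw [ZMod.val_natCast, Nat.mod_eq_of_lt (by omega)]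
  have h3 : (1 : ZMod (2 * r)) ≠ 0 := by
    intro h
    rw [h, ZMod.val_zero] at h1
    omega
  refine ⟨h3, ?_⟩
  rintro (h | h)
  · exact h3 h
  · rw [zero_add] at h
    rw [h, h2] at h1
    omega

theorem length_ge_four (hr : 2 ≤ r) (D : List (ZMod (2 * r))) :
    D.count 0 + D.count (0 + (r : ZMod (2 * r))) + D.count 1 + D.count (1 + (r : ZMod (2 * r))) ≤
      D.length := by
  obtain ⟨h10, hax⟩ := ne_facts hr
  have h0 : (0 : ZMod (2 * r)) ≠ 0 + (r : ZMod (2 * r)) := fun h => add_r_ne 0 h.symm
  have h1 : (1 : ZMod (2 * r)) ≠ 1 + (r : ZMod (2 * r)) := fun h => add_r_ne 1 h.symm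
  have h2 : (0 : ZMod (2 * r)) ≠ 1 + (r : ZMod (2 * r)) := by
    intro h
    exact hax (ax_symm (Or.inr h))
  have h3 : (1 : ZMod (2 * r)) ≠ 0 + (r : ZMod (2 * r)) := fun h => hax (Or.inr h)
  have h4 : (0 + (r : ZMod (2 * r))) ≠ 1 + (r : ZMod (2 * r)) := by
    intro h
    exact h10 (add_right_cancel h).symm
  induction D with
  | nil => simp
  | cons x D ih =>
    rw [List.count_cons, List.count_cons, List.count_cons, List.count_cons, List.length_cons]
    simp only [beq_iff_eq]
    by_cases c1 : x = 0
    · rw [if_pos c1, if_neg (by rw [c1]; exact h0), if_neg (by rw [c1]; exact h10.symm),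
        if_neg (by rw [c1]; exact h2)]
      omega
    · by_cases c2 : x = 0 + (r : ZMod (2 * r))
      · rw [if_neg c1, if_pos c2, if_neg (by rw [c2]; exact h3.symm), if_neg (by rw [c2]; exact h4)]
        omega
      · by_cases c3 : x = 1
        · rw [if_neg c1, if_neg c2, if_pos c3, if_neg (by rw [c3]; exact h1)]
          omega
        · rw [if_neg c1, if_neg c2, if_neg c3]
          split_ifs <;> omega

theorem geo01 (hr : 2 ≤ r) (i k : ℕ) :
    Geo r 0 1 (List.replicate i (0 : ZMod (2 * r)) ++ List.replicate k (1 : ZMod (2 * r))) := by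
  obtain ⟨h10, hax⟩ := ne_facts hr
  have h0 : (0 : ZMod (2 * r)) ≠ 0 + (r : ZMod (2 * r)) := fun h => add_r_ne 0 h.symm
  have h1 : (1 : ZMod (2 * r)) ≠ 1 + (r : ZMod (2 * r)) := fun h => add_r_ne 1 h.symm
  have h2 : (0 : ZMod (2 * r)) ≠ 1 + (r : ZMod (2 * r)) := by
    intro h
    exact hax (ax_symm (Or.inr h))
  have h3 : (1 : ZMod (2 * r)) ≠ 0 + (r : ZMod (2 * r)) := fun h => hax (Or.inr h)
  -- the cost of the word
  have hc : cost r 0 1 (List.replicate i (0 : ZMod (2 * r)) ++ List.replicate k (1 : ZMod (2 * r))) ≤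
      i + 1 + k := by
    set W : List (Lt r) := List.replicate i (Sum.inl true) ++ Sum.inr ⟨1, h10⟩ ::
      List.replicate k (Sum.inl true) with hW
    have e1 : pth r 0 W =
        List.replicate i (0 : ZMod (2 * r)) ++ List.replicate k (1 : ZMod (2 * r)) := by
      rw [hW, pth_append, pth_replicate, fst_replicate, pth_inr, pth_replicate]
      simp [dr]
    have e2 : fst r W = 1 := by
      rw [hW, fst_append, fst_replicate, fst_inr, fst_replicate]
      simp
    have e3 : W.length = i + 1 + k := by
      rw [hW]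
      simp
      ring
    have := lower W 0 1 (by rw [e2, zero_add])
    rwa [e1, e3] at this
  intro D' hD' _
  refine hc.trans ?_
  have hb : ¬ Bad r 0 1 D' := fun h => h3 h.2.2
  obtain ⟨W', a1, a2, a3⟩ := upper D' 0 1 hb
  rw [← a3, length_eq W' 0, a1]
  rw [zero_add] at a2
  have h5 : 1 ≤ (tau r W').length := tau_ne_nil (by rw [a2]; exact h10)
  have h6 := length_ge_four hr D'
  have w0 := hD' 0
  have w1 := hD' 1
  unfold wt at w0 w1
  simp only [List.count_append, List.count_replicate, beq_iff_eq] at w0 w1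
  have q1 : ¬ ((1 : ZMod (2 * r)) = 0) := h10
  have q2 : ¬ ((0 : ZMod (2 * r)) = 1) := fun h => h10 h.symm
  simp only [if_true, if_neg q1, if_neg q2, if_neg h0, if_neg h3, if_neg h2, if_neg h1] at w0 w1
  push_cast at w0 w1
  omega

/-! ### counting -/

theorem getD_inj {α : Type} (z : α) (l1 : List α) : ∀ (l2 : List α) (K : ℕ),
    (∀ x ∈ l1, x ≠ z) → (∀ x ∈ l2, x ≠ z) → l1.length ≤ K → l2.length ≤ K →
    (∀ i < K, l1.getD i z = l2.getD i z) → l1 = l2 := by
  induction l1 with
  | nil =>
    intro l2 K _ h2 _ h4 h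
    rcases l2 with _ | ⟨y, l2⟩
    · rfl
    · exfalso
      have hK : 0 < K := by
        rw [List.length_cons] at h4
        omega
      have := h 0 hK
      simp only [List.getD_nil, List.getD_cons_zero] at this
      exact h2 y (by simp) this.symm
  | cons x l1 ih =>
    intro l2 K h1 h2 h3 h4 h
    have hK : 0 < K := by
      rw [List.length_cons] at h3
      omega
    rcases l2 with _ | ⟨y, l2⟩
    · exfalso
      have := h 0 hK
      simp only [List.getD_nil, List.getD_cons_zero] at this
      exact h1 x (by simp) this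
    · have e1 : x = y := by
        have := h 0 hK
        simpa using this
      have e2 : l1 = l2 := by
        refine ih l2 (K - 1) (fun u hu => h1 u (List.mem_cons_of_mem _ hu))
          (fun u hu => h2 u (List.mem_cons_of_mem _ hu)) ?_ ?_ ?_
        · rw [List.length_cons] at h3
          omega
        · rw [List.length_cons] at h4
          omega
        · intro i hi
          have := h (i + 1) (by omega)
          simpa using this
      rw [e1, e2]

theorem tau_len {W : List (Lt r)} {j : ZMod (2 * r)} (h : W.length = cost r 0 j (pth r 0 W)) :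
    (tau r W).length ≤ brk r (pth r 0 W) + 2 := by
  have h1 := length_eq W 0
  rcases hD : pth r 0 W with _ | ⟨x, D⟩
  · rw [hD] at h h1
    rw [cost_nil] at h
    simp only [List.length_nil] at h1
    split_ifs at h <;> omega
  · rw [hD] at h h1
    rw [cost_cons, hdc_cons] at h
    have h2 : tlc r j (x :: D) ≤ 1 := by
      unfold tlc
      rcases (x :: D).getLast? with _ | y
      · simp
      · simp only
        split_ifs <;> simp
    split_ifs at h <;> omega

end A2

theorem a2 : StmtA2 := by
  intro r _ hr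
  classical
  have hfl : Finite (Lt r) := inferInstance
  have hfinW : ∀ n, {W : List (Lt r) | W.length ≤ n ∧ GeoW r W}.Finite := fun n =>
    (List.finite_length_le (Lt r) n).subset (fun W h => h.1)
  have hfinD : ∀ (j : ZMod (2 * r)) n, {D : List (ZMod (2 * r)) | D.length ≤ n ∧ Geo r 0 j D}.Finite :=
    fun j n => (List.finite_length_le (ZMod (2 * r)) n).subset (fun W h => h.1)
  refine ⟨fun n j => ?_, fun B hB n => ?_⟩
  · have hs : {D : List (ZMod (2 * r)) | cost r 0 j D ≤ n ∧ Geo r 0 j D} ⊆
        pth r 0 '' {W : List (Lt r) | W.length ≤ n ∧ GeoW r W} := by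
      rintro D ⟨h1, h2⟩
      obtain ⟨W, h3, h4⟩ := A2.part1 n j D h1 h2
      exact ⟨W, h3, h4⟩
    exact (Set.ncard_le_ncard hs ((hfinW n).image _)).trans (Set.ncard_image_le (hfinW n))
  · set T : ZMod (2 * r) → Set (List (Lt r)) := fun j => {W | W.length ≤ n ∧ fst r W = j ∧
      W.length = cost r 0 j (pth r 0 W) ∧ Geo r 0 j (pth r 0 W)} with hT
    set Bd : Set (List (Lt r)) := {W | W.length ≤ n ∧ ∃ i k e, W = A2.bw r i k e} with hBd
    have hTf : ∀ j, (T j).Finite := fun j =>
      (List.finite_length_le (Lt r) n).subset (fun W h => h.1)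
    have hBf : Bd.Finite := (List.finite_length_le (Lt r) n).subset (fun W h => h.1)
    have hsub : {W : List (Lt r) | W.length ≤ n ∧ GeoW r W} ⊆ (⋃ j, T j) ∪ Bd := by
      rintro W ⟨h1, h2⟩
      by_cases hb : A2.Bad r 0 (fst r W) (pth r 0 W)
      · right
        exact ⟨h1, A2.geoW_bad h2 hb⟩
      · left
        obtain ⟨h3, h4⟩ := A2.geoW_good h2 hb
        exact Set.mem_iUnion.2 ⟨fst r W, h1, rfl, h3, h4⟩
    have hTc : ∀ j, (T j).ncard ≤ geoCount r 0 j n * (2 * r) ^ (B + 2) := by
      intro j
      have hcard : (Set.univ : Set (Fin (B + 2) → ZMod (2 * r))).ncard = (2 * r) ^ (B + 2) := by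
        rw [Set.ncard_univ, Nat.card_eq_fintype_card, Fintype.card_fun, ZMod.card, Fintype.card_fin]
      have h1 : geoCount r 0 j n * (2 * r) ^ (B + 2) =
          ({D : List (ZMod (2 * r)) | D.length ≤ n ∧ Geo r 0 j D} ×ˢ
            (Set.univ : Set (Fin (B + 2) → ZMod (2 * r)))).ncard := by
        rw [Set.ncard_prod, hcard]
        rfl
      rw [h1]
      refine Set.ncard_le_ncard_of_injOn
        (fun W => (pth r 0 W, fun i : Fin (B + 2) => (A2.tau r W).getD i.val 0)) ?_ ?_ ?_
      · rintro W ⟨a1, a2, a3, a4⟩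
        refine ⟨⟨?_, a4⟩, Set.mem_univ _⟩
        have := A2.length_eq W 0
        show (pth r 0 W).length ≤ n
        omega
      · rintro W ⟨a1, a2, a3, a4⟩ W' ⟨b1, b2, b3, b4⟩ h
        have e1 : pth r 0 W = pth r 0 W' := congrArg Prod.fst h
        have e2 := congrArg Prod.snd h
        simp only at e2
        have l1 : (A2.tau r W).length ≤ B + 2 := by
          have := A2.tau_len a3
          have := hB j _ a4
          omega
        have l2 : (A2.tau r W').length ≤ B + 2 := by
          have := A2.tau_len b3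
          have := hB j _ b4
          omega
        have e3 : A2.tau r W = A2.tau r W' := by
          refine A2.getD_inj 0 _ _ (B + 2) (A2.tau_ne_zero W) (A2.tau_ne_zero W') l1 l2 ?_
          intro i hi
          exact congrFun e2 ⟨i, hi⟩
        exact A2.tight_inj W W' 0 j e1 e3 (by rw [a2, zero_add]) (by rw [b2, zero_add]) a3 b3
      · exact (hfinD j n).prod Set.finite_univ
    have hBc : Bd.ncard ≤ geoCount r 0 1 n * 2 := by
      have h1 : geoCount r 0 1 n * 2 =
          ({D : List (ZMod (2 * r)) | D.length ≤ n ∧ Geo r 0 1 D} ×ˢ (Set.univ : Set Bool)).ncard := by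
        rw [Set.ncard_prod, Set.ncard_univ, Nat.card_eq_fintype_card, Fintype.card_bool]
        rfl
      rw [h1]
      have hfp : ({D : List (ZMod (2 * r)) | D.length ≤ n ∧ Geo r 0 1 D} ×ˢ
          (Set.univ : Set Bool)).Finite := (hfinD 1 n).prod Set.finite_univ
      have hs : Bd ⊆ (fun P : List (ZMod (2 * r)) × Bool => A2.bw r (P.1.count 0) (P.1.count 1) P.2) ''
          ({D : List (ZMod (2 * r)) | D.length ≤ n ∧ Geo r 0 1 D} ×ˢ (Set.univ : Set Bool)) := by
        rintro W ⟨a1, i, k, e, a2⟩
        obtain ⟨h10, _⟩ := A2.ne_facts hr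
        refine ⟨(List.replicate i (0 : ZMod (2 * r)) ++ List.replicate k (1 : ZMod (2 * r)), e),
          ⟨⟨?_, A2.geo01 hr i k⟩, Set.mem_univ _⟩, ?_⟩
        · rw [a2] at a1
          unfold A2.bw at a1
          simp only [List.length_append, List.length_replicate, List.length_cons] at a1
          show (List.replicate i (0 : ZMod (2 * r)) ++ List.replicate k (1 : ZMod (2 * r))).length ≤ n
          rw [List.length_append, List.length_replicate, List.length_replicate]
          omega
        · have q1 : ¬ ((1 : ZMod (2 * r)) = 0) := h10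
          have q2 : ¬ ((0 : ZMod (2 * r)) = 1) := fun h => h10 h.symm
          simp only [List.count_append, List.count_replicate, beq_iff_eq, if_true, if_neg q1,
            if_neg q2, add_zero, zero_add]
          exact a2.symm
      exact (Set.ncard_le_ncard hs (hfp.image _)).trans (Set.ncard_image_le hfp)
    set sg : ℕ := ∑ j : ZMod (2 * r), geoCount r 0 j n with hS
    have h1 : geoCount r 0 1 n ≤ sg :=
      Finset.single_le_sum (f := fun j : ZMod (2 * r) => geoCount r 0 j n)
        (fun _ _ => Nat.zero_le _) (Finset.mem_univ (1 : ZMod (2 * r)))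
    have h2 : (⋃ j, T j).ncard ≤ sg * (2 * r) ^ (B + 2) := by
      refine (Set.ncard_iUnion_le_of_fintype T).trans ?_
      rw [hS, Finset.sum_mul]
      exact Finset.sum_le_sum fun j _ => hTc j
    have h3 : {W : List (Lt r) | W.length ≤ n ∧ GeoW r W}.ncard ≤
        sg * (2 * r) ^ (B + 2) + sg * 2 := by
      refine (Set.ncard_le_ncard hsub ((Set.finite_iUnion hTf).union hBf)).trans ?_
      refine (Set.ncard_union_le _ _).trans ?_
      exact add_le_add h2 (hBc.trans (Nat.mul_le_mul_right 2 h1))
    refine h3.trans ?_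
    have h4 : 2 ≤ (2 * r) ^ (B + 2) := by
      calc 2 ≤ 2 * r := by omega
        _ = (2 * r) ^ 1 := (pow_one _).symm
        _ ≤ (2 * r) ^ (B + 2) := Nat.pow_le_pow_right (by omega) (by omega)
    have h5 : (2 * r) ^ (B + 2) + 2 ≤ (4 * r) ^ (B + 3) := by
      calc (2 * r) ^ (B + 2) + 2 ≤ (2 * r) ^ (B + 2) * (2 * r) := by nlinarith
        _ = (2 * r) ^ (B + 3) := by ring
        _ ≤ (4 * r) ^ (B + 3) := Nat.pow_le_pow_left (by omega) _
    calc sg * (2 * r) ^ (B + 2) + sg * 2 = ((2 * r) ^ (B + 2) + 2) * sg := by ring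
      _ ≤ (4 * r) ^ (B + 3) * sg := Nat.mul_le_mul_right _ h5

end Pool.Agent.T6.H25.GG
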