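import Pool.Agent.T6.H25.GG.Stmts

set_option autoImplicit false

namespace Pool.Agent.T6.H25.GG

open Finset

namespace ALG

variable {r : ℕ}

lemma bt_zero (r : ℕ) : bt r 0 = 0 := by simp [bt]

lemma b_zero : b r 0 = 0 := by simp [b, bt]

lemma b_cast [NeZero r] (d : ℕ) (hd : d < 2 * r) : b r (d : ZMod (2 * r)) = bt r d := by
  unfold b
  rw [ZMod.val_natCast, Nat.mod_eq_of_lt hd]

lemma b_neg [NeZero r] (k : ZMod (2 * r)) : b r (-k) = - b r k := by
  unfold b bt
  have hr : 0 < r := Nat.pos_of_ne_zero (NeZero.ne r)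
  by_cases hk : k = 0
  · simp [hk]
  · have h1 : (-k).val = 2 * r - k.val := by
      rw [ZMod.neg_val]; simp [hk]
    have h2 : k.val < 2 * r := ZMod.val_lt k
    have h3 : k.val ≠ 0 := by rw [Ne, ZMod.val_eq_zero]; exact hk
    rw [h1]
    by_cases h4 : k.val = r
    · have : 2 * r - k.val = r := by omega
      rw [if_pos (Or.inr this), if_pos (Or.inr h4)]
      ring
    · rcases Nat.lt_or_gt_of_ne h4 with h5 | h5
      · rw [if_neg (by omega), if_neg (by omega), if_neg (by omega), if_pos h5]
      · rw [if_neg (by omega), if_pos (by omega), if_neg (by omega), if_neg (by omega)]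
        ring

lemma b_sub_cast [NeZero r] (i j : ℕ) (h : i ≤ j) (hj : j - i < 2 * r) :
    b r ((j : ZMod (2 * r)) - (i : ZMod (2 * r))) = bt r (j - i) := by
  rw [← Nat.cast_sub h, b_cast _ hj]

/-- crossing form of lists -/
def cr (r : ℕ) (A B : List (ZMod (2 * r))) : ℤ :=
  (A.map (fun x => (B.map (fun y => b r (y - x))).sum)).sum

lemma Z_append (A B : List (ZMod (2 * r))) : Z r (A ++ B) = Z r A + Z r B + cr r A B := by
  induction A with
  | nil => simp [Z, cr]
  | cons x A ih =>
    simp only [List.cons_append, Z, ih, cr, List.map_append, List.sum_append, List.map_cons,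
      List.sum_cons]
    ring

lemma cr_append_left (A A' B : List (ZMod (2 * r))) : cr r (A ++ A') B = cr r A B + cr r A' B := by
  simp [cr, List.map_append, List.sum_append]

lemma cr_append_right (A B B' : List (ZMod (2 * r))) : cr r A (B ++ B') = cr r A B + cr r A B' := by
  simp only [cr, List.map_append, List.sum_append]
  induction A with
  | nil => simp
  | cons x A ih => simp only [List.map_cons, List.sum_cons, ih]; ring

lemma cr_rep_right (A : List (ZMod (2 * r))) (n : ℕ) (y : ZMod (2 * r)) :
    cr r A (List.replicate n y) = n * (A.map (fun x => b r (y - x))).sum := by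
  induction A with
  | nil => simp [cr]
  | cons x A ih =>
    simp only [cr, List.map_cons, List.sum_cons, List.map_replicate, List.sum_replicate] at ih ⊢
    rw [ih]
    simp only [nsmul_eq_mul]
    ring

lemma cr_rep_left (B : List (ZMod (2 * r))) (n : ℕ) (x : ZMod (2 * r)) :
    cr r (List.replicate n x) B = n * (B.map (fun y => b r (y - x))).sum := by
  simp [cr, List.map_replicate, List.sum_replicate]

lemma Z_rep (n : ℕ) (x : ZMod (2 * r)) : Z r (List.replicate n x) = 0 := by
  induction n with
  | zero => simp [Z]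
  | succ n ih => simp [List.replicate_succ, Z, ih, List.map_replicate, b_zero]

/-- initial part of a sorted word -/
def pre (r : ℕ) (c : ZMod (2 * r)) (L : ℕ → ℕ) (k : ℕ) : List (ZMod (2 * r)) :=
  (List.range k).flatMap (fun i => List.replicate (L i) (c + (i : ZMod (2 * r))))

lemma pre_succ (c : ZMod (2 * r)) (L : ℕ → ℕ) (k : ℕ) :
    pre r c L (k + 1) = pre r c L k ++ List.replicate (L k) (c + (k : ZMod (2 * r))) := by
  simp [pre, List.range_succ, List.flatMap_append]

lemma sum_pre (f : ZMod (2 * r) → ℤ) (c : ZMod (2 * r)) (L : ℕ → ℕ) (k : ℕ) :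
    ((pre r c L k).map f).sum = ∑ i ∈ range k, (L i : ℤ) * f (c + (i : ZMod (2 * r))) := by
  induction k with
  | zero => simp [pre]
  | succ k ih =>
    rw [pre_succ, List.map_append, List.sum_append, ih, sum_range_succ]
    simp [List.map_replicate, List.sum_replicate]

lemma Z_pre [NeZero r] (c : ZMod (2 * r)) (L : ℕ → ℕ) (k : ℕ) (hk : k ≤ 2 * r) :
    Z r (pre r c L k) = ∑ j ∈ range k, ∑ i ∈ range j, (L i : ℤ) * L j * bt r (j - i) := by
  induction k with
  | zero => simp [pre, Z]
  | succ k ih =>
    rw [pre_succ, Z_append, Z_rep, ih (by omega), cr_rep_right, sum_pre, sum_range_succ]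
    congr 1
    · ring
    · rw [mul_sum]
      apply sum_congr rfl
      intro i hi
      have hi' : i < k := mem_range.1 hi
      have : (c + (k : ZMod (2 * r))) - (c + (i : ZMod (2 * r))) =
          (k : ZMod (2 * r)) - (i : ZMod (2 * r)) := by ring
      rw [this, b_sub_cast i k hi'.le (by omega)]
      ring

lemma srt_eq_pre (c : ZMod (2 * r)) (L : ℕ → ℕ) : srt r c L = pre r c L (2 * r) := rfl

lemma Z_srt [NeZero r] (c : ZMod (2 * r)) (L : ℕ → ℕ) :
    Z r (srt r c L) = Zs r (fun i => (L i : ℤ)) := by
  rw [srt_eq_pre, Z_pre c L _ le_rfl]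
  rfl

lemma Z_wd [NeZero r] (a c a' : ZMod (2 * r)) (m : ℕ) (L : ℕ → ℕ) (m' : ℕ) :
    Z r (wd r a c a' m L m') =
    Zs r (fun i => (L i : ℤ)) + m * om r a c L - m' * om r a' c L + m * m' * b r (a' - a) := by
  unfold wd
  rw [Z_append, Z_append, Z_rep, Z_rep, Z_srt, cr_rep_left, cr_append_left, cr_rep_left,
    cr_rep_right, srt_eq_pre, sum_pre, sum_pre]
  have h1 : (∑ i ∈ range (2 * r), (L i : ℤ) * b r (a' - (c + (i : ZMod (2 * r))))) = - om r a' c L := by
    unfold om
    rw [← sum_neg_distrib]
    apply sum_congr rfl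
    intro i _
    rw [show a' - (c + (i : ZMod (2 * r))) = -(c + (i : ZMod (2 * r)) - a') by ring, b_neg]
    ring
  rw [h1]
  simp only [List.map_replicate, List.sum_replicate, nsmul_eq_mul]
  unfold om
  ring

/-! the quadratic form -/

/-- symmetric kernel -/
def ker (r x j : ℕ) : ℤ := bt r ((x - j) + (j - x))

lemma ker_symm (x j : ℕ) : ker r x j = ker r j x := by
  unfold ker; rw [add_comm]

lemma sym_sum (n : ℕ) (f : ℕ → ℕ → ℤ) (hs : ∀ x j, f x j = f j x) (h0 : ∀ x, f x x = 0) :
    ∑ j ∈ range n, ∑ x ∈ range n, f x j = 2 * ∑ j ∈ range n, ∑ x ∈ range j, f x j := by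
  induction n with
  | zero => simp
  | succ n ih =>
    rw [sum_range_succ, sum_range_succ (fun j => ∑ x ∈ range j, f x j)]
    have h1 : ∑ j ∈ range n, ∑ x ∈ range (n + 1), f x j =
        ∑ j ∈ range n, ∑ x ∈ range n, f x j + ∑ j ∈ range n, f j n := by
      rw [← sum_add_distrib]
      apply sum_congr rfl
      intro j _
      rw [sum_range_succ, hs n j]
    rw [h1, ih, sum_range_succ (fun x => f x n), h0]
    ring

/-- symmetric bilinear form -/
def S (r : ℕ) (L Y : ℕ → ℤ) : ℤ := ∑ j ∈ range (2 * r), ∑ x ∈ range (2 * r), L x * Y j * ker r x j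

lemma two_Zs (L : ℕ → ℤ) : 2 * Zs r L = S r L L := by
  unfold S Zs
  rw [sym_sum (2 * r) (fun x j => L x * L j * ker r x j)]
  · congr 1
    apply sum_congr rfl
    intro j _
    apply sum_congr rfl
    intro i hi
    have hi' : i < j := mem_range.1 hi
    unfold ker
    rw [show i - j + (j - i) = j - i by omega]
  · intro x j
    rw [ker_symm]; ring
  · intro x
    simp [ker, bt_zero]

lemma S_eq (L Y : ℕ → ℤ) :
    S r L Y = ∑ j ∈ range (2 * r), Y j * ∑ x ∈ range (2 * r), L x * ker r x j := by
  unfold S
  apply sum_congr rfl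
  intro j _
  rw [mul_sum]
  apply sum_congr rfl
  intro x _
  ring

lemma S_symm (L Y : ℕ → ℤ) : S r L Y = S r Y L := by
  unfold S
  rw [sum_comm]
  apply sum_congr rfl
  intro j _
  apply sum_congr rfl
  intro x _
  rw [ker_symm]; ring

lemma S_add_left (L L' Y : ℕ → ℤ) : S r (fun x => L x + L' x) Y = S r L Y + S r L' Y := by
  unfold S
  rw [← sum_add_distrib]
  apply sum_congr rfl
  intro j _
  rw [← sum_add_distrib]
  apply sum_congr rfl
  intro x _
  ring

lemma ker_pair (i x : ℕ) (hi : i < r) (hx : x < 2 * r) :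
    ker r x i + ker r x (i + r) = if i < x ∧ x < i + r then 2 else 0 := by
  unfold ker bt
  rcases lt_trichotomy x i with h | h | h
  · have e1 : x - i + (i - x) = i - x := by omega
    have e2 : x - (i + r) + (i + r - x) = i + r - x := by omega
    rw [e1, e2]
    rw [if_neg (by omega), if_pos (by omega), if_neg (by omega), if_neg (by omega), if_neg (by omega)]
    ring
  · subst h
    have e1 : x - x + (x - x) = 0 := by omega
    have e2 : x - (x + r) + (x + r - x) = r := by omega
    rw [e1, e2]
    simp
  · rcases lt_trichotomy x (i + r) with h' | h' | h'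
    · have e1 : x - i + (i - x) = x - i := by omega
      have e2 : x - (i + r) + (i + r - x) = i + r - x := by omega
      rw [e1, e2]
      rw [if_neg (by omega), if_pos (by omega), if_neg (by omega), if_pos (by omega), if_pos (by omega)]
      ring
    · subst h'
      have e1 : i + r - i + (i - (i + r)) = r := by omega
      have e2 : i + r - (i + r) + (i + r - (i + r)) = 0 := by omega
      rw [e1, e2]
      simp
    · have e1 : x - i + (i - x) = x - i := by omega
      have e2 : x - (i + r) + (i + r - x) = x - (i + r) := by omega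
      rw [e1, e2]
      rw [if_neg (by omega), if_neg (by omega), if_neg (by omega), if_pos (by omega), if_neg (by omega)]
      ring

lemma sum_ioo (L : ℕ → ℤ) (i : ℕ) (hi : i < r) :
    ∑ x ∈ range (2 * r), (if i < x ∧ x < i + r then L x else 0) = ∑ x ∈ Ioo i (i + r), L x := by
  rw [← sum_filter]
  apply sum_congr _ (fun _ _ => rfl)
  ext x
  simp only [mem_filter, mem_range, mem_Ioo]
  omega

lemma S_pair (L y : ℕ → ℤ) :
    S r L (fun x => y (if x < r then x else x - r)) =
      2 * ∑ i ∈ range r, (∑ x ∈ Ioo i (i + r), L x) * y i := by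
  rw [S_eq, two_mul r, Finset.sum_range_add, ← two_mul r, ← sum_add_distrib, mul_sum]
  apply sum_congr rfl
  intro i hi
  have hi' : i < r := mem_range.1 hi
  rw [if_pos hi', if_neg (by omega : ¬ (r + i < r)), show r + i - r = i by omega, ← mul_add,
    ← sum_add_distrib, ← sum_ioo L i hi']
  have : ∀ x ∈ range (2 * r), L x * ker r x i + L x * ker r x (r + i) =
      2 * (if i < x ∧ x < i + r then L x else 0) := by
    intro x hx
    rw [add_comm r i, ← mul_add, ker_pair i x hi' (mem_range.1 hx)]
    split_ifs <;> ring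
  rw [sum_congr rfl this, ← mul_sum]
  ring

lemma G_pair (y : ℕ → ℤ) (i : ℕ) (hi : i < r) :
    ∑ x ∈ Ioo i (i + r), y (if x < r then x else x - r) = (∑ j ∈ range r, y j) - y i := by
  have h1 : ∑ x ∈ Ioo i (i + r), y (if x < r then x else x - r) =
      ∑ x ∈ range (2 * r), (if i < x ∧ x < i + r then y (if x < r then x else x - r) else 0) :=
    (sum_ioo (fun x => y (if x < r then x else x - r)) i hi).symm
  rw [h1, two_mul r, Finset.sum_range_add, ← sum_add_distrib]
  have h2 : ∀ j ∈ range r, ((if i < j ∧ j < i + r then y (if j < r then j else j - r) else 0) +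
      (if i < r + j ∧ r + j < i + r then y (if r + j < r then r + j else r + j - r) else 0)) =
      y j - (if j = i then y i else 0) := by
    intro j hj
    have hj' : j < r := mem_range.1 hj
    rcases lt_trichotomy j i with h | h | h
    · rw [if_neg (by omega), if_pos (by omega), if_neg (by omega), if_neg (by omega),
        show r + j - r = j by omega]
      ring
    · subst h
      rw [if_neg (by omega), if_neg (by omega), if_pos rfl]
      ring
    · rw [if_pos (by omega), if_pos (by omega), if_neg (by omega), if_neg (by omega)]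
      ring
  rw [sum_congr rfl h2, sum_sub_distrib, sum_ite_eq' (range r) i, if_pos (mem_range.2 hi)]

lemma Zs_move (L y : ℕ → ℤ) : Zs r (fun x => L x + y (if x < r then x else x - r)) =
    Zs r L + 2 * ∑ i ∈ range r, (∑ x ∈ Ioo i (i + r), L x) * y i
      + (∑ i ∈ range r, y i) ^ 2 - ∑ i ∈ range r, (y i) ^ 2 := by
  have h1 := two_Zs (r := r) (fun x => L x + y (if x < r then x else x - r))
  have h2 := two_Zs (r := r) L
  rw [S_add_left L (fun x => y (if x < r then x else x - r)),
    S_symm L, S_symm (fun x => y (if x < r then x else x - r)),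
    S_add_left L (fun x => y (if x < r then x else x - r)),
    S_add_left L (fun x => y (if x < r then x else x - r)),
    S_symm (fun x => y (if x < r then x else x - r)) L, S_pair L y, ← h2,
    S_pair (fun x => y (if x < r then x else x - r)) y] at h1
  have h3 : ∑ i ∈ range r, (∑ x ∈ Ioo i (i + r), y (if x < r then x else x - r)) * y i =
      (∑ i ∈ range r, y i) ^ 2 - ∑ i ∈ range r, (y i) ^ 2 := by
    rw [sum_congr rfl (fun i hi => by rw [G_pair y i (mem_range.1 hi)])]
    rw [show (∑ i ∈ range r, y i) ^ 2 = ∑ i ∈ range r, (∑ j ∈ range r, y j) * y i by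
      rw [← mul_sum]; ring, ← sum_sub_distrib]
    apply sum_congr rfl
    intro i _
    ring
  rw [h3] at h1
  linarith

/-! counts -/

lemma count_pre (c : ZMod (2 * r)) (L : ℕ → ℕ) (k : ℕ) (x : ZMod (2 * r)) :
    (pre r c L k).count x = ∑ i ∈ range k, if c + (i : ZMod (2 * r)) = x then L i else 0 := by
  induction k with
  | zero => simp [pre]
  | succ k ih =>
    rw [pre_succ, List.count_append, ih, sum_range_succ, List.count_replicate]
    simp

lemma count_srt [NeZero r] (c : ZMod (2 * r)) (L : ℕ → ℕ) (x : ZMod (2 * r)) :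
    (srt r c L).count x = L (ix r c x) := by
  rw [srt_eq_pre, count_pre, sum_eq_single (ix r c x)]
  · rw [if_pos]
    unfold ix
    rw [ZMod.natCast_zmod_val]; ring
  · intro i hi hne
    rw [if_neg]
    intro h
    apply hne
    unfold ix
    rw [← h, add_sub_cancel_left, ZMod.val_natCast, Nat.mod_eq_of_lt (mem_range.1 hi)]
  · intro h
    exact absurd (mem_range.2 (ZMod.val_lt _)) h

lemma count_wd [NeZero r] (a c a' : ZMod (2 * r)) (m : ℕ) (L : ℕ → ℕ) (m' : ℕ) (x : ZMod (2 * r)) :
    (wd r a c a' m L m').count x =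
    (if x = a then m else 0) + L (ix r c x) + (if x = a' then m' else 0) := by
  unfold wd
  rw [List.count_append, List.count_append, count_srt, List.count_replicate, List.count_replicate]
  have e1 : (if (a == x) = true then m else 0) = (if x = a then m else 0) := by
    by_cases h : x = a
    · subst h; simp
    · have : ¬ a = x := fun h' => h h'.symm
      simp [h, this]
  have e2 : (if (a' == x) = true then m' else 0) = (if x = a' then m' else 0) := by
    by_cases h : x = a'
    · subst h; simp
    · have : ¬ a' = x := fun h' => h h'.symm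
      simp [h, this]
  rw [e1, e2]

lemma length_pre (c : ZMod (2 * r)) (L : ℕ → ℕ) (k : ℕ) :
    (pre r c L k).length = ∑ i ∈ range k, L i := by
  induction k with
  | zero => simp [pre]
  | succ k ih => rw [pre_succ, List.length_append, ih, sum_range_succ, List.length_replicate]

lemma length_wd (a c a' : ZMod (2 * r)) (m : ℕ) (L : ℕ → ℕ) (m' : ℕ) :
    (wd r a c a' m L m').length = tot r m L m' := by
  unfold wd tot
  rw [List.length_append, List.length_append, srt_eq_pre, length_pre, List.length_replicate,
    List.length_replicate]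

lemma om_eq [NeZero r] (a c : ZMod (2 * r)) (L : ℕ → ℕ) :
    om r a c L = Ht r L (ix r c a) - Hf r L (ix r c a) := by
  set y := ix r c a with hy
  have hy2 : y < 2 * r := ZMod.val_lt _
  have ha : a = c + (y : ZMod (2 * r)) := by
    rw [hy]; unfold ix; rw [ZMod.natCast_zmod_val]; ring
  unfold om Ht Hf
  have h1 : ∀ x ∈ range (2 * r), (L x : ℤ) * b r (c + (x : ZMod (2 * r)) - a) =
      (if y < x then (L x : ℤ) * bt r (x - y) else 0) - (if x < y then (L x : ℤ) * bt r (y - x) else 0) := by
    intro x hx
    have hx' := mem_range.1 hx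
    rw [ha, show c + (x : ZMod (2 * r)) - (c + (y : ZMod (2 * r))) =
      (x : ZMod (2 * r)) - (y : ZMod (2 * r)) by ring]
    rcases lt_trichotomy x y with h | h | h
    · rw [if_neg (by omega), if_pos h, ← neg_sub (y : ZMod (2 * r)), b_neg,
        b_sub_cast x y h.le (by omega)]
      ring
    · rw [h, if_neg (lt_irrefl _), sub_self, b_zero]
      ring
    · rw [if_pos h, if_neg (by omega), b_sub_cast y x h.le (by omega)]
      ring
  rw [sum_congr rfl h1, sum_sub_distrib, ← sum_filter, ← sum_filter]
  congr 1
  · apply sum_congr _ (fun _ _ => rfl)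
    ext x
    simp only [mem_filter, mem_range, mem_Ioo]
    omega
  · apply sum_congr _ (fun _ _ => rfl)
    ext x
    simp only [mem_filter, mem_range]
    omega

lemma perm_srt [NeZero r] (c : ZMod (2 * r)) (U : List (ZMod (2 * r))) :
    (srt r c (cnts r c U)).Perm U := by
  rw [List.perm_iff_count]
  intro x
  rw [count_srt]
  unfold cnts
  rw [if_pos (show ix r c x < 2 * r from ZMod.val_lt _)]
  congr 1
  unfold ix
  rw [ZMod.natCast_zmod_val]; ring

end ALG

theorem alg : StmtALG := by
  intro r _
  exact ⟨ALG.Z_srt, ALG.Z_wd, ALG.Zs_move, ALG.count_wd, ALG.length_wd, ALG.om_eq, ALG.perm_srt⟩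

end Pool.Agent.T6.H25.GG
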