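import Pool.Agent.T6.H25.GG.Defs

/-! Module statements of the project MP_b6554e_al (geodesic growth). -/

set_option autoImplicit false

namespace Pool.Agent.T6.H25.GG

open Finset

/-- A: the group. -/
def StmtA : Prop := ∀ (r : ℕ) [NeZero r], 2 ≤ r → ∃ (G : Type) (_ : Group G) (S : Finset G),
  Subgroup.closure (S : Set G) = ⊤ ∧
  (∀ (n : ℕ) (j : ZMod (2 * r)),
    Set.ncard {D : List (ZMod (2 * r)) | cost r 0 j D ≤ n ∧ Geo r 0 j D} ≤ gam G S n) ∧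
  (∀ B : ℕ, (∀ j D, Geo r 0 j D → brk r D ≤ B) →
    ∀ n, gam G S n ≤ (4 * r) ^ (B + 3) * ∑ j : ZMod (2 * r), geoCount r 0 j n)

/-- letters of the group: `inl true = s`, `inl false = s⁻¹`, `inr j = t^j` -/
abbrev Lt (r : ℕ) : Type := Bool ⊕ {j : ZMod (2 * r) // j ≠ 0}

/-- path of a word from the state `p` -/
def pth (r : ℕ) : ZMod (2 * r) → List (Lt r) → List (ZMod (2 * r))
  | _, [] => []
  | p, Sum.inl true :: W => p :: pth r p W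
  | p, Sum.inl false :: W => (p + (r : ZMod (2 * r))) :: pth r p W
  | p, Sum.inr j :: W => pth r (p + j.1) W

/-- final state -/
def fst (r : ℕ) (W : List (Lt r)) : ZMod (2 * r) :=
  (W.map (fun l => Sum.elim (fun _ => (0 : ZMod (2 * r))) (fun j => j.1) l)).sum

/-- the words represent the same group element -/
def SameEl (r : ℕ) (W W' : List (Lt r)) : Prop :=
  Eqw r (pth r 0 W) (pth r 0 W') ∧ Z r (pth r 0 W) = Z r (pth r 0 W') ∧ fst r W = fst r W'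

def GeoW (r : ℕ) (W : List (Lt r)) : Prop := ∀ W', SameEl r W W' → W.length ≤ W'.length

/-- A1: the group exists. -/
def StmtA1 : Prop := ∀ (r : ℕ) [NeZero r], 2 ≤ r → ∃ (G : Type) (_ : Group G) (S : Finset G),
  Subgroup.closure (S : Set G) = ⊤ ∧
  ∀ n : ℕ, gam G S n = Set.ncard {W : List (Lt r) | W.length ≤ n ∧ GeoW r W}

/-- A2: words of the group against paths. -/
def StmtA2 : Prop := ∀ (r : ℕ) [NeZero r], 2 ≤ r →
  (∀ (n : ℕ) (j : ZMod (2 * r)),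
    Set.ncard {D : List (ZMod (2 * r)) | cost r 0 j D ≤ n ∧ Geo r 0 j D} ≤
      Set.ncard {W : List (Lt r) | W.length ≤ n ∧ GeoW r W}) ∧
  (∀ B : ℕ, (∀ j D, Geo r 0 j D → brk r D ≤ B) → ∀ n,
    Set.ncard {W : List (Lt r) | W.length ≤ n ∧ GeoW r W} ≤
      (4 * r) ^ (B + 3) * ∑ j : ZMod (2 * r), geoCount r 0 j n)

/-- B: best cut. -/
def StmtB : Prop := ∀ (r : ℕ) [NeZero r] (D : List (ZMod (2 * r))),
  ∃ c, Z r D ≤ Z r (srt r c (cnts r c D))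

/-- ALG: formulas for sorted words. -/
def StmtALG : Prop := ∀ (r : ℕ) [NeZero r],
  (∀ c (L : ℕ → ℕ), Z r (srt r c L) = Zs r (fun i => (L i : ℤ))) ∧
  (∀ a c a' m (L : ℕ → ℕ) m', Z r (wd r a c a' m L m') =
    Zs r (fun i => (L i : ℤ)) + m * om r a c L - m' * om r a' c L + m * m' * b r (a' - a)) ∧
  (∀ (L y : ℕ → ℤ), Zs r (fun x => L x + y (if x < r then x else x - r)) =
    Zs r L + 2 * ∑ i ∈ range r, (∑ x ∈ Ioo i (i + r), L x) * y i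
      + (∑ i ∈ range r, y i) ^ 2 - ∑ i ∈ range r, (y i) ^ 2) ∧
  (∀ a c a' m (L : ℕ → ℕ) m' x, (wd r a c a' m L m').count x =
    (if x = a then m else 0) + L (ix r c x) + (if x = a' then m' else 0)) ∧
  (∀ a c a' m (L : ℕ → ℕ) m', (wd r a c a' m L m').length = tot r m L m') ∧
  (∀ a c (L : ℕ → ℕ), om r a c L = Ht r L (ix r c a) - Hf r L (ix r c a)) ∧
  (∀ c (U : List (ZMod (2 * r))), (srt r c (cnts r c U)).Perm U)

/-- PAR: parities and elementary identities for `Z`. -/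
def StmtPAR : Prop := ∀ (r : ℕ) [NeZero r],
  (∀ (k : ZMod (2 * r)), b r (-k) = - b r k ∧ b r (k + (r : ZMod (2 * r))) = - b r k) ∧
  (∀ A B : List (ZMod (2 * r)), Z r (A ++ B) = Z r A + Z r B +
    (A.map (fun x => (B.map (fun y => b r (y - x))).sum)).sum) ∧
  (∀ D D' : List (ZMod (2 * r)), D.Perm D' → ∃ k : ℤ, Z r D = Z r D' + 2 * k) ∧
  (∀ D D' : List (ZMod (2 * r)), Eqw r D D' → (∃ k : ℤ, Z r D = Z r D' + 2 * k) ∧
    (∃ k : ℤ, (D.length : ℤ) = D'.length + 2 * k)) ∧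
  (∀ (A B : List (ZMod (2 * r))) x, Z r (A ++ x :: (x + (r : ZMod (2 * r))) :: B) = Z r (A ++ B) ∧
    Eqw r (A ++ x :: (x + (r : ZMod (2 * r))) :: B) (A ++ B))

/-- SYM: the two symmetries. -/
def StmtSYM : Prop := ∀ (r : ℕ) [NeZero r],
  (∀ D : List (ZMod (2 * r)), Z r D.reverse = - Z r D ∧ Z r (D.map (fun x => -x)) = - Z r D) ∧
  (∀ (D : List (ZMod (2 * r))) x, wt r D.reverse x = wt r D x ∧
    wt r (D.map (fun x => -x)) x = wt r D (-x)) ∧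
  (∀ p q (D : List (ZMod (2 * r))),
    cost r (-q) (-p) ((D.map (fun x => -x)).reverse) = cost r p q D ∧
    cost r (-p) (-q) (D.map (fun x => -x)) = cost r p q D) ∧
  (∀ p q (D : List (ZMod (2 * r))), Geo r p q D →
    Geo r (-q) (-p) ((D.map (fun x => -x)).reverse) ∧ Geo r (-p) (-q) (D.map (fun x => -x))) ∧
  (∀ a c a' m (L : ℕ → ℕ) m',
    ((wd r a c a' m L m').map (fun x => -x)).reverse =
      wd r (-a') (-c + 1) (-a) m' (fun x => if x < 2 * r then L (2 * r - 1 - x) else 0) m)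

/-- MV: effect of the elementary moves on `wd`. -/
def StmtMV : Prop := ∀ (r : ℕ) [NeZero r] (a c a' : ZMod (2 * r)) (m : ℕ) (L : ℕ → ℕ) (m' : ℕ),
  -- pair moves
  (∀ (y : ℕ → ℤ) (L' : ℕ → ℕ), (∀ x < 2 * r, (L' x : ℤ) = L x + y (if x < r then x else x - r)) →
    Eqw r (wd r a c a' m L m') (wd r a c a' m L' m') ∧
    (tot r m L' m' : ℤ) = tot r m L m' + 2 * ∑ i ∈ range r, y i ∧
    Z r (wd r a c a' m L' m') = Z r (wd r a c a' m L m') + 2 * ∑ i ∈ range r, Gf r L i * y i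
      + (∑ i ∈ range r, y i) ^ 2 - ∑ i ∈ range r, (y i) ^ 2 ∧
    om r a c L' = om r a c L) ∧
  -- moving `k` letters `a` between the front block and the core
  (∀ (k : ℤ) (m1 : ℕ) (L' : ℕ → ℕ), (m1 : ℤ) = m + k →
    (∀ x < 2 * r, (L' x : ℤ) = L x - (if x = ix r c a then k else 0)) →
    Eqw r (wd r a c a' m L m') (wd r a c a' m1 L' m') ∧ tot r m1 L' m' = tot r m L m' ∧
    Z r (wd r a c a' m1 L' m') = Z r (wd r a c a' m L m') - 2 * k * Hf r L (ix r c a)) ∧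
  -- adding `k` letters to the front block and `k` letters to the opposite direction in the core
  (∀ (k : ℤ) (m1 : ℕ) (L' : ℕ → ℕ), (m1 : ℤ) = m + k →
    (∀ x < 2 * r, (L' x : ℤ) = L x + (if x = ix r c (a + (r : ZMod (2 * r))) then k else 0)) →
    Eqw r (wd r a c a' m L m') (wd r a c a' m1 L' m') ∧
    (tot r m1 L' m' : ℤ) = tot r m L m' + 2 * k ∧
    Z r (wd r a c a' m1 L' m') = Z r (wd r a c a' m L m') + 2 * k * Hf r L (ix r c (a + (r : ZMod (2 * r))))) ∧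
  -- opposite letters at both ends
  (a' = a + (r : ZMod (2 * r)) → ∀ (k : ℤ) (m1 m1' : ℕ), (m1 : ℤ) = m + k → (m1' : ℤ) = m' + k →
    Eqw r (wd r a c a' m L m') (wd r a c a' m1 L m1') ∧
    (tot r m1 L m1' : ℤ) = tot r m L m' + 2 * k ∧
    Z r (wd r a c a' m1 L m1') = Z r (wd r a c a' m L m') + 2 * k * om r a c L) ∧
  -- equal letters at both ends
  (a' = a → ∀ (k : ℤ) (m1 m1' : ℕ), (m1 : ℤ) = m - k → (m1' : ℤ) = m' + k →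
    Eqw r (wd r a c a' m L m') (wd r a c a' m1 L m1') ∧ tot r m1 L m1' = tot r m L m' ∧
    Z r (wd r a c a' m1 L m1') = Z r (wd r a c a' m L m') - 2 * k * om r a c L) ∧
  -- a pair move at the axis `j` changes `Hf` by at most `|k|` off the axis
  (∀ (k : ℤ) (j y : ℕ) (L' : ℕ → ℕ), j < r → y < 2 * r → y ≠ j → y ≠ j + r →
    (∀ x < 2 * r, (L' x : ℤ) = L x + (if x = j ∨ x = j + r then k else 0)) →
    |Hf r L' y - Hf r L y| ≤ |k| ∧ Gf r L' j = Gf r L j)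

/-- CST: cost of a word `a^m, sorted core, a'^{m'}`. -/
def StmtCST : Prop := ∀ (r : ℕ) [NeZero r] (p q a c a' : ZMod (2 * r)) (m : ℕ) (L : ℕ → ℕ) (m' : ℕ),
  cost r p q (wd r a c a' m L m') ≤ tot r m L m' + ((range (2 * r)).filter (fun x => 0 < L x)).card + 1
    + (if ax r p a then 0 else 1) + (if ax r q a' then 0 else 1) ∧
  (∀ x < 2 * r, 0 < L x → (∀ x' < x, L x' = 0) → (x = ix r c a ∨ x = ix r c (a + (r : ZMod (2 * r)))) →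
    cost r p q (wd r a c a' m L m') ≤ tot r m L m' + ((range (2 * r)).filter (fun x => 0 < L x)).card
    + (if ax r p a then 0 else 1) + (if ax r q a' then 0 else 1))

/-- C: realization with few runs. -/
def StmtC : Prop := ∀ (r : ℕ) [NeZero r] (D : List (ZMod (2 * r))) (z : ℤ), 0 ≤ z → z ≤ Z r D →
  (∃ k : ℤ, Z r D = z + 2 * k) →
  ∃ D' : List (ZMod (2 * r)), D'.Perm D ∧ Z r D' = z ∧ chg r D' ≤ D.toFinset.card + 2

/-- D: basic properties of geodesics. -/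
def StmtD : Prop := ∀ (r : ℕ) [NeZero r] (p q : ZMod (2 * r)),
  (∀ D, Geo r p q D → 0 ≤ Z r D → ∀ D', Eqw r D D' → Z r D ≤ Z r D' →
    D.length ≤ D'.length + 2 * r + 4) ∧
  (∀ A B x, ¬ Geo r p q (A ++ x :: (x + (r : ZMod (2 * r))) :: B)) ∧
  (∀ D, Geo r p q D → brk r D = chg r D ∧ chg r D ≤ D.toFinset.card + 4) ∧
  (∃ C : ℕ, ∀ n, geoCount r p q n ≤ C * (n + 1) ^ (2 * r + 6))

/-- E: nine squares with prescribed sum. -/
def StmtE : Prop := ∀ σ N : ℤ, (∃ k : ℤ, N = σ + 2 * k) → σ ^ 2 + 21 ≤ 9 * N →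
  ∃ u : Fin 9 → ℤ, ∑ i, u i = σ ∧ ∑ i, (u i) ^ 2 = N

/-- EL: exact compensation. -/
def StmtEL : Prop := ∀ (r : ℕ) [NeZero r] (p q : ZMod (2 * r)) (D : List (ZMod (2 * r))) (s : ℕ),
  Geo r p q D → 0 ≤ Z r D → 1 ≤ s → D.length ≤ s ^ 2 →
  ∀ (a c a' : ZMod (2 * r)) (m : ℕ) (L : ℕ → ℕ) (m' : ℕ), (∀ x, 2 * r ≤ x → L x = 0) →
  Eqw r D (wd r a c a' m L m') → tot r m L m' ≤ D.length → Z r D ≤ Z r (wd r a c a' m L m') →
  10 ≤ (Lset r s L).card →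
  (∃ L' : ℕ → ℕ, (∀ x, L' x = 0 ↔ L x = 0) ∧ Eqw r D (wd r a c a' m L' m') ∧
      tot r m L' m' = tot r m L m' ∧ Z r (wd r a c a' m L' m') = Z r D) ∨
  (∀ i ∈ Lset r s L, ∀ j ∈ Lset r s L, |Gf r L i - Gf r L j| ≤ 1)

/-- G0 -/
def StmtG0 : Prop := ∀ (r : ℕ) [NeZero r] (s : ℕ) (p q : ZMod (2 * r)) (D : List (ZMod (2 * r)))
  (a a' c : ZMod (2 * r)) (m m' : ℕ) (U : List (ZMod (2 * r))), Dec r s p q D a a' c m m' U →
  Pinned r s m (cnts r c U) m' ∨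
    (OneRun r U ∧ K1 r c a (cnts r c U) ∧ K2 r s (cnts r c U))

/-- G1 -/
def StmtG1 : Prop := ∀ (r : ℕ) [NeZero r] (s : ℕ) (p q : ZMod (2 * r)) (D : List (ZMod (2 * r)))
  (a a' c : ZMod (2 * r)) (m m' : ℕ) (U : List (ZMod (2 * r))), Dec r s p q D a a' c m m' U →
  Pinned r s m (cnts r c U) m' ∨
    (K3 r s c a m (cnts r c U) ∧ K4 r s c a m (cnts r c U))

/-- G2 -/
def StmtG2 : Prop := ∀ (r : ℕ) [NeZero r] (s : ℕ) (p q : ZMod (2 * r)) (D : List (ZMod (2 * r)))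
  (a a' c : ZMod (2 * r)) (m m' : ℕ) (U : List (ZMod (2 * r))), Dec r s p q D a a' c m m' U →
  K5 r s c a a' m (cnts r c U) m' ∧ K6 r s c a a' m (cnts r c U) m'

/-- GS: the statements at the end of the word, by symmetry. -/
def StmtGS : Prop := ∀ (r : ℕ) [NeZero r] (s : ℕ) (p q : ZMod (2 * r)) (D : List (ZMod (2 * r)))
  (a a' c : ZMod (2 * r)) (m m' : ℕ) (U : List (ZMod (2 * r))), Dec r s p q D a a' c m m' U →
  Pinned r s m (cnts r c U) m' ∨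
    (K1' r c a' (cnts r c U) ∧ K3' r s c a' m' (cnts r c U) ∧ K4' r s c a' m' (cnts r c U))

/-- the data sets to be counted -/
def DataC (r s : ℕ) (a a' c : ZMod (2 * r)) : Set (ℕ × (ℕ → ℕ) × ℕ) :=
  {d | (∀ x, 2 * r ≤ x → d.2.1 x = 0) ∧ tot r d.1 d.2.1 d.2.2 ≤ s ^ 2 ∧
    24 ≤ (Lset r s d.2.1).card ∧ Cons r s a a' c d.1 d.2.1 d.2.2}

def DataP (r s : ℕ) : Set (ℕ × (ℕ → ℕ) × ℕ) :=
  {d | (∀ x, 2 * r ≤ x → d.2.1 x = 0) ∧ tot r d.1 d.2.1 d.2.2 ≤ s ^ 2 ∧ Pinned r s d.1 d.2.1 d.2.2}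

/-- H1: fibre lemmas for counting. -/
def StmtH1 : Prop :=
  (∀ (ι : Type) [Fintype ι] [DecidableEq ι] (F : Set (ι → ℤ)) (i : ι) (φ : (ι → ℤ) → ℤ) (D : ℕ),
    F.Finite → (∀ f t, φ (Function.update f i t) = φ f) → (∀ f ∈ F, |f i - φ f| ≤ D) →
    F.ncard ≤ (2 * D + 1) * ((fun f => Function.update f i 0) '' F).ncard) ∧
  (∀ (ι : Type) [Fintype ι] [DecidableEq ι] (F : Set (ι → ℤ)) (u v : ι) (φ : (ι → ℤ) → ℤ) (ε : ℤ)
    (B H : ℕ), u ≠ v → F.Finite → (ε = 1 ∨ ε = -1) →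
    (∀ f t t', φ (Function.update (Function.update f u t) v t') = φ f) →
    (∀ f ∈ F, 0 ≤ f u ∧ f u ≤ B ∧ 0 ≤ f v ∧ f v ≤ B ∧ f u * |ε * f v + φ f| ≤ H) →
    F.ncard ≤ (4 * B + 4 + 2 * H * (Nat.log 2 (B + 1) + 2)) *
      ((fun f => Function.update (Function.update f u 0) v 0) '' F).ncard) ∧
  (∀ (ι : Type) [Fintype ι] [DecidableEq ι] (F : Set (ι → ℤ)) (B : ι → ℕ),
    (∀ f ∈ F, ∀ i, 0 ≤ f i ∧ f i ≤ B i) → F.Finite ∧ F.ncard ≤ ∏ i, (B i + 1))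

/-- H: the main count. `s = N^5`; `N^(15r+5) = s^(3r+1)`, two logarithms are bounded by `N^2`. -/
def StmtH : Prop := ∀ (r : ℕ) [NeZero r] (a a' c : ZMod (2 * r)), ∃ C : ℕ, ∀ N : ℕ, 1 ≤ N →
  (DataC r (N ^ 5) a a' c).Finite ∧ (DataC r (N ^ 5) a a' c).ncard ≤ C * N ^ (15 * r + 7)

/-- I: the pinned count. -/
def StmtI : Prop := ∀ (r : ℕ) [NeZero r], 20 ≤ r → ∃ C : ℕ, ∀ s : ℕ, 1 ≤ s →
  (DataP r s).Finite ∧ (DataP r s).ncard ≤ C * s ^ (3 * r - 12)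

/-- Q: words with given counts and few runs. -/
def StmtQ : Prop := ∀ (r : ℕ) [NeZero r], ∃ C : ℕ, ∀ (n : ℕ) (c : ZMod (2 * r)) (F : Set (ℕ → ℕ)),
  F.Finite → Set.ncard {U : List (ZMod (2 * r)) | U.length ≤ n ∧ chg r U ≤ U.toFinset.card + 4 ∧
    cnts r c U ∈ F} ≤ C * (n + 1) ^ 5 * F.ncard

/-- J1: few long axes, structure. -/
def StmtJ1 : Prop := ∀ (r : ℕ) [NeZero r] (p q c : ZMod (2 * r)) (D : List (ZMod (2 * r))) (N : ℕ),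
  Geo r p q D → 0 ≤ Z r D → r + 3 ≤ N → D.length ≤ N ^ 10 →
  Z r D ≤ Z r (srt r c (cnts r c D)) →
  ∀ i, i + 1 < r → 2 * N ^ 4 ≤ cnts r c D i → 2 * N ^ 4 ≤ cnts r c D (i + r) →
    2 * N ^ 4 ≤ cnts r c D (i + 1) → 2 * N ^ 4 ≤ cnts r c D (i + 1 + r) →
    |(cnts r c D (i + 1) : ℤ) - cnts r c D (i + r)| ≤ KK r * N ^ 6

def DataJ (r N : ℕ) : Set (ℕ → ℕ) :=
  {L | (∀ x, 2 * r ≤ x → L x = 0) ∧ (∀ x, L x ≤ N ^ 10) ∧ (Lset r (N ^ 5) L).card < 26 ∧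
    ∀ i, i + 1 < r → 2 * N ^ 4 ≤ L i → 2 * N ^ 4 ≤ L (i + r) → 2 * N ^ 4 ≤ L (i + 1) →
      2 * N ^ 4 ≤ L (i + 1 + r) → |(L (i + 1) : ℤ) - L (i + r)| ≤ KK r * N ^ 6}

/-- J2: few long axes, count (blocks of three axes). -/
def StmtJ2 : Prop := ∀ (B : ℕ) [NeZero (3 * B)], ∃ C : ℕ, ∀ N : ℕ, 1 ≤ N →
  (DataJ (3 * B) N).Finite ∧ (DataJ (3 * B) N).ncard ≤ C * N ^ (44 * B + 416)

/-- U: the upper bound. -/
def StmtU : Prop := ∀ (B : ℕ) [NeZero (3 * B)], 457 ≤ B → ∀ p q : ZMod (2 * (3 * B)),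
  ∃ C N0 : ℕ, ∀ N : ℕ, N0 ≤ N → geoCount (3 * B) p q (N ^ 10) ≤ C * N ^ (45 * B + 9)

/-- L1: criterion for geodesics. -/
def StmtL1 : Prop := ∀ (r : ℕ) [NeZero r] (L : ℕ → ℕ), 2 ≤ r → (∀ x < 2 * r, 0 < L x) →
  (∀ D', Eqw r (srt r 0 L) D' → D'.length + 2 = (srt r 0 L).length → Z r D' < Z r (srt r 0 L)) →
  (∀ D', Eqw r (srt r 0 L) D' → D'.length ≤ (srt r 0 L).length + 2 * r → (∃ x, D'.count x = 0) →
    Z r D' < Z r (srt r 0 L)) →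
  Geo r 0 (-1) (srt r 0 L) ∧ cost r 0 (-1) (srt r 0 L) ≤ (srt r 0 L).length + 2 * r

/-- the parameters of the lower bound -/
def LowPar (r M : ℕ) (L : ℕ → ℕ) : Prop :=
  (∀ x, 2 * r ≤ x → L x = 0) ∧
  100 * (r : ℤ) ^ 2 * |(L 0 : ℤ) - 100 * (r : ℤ) ^ 6 * (M : ℤ)| ≤ (M : ℤ) ∧
  (∀ i < r, 100 * (r : ℤ) ^ 2 *
    |(L (r + i) : ℤ) - (100 * (r : ℤ) ^ 6 * (M : ℤ) + ((i : ℤ) + 1) * ((r : ℤ) - 1 - i) * M)| ≤ (M : ℤ)) ∧
  (∀ i, 1 ≤ i → i < r → 64 * (r : ℤ) ^ 6 * ((L i : ℤ) - (L (r + i - 1) : ℤ)) ^ 2 ≤ (M : ℤ))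

/-- L2: isoperimetric inequality. -/
def StmtL2 : Prop := ∀ (r : ℕ) [NeZero r], 2 ≤ r → ∃ M0 : ℕ, ∀ M : ℕ, M0 ≤ M → ∀ L : ℕ → ℕ,
  LowPar r M L →
  (∀ x < 2 * r, 0 < L x) ∧
  (∀ D', Eqw r (srt r 0 L) D' → D'.length + 2 = (srt r 0 L).length → Z r D' < Z r (srt r 0 L)) ∧
  (∀ D', Eqw r (srt r 0 L) D' → D'.length ≤ (srt r 0 L).length + 2 * r → (∃ x, D'.count x = 0) →
    Z r D' < Z r (srt r 0 L))

/-- L: the lower bound. -/
def StmtL : Prop := ∀ (r : ℕ) [NeZero r], 2 ≤ r → ∃ C0 C1 N0 : ℕ, ∀ N : ℕ, N0 ≤ N →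
  N ^ (15 * r + 5) ≤ C1 * Set.ncard {D : List (ZMod (2 * r)) |
    cost r 0 (-1) D ≤ (C0 * N) ^ 10 ∧ Geo r 0 (-1) D}

end Pool.Agent.T6.H25.GG
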