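import Pool.Agent.T6.H25.GG.Defs
import Pool.Agent.T6.H25.GG.Stmts

/-!
Module B of the project MP_b6554e_al (geodesic growth): best cut.
-/

set_option autoImplicit false

namespace Pool.Agent.T6.H25.GG

open Finset

namespace B

lemma two_ne (r : ℕ) [NeZero r] : NeZero (2 * r) := ⟨by have := NeZero.ne r; omega⟩

/-- the pairing of two words -/
def w (r : ℕ) (A C : List (ZMod (2 * r))) : ℤ :=
  (A.map (fun x => (C.map (fun y => b r (y - x))).sum)).sum

lemma Z_append (r : ℕ) (A C : List (ZMod (2 * r))) :
    Z r (A ++ C) = Z r A + Z r C + w r A C := by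
  unfold w
  induction A with
  | nil => simp [Z]
  | cons x A ih =>
    simp only [List.cons_append, Z, List.map_append, List.sum_append, ih, List.map_cons,
      List.sum_cons]
    ring

lemma b_neg (r : ℕ) [NeZero r] (k : ZMod (2 * r)) : b r (-k) = - b r k := by
  have := two_ne r
  unfold b
  by_cases hk : k = 0
  · subst hk; simp [bt]
  · have h1 : (-k).val = 2 * r - k.val := by rw [ZMod.neg_val]; simp [hk]
    have h2 := ZMod.val_lt k
    have h3 : k.val ≠ 0 := by rwa [Ne, ZMod.val_eq_zero]
    rw [h1]
    unfold bt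
    split_ifs <;> omega

lemma w_cons_right (r : ℕ) (A C : List (ZMod (2 * r))) (x : ZMod (2 * r)) :
    w r A (x :: C) = (A.map (fun z => b r (x - z))).sum + w r A C := by
  unfold w
  induction A with
  | nil => simp
  | cons z A ih =>
    simp only [List.map_cons, List.sum_cons] at ih ⊢
    rw [ih]; ring

lemma sum_swap (r : ℕ) [NeZero r] (C : List (ZMod (2 * r))) (x : ZMod (2 * r)) :
    (C.map (fun z => b r (x - z))).sum = - (C.map (fun y => b r (y - x))).sum := by
  induction C with
  | nil => simp
  | cons z C ih =>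
    simp only [List.map_cons, List.sum_cons, ih]
    have : b r (x - z) = - b r (z - x) := by rw [← b_neg, neg_sub]
    rw [this]; ring

lemma w_swap (r : ℕ) [NeZero r] (A C : List (ZMod (2 * r))) : w r C A = - w r A C := by
  induction A with
  | nil => simp [w]
  | cons x A ih =>
    rw [w_cons_right, ih]
    have : w r (x :: A) C = (C.map (fun y => b r (y - x))).sum + w r A C := by simp [w]
    rw [this]
    rw [sum_swap]; ring

lemma w_nonpos (r : ℕ) (A C : List (ZMod (2 * r)))
    (h : ∀ x ∈ C, (A.map (fun z => b r (x - z))).sum ≤ 0) : w r A C ≤ 0 := by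
  induction C with
  | nil => simp [w]
  | cons x C ih =>
    rw [w_cons_right]
    have h1 := h x (by simp)
    have h2 := ih (fun y hy => h y (by simp [hy]))
    linarith

lemma sum_flat (r : ℕ) (n : ℕ) (f : ℕ → ℕ) (u : ℕ → ZMod (2 * r)) (g : ZMod (2 * r) → ℤ) :
    ((((List.range n).flatMap (fun i => List.replicate (f i) (u i))).map g).sum) =
      ∑ i ∈ range n, (f i : ℤ) * g (u i) := by
  induction n with
  | zero => simp
  | succ n ih =>
    rw [List.range_succ, List.flatMap_append, List.map_append, List.sum_append, ih,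
      Finset.sum_range_succ]
    simp

lemma b_sub (r : ℕ) [NeZero r] (c : ZMod (2 * r)) (x i : ℕ) (hi : i ≤ x) (hx : x < 2 * r) :
    b r (c + (x : ZMod (2 * r)) - (c + (i : ZMod (2 * r)))) = bt r (x - i) := by
  have := two_ne r
  have : c + (x : ZMod (2 * r)) - (c + (i : ZMod (2 * r))) = ((x - i : ℕ) : ZMod (2 * r)) := by
    rw [Nat.cast_sub hi]; ring
  rw [this]
  unfold b
  rw [ZMod.val_natCast, Nat.mod_eq_of_lt (by omega)]

lemma bt_anti (r d e : ℕ) (h1 : 1 ≤ d) (h2 : d ≤ e) : bt r e ≤ bt r d := by
  unfold bt
  split_ifs <;> omega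

/-- block of the letter of index `i` -/
def F (r : ℕ) (c : ZMod (2 * r)) (D : List (ZMod (2 * r))) (i : ℕ) : List (ZMod (2 * r)) :=
  List.replicate (D.count (c + (i : ZMod (2 * r)))) (c + (i : ZMod (2 * r)))

lemma srt_eq (r : ℕ) (c : ZMod (2 * r)) (D : List (ZMod (2 * r))) :
    srt r c (cnts r c D) = (List.range (2 * r)).flatMap (F r c D) := by
  unfold srt
  apply List.flatMap_congr
  intro i hi
  rw [List.mem_range] at hi
  simp [cnts, F, hi]

lemma cast_inj (r : ℕ) [NeZero r] {i j : ℕ} (hi : i < 2 * r) (hj : j < 2 * r)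
    (h : (i : ZMod (2 * r)) = (j : ZMod (2 * r))) : i = j := by
  have := two_ne r
  have := congrArg ZMod.val h
  rwa [ZMod.val_natCast, ZMod.val_natCast, Nat.mod_eq_of_lt hi, Nat.mod_eq_of_lt hj] at this

lemma F_cons_ne (r : ℕ) [NeZero r] (c : ZMod (2 * r)) (D : List (ZMod (2 * r))) {y i : ℕ}
    (hy : y < 2 * r) (hi : i < 2 * r) (h : i ≠ y) :
    F r c ((c + (y : ZMod (2 * r))) :: D) i = F r c D i := by
  unfold F
  have : (c + (y : ZMod (2 * r))) ≠ c + (i : ZMod (2 * r)) := by
    intro h'
    exact h (cast_inj r hi hy (add_left_cancel h').symm)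
  rw [List.count_cons_of_ne this]

lemma F_cons_eq (r : ℕ) (c : ZMod (2 * r)) (D : List (ZMod (2 * r))) (y : ℕ) :
    F r c ((c + (y : ZMod (2 * r))) :: D) y = (c + (y : ZMod (2 * r))) :: F r c D y := by
  unfold F
  rw [List.count_cons_self, List.replicate_succ]

/-- prefix part -/
def P (r : ℕ) (c : ZMod (2 * r)) (D : List (ZMod (2 * r))) (y : ℕ) : List (ZMod (2 * r)) :=
  (List.range y).flatMap (F r c D)

/-- suffix part -/
def S (r : ℕ) (c : ZMod (2 * r)) (D : List (ZMod (2 * r))) (y : ℕ) : List (ZMod (2 * r)) :=
  ((List.range (2 * r - y)).map (fun j => y + j)).flatMap (F r c D)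

lemma srt_split (r : ℕ) (c : ZMod (2 * r)) (D : List (ZMod (2 * r))) {y : ℕ} (hy : y ≤ 2 * r) :
    srt r c (cnts r c D) = P r c D y ++ S r c D y := by
  have hr : List.range (2 * r) =
      List.range y ++ (List.range (2 * r - y)).map (fun j => y + j) := by
    rw [← List.range_add]; congr 1; omega
  rw [srt_eq, hr, List.flatMap_append]
  rfl

lemma srt_rot (r : ℕ) (c : ZMod (2 * r)) (D : List (ZMod (2 * r))) {y : ℕ} (hy : y ≤ 2 * r) :
    srt r (c + (y : ZMod (2 * r))) (cnts r (c + (y : ZMod (2 * r))) D) =
      S r c D y ++ P r c D y := by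
  have hr : List.range (2 * r) =
      List.range (2 * r - y) ++ (List.range y).map (fun j => 2 * r - y + j) := by
    rw [← List.range_add]; congr 1; omega
  rw [srt_eq, hr, List.flatMap_append]
  unfold P S
  congr 1
  · rw [List.flatMap_map]
    apply List.flatMap_congr
    intro j _
    unfold F
    have : c + (y : ZMod (2 * r)) + (j : ZMod (2 * r)) = c + ((y + j : ℕ) : ZMod (2 * r)) := by
      push_cast; ring
    rw [this]
  · rw [List.flatMap_map]
    apply List.flatMap_congr
    intro j _
    unfold F
    have : c + (y : ZMod (2 * r)) + ((2 * r - y + j : ℕ) : ZMod (2 * r)) =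
        c + (j : ZMod (2 * r)) := by
      have h2 : ((2 * r - y + j : ℕ) : ZMod (2 * r)) =
          ((2 * r : ℕ) : ZMod (2 * r)) - (y : ZMod (2 * r)) + (j : ZMod (2 * r)) := by
        rw [Nat.cast_add, Nat.cast_sub hy]
      rw [h2, ZMod.natCast_self]; ring
    rw [this]

lemma P_cons (r : ℕ) [NeZero r] (c : ZMod (2 * r)) (D : List (ZMod (2 * r))) {y : ℕ}
    (hy : y < 2 * r) : P r c ((c + (y : ZMod (2 * r))) :: D) y = P r c D y := by
  unfold P
  apply List.flatMap_congr
  intro i hi
  rw [List.mem_range] at hi
  exact F_cons_ne r c D hy (by omega) (by omega)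

lemma S_cons (r : ℕ) [NeZero r] (c : ZMod (2 * r)) (D : List (ZMod (2 * r))) {y : ℕ}
    (hy : y < 2 * r) :
    S r c ((c + (y : ZMod (2 * r))) :: D) y = (c + (y : ZMod (2 * r))) :: S r c D y := by
  unfold S
  obtain ⟨k, hk⟩ : ∃ k, 2 * r - y = k + 1 := ⟨2 * r - y - 1, by omega⟩
  rw [hk, List.range_succ_eq_map, List.map_cons, List.flatMap_cons, List.flatMap_cons,
    Nat.add_zero, F_cons_eq, List.cons_append]
  congr 2
  apply List.flatMap_congr
  intro i hi
  simp only [List.map_map, List.mem_map, List.mem_range, Function.comp] at hi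
  obtain ⟨j, hj, rfl⟩ := hi
  exact F_cons_ne r c D hy (by omega) (by omega)

lemma perm (r : ℕ) [NeZero r] (c : ZMod (2 * r)) (D : List (ZMod (2 * r))) :
    (srt r c (cnts r c D)).Perm D := by
  have := two_ne r
  rw [List.perm_iff_count]
  intro z
  rw [srt_eq, List.count_flatMap]
  have key : ∀ n, n ≤ 2 * r →
      ((List.range n).map (List.count z ∘ F r c D)).sum =
        if (z - c).val < n then D.count z else 0 := by
    intro n
    induction n with
    | zero => intro _; simp
    | succ n ih =>
      intro hn
      rw [List.range_succ, List.map_append, List.sum_append, ih (by omega)]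
      simp only [List.map_cons, List.map_nil, List.sum_cons, List.sum_nil, Function.comp, F,
        List.count_replicate, add_zero]
      by_cases h : c + (n : ZMod (2 * r)) = z
      · subst h
        have : (c + (n : ZMod (2 * r)) - c).val = n := by
          rw [add_sub_cancel_left, ZMod.val_natCast, Nat.mod_eq_of_lt (by omega)]
        rw [this]; simp
      · have h' : (z - c).val ≠ n := by
          intro h2
          apply h
          have : ((z - c).val : ZMod (2 * r)) = z - c := ZMod.natCast_zmod_val _
          rw [← h2, this]; ring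
        have h3 : ((c + (n : ZMod (2 * r))) == z) = false := by simpa using h
        rw [h3]
        simp only [Bool.false_eq_true, if_false, add_zero]
        by_cases h4 : (z - c).val < n
        · rw [if_pos h4, if_pos (by omega)]
        · rw [if_neg h4, if_neg (by omega)]
  rw [key (2 * r) le_rfl, if_pos (ZMod.val_lt _)]

end B

open B in
theorem b_cut : StmtB := by
  intro r hr D
  have := two_ne r
  induction D with
  | nil => exact ⟨0, by
      have : srt r (0 : ZMod (2 * r)) (cnts r 0 []) = [] := by
        have := perm r (0 : ZMod (2 * r)) []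
        exact List.Perm.eq_nil this
      rw [this]⟩
  | cons a D ih =>
    obtain ⟨c, hc⟩ := ih
    obtain ⟨y, hy, rfl⟩ : ∃ y : ℕ, y < 2 * r ∧ c + (y : ZMod (2 * r)) = a :=
      ⟨(a - c).val, ZMod.val_lt _, by rw [ZMod.natCast_zmod_val]; ring⟩
    have hperm := perm r c D
    have hsplit := srt_split r c D hy.le
    rw [hsplit] at hc hperm
    -- pairing with `a`
    set a := c + (y : ZMod (2 * r)) with ha
    have hD : (D.map (fun x => b r (x - a))).sum =
        ((P r c D y).map (fun x => b r (x - a))).sum +
          ((S r c D y).map (fun x => b r (x - a))).sum := by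
      rw [← List.sum_append, ← List.map_append]
      exact ((hperm.map _).sum_eq).symm
    have hH : ((P r c D y).map (fun x => b r (x - a))).sum =
        - ((P r c D y).map (fun x => b r (a - x))).sum := by
      rw [sum_swap r (P r c D y) a]; ring
    have hZ : Z r (a :: D) = (D.map (fun x => b r (x - a))).sum + Z r D := rfl
    by_cases hpos : 0 ≤ ((P r c D y).map (fun x => b r (a - x))).sum
    · refine ⟨c, ?_⟩
      rw [srt_split r c _ hy.le, P_cons r c D hy, S_cons r c D hy, Z_append, w_cons_right, hZ, hD,
        hH]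
      rw [Z_append] at hc
      have : Z r (a :: S r c D y) = ((S r c D y).map (fun x => b r (x - a))).sum +
        Z r (S r c D y) := rfl
      rw [this]
      linarith
    · refine ⟨a, ?_⟩
      rw [not_le] at hpos
      have h1 : srt r a (cnts r a (a :: D)) = a :: (S r c D y ++ P r c D y) := by
        rw [ha, srt_rot r c _ hy.le, P_cons r c D hy, S_cons r c D hy, List.cons_append]
      rw [h1, hZ, hD]
      have h2 : Z r (a :: (S r c D y ++ P r c D y)) =
          (((S r c D y ++ P r c D y)).map (fun x => b r (x - a))).sum +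
            Z r (S r c D y ++ P r c D y) := rfl
      rw [h2, List.map_append, List.sum_append, Z_append, w_swap r (P r c D y)]
      rw [Z_append] at hc
      have h3 : w r (P r c D y) (S r c D y) ≤ 0 := by
        apply w_nonpos
        intro z hz
        -- z = c + x, y ≤ x < 2r
        obtain ⟨x, hyx, hx, rfl⟩ : ∃ x : ℕ, y ≤ x ∧ x < 2 * r ∧ c + (x : ZMod (2 * r)) = z := by
          unfold S at hz
          rw [List.mem_flatMap] at hz
          obtain ⟨i, hi, hz⟩ := hz
          rw [List.mem_map] at hi
          obtain ⟨j, hj, rfl⟩ := hi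
          rw [List.mem_range] at hj
          refine ⟨y + j, by omega, by omega, ?_⟩
          unfold F at hz
          exact (List.eq_of_mem_replicate hz).symm
        refine le_trans ?_ hpos.le
        unfold P F
        rw [sum_flat, sum_flat]
        apply Finset.sum_le_sum
        intro i hi
        rw [Finset.mem_range] at hi
        apply mul_le_mul_of_nonneg_left _ (Int.natCast_nonneg _)
        rw [ha, b_sub r c x i (by omega) hx, b_sub r c y i (by omega) hy]
        exact bt_anti r _ _ (by omega) (by omega)
      linarith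

end Pool.Agent.T6.H25.GG
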