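import Pool.Agent.T6.H25.GG.Stmts

/-! Common facts for the modules G0, G1, G2 of the project MP_b6554e_al. -/

set_option autoImplicit false

namespace Pool.Agent.T6.H25.GG.Base

open Finset

variable {r : ℕ}

/-- number of nonempty blocks of the core -/
def supp (r : ℕ) (L : ℕ → ℕ) : ℕ := ((range (2 * r)).filter (fun x => 0 < L x)).card

/-- end costs -/
def ends (r : ℕ) (p q a a' : ZMod (2 * r)) : ℕ :=
  (if ax r p a then 0 else 1) + (if ax r q a' then 0 else 1)

theorem two_r_pos [NeZero r] : 0 < 2 * r := by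
  have := NeZero.pos r
  omega

instance [NeZero r] : NeZero (2 * r) := ⟨(two_r_pos (r := r)).ne'⟩

theorem ix_lt [NeZero r] (c a : ZMod (2 * r)) : ix r c a < 2 * r := ZMod.val_lt _

theorem ix_spec [NeZero r] (c a : ZMod (2 * r)) : c + ((ix r c a : ℕ) : ZMod (2 * r)) = a := by
  unfold ix
  rw [ZMod.natCast_zmod_val]
  ring

theorem rr [NeZero r] : (r : ZMod (2 * r)) + (r : ZMod (2 * r)) = 0 := by
  have : (r : ZMod (2 * r)) + (r : ZMod (2 * r)) = ((2 * r : ℕ) : ZMod (2 * r)) := by
    push_cast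
    ring
  rw [this, ZMod.natCast_self]

/-- if `ix (a + r) = j` with `j < r` then `ix a = j + r` -/
theorem ix_opp1 [NeZero r] (c a : ZMod (2 * r)) {j : ℕ} (hj : j < r)
    (h : ix r c (a + (r : ZMod (2 * r))) = j) : ix r c a = j + r := by
  unfold ix at h ⊢
  have h1 : (a + (r : ZMod (2 * r)) - c) = (j : ZMod (2 * r)) := by
    rw [← h, ZMod.natCast_zmod_val]
  have h2 : a - c = ((j + r : ℕ) : ZMod (2 * r)) := by
    push_cast
    rw [← h1]
    calc a - c = a - c + ((r : ZMod (2 * r)) + (r : ZMod (2 * r))) := by rw [rr, add_zero]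
      _ = _ := by ring
  rw [h2, ZMod.val_cast_of_lt (by omega)]

/-- if `ix (a + r) = j + r` with `j < r` then `ix a = j` -/
theorem ix_opp2 [NeZero r] (c a : ZMod (2 * r)) {j : ℕ} (hj : j < r)
    (h : ix r c (a + (r : ZMod (2 * r))) = j + r) : ix r c a = j := by
  unfold ix at h ⊢
  have h1 : (a + (r : ZMod (2 * r)) - c) = ((j + r : ℕ) : ZMod (2 * r)) := by
    rw [← h, ZMod.natCast_zmod_val]
  have h2 : a - c = ((j : ℕ) : ZMod (2 * r)) := by
    push_cast at h1
    calc a - c = (a + (r : ZMod (2 * r)) - c) - (r : ZMod (2 * r)) := by ring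
      _ = _ := by rw [h1]; ring
  rw [h2, ZMod.val_cast_of_lt (by omega)]

theorem cnts_zero (c : ZMod (2 * r)) (U : List (ZMod (2 * r))) (x : ℕ) (hx : 2 * r ≤ x) :
    cnts r c U x = 0 := by
  unfold cnts
  rw [if_neg (by omega)]

theorem eqw_of_perm {D D' : List (ZMod (2 * r))} (h : D.Perm D') : Eqw r D D' := by
  intro x
  unfold wt
  rw [h.count_eq, h.count_eq]

theorem eqw_trans {D D' D'' : List (ZMod (2 * r))} (h : Eqw r D D') (h' : Eqw r D' D'') :
    Eqw r D D'' := fun x => (h x).trans (h' x)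

theorem eqw_symm {D D' : List (ZMod (2 * r))} (h : Eqw r D D') : Eqw r D' D := fun x => (h x).symm

/-- `D` and `wd` are permutations of each other -/
theorem perm [NeZero r] (hALG : StmtALG) {s : ℕ} {p q : ZMod (2 * r)} {D : List (ZMod (2 * r))}
    {a a' c : ZMod (2 * r)} {m m' : ℕ} {U : List (ZMod (2 * r))} (h : Dec r s p q D a a' c m m' U) :
    D.Perm (wd r a c a' m (cnts r c U) m') := by
  rw [h.eq]
  unfold wd
  have h1 := (hALG r).2.2.2.2.2.2 c U
  exact ((List.Perm.refl _).append h1.symm).append (List.Perm.refl _)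

theorem eqw [NeZero r] (hALG : StmtALG) {s : ℕ} {p q : ZMod (2 * r)} {D : List (ZMod (2 * r))}
    {a a' c : ZMod (2 * r)} {m m' : ℕ} {U : List (ZMod (2 * r))} (h : Dec r s p q D a a' c m m' U) :
    Eqw r D (wd r a c a' m (cnts r c U) m') := eqw_of_perm (perm hALG h)

theorem tot_eq [NeZero r] (hALG : StmtALG) {s : ℕ} {p q : ZMod (2 * r)} {D : List (ZMod (2 * r))}
    {a a' c : ZMod (2 * r)} {m m' : ℕ} {U : List (ZMod (2 * r))} (h : Dec r s p q D a a' c m m' U) :
    tot r m (cnts r c U) m' = D.length := by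
  rw [(perm hALG h).length_eq, (hALG r).2.2.2.2.1]

theorem z_le [NeZero r] (hALG : StmtALG) (hPAR : StmtPAR) {s : ℕ} {p q : ZMod (2 * r)}
    {D : List (ZMod (2 * r))} {a a' c : ZMod (2 * r)} {m m' : ℕ} {U : List (ZMod (2 * r))}
    (h : Dec r s p q D a a' c m m' U) : Z r D ≤ Z r (wd r a c a' m (cnts r c U) m') := by
  have hp := (hALG r).2.2.2.2.2.2 c U
  have hcut := h.cut
  rw [h.eq]
  unfold wd
  rw [(hPAR r).2.1, (hPAR r).2.1, (hPAR r).2.1 (List.replicate m a ++ srt r c (cnts r c U)),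
    (hPAR r).2.1 (List.replicate m a) (srt r c (cnts r c U))]
  have h1 : ∀ x, (U.map (fun y => b r (y - x))).sum =
      ((srt r c (cnts r c U)).map (fun y => b r (y - x))).sum := fun x =>
    (hp.symm.map _).sum_eq
  have h2 : ((List.replicate m a ++ U).map
      (fun x => ((List.replicate m' a').map (fun y => b r (y - x))).sum)).sum =
      ((List.replicate m a ++ srt r c (cnts r c U)).map
      (fun x => ((List.replicate m' a').map (fun y => b r (y - x))).sum)).sum :=
    ((((List.Perm.refl (List.replicate m a)).append hp.symm)).map _).sum_eq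
  rw [h2]
  simp only [h1]
  linarith

/-! ### changes -/

theorem chg_append (x y : ZMod (2 * r)) (B : List (ZMod (2 * r))) : ∀ A : List (ZMod (2 * r)),
    chg r (A ++ x :: y :: B) = chg r (A ++ [x]) + (if y = x then 0 else 1) + chg r (y :: B)
  | [] => by simp [chg]
  | [z] => by simp [chg]; ring
  | z :: w :: A => by
    have h := chg_append x y B (w :: A)
    simp only [List.cons_append, chg] at h ⊢
    rw [h]
    ring

theorem letters_le : ∀ U : List (ZMod (2 * r)), U.toFinset.card ≤ chg r U + 1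
  | [] => by simp
  | [x] => by simp
  | x :: y :: U => by
    have h := letters_le (y :: U)
    rw [List.toFinset_cons]
    simp only [chg]
    by_cases hxy : y = x
    · subst hxy
      rw [if_pos rfl, Finset.insert_eq_of_mem (by simp)]
      omega
    · rw [if_neg hxy]
      have h2 := Finset.card_insert_le x (y :: U).toFinset
      omega

theorem supp_le [NeZero r] (c : ZMod (2 * r)) (U : List (ZMod (2 * r))) :
    supp r (cnts r c U) ≤ U.toFinset.card := by
  unfold supp
  refine Finset.card_le_card_of_injOn (fun x : ℕ => c + (x : ZMod (2 * r))) ?_ ?_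
  · intro x hx
    rw [Finset.mem_coe, Finset.mem_filter, Finset.mem_range] at hx
    rw [Finset.mem_coe, List.mem_toFinset]
    obtain ⟨h1, h2⟩ := hx
    unfold cnts at h2
    rw [if_pos h1] at h2
    exact List.count_pos_iff.1 h2
  · intro x hx y hy hxy
    rw [Finset.mem_coe, Finset.mem_filter, Finset.mem_range] at hx hy
    have h1 : (x : ZMod (2 * r)) = (y : ZMod (2 * r)) := add_left_cancel hxy
    have h2 := congrArg ZMod.val h1
    rwa [ZMod.val_cast_of_lt hx.1, ZMod.val_cast_of_lt hy.1] at h2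

theorem supp_pos [NeZero r] (c : ZMod (2 * r)) (U : List (ZMod (2 * r))) :
    supp r (cnts r c U) = U.toFinset.card := by
  refine le_antisymm (supp_le c U) ?_
  unfold supp
  refine Finset.card_le_card_of_injOn (fun x => ix r c x) ?_ ?_
  · intro x hx
    rw [Finset.mem_coe, List.mem_toFinset] at hx
    rw [Finset.mem_coe, Finset.mem_filter, Finset.mem_range]
    refine ⟨ix_lt c x, ?_⟩
    unfold cnts
    rw [if_pos (ix_lt c x), ix_spec]
    exact List.count_pos_iff.2 hx
  · intro x _ y _ hxy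
    rw [← ix_spec c x, ← ix_spec c y]
    simp only at hxy
    rw [hxy]

theorem chg_ge [NeZero r] {s : ℕ} {p q : ZMod (2 * r)} {D : List (ZMod (2 * r))}
    {a a' c : ZMod (2 * r)} {m m' : ℕ} {U : List (ZMod (2 * r))} (h : Dec r s p q D a a' c m m' U) :
    chg r U + 2 ≤ chg r D := by
  obtain ⟨k, rfl⟩ : ∃ k, m = k + 1 := ⟨m - 1, by have := h.hm; omega⟩
  obtain ⟨k', rfl⟩ : ∃ k', m' = k' + 1 := ⟨m' - 1, by have := h.hm'; omega⟩
  obtain ⟨u, U', hU⟩ : ∃ u U', U = u :: U' := by
    rcases U with _ | ⟨u, U'⟩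
    · exact absurd rfl h.ne
    · exact ⟨u, U', rfl⟩
  obtain ⟨V, v, hV⟩ : ∃ V v, U = V ++ [v] := ⟨U.dropLast, U.getLast h.ne,
    (List.dropLast_append_getLast h.ne).symm⟩
  have hu : u ≠ a := by
    have := h.hd u (by rw [hU]; rfl)
    intro he
    exact this (Or.inl he)
  have hv : v ≠ a' := by
    have := h.tl v (by rw [hV]; simp)
    intro he
    exact this (Or.inl he)
  have e1 : D = List.replicate k a ++ a :: u :: (U' ++ List.replicate (k' + 1) a') := by
    rw [h.eq, hU, List.replicate_succ']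
    simp
  have e2 : u :: (U' ++ List.replicate (k' + 1) a') = V ++ v :: a' :: List.replicate k' a' := by
    have : u :: (U' ++ List.replicate (k' + 1) a') = U ++ List.replicate (k' + 1) a' := by
      rw [hU]; rfl
    rw [this, hV, List.replicate_succ]
    simp
  rw [e1, chg_append, e2, chg_append, if_neg hu, if_neg (Ne.symm hv), ← hV]
  omega

/-- lower bound for the cost of the geodesic -/
theorem cost_ge [NeZero r] (hD : StmtD) {s : ℕ} {p q : ZMod (2 * r)}
    {D : List (ZMod (2 * r))} {a a' c : ZMod (2 * r)} {m m' : ℕ} {U : List (ZMod (2 * r))}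
    (h : Dec r s p q D a a' c m m' U) :
    D.length + supp r (cnts r c U) + 1 + ends r p q a a' ≤ cost r p q D := by
  have hbrk := ((hD r p q).2.2.1 D h.geo).1
  have hchg := chg_ge h
  have hlet := letters_le U
  have hsupp := supp_le c U
  obtain ⟨k, rfl⟩ : ∃ k, m = k + 1 := ⟨m - 1, by have := h.hm; omega⟩
  obtain ⟨k', rfl⟩ : ∃ k', m' = k' + 1 := ⟨m' - 1, by have := h.hm'; omega⟩
  have hne : D ≠ [] := by
    rw [h.eq, List.replicate_succ]
    simp
  have hh : D.head? = some a := by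
    rw [h.eq, List.replicate_succ]
    simp
  have ht : D.getLast? = some a' := by
    have e : D = (List.replicate (k + 1) a ++ U ++ List.replicate k' a') ++ [a'] := by
      rw [h.eq, List.replicate_succ' (n := k')]
      simp only [List.append_assoc]
    rw [e, List.getLast?_append]
    simp
  unfold cost
  rw [if_neg hne]
  unfold hdc tlc
  rw [hh, ht]
  simp only [ends]
  omega

/-- moves which do not lengthen the word, do not decrease the area and decrease the number of
blocks lead to a pinned configuration -/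
theorem elc [NeZero r] (hCST : StmtCST) (hD : StmtD) (hEL : StmtEL) {s : ℕ}
    {p q : ZMod (2 * r)} {D : List (ZMod (2 * r))} {a a' c : ZMod (2 * r)} {m m' : ℕ}
    {U : List (ZMod (2 * r))} (h : Dec r s p q D a a' c m m' U) {m1 m1' : ℕ} {L1 : ℕ → ℕ}
    (h0 : ∀ x, 2 * r ≤ x → L1 x = 0) (he : Eqw r D (wd r a c a' m1 L1 m1'))
    (ht : tot r m1 L1 m1' ≤ D.length) (hz : Z r D ≤ Z r (wd r a c a' m1 L1 m1'))
    (hcard : 10 ≤ (Lset r s L1).card) (hs : supp r L1 < supp r (cnts r c U)) :
    ∀ i ∈ Lset r s L1, ∀ j ∈ Lset r s L1, |Gf r L1 i - Gf r L1 j| ≤ 1 := by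
  rcases hEL r p q D s h.geo h.zn h.hs h.len a c a' m1 L1 m1' h0 he ht hz hcard with
    ⟨L', h1, h2, h3, h4⟩ | h1
  · exfalso
    have h5 := h.geo _ h2 h4
    have h6 := (hCST r p q a c a' m1 L' m1').1
    have h7 := cost_ge hD h
    have h8 : supp r L' = supp r L1 := by
      unfold supp
      congr 1
      refine Finset.filter_congr fun x _ => ?_
      rw [Nat.pos_iff_ne_zero, Nat.pos_iff_ne_zero, Ne, Ne, h1 x]
    have h9 : ((range (2 * r)).filter (fun x => 0 < L' x)).card = supp r L' := rfl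
    rw [h9] at h6
    unfold ends at h7
    omega
  · exact h1

/-- moves which shorten the word by `2 r + 5` decrease the area -/
theorem d1c [NeZero r] (hALG : StmtALG) (hD : StmtD) {s : ℕ}
    {p q : ZMod (2 * r)} {D : List (ZMod (2 * r))} {a a' c : ZMod (2 * r)} {m m' : ℕ}
    {U : List (ZMod (2 * r))} (h : Dec r s p q D a a' c m m' U) {m1 m1' : ℕ} {L1 : ℕ → ℕ}
    (he : Eqw r D (wd r a c a' m1 L1 m1'))
    (ht : tot r m1 L1 m1' + 2 * (r + 3) ≤ D.length) :
    Z r (wd r a c a' m1 L1 m1') < Z r D := by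
  by_contra hc
  push Not at hc
  have h1 := (hD r p q).1 D h.geo h.zn _ he hc
  rw [(hALG r).2.2.2.2.1] at h1
  omega

/-- a pair move at one axis -/
theorem pair [NeZero r] (hMV : StmtMV) (a c a' : ZMod (2 * r)) (m m' : ℕ) (L L' : ℕ → ℕ) (j : ℕ)
    (k : ℤ) (hj : j < r)
    (hL : ∀ x < 2 * r, (L' x : ℤ) = L x + (if x = j ∨ x = j + r then k else 0)) :
    Eqw r (wd r a c a' m L m') (wd r a c a' m L' m') ∧
    (tot r m L' m' : ℤ) = tot r m L m' + 2 * k ∧
    Z r (wd r a c a' m L' m') = Z r (wd r a c a' m L m') + 2 * k * Gf r L j ∧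
    om r a c L' = om r a c L := by
  obtain ⟨h1, h2, h3, h4⟩ := (hMV r a c a' m L m').1 (fun i => if i = j then k else 0) L' (by
    intro x hx
    rw [hL x hx]
    congr 1
    by_cases hxr : x < r
    · rw [if_pos hxr]
      by_cases hxj : x = j
      · rw [if_pos (Or.inl hxj), if_pos hxj]
      · rw [if_neg hxj, if_neg (by omega)]
    · rw [if_neg hxr]
      by_cases hxj : x - r = j
      · rw [if_pos (by omega), if_pos hxj]
      · rw [if_neg hxj, if_neg (by omega)])
  have hj' : j ∈ range r := mem_range.2 hj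
  have e1 : ∑ i ∈ range r, (if i = j then k else 0) = k := by
    rw [Finset.sum_ite_eq' (range r) j, if_pos hj']
  have e2 : ∑ i ∈ range r, Gf r L i * (if i = j then k else 0) = Gf r L j * k := by
    simp only [mul_ite, mul_zero]
    rw [Finset.sum_ite_eq' (range r) j, if_pos hj']
  have e3 : ∑ i ∈ range r, (if i = j then k else 0) ^ 2 = k ^ 2 := by
    have : ∀ i, (if i = j then k else 0) ^ 2 = if i = j then k ^ 2 else 0 := by
      intro i
      split_ifs <;> simp
    simp only [this]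
    rw [Finset.sum_ite_eq' (range r) j, if_pos hj']
  refine ⟨h1, ?_, ?_, h4⟩
  · rw [h2, e1]
  · rw [h3, e1, e2, e3]
    ring

/-- natural valued modification -/
theorem mk (L : ℕ → ℕ) (δ : ℕ → ℤ) (h : ∀ x, 0 ≤ (L x : ℤ) + δ x) :
    ∃ L' : ℕ → ℕ, ∀ x, (L' x : ℤ) = L x + δ x :=
  ⟨fun x => ((L x : ℤ) + δ x).toNat, fun x => Int.toNat_of_nonneg (h x)⟩

theorem abs_bt_le (r d : ℕ) : |bt r d| ≤ 1 := by
  unfold bt
  split_ifs <;> simp

theorem Gf_nonneg (L : ℕ → ℕ) (i : ℕ) : 0 ≤ Gf r L i := sum_nonneg fun _ _ => by positivity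

theorem Gf_le (L : ℕ → ℕ) {i : ℕ} (hi : i < r) (m m' : ℕ) : Gf r L i ≤ tot r m L m' := by
  unfold Gf tot
  have h1 : ∑ x ∈ Ioo i (i + r), (L x : ℤ) ≤ ∑ x ∈ range (2 * r), (L x : ℤ) := by
    refine sum_le_sum_of_subset_of_nonneg ?_ fun _ _ _ => by positivity
    intro x hx
    rw [mem_Ioo] at hx
    rw [mem_range]
    omega
  push_cast
  linarith

theorem Hf_abs_le [NeZero r] (L : ℕ → ℕ) {y : ℕ} (hy : y < 2 * r) (m m' : ℕ) :
    |Hf r L y| ≤ tot r m L m' := by
  unfold Hf tot
  have h1 : |∑ x ∈ range y, (L x : ℤ) * bt r (y - x)| ≤ ∑ x ∈ range y, (L x : ℤ) := by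
    refine (abs_sum_le_sum_abs _ _).trans (sum_le_sum fun x _ => ?_)
    rw [abs_mul, abs_of_nonneg (by positivity : (0 : ℤ) ≤ L x)]
    calc (L x : ℤ) * |bt r (y - x)| ≤ L x * 1 :=
          mul_le_mul_of_nonneg_left (abs_bt_le _ _) (by positivity)
      _ = L x := mul_one _
  have h2 : ∑ x ∈ range y, (L x : ℤ) ≤ ∑ x ∈ range (2 * r), (L x : ℤ) := by
    refine sum_le_sum_of_subset_of_nonneg ?_ fun _ _ _ => by positivity
    intro x hx
    rw [mem_range] at hx ⊢
    omega
  push_cast
  linarith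

theorem mem_Lset {s : ℕ} {L : ℕ → ℕ} {i : ℕ} :
    i ∈ Lset r s L ↔ i < r ∧ KK r * s ≤ L i ∧ KK r * s ≤ L (i + r) := by
  unfold Lset
  rw [mem_filter, mem_range]

end Pool.Agent.T6.H25.GG.Base
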