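import Mathlib
import Pool.Agent.T6.H25.GG.Stmts

/-! Module C: realization with few runs. -/

set_option autoImplicit false

namespace Pool.Agent.T6.H25.GG

open Finset

namespace C

/-- word of a list of blocks -/
def W {α : Type} (l : List (α × ℕ)) : List α := l.flatMap (fun b => List.replicate b.2 b.1)

theorem W_nil {α : Type} : W ([] : List (α × ℕ)) = [] := rfl

theorem W_cons {α : Type} (b : α × ℕ) (l : List (α × ℕ)) : W (b :: l) = List.replicate b.2 b.1 ++ W l := by
  unfold W
  rw [List.flatMap_cons]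

theorem W_append {α : Type} (l l' : List (α × ℕ)) : W (l ++ l') = W l ++ W l' := by
  unfold W
  rw [List.flatMap_append]

theorem W_reverse {α : Type} (l : List (α × ℕ)) : (W l).reverse = W l.reverse := by
  induction l with
  | nil => rfl
  | cons b l ih =>
    rw [W_cons, List.reverse_append, ih, List.reverse_cons, W_append, W_cons, W_nil, List.append_nil,
      List.reverse_replicate]

theorem chg_rep (r : ℕ) (x : ZMod (2 * r)) (p : ℕ) : chg r (List.replicate p x) = 0 := by
  induction p with
  | zero => rfl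
  | succ p ih =>
    cases p with
    | zero => rfl
    | succ p =>
      rw [List.replicate_succ, List.replicate_succ]
      unfold chg
      rw [← List.replicate_succ, ih]
      simp

theorem chg_rep_append (r : ℕ) (x : ZMod (2 * r)) (p : ℕ) (E : List (ZMod (2 * r))) :
    chg r (List.replicate p x ++ E) ≤ 1 + chg r E := by
  induction p with
  | zero => simp
  | succ p ih =>
    rw [List.replicate_succ, List.cons_append]
    cases p with
    | zero =>
      cases E with
      | nil => simp [chg]
      | cons y E =>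
        simp only [List.replicate_zero, List.nil_append]
        show (if y = x then 0 else 1) + chg r (y :: E) ≤ _
        split_ifs <;> omega
    | succ p =>
      rw [List.replicate_succ, List.cons_append] at ih ⊢
      show (if x = x then 0 else 1) + chg r (x :: (List.replicate p x ++ E)) ≤ _
      rw [if_pos rfl]
      omega

theorem chg_W (r : ℕ) (l : List (ZMod (2 * r) × ℕ)) : chg r (W l) ≤ l.length - 1 := by
  induction l with
  | nil => simp [W, chg]
  | cons b l ih =>
    cases l with
    | nil =>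
      rw [W_cons, W_nil, List.append_nil, chg_rep]
      simp
    | cons b' l =>
      rw [W_cons]
      refine (chg_rep_append r _ _ _).trans ?_
      simp only [List.length_cons] at ih ⊢
      omega

/-- discrete intermediate value theorem along adjacent swaps -/
theorem ivt {β : Type} (f : List β → ℤ) (z : ℤ) (l l' : List β) (h : l.Perm l') :
    ∀ A : List β, z ≤ f (A ++ l) → f (A ++ l') ≤ z →
      (∃ l'', l''.Perm (A ++ l) ∧ f l'' = z) ∨
      ∃ A' b1 b2 B', (A' ++ b1 :: b2 :: B').Perm (A ++ l) ∧ z ≤ f (A' ++ b1 :: b2 :: B') ∧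
        f (A' ++ b2 :: b1 :: B') ≤ z := by
  induction h with
  | nil =>
    intro A h1 h2
    exact Or.inl ⟨A ++ [], List.Perm.refl _, le_antisymm h2 h1⟩
  | cons x _ ih =>
    intro A h1 h2
    have e : ∀ m : List β, A ++ x :: m = (A ++ [x]) ++ m := by intro m; simp
    rw [e] at h1 h2 ⊢
    exact ih (A ++ [x]) h1 h2
  | swap x y l =>
    intro A h1 h2
    exact Or.inr ⟨A, y, x, l, List.Perm.refl _, h1, h2⟩
  | trans p1 p2 ih1 ih2 =>
    rename_i l1 l2 l3
    intro A h1 h2
    rcases le_total (f (A ++ l2)) z with h | h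
    · exact ih1 A h1 h
    · have hp : (A ++ l2).Perm (A ++ l1) := (List.Perm.append_left A p1).symm
      rcases ih2 A h h2 with ⟨l'', hl, hf⟩ | ⟨A', b1, b2, B', hl, hf⟩
      · exact Or.inl ⟨l'', hl.trans hp, hf⟩
      · exact Or.inr ⟨A', b1, b2, B', hl.trans hp, hf⟩

/-- cross term -/
def cr (r : ℕ) (A B : List (ZMod (2 * r))) : ℤ :=
  (A.map (fun x => (B.map (fun y => b r (y - x))).sum)).sum

theorem cr_append_left (r : ℕ) (A A' B : List (ZMod (2 * r))) : cr r (A ++ A') B = cr r A B + cr r A' B := by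
  unfold cr
  rw [List.map_append, List.sum_append]

theorem cr_perm_left (r : ℕ) (A A' B : List (ZMod (2 * r))) (h : A.Perm A') : cr r A B = cr r A' B := by
  unfold cr
  exact (h.map _).sum_eq

theorem cr_perm_right (r : ℕ) (A B B' : List (ZMod (2 * r))) (h : B.Perm B') : cr r A B = cr r A B' := by
  unfold cr
  congr 1
  apply List.map_congr_left
  intro x _
  exact (h.map _).sum_eq

theorem Z_mid (hPAR : StmtPAR) (r : ℕ) [NeZero r] (A M M' B : List (ZMod (2 * r))) (h : M.Perm M') :
    Z r (A ++ M ++ B) - Z r (A ++ M' ++ B) = Z r M - Z r M' := by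
  obtain ⟨-, h2, -⟩ := hPAR r
  have e : ∀ A B : List (ZMod (2 * r)), Z r (A ++ B) = Z r A + Z r B + cr r A B := h2
  rw [e (A ++ M) B, e (A ++ M') B, e A M, e A M', cr_append_left, cr_append_left, cr_perm_right r A M M' h, cr_perm_left r M M' B h]
  ring

theorem b_zero (hPAR : StmtPAR) (r : ℕ) [NeZero r] : b r 0 = 0 := by
  have := ((hPAR r).1 0).1
  rw [neg_zero] at this
  omega

theorem b_neg (hPAR : StmtPAR) (r : ℕ) [NeZero r] (x y : ZMod (2 * r)) : b r (x - y) = - b r (y - x) := by
  rw [← ((hPAR r).1 (y - x)).1, neg_sub]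

theorem sum_map_W (r : ℕ) (l : List (ZMod (2 * r) × ℕ)) (g : ZMod (2 * r) → ℤ) :
    ((W l).map g).sum = (l.map (fun b => (b.2 : ℤ) * g b.1)).sum := by
  induction l with
  | nil => rfl
  | cons b l ih =>
    rw [W_cons, List.map_append, List.sum_append, ih, List.map_cons, List.sum_cons, List.map_replicate,
      List.sum_replicate, nsmul_eq_mul]

theorem Z_W_cons (hPAR : StmtPAR) (r : ℕ) [NeZero r] (x : ZMod (2 * r)) (p : ℕ)
    (l : List (ZMod (2 * r) × ℕ)) :
    Z r (W ((x, p) :: l)) = Z r (W l) + p * (l.map (fun t => (t.2 : ℤ) * b r (t.1 - x))).sum := by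
  rw [W_cons]
  induction p with
  | zero => simp
  | succ p ih =>
    simp only at ih ⊢
    rw [List.replicate_succ, List.cons_append]
    show ((List.replicate p x ++ W l).map (fun y => b r (y - x))).sum + Z r (List.replicate p x ++ W l) = _
    rw [ih, List.map_append, List.sum_append, sum_map_W, List.map_replicate, List.sum_replicate, sub_self,
      b_zero hPAR]
    push_cast
    ring

theorem Z_M (hPAR : StmtPAR) (r : ℕ) [NeZero r] (x y : ZMod (2 * r)) (p s : ℕ) :
    Z r (W [(x, p), (y, s)]) = (p : ℤ) * s * b r (y - x) := by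
  rw [Z_W_cons hPAR, Z_W_cons hPAR]
  simp [W, Z]
  ring

theorem Z_M' (hPAR : StmtPAR) (r : ℕ) [NeZero r] (x y : ZMod (2 * r)) (p s i k : ℕ) (hi : i < p)
    (hk : k ≤ s) :
    Z r (W [(x, p - i - 1), (y, k), (x, 1), (y, s - k), (x, i)]) =
      ((p : ℤ) * s - 2 * (i * s + k)) * b r (y - x) := by
  rw [Z_W_cons hPAR, Z_W_cons hPAR, Z_W_cons hPAR, Z_W_cons hPAR, Z_W_cons hPAR]
  simp only [W_nil, List.map_cons, List.map_nil, List.sum_cons, List.sum_nil, sub_self, b_zero hPAR,
    b_neg hPAR r x y]
  have e1 : ((p - i - 1 : ℕ) : ℤ) = p - i - 1 := by omega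
  have e2 : ((s - k : ℕ) : ℤ) = s - k := by omega
  rw [e1, e2]
  have e3 : Z r ([] : List (ZMod (2 * r))) = 0 := rfl
  rw [e3]
  push_cast
  ring

theorem perm_M' (r : ℕ) (x y : ZMod (2 * r)) (p s i k : ℕ) (hi : i < p) (hk : k ≤ s) :
    (W [(x, p), (y, s)]).Perm (W [(x, p - i - 1), (y, k), (x, 1), (y, s - k), (x, i)]) := by
  rw [List.perm_iff_count]
  intro a
  simp only [W_cons, W_nil, List.count_append, List.count_replicate, List.append_nil]
  by_cases h1 : x = a
  · by_cases h2 : y = a
    · simp only [h1, h2, beq_self_eq_true, if_true]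
      omega
    · simp only [h1, beq_self_eq_true, if_true, beq_iff_eq, h2, if_false]
      omega
  · by_cases h2 : y = a
    · simp only [h2, beq_self_eq_true, if_true, beq_iff_eq, h1, if_false]
      omega
    · simp only [beq_iff_eq, h1, h2, if_false]

theorem perm_swap (r : ℕ) (x y : ZMod (2 * r)) (p s : ℕ) :
    (W [(x, p), (y, s)]).Perm (W [(y, s), (x, p)]) := by
  unfold W
  exact List.Perm.flatMap_right _ (List.Perm.swap _ _ _)

theorem b_vals (r : ℕ) (k : ZMod (2 * r)) : b r k = 0 ∨ b r k = 1 ∨ b r k = -1 := by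
  unfold b bt
  split_ifs
  · exact Or.inl rfl
  · exact Or.inr (Or.inl rfl)
  · exact Or.inr (Or.inr rfl)

/-- the nonempty blocks of a sorted word -/
theorem blocks (r : ℕ) [NeZero r] (c : ZMod (2 * r)) (D : List (ZMod (2 * r))) :
    ∃ l : List (ZMod (2 * r) × ℕ), W l = srt r c (cnts r c D) ∧ l.length ≤ D.toFinset.card := by
  obtain ⟨L, hL⟩ : ∃ L, L = cnts r c D := ⟨_, rfl⟩
  refine ⟨((List.range (2 * r)).filter (fun i => decide (0 < L i))).map (fun (i : ℕ) => (c + (i : ZMod (2 * r)), L i)), ?_, ?_⟩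
  · rw [← hL]
    unfold srt
    generalize List.range (2 * r) = m
    induction m with
    | nil => rfl
    | cons i m ih =>
      rw [List.flatMap_cons, List.filter_cons]
      split_ifs with h
      · rw [List.map_cons, W_cons, ih]
      · have h0 : L i = 0 := by
          simp only [decide_eq_true_eq] at h
          omega
        rw [ih, h0, List.replicate_zero, List.nil_append]
  · rw [List.length_map]
    have hnd : (((List.range (2 * r)).filter (fun i => decide (0 < L i))).map
        (fun (i : ℕ) => c + (i : ZMod (2 * r)))).Nodup := by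
      apply List.Nodup.map_on
      · intro i hi j hj h
        rw [List.mem_filter, List.mem_range] at hi hj
        have h2 : (i : ZMod (2 * r)) = (j : ZMod (2 * r)) := add_left_cancel h
        have h3 := congrArg ZMod.val h2
        rw [ZMod.val_natCast, ZMod.val_natCast, Nat.mod_eq_of_lt hi.1, Nat.mod_eq_of_lt hj.1] at h3
        exact h3
      · exact List.Nodup.filter _ List.nodup_range
    have h1 := List.toFinset_card_of_nodup hnd
    rw [List.length_map] at h1
    rw [← h1]
    apply card_le_card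
    intro x hx
    rw [List.mem_toFinset, List.mem_map] at hx
    obtain ⟨i, hi, rfl⟩ := hx
    rw [List.mem_filter, List.mem_range, decide_eq_true_eq] at hi
    rw [List.mem_toFinset]
    apply List.count_pos_iff.1
    have h2 := hi.2
    rw [hL] at h2
    unfold cnts at h2
    rw [if_pos hi.1] at h2
    exact h2

end C

theorem c (hB : StmtB) (hPAR : StmtPAR) (hALG : StmtALG) (hSYM : StmtSYM) : StmtC := by
  intro r _ D z hz0 hzD hpar
  obtain ⟨c, hc⟩ := hB r D
  obtain ⟨l, hl, hlen⟩ := C.blocks r c D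
  have hperm : (C.W l).Perm D := by
    rw [hl]
    exact (hALG r).2.2.2.2.2.2 c D
  have h1 : z ≤ Z r (C.W ([] ++ l)) := by
    rw [List.nil_append, hl]
    exact hzD.trans hc
  have h2 : Z r (C.W ([] ++ l.reverse)) ≤ z := by
    rw [List.nil_append, ← C.W_reverse, ((hSYM r).1 _).1]
    rw [List.nil_append] at h1
    linarith
  have key : ∀ l3 : List (ZMod (2 * r) × ℕ), (C.W l3).Perm D → Z r (C.W l3) = z →
      l3.length ≤ D.toFinset.card + 3 →
      ∃ D' : List (ZMod (2 * r)), D'.Perm D ∧ Z r D' = z ∧ chg r D' ≤ D.toFinset.card + 2 := by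
    intro l3 hp hZ hle
    refine ⟨C.W l3, hp, hZ, ?_⟩
    have := C.chg_W r l3
    omega
  rcases C.ivt (fun l => Z r (C.W l)) z l l.reverse (List.reverse_perm l).symm [] h1 h2 with
    ⟨l'', hl'', hf⟩ | ⟨A, ⟨x, p⟩, ⟨y, s⟩, B, hp, hf1, hf2⟩
  · rw [List.nil_append] at hl''
    refine key l'' ?_ hf ?_
    · exact (List.Perm.flatMap_right _ hl'').trans hperm
    · rw [hl''.length_eq]
      omega
  · rw [List.nil_append] at hp
    have hlenp := hp.length_eq
    simp only [List.length_append, List.length_cons] at hlenp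
    have hpD : (C.W (A ++ (x, p) :: (y, s) :: B)).Perm D := (List.Perm.flatMap_right _ hp).trans hperm
    have e1 : C.W (A ++ (x, p) :: (y, s) :: B) = C.W A ++ C.W [(x, p), (y, s)] ++ C.W B := by
      have : A ++ (x, p) :: (y, s) :: B = (A ++ [(x, p), (y, s)]) ++ B := by simp
      rw [this, C.W_append, C.W_append]
    have e2 : C.W (A ++ (y, s) :: (x, p) :: B) = C.W A ++ C.W [(y, s), (x, p)] ++ C.W B := by
      have : A ++ (y, s) :: (x, p) :: B = (A ++ [(y, s), (x, p)]) ++ B := by simp
      rw [this, C.W_append, C.W_append]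
    have d1 := C.Z_mid hPAR r (C.W A) _ _ (C.W B) (C.perm_swap r x y p s)
    rw [← e1, ← e2, C.Z_M hPAR, C.Z_M hPAR, C.b_neg hPAR r x y] at d1
    obtain ⟨Z1, hZ1⟩ : ∃ Z1, Z1 = Z r (C.W (A ++ (x, p) :: (y, s) :: B)) := ⟨_, rfl⟩
    obtain ⟨Z2, hZ2⟩ : ∃ Z2, Z2 = Z r (C.W (A ++ (y, s) :: (x, p) :: B)) := ⟨_, rfl⟩
    rw [← hZ1] at d1 hf1
    rw [← hZ2] at d1 hf2
    obtain ⟨β, hβ⟩ : ∃ β, β = b r (y - x) := ⟨_, rfl⟩
    rw [← hβ] at d1
    have hl1 : (A ++ (x, p) :: (y, s) :: B).length ≤ D.toFinset.card + 3 := by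
      simp only [List.length_append, List.length_cons]
      omega
    have hl2 : (A ++ (y, s) :: (x, p) :: B).length ≤ D.toFinset.card + 3 := by
      simp only [List.length_append, List.length_cons]
      omega
    by_cases hz1 : Z1 = z
    · exact key _ hpD (by rw [← hZ1]; exact hz1) hl1
    have hpos : 0 < (p : ℤ) * s * β := by
      have h3 : z < Z1 := lt_of_le_of_ne hf1 (Ne.symm hz1)
      nlinarith
    have hβ1 : β = 1 := by
      have hps : 0 ≤ (p : ℤ) * s := by positivity
      rcases C.b_vals r (y - x) with h | h | h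
      · rw [← hβ] at h
        rw [h] at hpos
        simp at hpos
      · rw [← hβ] at h
        exact h
      · rw [← hβ] at h
        rw [h] at hpos
        linarith
    obtain ⟨k0, hk0⟩ := hpar
    obtain ⟨k1, hk1⟩ := (hPAR r).2.2.1 _ _ hpD
    rw [← hZ1] at hk1
    rw [hβ1] at d1
    -- Z1 - z = 2 P
    obtain ⟨P, hP⟩ : ∃ P : ℕ, (P : ℤ) = k0 + k1 := by
      refine ⟨(k0 + k1).toNat, Int.toNat_of_nonneg ?_⟩
      linarith
    have hPz : Z1 = z + 2 * P := by rw [hP]; linarith
    have hPps : P ≤ p * s := by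
      have : (P : ℤ) ≤ (p : ℤ) * s := by nlinarith
      exact_mod_cast this
    have hs0 : 0 < s := by
      rcases Nat.eq_zero_or_pos s with h | h
      · rw [h] at hpos
        simp at hpos
      · exact h
    rcases Nat.lt_or_ge P (p * s) with hlt | hge
    · obtain ⟨i, hi⟩ : ∃ i, i = P / s := ⟨_, rfl⟩
      obtain ⟨k, hk⟩ : ∃ k, k = P % s := ⟨_, rfl⟩
      have hik : i * s + k = P := by rw [hi, hk, mul_comm]; exact Nat.div_add_mod P s
      have hip : i < p := by
        rw [hi]
        exact Nat.div_lt_of_lt_mul (by rwa [mul_comm] at hlt)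
      have hks : k < s := by rw [hk]; exact Nat.mod_lt _ hs0
      have d2 := C.Z_mid hPAR r (C.W A) _ _ (C.W B) (C.perm_M' r x y p s i k hip hks.le)
      rw [← e1, ← hZ1, C.Z_M hPAR, C.Z_M' hPAR r x y p s i k hip hks.le, ← hβ, hβ1] at d2
      have e3 : C.W A ++ C.W [(x, p - i - 1), (y, k), (x, 1), (y, s - k), (x, i)] ++ C.W B =
          C.W (A ++ [(x, p - i - 1), (y, k), (x, 1), (y, s - k), (x, i)] ++ B) := by
        rw [C.W_append, C.W_append]
      rw [e3] at d2
      refine key (A ++ [(x, p - i - 1), (y, k), (x, 1), (y, s - k), (x, i)] ++ B) ?_ ?_ ?_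
      · rw [← e3]
        refine List.Perm.trans ?_ hpD
        rw [e1]
        exact ((List.Perm.append_left _ (C.perm_M' r x y p s i k hip hks.le).symm).append_right _)
      · have hikz : (i : ℤ) * s + k = P := by exact_mod_cast hik
        have : Z r (C.W (A ++ [(x, p - i - 1), (y, k), (x, 1), (y, s - k), (x, i)] ++ B)) =
          Z1 - 2 * ((i : ℤ) * s + k) := by linarith
        rw [this, hikz, hPz]
        ring
      · simp only [List.length_append, List.length_cons, List.length_nil]
        omega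
    · have hPe : P = p * s := le_antisymm hPps hge
      refine key _ ?_ ?_ hl2
      · refine List.Perm.trans ?_ hpD
        exact List.Perm.flatMap_right _ (List.Perm.append_left A (List.Perm.swap _ _ _))
      · rw [← hZ2]
        have : (P : ℤ) = (p : ℤ) * s := by exact_mod_cast hPe
        linarith

end Pool.Agent.T6.H25.GG
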