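import Pool.Agent.T6.H25.GG.D

set_option autoImplicit false

namespace Pool.Agent.T6.H25.GG

open Finset

namespace CST

variable {r : ℕ}

lemma brk_cc [NeZero r] (x : ZMod (2 * r)) (E : List (ZMod (2 * r))) :
    brk r (x :: x :: E) = brk r (x :: E) := by
  simp [brk, D.ax_refl]

lemma brk_repl [NeZero r] (x : ZMod (2 * r)) (m : ℕ) (E : List (ZMod (2 * r))) :
    brk r (List.replicate (m + 1) x ++ E) = brk r (x :: E) := by
  induction m with
  | zero => simp
  | succ m ih =>
    rw [List.replicate_succ, List.replicate_succ, List.cons_append, List.cons_append, brk_cc,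
      ← ih, List.replicate_succ, List.cons_append]

lemma brk_del [NeZero r] (y x : ZMod (2 * r)) (B : List (ZMod (2 * r))) :
    brk r (y :: B) ≤ brk r (y :: x :: B) := by
  cases B with
  | nil => simp [brk]
  | cons z B =>
    simp only [brk]
    by_cases h1 : ax r y x
    · by_cases h2 : ax r x z
      · have h3 : ax r y z := D.ax_trans h1 h2
        simp only [h3, if_true]
        split_ifs <;> omega
      · simp only [h2, if_false]; split_ifs <;> omega
    · simp only [h1, if_false]; split_ifs <;> omega

lemma brk_cons_mono [NeZero r] (y : ZMod (2 * r)) (A B B' : List (ZMod (2 * r)))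
    (h : ∀ z, brk r (z :: B) ≤ brk r (z :: B')) :
    brk r (y :: (A ++ B)) ≤ brk r (y :: (A ++ B')) := by
  induction A generalizing y with
  | nil => simpa using h y
  | cons z A ih =>
    have := ih z
    simp only [List.cons_append, brk]
    omega

lemma brk_rep_le [NeZero r] (y x : ZMod (2 * r)) (m : ℕ) (B : List (ZMod (2 * r))) :
    brk r (y :: (List.replicate m x ++ B)) ≤ brk r (y :: x :: B) := by
  cases m with
  | zero => simpa using brk_del y x B
  | succ m =>
    rw [List.replicate_succ, List.cons_append]
    simp only [brk]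
    have := brk_repl x m B
    rw [List.replicate_succ, List.cons_append] at this
    omega

/-- sorted block word along a list of indices -/
def fl (r : ℕ) (c : ZMod (2 * r)) (L : ℕ → ℕ) (l : List ℕ) : List (ZMod (2 * r)) :=
  l.flatMap (fun i => List.replicate (L i) (c + (i : ZMod (2 * r))))

lemma fl_brk [NeZero r] (c a' : ZMod (2 * r)) (L : ℕ → ℕ) (l : List ℕ) :
    ∀ a : ZMod (2 * r),
    brk r (a :: (fl r c L l ++ [a'])) ≤ l.countP (fun x => 0 < L x) + 1 := by
  induction l with
  | nil =>
    intro a
    simp only [fl, List.flatMap_nil, List.nil_append, brk]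
    split_ifs <;> simp
  | cons i l ih =>
    intro a
    have e : fl r c L (i :: l) = List.replicate (L i) (c + (i : ZMod (2 * r))) ++ fl r c L l := by
      simp [fl]
    rw [e]
    by_cases h : 0 < L i
    · obtain ⟨k, hk⟩ : ∃ k, L i = k + 1 := ⟨L i - 1, by omega⟩
      rw [List.countP_cons_of_pos (by simpa using h), List.append_assoc]
      have h1 := brk_rep_le a (c + (i : ZMod (2 * r))) (L i) (fl r c L l ++ [a'])
      have h2 := ih (c + (i : ZMod (2 * r)))
      simp only [brk] at h1
      have h3 : (if ax r a (c + (i : ZMod (2 * r))) then 0 else 1) ≤ 1 := by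
        split_ifs <;> omega
      omega
    · have h0 : L i = 0 := by omega
      rw [List.countP_cons_of_neg (by simpa using h), h0]
      simpa using ih a

lemma fl_brk' [NeZero r] (a c a' : ZMod (2 * r)) (L : ℕ → ℕ) (l1 l2 : List ℕ) (i : ℕ)
    (h1 : ∀ j ∈ l1, L j = 0) (h2 : 0 < L i) (h3 : ax r a (c + (i : ZMod (2 * r)))) :
    brk r (a :: (fl r c L (l1 ++ i :: l2) ++ [a'])) ≤
      (l1 ++ i :: l2).countP (fun x => 0 < L x) := by
  induction l1 with
  | nil =>
    have e : fl r c L (i :: l2) = List.replicate (L i) (c + (i : ZMod (2 * r))) ++ fl r c L l2 := by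
      simp [fl]
    simp only [List.nil_append]
    rw [e, List.countP_cons_of_pos (by simpa using h2), List.append_assoc]
    have h4 := brk_rep_le a (c + (i : ZMod (2 * r))) (L i) (fl r c L l2 ++ [a'])
    have h5 := fl_brk c a' L l2 (c + (i : ZMod (2 * r)))
    simp only [brk, h3, if_true] at h4
    omega
  | cons j l1 ih =>
    have h4 : L j = 0 := h1 j (by simp)
    have e : fl r c L (j :: l1 ++ i :: l2) = fl r c L (l1 ++ i :: l2) := by
      simp [fl, h4]
    rw [e, List.cons_append, List.countP_cons_of_neg (by simp [h4])]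
    exact ih (fun k hk => h1 k (List.mem_cons_of_mem _ hk))

lemma brk_snoc [NeZero r] (A : List (ZMod (2 * r))) (x y q : ZMod (2 * r)) :
    brk r (x :: (A ++ [y, q])) = brk r (x :: (A ++ [y])) + (if ax r y q then 0 else 1) := by
  induction A generalizing x with
  | nil => simp [brk]
  | cons z A ih =>
    simp only [List.cons_append, brk]
    rw [ih z]
    omega

lemma srt_fl (c : ZMod (2 * r)) (L : ℕ → ℕ) : srt r c L = fl r c L (List.range (2 * r)) := rfl

lemma fl_len (c : ZMod (2 * r)) (L : ℕ → ℕ) (l : List ℕ) :
    (fl r c L l).length = (l.map L).sum := by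
  induction l with
  | nil => simp [fl]
  | cons i l ih =>
    have e : fl r c L (i :: l) = List.replicate (L i) (c + (i : ZMod (2 * r))) ++ fl r c L l := by
      simp [fl]
    rw [e]; simp [ih]

lemma srt_len (c : ZMod (2 * r)) (L : ℕ → ℕ) :
    (srt r c L).length = ∑ x ∈ range (2 * r), L x := by
  rw [srt_fl, fl_len, Finset.sum_range, ← List.sum_ofFn]
  congr 1
  apply List.ext_getElem <;> simp

lemma wd_len (a c a' : ZMod (2 * r)) (m : ℕ) (L : ℕ → ℕ) (m' : ℕ) :
    (wd r a c a' m L m').length = tot r m L m' := by
  simp [wd, tot, srt_len, add_assoc]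

lemma card_countP (L : ℕ → ℕ) (n : ℕ) :
    ((range n).filter (fun x => 0 < L x)).card = (List.range n).countP (fun x => 0 < L x) := by
  induction n with
  | zero => simp
  | succ n ih =>
    rw [Finset.range_add_one, Finset.filter_insert, List.range_succ, List.countP_append, ← ih]
    by_cases h : 0 < L n
    · rw [if_pos h, Finset.card_insert_of_notMem (by simp)]
      simp [h]
    · rw [if_neg h]
      simp [h]

lemma range_split (n x : ℕ) (h : x < n) :
    ∃ l2, List.range n = List.range x ++ x :: l2 := by
  obtain ⟨k, rfl⟩ : ∃ k, n = x + (k + 1) := ⟨n - x - 1, by omega⟩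
  refine ⟨((List.range k).map Nat.succ).map (x + ·), ?_⟩
  rw [List.range_add, List.range_succ_eq_map]
  simp

/-- the general bound with the break number of the core -/
lemma main [NeZero r] (p q a c a' : ZMod (2 * r)) (m : ℕ) (L : ℕ → ℕ) (m' : ℕ)
    (hne : wd r a c a' m L m' ≠ []) :
    cost r p q (wd r a c a' m L m') ≤ tot r m L m' + brk r (a :: (srt r c L ++ [a'])) +
      (if ax r p a then 0 else 1) + (if ax r q a' then 0 else 1) := by
  rw [D.cost_eq p q _ hne, wd_len]
  have h1 : brk r (p :: (wd r a c a' m L m' ++ [q])) ≤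
      brk r (p :: a :: (srt r c L ++ [a', q])) := by
    refine le_trans ?_ (?_ : brk r (p :: a :: (srt r c L ++ (List.replicate m' a' ++ [q]))) ≤ _)
    · have := brk_rep_le p a m (srt r c L ++ (List.replicate m' a' ++ [q]))
      simpa [wd, List.append_assoc] using this
    · have := brk_cons_mono p (a :: srt r c L) (List.replicate m' a' ++ [q]) ([a', q])
        (fun z => brk_rep_le z a' m' [q])
      simpa using this
  have h2 := brk_snoc (srt r c L) a a' q
  have h3 : brk r (p :: a :: (srt r c L ++ [a', q])) =
      (if ax r p a then 0 else 1) + brk r (a :: (srt r c L ++ [a', q])) := rfl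
  have h4 : (if ax r a' q then 0 else 1) = (if ax r q a' then 0 else 1 : ℕ) := by
    have : ax r a' q ↔ ax r q a' := ⟨D.ax_symm, D.ax_symm⟩
    simp [this]
  omega

lemma c_ix [NeZero r] (c a : ZMod (2 * r)) : c + ((ix r c a : ℕ) : ZMod (2 * r)) = a := by
  unfold ix
  rw [ZMod.natCast_zmod_val]; ring

end CST

theorem cst : StmtCST := by
  intro r _ p q a c a' m L m'
  constructor
  · by_cases hne : wd r a c a' m L m' = []
    · rw [hne]
      have : cost r p q [] ≤ 1 := by simp only [cost, if_true]; split_ifs <;> omega
      omega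
    · have h1 := CST.main p q a c a' m L m' hne
      have h2 := CST.fl_brk c a' L (List.range (2 * r)) a
      rw [← CST.srt_fl, ← CST.card_countP] at h2
      omega
  · intro x hx hL hf hax
    have hne : wd r a c a' m L m' ≠ [] := by
      intro h
      have h1 := CST.wd_len a c a' m L m'
      rw [h] at h1
      simp only [List.length_nil, tot] at h1
      have h2 : L x ≤ ∑ y ∈ range (2 * r), L y :=
        Finset.single_le_sum (fun _ _ => Nat.zero_le _) (mem_range.2 hx)
      omega
    have h1 := CST.main p q a c a' m L m' hne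
    obtain ⟨l2, hl2⟩ := CST.range_split (2 * r) x hx
    have hax' : ax r a (c + (x : ZMod (2 * r))) := by
      rcases hax with h | h
      · left; rw [h, CST.c_ix]
      · right; rw [h, CST.c_ix]
    have h2 := CST.fl_brk' a c a' L (List.range x) l2 x
      (fun j hj => hf j (List.mem_range.1 hj)) hL hax'
    rw [← hl2, ← CST.srt_fl, ← CST.card_countP] at h2
    omega

end Pool.Agent.T6.H25.GG
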