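import Pool.Agent.T6.H25.GG.Stmts

set_option autoImplicit false

namespace Pool.Agent.T6.H25.GG

open Finset

namespace D

variable {r : ℕ}

lemma rr [NeZero r] : (r : ZMod (2 * r)) + (r : ZMod (2 * r)) = 0 := by
  have : ((2 * r : ℕ) : ZMod (2 * r)) = 0 := ZMod.natCast_self _
  rw [← this]; push_cast; ring

lemma ax_refl (x : ZMod (2 * r)) : ax r x x := Or.inl rfl

lemma ax_symm [NeZero r] {x y : ZMod (2 * r)} (h : ax r x y) : ax r y x := by
  rcases h with h | h
  · exact Or.inl h.symm
  · right; rw [h, add_assoc, rr, add_zero]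

lemma ax_trans [NeZero r] {x y z : ZMod (2 * r)} (h : ax r x y) (h' : ax r y z) : ax r x z := by
  rcases h with h | h <;> rcases h' with h' | h' <;> subst h <;> subst h'
  · exact Or.inl rfl
  · exact Or.inr rfl
  · exact Or.inr rfl
  · left; rw [add_assoc, rr, add_zero]

lemma brk_cons_le (x : ZMod (2 * r)) (D : List (ZMod (2 * r))) : brk r D ≤ brk r (x :: D) := by
  cases D with
  | nil => simp [brk]
  | cons y D => simp only [brk]; omega

lemma brk_le_chg (D : List (ZMod (2 * r))) : brk r D ≤ chg r D := by
  induction D with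
  | nil => simp [brk, chg]
  | cons x D ih =>
    cases D with
    | nil => simp [brk, chg]
    | cons y D =>
      simp only [brk, chg]
      have : (if ax r x y then 0 else 1) ≤ (if y = x then 0 else 1) := by
        by_cases h : y = x
        · simp [h, ax_refl]
        · simp only [h, if_false]; split_ifs <;> omega
      omega

lemma brk_cancel [NeZero r] (A B : List (ZMod (2 * r))) (x : ZMod (2 * r)) :
    brk r (A ++ B) ≤ brk r (A ++ x :: (x + (r : ZMod (2 * r))) :: B) := by
  induction A with
  | nil =>
    simp only [List.nil_append, brk]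
    exact le_trans (brk_cons_le _ _) (Nat.le_add_left _ _)
  | cons y A ih =>
    cases A with
    | nil =>
      simp only [List.nil_append, List.cons_append]
      cases B with
      | nil => simp [brk]
      | cons z B =>
        simp only [brk]
        by_cases h1 : ax r y x
        · by_cases h2 : ax r (x + (r : ZMod (2 * r))) z
          · have h3 : ax r y z := ax_trans h1 (ax_trans (Or.inr rfl) h2)
            simp only [h3, if_true]
            split_ifs <;> omega
          · simp only [h2, if_false]; split_ifs <;> omega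
        · simp only [h1, if_false]; split_ifs <;> omega
    | cons y' A =>
      simp only [List.cons_append, brk] at ih ⊢
      omega

/-- cost of a nonempty word through the augmented word -/
lemma cost_eq [NeZero r] (p q : ZMod (2 * r)) (D : List (ZMod (2 * r))) (h : D ≠ []) :
    cost r p q D = D.length + brk r (p :: (D ++ [q])) := by
  have key : ∀ (D : List (ZMod (2 * r))), D ≠ [] → brk r (D ++ [q]) = brk r D + tlc r q D := by
    intro D
    induction D with
    | nil => intro h; exact absurd rfl h
    | cons x D ih =>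
      intro _
      cases D with
      | nil =>
        simp only [List.cons_append, List.nil_append, brk, tlc, List.getLast?_singleton]
        have : ax r x q ↔ ax r q x := ⟨ax_symm, ax_symm⟩
        simp [this]
      | cons y D =>
        have := ih (by simp)
        simp only [List.cons_append, brk] at this ⊢
        rw [this]
        simp only [tlc, List.getLast?_cons_cons]
        omega
  cases D with
  | nil => exact absurd rfl h
  | cons x D =>
    have := key (x :: D) (by simp)
    simp only [cost, List.cons_append, brk, hdc, List.head?_cons] at this ⊢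
    simp only [if_neg (show ¬ (x :: D = []) by simp)]
    rw [this]
    omega

lemma cost_cancel [NeZero r] (p q : ZMod (2 * r)) (A B : List (ZMod (2 * r))) (x : ZMod (2 * r)) :
    cost r p q (A ++ B) < cost r p q (A ++ x :: (x + (r : ZMod (2 * r))) :: B) := by
  have h2 : A ++ x :: (x + (r : ZMod (2 * r))) :: B ≠ [] := by simp
  rw [cost_eq p q _ h2]
  by_cases h1 : A ++ B = []
  · rw [h1]
    have h3 : cost r p q [] ≤ 1 := by simp only [cost, if_true]; split_ifs <;> omega
    simp only [List.length_append, List.length_cons]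
    omega
  · rw [cost_eq p q _ h1]
    have h3 := brk_cancel (p :: A) (B ++ [q]) x
    simp only [List.cons_append, List.append_assoc] at h3 ⊢
    simp only [List.length_append, List.length_cons]
    have h4 : p :: (A ++ (B ++ [q])) = p :: (A ++ (B ++ [q])) := rfl
    omega

lemma cost_le [NeZero r] (p q : ZMod (2 * r)) (D : List (ZMod (2 * r))) :
    cost r p q D ≤ D.length + chg r D + 2 := by
  unfold cost
  split_ifs with h1 h2
  · omega
  · omega
  · have h3 := brk_le_chg D
    have h4 : hdc r p D ≤ 1 := by unfold hdc; split <;> [omega; (split_ifs <;> omega)]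
    have h5 : tlc r q D ≤ 1 := by unfold tlc; split <;> [omega; (split_ifs <;> omega)]
    omega

lemma len_le_cost (p q : ZMod (2 * r)) (D : List (ZMod (2 * r))) :
    D.length + brk r D ≤ cost r p q D := by
  unfold cost
  split_ifs with h1 h2
  · subst h1; simp [brk]
  · subst h1; simp [brk]
  · omega

lemma eqw_of_perm {D D' : List (ZMod (2 * r))} (h : D.Perm D') : Eqw r D D' := by
  intro x
  unfold wt
  rw [h.count_eq, h.count_eq]

lemma eqw_trans {D D' D'' : List (ZMod (2 * r))} (h : Eqw r D D') (h' : Eqw r D' D'') :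
    Eqw r D D'' := fun x => (h x).trans (h' x)

lemma eqw_symm {D D' : List (ZMod (2 * r))} (h : Eqw r D D') : Eqw r D' D := fun x => (h x).symm

lemma card_le [NeZero r] (D : List (ZMod (2 * r))) : D.toFinset.card ≤ 2 * r := by
  have := Finset.card_le_univ D.toFinset
  rwa [ZMod.card] at this

lemma part1 [NeZero r] (hC : StmtC) (hP : StmtPAR) (p q : ZMod (2 * r)) (D : List (ZMod (2 * r)))
    (hG : Geo r p q D) (hz : 0 ≤ Z r D) (D' : List (ZMod (2 * r))) (hw : Eqw r D D')
    (hZ : Z r D ≤ Z r D') : D.length ≤ D'.length + 2 * r + 4 := by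
  obtain ⟨⟨k, hk⟩, _⟩ := (hP r).2.2.2.1 D D' hw
  obtain ⟨D'', h1, h2, h3⟩ := hC r D' (Z r D) hz hZ ⟨-k, by rw [hk]; ring⟩
  have h4 := hG D'' (eqw_trans hw (eqw_of_perm h1.symm)) h2
  have h5 := cost_le p q D''
  have h6 := len_le_cost p q D
  have h7 := card_le (r := r) D'
  have h8 := h1.length_eq
  omega

lemma part2 [NeZero r] (hP : StmtPAR) (p q : ZMod (2 * r)) (A B : List (ZMod (2 * r)))
    (x : ZMod (2 * r)) : ¬ Geo r p q (A ++ x :: (x + (r : ZMod (2 * r))) :: B) := by
  intro hG
  obtain ⟨h1, h2⟩ := (hP r).2.2.2.2 A B x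
  have := hG (A ++ B) h2 h1.symm
  have := cost_cancel p q A B x
  omega

lemma brk_eq_chg (D : List (ZMod (2 * r)))
    (h : ∀ A B x, D ≠ A ++ x :: (x + (r : ZMod (2 * r))) :: B) : brk r D = chg r D := by
  induction D with
  | nil => simp [brk, chg]
  | cons x D ih =>
    cases D with
    | nil => simp [brk, chg]
    | cons y D =>
      have ih' := ih (fun A B z hz => h (x :: A) B z (by rw [hz]; simp))
      simp only [brk, chg, ih']
      congr 1
      by_cases h1 : y = x
      · simp [h1, ax_refl]
      · have h2 : ¬ ax r x y := by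
          intro h3
          rcases h3 with h3 | h3
          · exact h1 h3
          · exact h [] D x (by rw [h3]; simp)
        simp [h1, h2]

lemma chg_map (f : ZMod (2 * r) → ZMod (2 * r)) (hf : Function.Injective f)
    (D : List (ZMod (2 * r))) : chg r (D.map f) = chg r D := by
  induction D with
  | nil => simp [chg]
  | cons x D ih =>
    cases D with
    | nil => simp [chg]
    | cons y D =>
      simp only [List.map_cons, chg] at ih ⊢
      rw [ih]
      simp [hf.eq_iff]

lemma part3a [NeZero r] (hC : StmtC) (p q : ZMod (2 * r)) (D : List (ZMod (2 * r)))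
    (hG : Geo r p q D) (hz : 0 ≤ Z r D) : brk r D ≤ D.toFinset.card + 4 := by
  obtain ⟨D'', h1, h2, h3⟩ := hC r D (Z r D) hz le_rfl ⟨0, by ring⟩
  have h4 := hG D'' (eqw_of_perm h1.symm) h2
  have h5 := cost_le p q D''
  have h6 := len_le_cost p q D
  have h8 := h1.length_eq
  omega

lemma part3 [NeZero r] (hC : StmtC) (hP : StmtPAR) (hS : StmtSYM) (p q : ZMod (2 * r))
    (D : List (ZMod (2 * r))) (hG : Geo r p q D) :
    brk r D = chg r D ∧ chg r D ≤ D.toFinset.card + 4 := by
  have h0 : brk r D = chg r D :=
    brk_eq_chg D (fun A B x h => part2 hP p q A B x (h ▸ hG))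
  refine ⟨h0, ?_⟩
  by_cases hz : 0 ≤ Z r D
  · rw [← h0]; exact part3a hC p q D hG hz
  · have hG' := ((hS r).2.2.2.1 p q D hG).2
    have hz' : 0 ≤ Z r (D.map (fun x => -x)) := by rw [((hS r).1 D).2]; omega
    have h1 := part3a hC (-p) (-q) _ hG' hz'
    have h2 : brk r (D.map (fun x => -x)) = chg r (D.map (fun x => -x)) :=
      brk_eq_chg _ (fun A B x h => part2 hP (-p) (-q) A B x (h ▸ hG'))
    rw [h2, chg_map _ neg_injective] at h1
    have h3 : (D.map (fun x => -x)).toFinset.card ≤ D.toFinset.card := by
      have : (D.map (fun x => -x)).toFinset = D.toFinset.image (fun x => -x) := by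
        ext y; simp
      rw [this]
      exact Finset.card_image_le
    omega

/-- expansion of a block list -/
def expd (l : List (ZMod (2 * r) × ℕ)) : List (ZMod (2 * r)) :=
  l.flatMap (fun e => List.replicate e.2 e.1)

lemma expd_rep (k : ℕ) : expd (List.replicate k ((0 : ZMod (2 * r)), 0)) = [] := by
  unfold expd
  induction k with
  | zero => simp
  | succ k ih => simp [List.replicate_succ]

lemma blocks (D : List (ZMod (2 * r))) : ∀ (x : ZMod (2 * r)) (K : ℕ), chg r (x :: D) ≤ K →
    ∃ (m : ℕ) (l : List (ZMod (2 * r) × ℕ)), l.length = K ∧ x :: D = expd ((x, m + 1) :: l) ∧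
      m + 1 ≤ (x :: D).length ∧ ∀ e ∈ l, e.2 ≤ (x :: D).length := by
  induction D with
  | nil =>
    intro x K _
    refine ⟨0, List.replicate K (0, 0), by simp, ?_, by simp, ?_⟩
    · have := expd_rep (r := r) K
      unfold expd at this ⊢
      simp [this]
    · intro e he
      rw [List.eq_of_mem_replicate he]
      simp
  | cons y D ih =>
    intro x K hK
    simp only [chg] at hK
    by_cases h : y = x
    · subst h
      simp only [if_true, zero_add] at hK
      obtain ⟨m, l, h1, h2, h3, h4⟩ := ih y K hK
      refine ⟨m + 1, l, h1, ?_, ?_, ?_⟩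
      · rw [h2]
        unfold expd
        simp [List.replicate_succ]
      · simp only [List.length_cons] at h3 ⊢; omega
      · intro e he
        have := h4 e he
        simp only [List.length_cons] at this ⊢; omega
    · simp only [h, if_false] at hK
      obtain ⟨K', rfl⟩ : ∃ K', K = K' + 1 := ⟨K - 1, by omega⟩
      obtain ⟨m, l, h1, h2, h3, h4⟩ := ih y K' (by omega)
      refine ⟨0, (y, m + 1) :: l, by simp [h1], ?_, by simp, ?_⟩
      · rw [h2]
        unfold expd
        simp
      · intro e he
        rcases List.mem_cons.1 he with rfl | he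
        · simp only [List.length_cons] at h3 ⊢; omega
        · have := h4 e he
          simp only [List.length_cons] at this ⊢; omega

lemma blocks' (D : List (ZMod (2 * r))) (K : ℕ) (hK : chg r D ≤ K) :
    ∃ l : List (ZMod (2 * r) × ℕ), l.length = K + 1 ∧ D = expd l ∧ ∀ e ∈ l, e.2 ≤ D.length := by
  cases D with
  | nil =>
    refine ⟨List.replicate (K + 1) (0, 0), by simp, (expd_rep _).symm, ?_⟩
    intro e he
    rw [List.eq_of_mem_replicate he]
    simp
  | cons x D =>
    obtain ⟨m, l, h1, h2, h3, h4⟩ := blocks D x K hK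
    refine ⟨(x, m + 1) :: l, by simp [h1], h2, ?_⟩
    intro e he
    rcases List.mem_cons.1 he with rfl | he
    · exact h3
    · exact h4 e he

lemma count_few [NeZero r] (K n : ℕ) :
    {D : List (ZMod (2 * r)) | D.length ≤ n ∧ chg r D ≤ K}.Finite ∧
    Set.ncard {D : List (ZMod (2 * r)) | D.length ≤ n ∧ chg r D ≤ K} ≤
      (2 * r * (n + 1)) ^ (K + 1) := by
  let F : (Fin (K + 1) → ZMod (2 * r) × Fin (n + 1)) → List (ZMod (2 * r)) :=
    fun f => expd ((List.ofFn f).map (fun e => (e.1, (e.2 : ℕ))))
  have hsub : {D : List (ZMod (2 * r)) | D.length ≤ n ∧ chg r D ≤ K} ⊆ Set.range F := by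
    rintro D ⟨h1, h2⟩
    obtain ⟨l, h3, h4, h5⟩ := blocks' D K h2
    refine ⟨fun i => ((l.get (i.cast h3.symm)).1,
      ⟨(l.get (i.cast h3.symm)).2, by
        have := h5 _ (List.get_mem l (i.cast h3.symm)); omega⟩), ?_⟩
    simp only [F]
    refine Eq.trans ?_ h4.symm
    congr 1
    apply List.ext_get
    · simp [h3]
    · intro i hi1 hi2
      simp only [List.get_eq_getElem, List.getElem_map, List.getElem_ofFn]
      rfl
  have hfin : (Set.range F).Finite := Set.finite_range F
  refine ⟨hfin.subset hsub, ?_⟩
  calc Set.ncard {D : List (ZMod (2 * r)) | D.length ≤ n ∧ chg r D ≤ K}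
      ≤ (Set.range F).ncard := Set.ncard_le_ncard hsub hfin
    _ = Nat.card (Set.range F) := rfl
    _ ≤ Nat.card (Fin (K + 1) → ZMod (2 * r) × Fin (n + 1)) := Finite.card_range_le F
    _ = (2 * r * (n + 1)) ^ (K + 1) := by
        simp [Nat.card_eq_fintype_card, ZMod.card]

lemma part4 [NeZero r] (hC : StmtC) (hP : StmtPAR) (hS : StmtSYM) (p q : ZMod (2 * r)) :
    ∃ C : ℕ, ∀ n, geoCount r p q n ≤ C * (n + 1) ^ (2 * r + 6) := by
  refine ⟨(2 * r) ^ (2 * r + 5), fun n => ?_⟩
  have h1 := count_few (r := r) (2 * r + 4) n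
  have h2 : geoCount r p q n ≤
      Set.ncard {D : List (ZMod (2 * r)) | D.length ≤ n ∧ chg r D ≤ 2 * r + 4} := by
    unfold geoCount
    apply Set.ncard_le_ncard _ h1.1
    rintro D ⟨h3, h4⟩
    refine ⟨h3, ?_⟩
    have h5 := (part3 hC hP hS p q D h4).2
    have h6 := card_le (r := r) D
    omega
  refine (h2.trans h1.2).trans ?_
  rw [mul_pow]
  apply Nat.mul_le_mul_left
  exact Nat.pow_le_pow_right (by omega) (by omega)

end D

theorem d (hC : StmtC) (hP : StmtPAR) (hS : StmtSYM) : StmtD := by
  intro r _ p q
  refine ⟨fun D hG hz D' hw hZ => GG.D.part1 hC hP p q D hG hz D' hw hZ,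
    fun A B x => GG.D.part2 hP p q A B x, fun D hG => GG.D.part3 hC hP hS p q D hG,
    GG.D.part4 hC hP hS p q⟩

end Pool.Agent.T6.H25.GG
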