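import Pool.Agent.T6.H25.GG.Stmts

/-! Module E of the project MP_b6554e_al: nine squares with prescribed sum. -/

set_option autoImplicit false

namespace Pool.Agent.T6.H25.GG

namespace E

open Finset

/-- nine squares from four pairs of equal numbers and one more number -/
theorem nine (p0 p1 p2 p3 z σ N : ℤ) (h1 : 2 * (p0 + p1 + p2 + p3) + z = σ)
    (h2 : ∃ M : ℕ, N = 2 * (p0 ^ 2 + p1 ^ 2 + p2 ^ 2 + p3 ^ 2) + z ^ 2 + 2 * M) :
    ∃ u : Fin 9 → ℤ, ∑ i, u i = σ ∧ ∑ i, (u i) ^ 2 = N := by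
  obtain ⟨M, hM⟩ := h2
  obtain ⟨a, b, c, d, h⟩ := Nat.sum_four_squares M
  have h' : (a : ℤ) ^ 2 + (b : ℤ) ^ 2 + (c : ℤ) ^ 2 + (d : ℤ) ^ 2 = M := by exact_mod_cast h
  refine ⟨![p0 + a, p0 - a, p1 + b, p1 - b, p2 + c, p2 - c, p3 + d, p3 - d, z], ?_, ?_⟩
  · simp [Fin.sum_univ_succ]
    linarith
  · simp [Fin.sum_univ_succ]
    rw [hM, ← h']
    ring

theorem half {A : ℤ} (h0 : 0 ≤ A) (h1 : ∃ k : ℤ, A = 2 * k) : ∃ M : ℕ, A = 2 * (M : ℤ) := by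
  obtain ⟨k, hk⟩ := h1
  exact ⟨k.toNat, by omega⟩

end E

theorem e : StmtE := by
  intro σ N ⟨j, hj⟩ hN
  obtain ⟨q, k, hk0, hk9, hσ⟩ : ∃ q k : ℤ, 0 ≤ k ∧ k < 9 ∧ σ = 9 * q + k :=
    ⟨σ / 9, σ % 9, by omega, by omega, by omega⟩
  have key : ∀ S : ℤ, S = 9 * q ^ 2 + 2 * q * k + k → ∃ M : ℕ, N = S + 2 * M := by
    intro S hS
    have h9 : 9 * S = σ ^ 2 + 9 * k - k ^ 2 := by rw [hS, hσ]; ring
    have hkk : 9 * k - k ^ 2 ≤ 20 := by nlinarith [mul_nonneg (sub_nonneg.2 (show k ≤ 9 by omega)) hk0, sq_nonneg (2 * k - 9)]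
    have h0 : 0 ≤ N - S := by omega
    obtain ⟨t, ht⟩ : ∃ t : ℤ, q ^ 2 - q = 2 * t := by
      obtain ⟨t, ht⟩ := Int.even_mul_pred_self q
      exact ⟨t, by rw [← two_mul] at ht; linarith⟩
    obtain ⟨M, hM⟩ := E.half h0 ⟨j + 4 * q - 9 * t - q * k - 4 * q, by
      rw [hS, hj, hσ]
      have : 9 * q ^ 2 = 9 * q + 18 * t := by linarith
      linarith⟩
    exact ⟨M, by linarith⟩
  interval_cases k
  · exact E.nine q q q q q σ N (by rw [hσ]; ring) (by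
      obtain ⟨M, hM⟩ := key _ rfl
      exact ⟨M, by rw [hM]; ring⟩)
  · exact E.nine q q q q (q + 1) σ N (by rw [hσ]; ring) (by
      obtain ⟨M, hM⟩ := key _ rfl
      exact ⟨M, by rw [hM]; ring⟩)
  · exact E.nine (q + 1) q q q q σ N (by rw [hσ]; ring) (by
      obtain ⟨M, hM⟩ := key _ rfl
      exact ⟨M, by rw [hM]; ring⟩)
  · exact E.nine (q + 1) q q q (q + 1) σ N (by rw [hσ]; ring) (by
      obtain ⟨M, hM⟩ := key _ rfl
      exact ⟨M, by rw [hM]; ring⟩)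
  · exact E.nine (q + 1) (q + 1) q q q σ N (by rw [hσ]; ring) (by
      obtain ⟨M, hM⟩ := key _ rfl
      exact ⟨M, by rw [hM]; ring⟩)
  · exact E.nine (q + 1) (q + 1) q q (q + 1) σ N (by rw [hσ]; ring) (by
      obtain ⟨M, hM⟩ := key _ rfl
      exact ⟨M, by rw [hM]; ring⟩)
  · exact E.nine (q + 1) (q + 1) (q + 1) q q σ N (by rw [hσ]; ring) (by
      obtain ⟨M, hM⟩ := key _ rfl
      exact ⟨M, by rw [hM]; ring⟩)
  · exact E.nine (q + 1) (q + 1) (q + 1) q (q + 1) σ N (by rw [hσ]; ring) (by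
      obtain ⟨M, hM⟩ := key _ rfl
      exact ⟨M, by rw [hM]; ring⟩)
  · exact E.nine (q + 1) (q + 1) (q + 1) (q + 1) q σ N (by rw [hσ]; ring) (by
      obtain ⟨M, hM⟩ := key _ rfl
      exact ⟨M, by rw [hM]; ring⟩)

end Pool.Agent.T6.H25.GG
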