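import Pool.Agent.T6.H25.GG.Stmts

/-! Module EL of the project MP_b6554e_al: exact compensation. -/

set_option autoImplicit false

namespace Pool.Agent.T6.H25.GG

open Finset

namespace EL

/-- pair moves with an explicit new length vector -/
theorem pm (hM : StmtMV) (r : ℕ) [NeZero r] (a c a' : ZMod (2 * r)) (m : ℕ) (L : ℕ → ℕ) (m' : ℕ)
    (y : ℕ → ℤ) (hy : ∀ i < r, 0 ≤ (L i : ℤ) + y i ∧ 0 ≤ (L (i + r) : ℤ) + y i) :
    ∃ L' : ℕ → ℕ, (∀ x < 2 * r, (L' x : ℤ) = L x + y (if x < r then x else x - r)) ∧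
      (∀ x, 2 * r ≤ x → L' x = L x) ∧
      Eqw r (wd r a c a' m L m') (wd r a c a' m L' m') ∧
      (tot r m L' m' : ℤ) = tot r m L m' + 2 * ∑ i ∈ range r, y i ∧
      Z r (wd r a c a' m L' m') = Z r (wd r a c a' m L m') + 2 * ∑ i ∈ range r, Gf r L i * y i
        + (∑ i ∈ range r, y i) ^ 2 - ∑ i ∈ range r, (y i) ^ 2 := by
  set L' : ℕ → ℕ := fun x =>
    if x < 2 * r then ((L x : ℤ) + y (if x < r then x else x - r)).toNat else L x with hL'
  have h1 : ∀ x < 2 * r, (L' x : ℤ) = L x + y (if x < r then x else x - r) := by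
    intro x hx
    simp only [hL', if_pos hx]
    rw [Int.toNat_of_nonneg]
    by_cases hxr : x < r
    · simp only [if_pos hxr]
      exact (hy x hxr).1
    · simp only [if_neg hxr]
      have := (hy (x - r) (by omega)).2
      rwa [show x - r + r = x by omega] at this
  have h2 : ∀ x, 2 * r ≤ x → L' x = L x := by
    intro x hx
    simp only [hL', if_neg (not_lt.mpr hx)]
  obtain ⟨h3, h4, h5, -⟩ := (hM r a c a' m L m').1 y L' h1
  exact ⟨L', h1, h2, h3, h4, h5⟩

theorem eqw_trans {r : ℕ} {A B C : List (ZMod (2 * r))} (h : Eqw r A B) (h' : Eqw r B C) :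
    Eqw r A C := fun x => (h x).trans (h' x)

theorem sum_two (r i j : ℕ) (hi : i < r) (hj : j < r) (α β : ℤ) (f : ℕ → ℤ) :
    ∑ k ∈ range r, f k * ((if k = i then α else 0) + (if k = j then β else 0)) =
      f i * α + f j * β := by
  simp [mul_add, Finset.sum_add_distrib, hi, hj]

theorem sum_two' (r i j : ℕ) (hi : i < r) (hj : j < r) (α β : ℤ) :
    ∑ k ∈ range r, ((if k = i then α else 0) + (if k = j then β else 0)) = α + β := by
  simp [Finset.sum_add_distrib, hi, hj]

theorem sum_two_sq (r i j : ℕ) (hi : i < r) (hj : j < r) (hij : i ≠ j) (α β : ℤ) :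
    ∑ k ∈ range r, ((if k = i then α else 0) + (if k = j then β else 0)) ^ 2 =
      α ^ 2 + β ^ 2 := by
  have h := sum_two r i j hi hj α β
    (fun k => (if k = i then α else 0) + (if k = j then β else 0))
  have hji : j ≠ i := fun h => hij h.symm
  simp only [if_true, if_neg hij, if_neg hji, add_zero, zero_add] at h
  simp only [sq]
  exact h

/-- a shorter word cannot have large area -/
theorem noimp (hD : StmtD) (hA : StmtALG) (r : ℕ) [NeZero r] (p q : ZMod (2 * r))
    (D : List (ZMod (2 * r))) (hG : Geo r p q D) (hZ : 0 ≤ Z r D)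
    (a c a' : ZMod (2 * r)) (m : ℕ) (L' : ℕ → ℕ) (m' : ℕ) (hE : Eqw r D (wd r a c a' m L' m'))
    (ht : (tot r m L' m' : ℤ) + 2 * (r + 3) ≤ D.length) :
    Z r (wd r a c a' m L' m') < Z r D := by
  by_contra hc
  push Not at hc
  have h := (hD r p q).1 D hG hZ _ hE hc
  rw [(hA r).2.2.2.2.1] at h
  have h' : (D.length : ℤ) ≤ tot r m L' m' + 2 * r + 4 := by exact_mod_cast h
  linarith

theorem Gf_nonneg (r : ℕ) (L : ℕ → ℕ) (i : ℕ) : 0 ≤ Gf r L i := by
  unfold Gf
  positivity

theorem Gf_le_tot (r m : ℕ) (L : ℕ → ℕ) (m' i : ℕ) (hi : i < r) :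
    Gf r L i ≤ (tot r m L m' : ℤ) := by
  unfold Gf tot
  have h : ∑ x ∈ Ioo i (i + r), (L x : ℤ) ≤ ∑ x ∈ range (2 * r), (L x : ℤ) := by
    apply Finset.sum_le_sum_of_subset_of_nonneg
    · intro x hx
      rw [Finset.mem_Ioo] at hx
      rw [Finset.mem_range]
      omega
    · intro x _ _
      positivity
  push_cast
  linarith [Int.natCast_nonneg m, Int.natCast_nonneg m']

/-- T1 -/
theorem t1 (hD : StmtD) (hA : StmtALG) (hM : StmtMV) (r : ℕ) [NeZero r] (p q : ZMod (2 * r))
    (D : List (ZMod (2 * r))) (s : ℕ) (hG : Geo r p q D) (hZ : 0 ≤ Z r D) (hs : 1 ≤ s)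
    (hlen : D.length ≤ s ^ 2)
    (a c a' : ZMod (2 * r)) (m : ℕ) (L : ℕ → ℕ) (m' : ℕ) (hE : Eqw r D (wd r a c a' m L m'))
    (ht : tot r m L m' ≤ D.length) (hV : Z r D ≤ Z r (wd r a c a' m L m'))
    (i j : ℕ) (hi : i < r) (hj : j < r) (hLj : s + (r + 3) ≤ L j) (hLj' : s + (r + 3) ≤ L (j + r)) :
    Gf r L i - Gf r L j ≤ (2 * r + 7) * s := by
  rcases eq_or_ne i j with hij | hij
  · subst hij
    rw [sub_self]
    positivity
  obtain ⟨L', -, -, h3, h4, h5⟩ := pm hM r a c a' m L m'
    (fun k => (if k = i then (s : ℤ) else 0) + (if k = j then -((s : ℤ) + (r + 3)) else 0)) (by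
      intro k _
      by_cases hki : k = i
      · subst hki
        simp only [if_true, if_neg hij]
        constructor <;> positivity
      · simp only [if_neg hki]
        by_cases hkj : k = j
        · subst hkj
          simp only [if_true]
          have e1 : (s : ℤ) + (r + 3) ≤ L k := by exact_mod_cast hLj
          have e2 : (s : ℤ) + (r + 3) ≤ L (k + r) := by exact_mod_cast hLj'
          constructor <;> linarith
        · simp only [if_neg hkj]
          constructor <;> positivity)
  rw [sum_two' r i j hi hj] at h4 h5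
  rw [sum_two r i j hi hj, sum_two_sq r i j hi hj hij] at h5
  have ht' : (tot r m L m' : ℤ) ≤ D.length := by exact_mod_cast ht
  have hno := noimp hD hA r p q D hG hZ a c a' m L' m' (eqw_trans hE h3) (by
    rw [h4]
    linarith)
  rw [h5] at hno
  have hGj : Gf r L j ≤ (s : ℤ) ^ 2 := by
    have := Gf_le_tot r m L m' j hj
    have h2 : (D.length : ℤ) ≤ (s : ℤ) ^ 2 := by exact_mod_cast hlen
    linarith
  have hs' : (1 : ℤ) ≤ s := by exact_mod_cast hs
  have hr' : (0 : ℤ) ≤ r := Int.natCast_nonneg r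
  have key : 2 * (s : ℤ) * (Gf r L i - Gf r L j) < 2 * (r + 3) * s ^ 2 + 2 * s ^ 2 + 2 * s * (r + 3) := by
    have hGj' : (r + 3 : ℤ) * Gf r L j ≤ (r + 3) * s ^ 2 :=
      mul_le_mul_of_nonneg_left hGj (by linarith)
    nlinarith
  have key2 : (Gf r L i - Gf r L j) < (r + 3) * s + s + (r + 3) := by
    have : 2 * (s : ℤ) * (Gf r L i - Gf r L j) < 2 * s * ((r + 3) * s + s + (r + 3)) := by
      nlinarith
    exact lt_of_mul_lt_mul_left this (by linarith)
  nlinarith

/-- T2 -/
theorem t2 (hD : StmtD) (hA : StmtALG) (hM : StmtMV) (r : ℕ) [NeZero r] (p q : ZMod (2 * r))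
    (D : List (ZMod (2 * r))) (s : ℕ) (hG : Geo r p q D) (hZ : 0 ≤ Z r D)
    (hlen : D.length ≤ s ^ 2)
    (a c a' : ZMod (2 * r)) (m : ℕ) (L : ℕ → ℕ) (m' : ℕ) (hE : Eqw r D (wd r a c a' m L m'))
    (ht : tot r m L m' ≤ D.length)
    (j : ℕ) (hj : j < r) (hLj : r + 3 ≤ L j) (hLj' : r + 3 ≤ L (j + r)) :
    Z r (wd r a c a' m L m') - Z r D < 2 * (r + 3) * s ^ 2 := by
  obtain ⟨L', -, -, h3, h4, h5⟩ := pm hM r a c a' m L m'
    (fun k => (if k = j then -((r : ℤ) + 3) else 0)) (by
      intro k _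
      by_cases hkj : k = j
      · subst hkj
        simp only [if_true]
        have e1 : (r : ℤ) + 3 ≤ L k := by exact_mod_cast hLj
        have e2 : (r : ℤ) + 3 ≤ L (k + r) := by exact_mod_cast hLj'
        constructor <;> linarith
      · simp only [if_neg hkj]
        constructor <;> positivity)
  have e1 : ∑ i ∈ range r, (if i = j then -((r : ℤ) + 3) else 0) = -((r : ℤ) + 3) := by
    simp [hj]
  have e2 : ∑ i ∈ range r, Gf r L i * (if i = j then -((r : ℤ) + 3) else 0) =
      Gf r L j * (-((r : ℤ) + 3)) := by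
    simp [hj]
  have e3 : ∑ i ∈ range r, (if i = j then -((r : ℤ) + 3) else 0) ^ 2 = (-((r : ℤ) + 3)) ^ 2 := by
    simp [hj]
  rw [e1] at h4 h5
  rw [e2, e3] at h5
  have ht' : (tot r m L m' : ℤ) ≤ D.length := by exact_mod_cast ht
  have hno := noimp hD hA r p q D hG hZ a c a' m L' m' (eqw_trans hE h3) (by
    rw [h4]
    linarith)
  rw [h5] at hno
  have hGj : Gf r L j ≤ (s : ℤ) ^ 2 := by
    have := Gf_le_tot r m L m' j hj
    have h2 : (D.length : ℤ) ≤ (s : ℤ) ^ 2 := by exact_mod_cast hlen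
    linarith
  have hr' : (0 : ℤ) ≤ r := Int.natCast_nonneg r
  nlinarith

theorem E_on (hE : StmtE) (J : Finset ℕ) (hJ : J.card = 9) (σ N : ℤ)
    (h1 : ∃ k : ℤ, N = σ + 2 * k) (h2 : σ ^ 2 + 21 ≤ 9 * N) :
    ∃ u : ℕ → ℤ, ∑ k ∈ J, u k = σ ∧ ∑ k ∈ J, (u k) ^ 2 = N := by
  obtain ⟨u, hu1, hu2⟩ := hE σ N h1 h2
  let e := J.equivFinOfCardEq hJ
  refine ⟨fun k => if h : k ∈ J then u (e ⟨k, h⟩) else 0, ?_, ?_⟩
  · rw [← Finset.sum_coe_sort, ← hu1, ← Equiv.sum_comp e]
    apply Finset.sum_congr rfl
    intro x _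
    simp
  · rw [← Finset.sum_coe_sort, ← hu2, ← Equiv.sum_comp e]
    apply Finset.sum_congr rfl
    intro x _
    simp

/-- exactness when the excess is at least `4` -/
theorem exact4 (hD : StmtD) (hSE : StmtE) (hM : StmtMV) (hA : StmtALG) (r : ℕ) [NeZero r]
    (p q : ZMod (2 * r))
    (D : List (ZMod (2 * r))) (s : ℕ) (hG : Geo r p q D) (hZ : 0 ≤ Z r D) (hs : 1 ≤ s)
    (hlen : D.length ≤ s ^ 2)
    (a c a' : ZMod (2 * r)) (m : ℕ) (L : ℕ → ℕ) (m' : ℕ) (hE : Eqw r D (wd r a c a' m L m'))
    (ht : tot r m L m' ≤ D.length) (W : ℤ) (hW : Z r (wd r a c a' m L m') = Z r D + 2 * W)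
    (hW2 : 2 ≤ W) (J : Finset ℕ) (hJ : J.card = 9) (hJr : ∀ j ∈ J, j < r)
    (hJL : ∀ j ∈ J, KK r * s ≤ L j + 1 ∧ KK r * s ≤ L (j + r) + 1) :
    ∃ L' : ℕ → ℕ, (∀ x, L' x = 0 ↔ L x = 0) ∧ Eqw r D (wd r a c a' m L' m') ∧
      tot r m L' m' = tot r m L m' ∧ Z r (wd r a c a' m L' m') = Z r D := by
  have hs' : (1 : ℤ) ≤ s := by exact_mod_cast hs
  have hr' : (0 : ℤ) ≤ r := Int.natCast_nonneg r
  have hbig : ∀ j ∈ J, (8 * (r : ℤ) + 29) * s < L j ∧ (8 * (r : ℤ) + 29) * s < L (j + r) := by
    intro j hj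
    obtain ⟨e1, e2⟩ := hJL j hj
    unfold KK at e1 e2
    have e1' : (100 * (r : ℤ) + 1000) * s ≤ L j + 1 := by exact_mod_cast e1
    have e2' : (100 * (r : ℤ) + 1000) * s ≤ L (j + r) + 1 := by exact_mod_cast e2
    constructor <;> nlinarith
  have hbig1 : ∀ j ∈ J, s + (r + 3) ≤ L j ∧ s + (r + 3) ≤ L (j + r) := by
    intro j hj
    obtain ⟨e1, e2⟩ := hbig j hj
    have e1' : (s : ℤ) + (r + 3) ≤ L j := by nlinarith
    have e2' : (s : ℤ) + (r + 3) ≤ L (j + r) := by nlinarith
    exact ⟨by exact_mod_cast e1', by exact_mod_cast e2'⟩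
  obtain ⟨j0, hj0⟩ : J.Nonempty := by
    rw [← Finset.card_pos]
    omega
  have hVge : Z r D ≤ Z r (wd r a c a' m L m') := by linarith
  set γ := Gf r L j0 with hγ
  set g : ℕ → ℤ := fun i => Gf r L i - γ with hg
  have hgb : ∀ i ∈ J, |g i| ≤ (2 * r + 7) * s := by
    intro i hi
    rw [abs_le]
    have b1 := t1 hD hA hM r p q D s hG hZ hs hlen a c a' m L m' hE ht hVge i j0 (hJr i hi)
      (hJr j0 hj0) (hbig1 j0 hj0).1 (hbig1 j0 hj0).2
    have b2 := t1 hD hA hM r p q D s hG hZ hs hlen a c a' m L m' hE ht hVge j0 i (hJr j0 hj0)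
      (hJr i hi) (hbig1 i hi).1 (hbig1 i hi).2
    simp only [hg, hγ]
    constructor <;> linarith
  have hWb : 2 * W < 2 * (r + 3) * s ^ 2 := by
    have := t2 hD hA hM r p q D s hG hZ hlen a c a' m L m' hE ht j0 (hJr j0 hj0)
      (le_trans (by omega) (hbig1 j0 hj0).1) (le_trans (by omega) (hbig1 j0 hj0).2)
    rw [hW] at this
    linarith
  -- the sums of squares
  set σ : ℤ := - ∑ k ∈ J, g k with hσ
  set N : ℤ := 2 * W + ∑ k ∈ J, (g k) ^ 2 with hN
  have hpar : ∃ k : ℤ, N = σ + 2 * k := by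
    have h2 : (2 : ℤ) ∣ ∑ k ∈ J, ((g k) ^ 2 + g k) := by
      apply Finset.dvd_sum
      intro k _
      have := Int.even_mul_succ_self (g k)
      rw [show (g k) ^ 2 + g k = g k * (g k + 1) by ring]
      exact this.two_dvd
    obtain ⟨t, ht⟩ := h2
    rw [Finset.sum_add_distrib] at ht
    exact ⟨W + t, by rw [hN, hσ]; linarith⟩
  have hcs : (∑ k ∈ J, g k) ^ 2 ≤ 9 * ∑ k ∈ J, (g k) ^ 2 := by
    have := sq_sum_le_card_mul_sum_sq (s := J) (f := g)
    rw [hJ] at this
    exact_mod_cast this
  obtain ⟨u, hu1, hu2⟩ := E_on hSE J hJ σ N hpar (by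
    rw [hσ, hN, neg_sq]
    linarith)
  have hgsq : ∑ k ∈ J, (g k) ^ 2 ≤ 9 * ((2 * r + 7) * s) ^ 2 := by
    calc ∑ k ∈ J, (g k) ^ 2 ≤ ∑ _k ∈ J, ((2 * (r : ℤ) + 7) * s) ^ 2 := by
          apply Finset.sum_le_sum
          intro k hk
          rw [← sq_abs (g k)]
          exact pow_le_pow_left₀ (abs_nonneg _) (hgb k hk) 2
      _ = 9 * ((2 * r + 7) * s) ^ 2 := by
          rw [Finset.sum_const, hJ]
          simp
  have hNb : N ≤ ((6 * r + 22) * s) ^ 2 := by
    have : 2 * W + 9 * ((2 * (r : ℤ) + 7) * s) ^ 2 ≤ ((6 * r + 22) * s) ^ 2 := by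
      nlinarith [sq_nonneg (s : ℤ), mul_nonneg hr' (sq_nonneg (s : ℤ))]
    rw [hN]
    linarith
  have hub : ∀ k ∈ J, |u k| ≤ (6 * r + 22) * s := by
    intro k hk
    have h1 : (u k) ^ 2 ≤ ∑ k ∈ J, (u k) ^ 2 :=
      Finset.single_le_sum (f := fun k => (u k) ^ 2) (fun i _ => sq_nonneg _) hk
    rw [hu2] at h1
    exact abs_le_of_sq_le_sq (h1.trans hNb) (by positivity)
  set y : ℕ → ℤ := fun k => if k ∈ J then u k + g k else 0 with hy
  have hyb : ∀ k, |y k| ≤ (8 * r + 29) * s := by
    intro k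
    by_cases hk : k ∈ J
    · simp only [hy, if_pos hk]
      have b1 := hub k hk
      have b2 := hgb k hk
      have := abs_add_le (u k) (g k)
      nlinarith
    · simp only [hy, if_neg hk, abs_zero]
      positivity
  obtain ⟨L', h1, h2, h3, h4, h5⟩ := pm hM r a c a' m L m' y (by
    intro k _
    by_cases hk : k ∈ J
    · obtain ⟨e1, e2⟩ := hbig k hk
      have := abs_le.mp (hyb k)
      constructor <;> linarith
    · simp only [hy, if_neg hk]
      constructor <;> positivity)
  have hsub : J ⊆ range r := fun k hk => Finset.mem_range.mpr (hJr k hk)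
  have hsum : ∀ f : ℕ → ℤ, ∑ i ∈ range r, f i * y i = ∑ i ∈ J, f i * (u i + g i) := by
    intro f
    rw [← Finset.sum_subset hsub (f := fun i => f i * y i)]
    · apply Finset.sum_congr rfl
      intro k hk
      simp only [hy, if_pos hk]
    · intro k _ hk
      simp only [hy, if_neg hk, mul_zero]
  have hy0 : ∑ i ∈ range r, y i = 0 := by
    have := hsum (fun _ => 1)
    simp only [one_mul] at this
    rw [this, Finset.sum_add_distrib, hu1, hσ]
    ring
  have hysq : ∑ i ∈ range r, (y i) ^ 2 = ∑ i ∈ J, (u i + g i) ^ 2 := by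
    have := hsum y
    calc ∑ i ∈ range r, (y i) ^ 2 = ∑ i ∈ range r, y i * y i := by
          apply Finset.sum_congr rfl
          intro k _
          ring
      _ = ∑ i ∈ J, y i * (u i + g i) := this
      _ = ∑ i ∈ J, (u i + g i) ^ 2 := by
          apply Finset.sum_congr rfl
          intro k hk
          simp only [hy, if_pos hk]
          ring
  have hGy : ∑ i ∈ range r, Gf r L i * y i = ∑ i ∈ J, g i * (u i + g i) := by
    rw [hsum]
    have e : ∑ i ∈ J, (u i + g i) = 0 := by
      rw [Finset.sum_add_distrib, hu1, hσ]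
      ring
    have e2 : ∑ i ∈ J, Gf r L i * (u i + g i) =
        ∑ i ∈ J, g i * (u i + g i) + γ * ∑ i ∈ J, (u i + g i) := by
      rw [Finset.mul_sum, ← Finset.sum_add_distrib]
      apply Finset.sum_congr rfl
      intro k _
      simp only [hg]
      ring
    rw [e2, e]
    ring
  refine ⟨L', ?_, eqw_trans hE h3, ?_, ?_⟩
  · intro x
    by_cases hx : x < 2 * r
    · have hLx := h1 x hx
      set i := if x < r then x else x - r with hi
      by_cases hiJ : i ∈ J
      · have hb := hbig i hiJ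
        have hyi := abs_le.mp (hyb i)
        have hLbig : (8 * (r : ℤ) + 29) * s < L x := by
          by_cases hxr : x < r
          · rw [hi, if_pos hxr] at hb
            exact hb.1
          · rw [hi, if_neg hxr] at hb
            rw [show x - r + r = x by omega] at hb
            exact hb.2
        have p1 : (0 : ℤ) < L x := lt_of_le_of_lt (by positivity) hLbig
        have p2 : (0 : ℤ) < L' x := by
          rw [hLx]
          linarith
        have p1' : 0 < L x := by exact_mod_cast p1
        have p2' : 0 < L' x := by exact_mod_cast p2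
        omega
      · have : y i = 0 := by simp only [hy, if_neg hiJ]
        rw [this, add_zero] at hLx
        have : L' x = L x := by exact_mod_cast hLx
        rw [this]
    · rw [h2 x (not_lt.mp hx)]
  · rw [hy0] at h4
    have : (tot r m L' m' : ℤ) = tot r m L m' := by linarith
    exact_mod_cast this
  · rw [h5, hy0, hysq, hGy, hW]
    have e3 : ∑ i ∈ J, (u i + g i) ^ 2 = 2 * ∑ i ∈ J, g i * (u i + g i) + ∑ i ∈ J, (u i) ^ 2
        - ∑ i ∈ J, (g i) ^ 2 := by
      rw [Finset.mul_sum, ← Finset.sum_add_distrib, ← Finset.sum_sub_distrib]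
      apply Finset.sum_congr rfl
      intro k _
      ring
    rw [e3, hu2, hN]
    ring

end EL

open EL in
theorem el (hD : StmtD) (hSE : StmtE) (hM : StmtMV) (hP : StmtPAR) (hA : StmtALG) : StmtEL := by
  intro r _ p q D s hG hZ hs hlen a c a' m L m' hL0 hE ht hV hcard
  obtain ⟨k, hk⟩ := ((hP r).2.2.2.1 _ _ hE).1
  -- Z D = Z v + 2 k
  obtain ⟨J, hJs, hJ⟩ := Finset.exists_subset_card_eq (s := Lset r s L) (n := 9) (by omega)
  have hmem : ∀ j ∈ Lset r s L, j < r ∧ KK r * s ≤ L j ∧ KK r * s ≤ L (j + r) := by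
    intro j hj
    unfold Lset at hj
    rw [Finset.mem_filter, Finset.mem_range] at hj
    exact ⟨hj.1, hj.2.1, hj.2.2⟩
  rcases lt_trichotomy (-k) 1 with hk1 | hk1 | hk1
  · -- excess zero
    left
    refine ⟨L, fun x => Iff.rfl, hE, rfl, ?_⟩
    have : k = 0 := by linarith
    rw [hk, this]
    ring
  · -- excess two
    by_cases hex : ∃ i ∈ Lset r s L, ∃ j ∈ Lset r s L, 2 ≤ Gf r L i - Gf r L j
    · left
      obtain ⟨i, hi, j, hj, hij2⟩ := hex
      obtain ⟨hir, hi1, hi2⟩ := hmem i hi
      obtain ⟨hjr, hj1, hj2⟩ := hmem j hj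
      have hij : i ≠ j := by
        rintro rfl
        rw [sub_self] at hij2
        norm_num at hij2
      have hKpos : 1000 ≤ KK r * s := by
        unfold KK
        nlinarith
      obtain ⟨L', h1, h2, h3, h4, h5⟩ := pm hM r a c a' m L m'
        (fun k => (if k = i then (1 : ℤ) else 0) + (if k = j then (-1 : ℤ) else 0)) (by
          intro k _
          by_cases hki : k = i
          · subst hki
            simp only [if_true, if_neg hij]
            constructor <;> positivity
          · simp only [if_neg hki]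
            by_cases hkj : k = j
            · subst hkj
              simp only [if_true]
              have e1 : (1 : ℤ) ≤ L k := by exact_mod_cast (le_trans (by omega) hj1 : 1 ≤ L k)
              have e2 : (1 : ℤ) ≤ L (k + r) := by
                exact_mod_cast (le_trans (by omega) hj2 : 1 ≤ L (k + r))
              constructor <;> linarith
            · simp only [if_neg hkj]
              constructor <;> positivity)
      rw [sum_two' r i j hir hjr] at h4 h5
      rw [sum_two r i j hir hjr, sum_two_sq r i j hir hjr hij] at h5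
      have hL'tot : tot r m L' m' = tot r m L m' := by
        have : (tot r m L' m' : ℤ) = tot r m L m' := by linarith
        exact_mod_cast this
      have hbd : ∀ x < 2 * r, (L x : ℤ) - 1 ≤ L' x ∧ ((L' x : ℤ) = L x ∨ (1000 ≤ L x)) := by
        intro x hx
        have hx1 := h1 x hx
        set e := if x < r then x else x - r with he
        by_cases hei : e = i
        · have hej : e ≠ j := fun h => hij (hei.symm.trans h)
          rw [if_pos hei, if_neg hej] at hx1
          refine ⟨by linarith, Or.inr ?_⟩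
          by_cases hxr : x < r
          · rw [he, if_pos hxr] at hei
            rw [hei]
            exact le_trans hKpos hi1
          · rw [he, if_neg hxr] at hei
            have : x = i + r := by omega
            rw [this]
            exact le_trans hKpos hi2
        · rw [if_neg hei] at hx1
          by_cases hej : e = j
          · rw [if_pos hej] at hx1
            refine ⟨by linarith, Or.inr ?_⟩
            by_cases hxr : x < r
            · rw [he, if_pos hxr] at hej
              rw [hej]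
              exact le_trans hKpos hj1
            · rw [he, if_neg hxr] at hej
              have : x = j + r := by omega
              rw [this]
              exact le_trans hKpos hj2
          · rw [if_neg hej] at hx1
            exact ⟨by linarith, Or.inl (by linarith)⟩
      have hJL : ∀ j ∈ J, KK r * s ≤ L' j + 1 ∧ KK r * s ≤ L' (j + r) + 1 := by
        intro k hk
        obtain ⟨hkr, hk1, hk2⟩ := hmem k (hJs hk)
        have b1 := (hbd k (by omega)).1
        have b2 := (hbd (k + r) (by omega)).1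
        have b1' : L k ≤ L' k + 1 := by
          have : (L k : ℤ) ≤ L' k + 1 := by linarith
          exact_mod_cast this
        have b2' : L (k + r) ≤ L' (k + r) + 1 := by
          have : (L (k + r) : ℤ) ≤ L' (k + r) + 1 := by linarith
          exact_mod_cast this
        omega
      obtain ⟨L2, g1, g2, g3, g4⟩ := exact4 hD hSE hM hA r p q D s hG hZ hs hlen a c a' m L' m'
        (eqw_trans hE h3) (by omega) (-k + (Gf r L i - Gf r L j) - 1) (by
          rw [h5]
          linarith) (by linarith) J hJ (fun j hj => (hmem j (hJs hj)).1) hJL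
      refine ⟨L2, ?_, g2, by omega, g4⟩
      intro x
      rw [g1]
      by_cases hx : x < 2 * r
      · obtain ⟨b1, b2⟩ := hbd x hx
        rcases b2 with b2 | b2
        · have : L' x = L x := by exact_mod_cast b2
          rw [this]
        · have : L x ≤ L' x + 1 := by
            have : (L x : ℤ) ≤ L' x + 1 := by linarith
            exact_mod_cast this
          omega
      · rw [h2 x (not_lt.mp hx)]
    · right
      push Not at hex
      intro i hi j hj
      have b1 := hex i hi j hj
      have b2 := hex j hj i hi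
      rw [abs_le]
      constructor <;> linarith
  · left
    exact exact4 hD hSE hM hA r p q D s hG hZ hs hlen a c a' m L m' hE ht (-k) (by
      rw [hk]
      ring) (by linarith) J hJ (fun j hj => (hmem j (hJs hj)).1) (by
      intro j hj
      obtain ⟨-, e1, e2⟩ := hmem j (hJs hj)
      omega)

end Pool.Agent.T6.H25.GG
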