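import Pool.Agent.T6.H25.GG.Stmts

set_option autoImplicit false

namespace Pool.Agent.T6.H25.GG

open Finset

namespace Fin'

lemma card_le_two (r : ℕ) [NeZero r] (D : List (ZMod (2 * r))) : D.toFinset.card ≤ 2 * r := by
  have := Finset.card_le_univ D.toFinset
  rwa [ZMod.card] at this

theorem main (hA1 : StmtA1) (hA2 : StmtA2) (hD : StmtD) (hU : StmtU) (hL : StmtL)
    (β : ℕ) [NeZero (3 * (2 * β))] (hβ : 457 ≤ 2 * β) :
    ∃ (G : Type) (_ : Group G) (S : Finset G) (γ : ℕ → ℕ),
      Subgroup.closure (S : Set G) = ⊤ ∧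
      (∀ n : ℕ, γ n = Set.ncard {w : List G | w.length ≤ n ∧
          (∀ x ∈ w, x ∈ S ∨ x⁻¹ ∈ S) ∧
          ∀ v : List G, (∀ x ∈ v, x ∈ S ∨ x⁻¹ ∈ S) → v.prod = w.prod →
            w.length ≤ v.length}) ∧
      (∃ C d : ℕ, ∀ n : ℕ, 1 ≤ n → γ n ≤ C * n ^ d) ∧
      ∀ c : ℕ, ¬ ∃ C : ℕ, ∀ n : ℕ, 1 ≤ n → n ^ c ≤ C * γ n ∧ γ n ≤ C * n ^ c := by
  set B := 2 * β with hBdef
  set r := 3 * B with hr
  have hr2 : 2 ≤ r := by omega
  obtain ⟨G, instG, S, hcl, hgam⟩ := hA1 r hr2
  obtain ⟨hlow, hup⟩ := hA2 r hr2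
  refine ⟨G, instG, S, gam G S, hcl, fun n => rfl, ?_, ?_⟩
  · -- polynomial bound
    have hbrk : ∀ j D, Geo r 0 j D → brk r D ≤ 2 * r + 4 := by
      intro j D h
      obtain ⟨h1, h2⟩ := (hD r 0 j).2.2.1 D h
      have := card_le_two r D
      omega
    choose Cj hCj using fun j : ZMod (2 * r) => (hD r 0 j).2.2.2
    refine ⟨(4 * r) ^ (2 * r + 4 + 3) * ∑ j : ZMod (2 * r), Cj j * 2 ^ (2 * r + 6), 2 * r + 6, ?_⟩
    intro n hn
    rw [hgam n]
    refine (hup (2 * r + 4) hbrk n).trans ?_
    rw [mul_assoc]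
    apply Nat.mul_le_mul_left
    rw [Finset.sum_mul]
    apply Finset.sum_le_sum
    intro j _
    refine (hCj j n).trans ?_
    rw [mul_assoc, ← mul_pow]
    apply Nat.mul_le_mul_left
    apply Nat.pow_le_pow_left
    omega
  · intro c ⟨C, hC⟩
    by_cases hc : c ≤ 9 * β
    · -- lower bound contradicts the upper estimate
      obtain ⟨C0, C1, N0, hN⟩ := hL r hr2
      set N := max N0 (C1 * C * (C0 + 1) ^ (90 * β) + 1) with hNdef
      have hN1 : 1 ≤ N := by omega
      have h1 := hN N (le_max_left _ _)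
      have h2 := hlow ((C0 * N) ^ 10) (-1)
      rw [← hgam] at h2
      have h3 : gam G S ((C0 * N) ^ 10) ≤ C * (((C0 + 1) * N) ^ 10) ^ c := by
        by_cases h0 : C0 = 0
        · subst h0
          have h4 : gam G S ((0 * N) ^ 10) ≤ gam G S ((1 * N) ^ 10) := by
            rw [hgam, hgam]
            apply Set.ncard_le_ncard
            · intro W hW
              exact ⟨hW.1.trans (by simp), hW.2⟩
            · apply Set.Finite.subset (List.finite_length_le (Lt r) ((1 * N) ^ 10))
              intro W hW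
              exact hW.1
          refine h4.trans ?_
          have := (hC ((1 * N) ^ 10) (Nat.one_le_pow _ _ (by omega))).2
          simpa using this
        · have hpos : 1 ≤ (C0 * N) ^ 10 := Nat.one_le_pow _ _ (Nat.mul_pos (Nat.pos_of_ne_zero h0) hN1)
          refine ((hC _ hpos).2).trans ?_
          apply Nat.mul_le_mul_left
          apply Nat.pow_le_pow_left
          apply Nat.pow_le_pow_left
          apply Nat.mul_le_mul_right
          omega
      have h5 : (((C0 + 1) * N) ^ 10) ^ c ≤ (C0 + 1) ^ (90 * β) * N ^ (90 * β) := by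
        rw [← pow_mul, ← mul_pow]
        apply Nat.pow_le_pow_right
        · exact Nat.mul_pos (by omega) hN1
        · omega
      have h6 : N ^ (15 * r + 5) ≤ C1 * (C * ((C0 + 1) ^ (90 * β) * N ^ (90 * β))) :=
        h1.trans (Nat.mul_le_mul_left _ (h2.trans (h3.trans (Nat.mul_le_mul_left _ h5))))
      have h7 : 15 * r + 5 = 90 * β + 5 := by omega
      rw [h7, pow_add] at h6
      have h8 : N ^ 5 ≤ C1 * C * (C0 + 1) ^ (90 * β) := by
        have hp : 0 < N ^ (90 * β) := Nat.pos_of_ne_zero (pow_ne_zero _ (by omega))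
        apply Nat.le_of_mul_le_mul_left _ hp
        calc N ^ (90 * β) * N ^ 5 ≤ C1 * (C * ((C0 + 1) ^ (90 * β) * N ^ (90 * β))) := h6
          _ = N ^ (90 * β) * (C1 * C * (C0 + 1) ^ (90 * β)) := by ring
      have h9 : N ≤ N ^ 5 := Nat.le_self_pow (by norm_num) N
      have h10 : C1 * C * (C0 + 1) ^ (90 * β) + 1 ≤ N := le_max_right _ _
      omega
    · -- upper bound contradicts the lower estimate
      have hbrk : ∀ j D, Geo r 0 j D → brk r D ≤ 2 * r + 4 := by
        intro j D h
        obtain ⟨h1, h2⟩ := (hD r 0 j).2.2.1 D h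
        have := card_le_two r D
        omega
      choose Cj Nj hCj using fun j : ZMod (2 * r) => hU B hβ 0 j
      set CC := (4 * r) ^ (2 * r + 4 + 3) * ∑ j : ZMod (2 * r), Cj j with hCC
      set N := (∑ j : ZMod (2 * r), Nj j) + (C * CC + 1) with hNdef
      have h1 : gam G S (N ^ 10) ≤ CC * N ^ (45 * B + 9) := by
        rw [hgam]
        refine (hup (2 * r + 4) hbrk _).trans ?_
        rw [hCC, mul_assoc]
        apply Nat.mul_le_mul_left
        rw [Finset.sum_mul]
        apply Finset.sum_le_sum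
        intro j _
        apply hCj j N
        have : Nj j ≤ ∑ j : ZMod (2 * r), Nj j :=
          Finset.single_le_sum (f := Nj) (fun _ _ => Nat.zero_le _) (Finset.mem_univ j)
        omega
      have hN1 : 1 ≤ N := by omega
      have h2 := (hC (N ^ 10) (Nat.one_le_pow _ _ hN1)).1
      have h3 : N ^ (90 * β + 10) ≤ (N ^ 10) ^ c := by
        rw [← pow_mul]
        apply Nat.pow_le_pow_right hN1
        omega
      have h4 : N ^ (90 * β + 10) ≤ C * (CC * N ^ (45 * B + 9)) :=
        h3.trans (h2.trans (Nat.mul_le_mul_left _ h1))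
      have h5 : 45 * B + 9 = 90 * β + 9 := by omega
      rw [h5, show 90 * β + 10 = (90 * β + 9) + 1 by ring, pow_succ] at h4
      have h6 : N ≤ C * CC := by
        have hp : 0 < N ^ (90 * β + 9) := Nat.pos_of_ne_zero (pow_ne_zero _ (by omega))
        apply Nat.le_of_mul_le_mul_left _ hp
        calc N ^ (90 * β + 9) * N ≤ C * (CC * N ^ (90 * β + 9)) := h4
          _ = N ^ (90 * β + 9) * (C * CC) := by ring
      omega

end Fin'

end Pool.Agent.T6.H25.GG
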