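import Pool.Agent.T6.H25.GG.D

/-! Module G0 of MP_b6554e_al: one run for each letter, first letter, chain constraints. -/

set_option autoImplicit false

namespace Pool.Agent.T6.H25.GG

open Finset

namespace G0

variable {r : ℕ}

lemma axr (x : ZMod (2 * r)) : ax r x x := Or.inl rfl

lemma eqt {E E' E'' : List (ZMod (2 * r))} (h : Eqw r E E') (h' : Eqw r E' E'') : Eqw r E E'' :=
  fun x => (h x).trans (h' x)

lemma Z_mid [NeZero r] (hP : StmtPAR) (A B B' C : List (ZMod (2 * r))) (h : B.Perm B') :
    Z r (A ++ B' ++ C) = Z r (A ++ B ++ C) + (Z r B' - Z r B) := by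
  obtain ⟨-, happ, -⟩ := hP r
  have key : ∀ X : List (ZMod (2 * r)), Z r (A ++ X ++ C) = Z r A + Z r X + Z r C +
      (A.map (fun x => (X.map (fun y => b r (y - x))).sum)).sum +
      ((A ++ X).map (fun x => (C.map (fun y => b r (y - x))).sum)).sum := by
    intro X
    rw [happ (A ++ X) C, happ A X]; ring
  rw [key, key]
  have h1 : (A.map (fun x => (B'.map (fun y => b r (y - x))).sum)).sum =
      (A.map (fun x => (B.map (fun y => b r (y - x))).sum)).sum := by
    congr 1
    apply List.map_congr_left
    intro x _
    exact ((h.map _).sum_eq).symm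
  have h2 : ((A ++ B').map (fun x => (C.map (fun y => b r (y - x))).sum)).sum =
      ((A ++ B).map (fun x => (C.map (fun y => b r (y - x))).sum)).sum :=
    (((List.Perm.append_left A h).map _).sum_eq).symm
  rw [h1, h2]; ring

lemma wd_data [NeZero r] (hA : StmtALG) (hP : StmtPAR) (a c a' : ZMod (2 * r)) (m m' : ℕ)
    (U : List (ZMod (2 * r))) (hcut : Z r U ≤ Z r (srt r c (cnts r c U))) :
    Eqw r (List.replicate m a ++ U ++ List.replicate m' a') (wd r a c a' m (cnts r c U) m') ∧
    tot r m (cnts r c U) m' = (List.replicate m a ++ U ++ List.replicate m' a').length ∧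
    Z r (List.replicate m a ++ U ++ List.replicate m' a') ≤ Z r (wd r a c a' m (cnts r c U) m') := by
  obtain ⟨-, -, -, -, hlen, -, hperm⟩ := hA r
  have hp := hperm c U
  have hpp : (List.replicate m a ++ U ++ List.replicate m' a').Perm
      (wd r a c a' m (cnts r c U) m') := by
    unfold wd
    exact ((List.Perm.append_left _ hp.symm).append_right _)
  refine ⟨D.eqw_of_perm hpp, ?_, ?_⟩
  · rw [← hlen a c a' m _ m', hpp.length_eq]
  · unfold wd
    rw [Z_mid hP _ _ _ _ hp.symm]
    linarith

lemma chg_rep (m : ℕ) (a : ZMod (2 * r)) : chg r (List.replicate m a) = 0 := by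
  induction m with
  | zero => rfl
  | succ m ih =>
    cases m with
    | zero => rfl
    | succ m =>
      rw [List.replicate_succ] at ih
      rw [List.replicate_succ, List.replicate_succ]
      show (if a = a then 0 else 1) + chg r (a :: List.replicate m a) = 0
      rw [ih]; simp

lemma chg_front (m : ℕ) (a y : ZMod (2 * r)) (V : List (ZMod (2 * r))) (h : y ≠ a) :
    chg r (List.replicate (m + 1) a ++ (y :: V)) = 1 + chg r (y :: V) := by
  induction m with
  | zero => simp [chg, h]
  | succ m ih =>
    rw [List.replicate_succ, List.cons_append] at ih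
    rw [List.replicate_succ, List.replicate_succ, List.cons_append, List.cons_append]
    show (if a = a then 0 else 1) + chg r (a :: (List.replicate m a ++ y :: V)) = _
    rw [ih]; simp

lemma chg_back (m : ℕ) (a : ZMod (2 * r)) (V : List (ZMod (2 * r))) (x : ZMod (2 * r))
    (hx : V.getLast? = some x) (h : x ≠ a) :
    chg r (V ++ List.replicate (m + 1) a) = chg r V + 1 := by
  induction V with
  | nil => simp at hx
  | cons y V ih =>
    cases V with
    | nil =>
      simp at hx; subst hx
      rw [List.replicate_succ]
      show (if a = y then 0 else 1) + chg r (a :: List.replicate m a) = chg r [y] + 1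
      rw [← List.replicate_succ, chg_rep, if_neg (Ne.symm h)]
      rfl
    | cons z V =>
      have hx' : (z :: V).getLast? = some x := by simpa using hx
      have := ih hx'
      rw [List.cons_append] at this
      rw [List.cons_append, List.cons_append]
      show (if z = y then 0 else 1) + chg r (z :: (V ++ List.replicate (m + 1) a)) =
        (if z = y then 0 else 1) + chg r (z :: V) + 1
      rw [this]; ring

lemma card_le_chg (U : List (ZMod (2 * r))) : U.toFinset.card ≤ chg r U + 1 := by
  induction U with
  | nil => simp
  | cons x U ih =>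
    cases U with
    | nil => simp
    | cons y U =>
      rw [List.toFinset_cons]
      show _ ≤ (if y = x then 0 else 1) + chg r (y :: U) + 1
      by_cases h : y = x
      · subst h
        rw [Finset.insert_eq_of_mem (by simp)]; simpa using ih
      · rw [if_neg h]
        have := Finset.card_insert_le x (y :: U).toFinset
        omega

lemma oneRun_aux (U : List (ZMod (2 * r))) (h : chg r U + 1 ≤ U.toFinset.card) :
    ∃ o : List (ZMod (2 * r)), o.Nodup ∧ (∀ z ∈ o, 0 < U.count z) ∧
      U = o.flatMap (fun x => List.replicate (U.count x) x) := by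
  induction U with
  | nil => exact ⟨[], by simp⟩
  | cons x U ih =>
    cases U with
    | nil => exact ⟨[x], by simp⟩
    | cons y U =>
      have hle := card_le_chg (y :: U)
      rw [List.toFinset_cons] at h
      have h' : (if y = x then 0 else 1) + chg r (y :: U) + 1 ≤
        (insert x (y :: U).toFinset).card := h
      clear h
      by_cases hyx : y = x
      · subst hyx
        rw [Finset.insert_eq_of_mem (by simp)] at h'
        simp only [if_true, zero_add] at h'
        obtain ⟨o, ho1, ho2, ho3⟩ := ih h'
        cases o with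
        | nil => simp at ho3
        | cons z o =>
          have hz : z = y := by
            rw [List.flatMap_cons] at ho3
            obtain ⟨k, hk⟩ := Nat.exists_eq_succ_of_ne_zero (ho2 z (by simp)).ne'
            rw [hk, List.replicate_succ, List.cons_append] at ho3
            exact (List.cons.inj ho3).1.symm
          subst hz
          refine ⟨z :: o, ho1, fun w hw => ?_, ?_⟩
          · have := ho2 w hw
            rw [List.count_cons]; omega
          · rw [List.flatMap_cons] at ho3 ⊢
            rw [List.count_cons_self, List.replicate_succ, List.cons_append]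
            have hcongr : o.flatMap (fun x => List.replicate (List.count x (z :: z :: U)) x) =
                o.flatMap (fun x => List.replicate (List.count x (z :: U)) x) := by
              apply List.flatMap_congr
              intro w hw
              have hwz : w ≠ z := by
                rintro rfl
                exact (List.nodup_cons.1 ho1).1 hw
              rw [List.count_cons_of_ne (Ne.symm hwz)]
            rw [hcongr, ← ho3]
      · rw [if_neg hyx] at h'
        have hins := Finset.card_insert_le x (y :: U).toFinset
        have hx : x ∉ (y :: U).toFinset := by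
          intro hx
          rw [Finset.insert_eq_of_mem hx] at h'
          omega
        obtain ⟨o, ho1, ho2, ho3⟩ := ih (by omega)
        have hxU : List.count x (y :: U) = 0 := by
          rw [List.count_eq_zero]; simpa using hx
        have hxo : x ∉ o := by
          intro hxo
          have := ho2 x hxo
          omega
        refine ⟨x :: o, List.nodup_cons.2 ⟨hxo, ho1⟩, fun w hw => ?_, ?_⟩
        · rw [List.count_cons]
          rcases List.mem_cons.1 hw with rfl | hw
          · simp
          · have := ho2 w hw; omega
        · rw [List.flatMap_cons, List.count_cons_self, hxU]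
          have hcongr : o.flatMap (fun w => List.replicate (List.count w (x :: y :: U)) w) =
              o.flatMap (fun w => List.replicate (List.count w (y :: U)) w) := by
            apply List.flatMap_congr
            intro w hw
            have hwz : w ≠ x := by
              rintro rfl
              exact hxo hw
            rw [List.count_cons_of_ne (Ne.symm hwz)]
          rw [hcongr, ← ho3]; simp

lemma oneRun (U : List (ZMod (2 * r))) (h : chg r U + 1 ≤ U.toFinset.card) : OneRun r U := by
  obtain ⟨o, h1, -, h3⟩ := oneRun_aux U h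
  exact ⟨o, h1, h3⟩

lemma supp_eq [NeZero r] (c : ZMod (2 * r)) (U : List (ZMod (2 * r))) :
    ((range (2 * r)).filter (fun x => 0 < cnts r c U x)).card = U.toFinset.card := by
  classical
  apply Finset.card_bij (fun (x : ℕ) _ => c + (x : ZMod (2 * r)))
  · intro x hx
    rw [mem_filter, mem_range] at hx
    obtain ⟨hx1, hx2⟩ := hx
    unfold cnts at hx2
    rw [if_pos hx1] at hx2
    rw [List.mem_toFinset]
    exact List.count_pos_iff.1 hx2
  · intro x hx y hy hxy
    rw [mem_filter, mem_range] at hx hy
    have h := add_left_cancel hxy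
    have h1 := congrArg ZMod.val h
    rwa [ZMod.val_natCast_of_lt hx.1, ZMod.val_natCast_of_lt hy.1] at h1
  · intro z hz
    have : NeZero (2 * r) := ⟨by have := NeZero.ne r; omega⟩
    refine ⟨(z - c).val, ?_, ?_⟩
    · rw [mem_filter, mem_range]
      refine ⟨ZMod.val_lt _, ?_⟩
      unfold cnts
      rw [if_pos (ZMod.val_lt _)]
      rw [List.mem_toFinset] at hz
      rw [ZMod.natCast_zmod_val]
      apply List.count_pos_iff.2
      simpa using hz
    · rw [ZMod.natCast_zmod_val]; ring

/-- two pair moves -/
lemma pair2 [NeZero r] (hMV : StmtMV) (a c a' : ZMod (2 * r)) (m : ℕ) (L : ℕ → ℕ) (m' : ℕ)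
    (i j : ℕ) (hi : i < r) (hj : j < r) (hij : i ≠ j) (k l : ℤ) (L1 : ℕ → ℕ)
    (h : ∀ x < 2 * r, (L1 x : ℤ) = L x + (if x = i ∨ x = i + r then k else 0) +
      (if x = j ∨ x = j + r then l else 0)) :
    Eqw r (wd r a c a' m L m') (wd r a c a' m L1 m') ∧
    (tot r m L1 m' : ℤ) = tot r m L m' + 2 * (k + l) ∧
    Z r (wd r a c a' m L1 m') = Z r (wd r a c a' m L m') + 2 * (Gf r L i * k + Gf r L j * l)
      + (k + l) ^ 2 - (k ^ 2 + l ^ 2) := by
  obtain ⟨h1, -⟩ := hMV r a c a' m L m'
  obtain ⟨e1, e2, e3, -⟩ := h1 (fun t => (if t = i then k else 0) + (if t = j then l else 0)) L1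
    (by
      intro x hx
      rw [h x hx]
      by_cases hxr : x < r
      · have q1 : (x = i ∨ x = i + r) ↔ x = i := by omega
        have q2 : (x = j ∨ x = j + r) ↔ x = j := by omega
        simp only [q1, q2, if_pos hxr]; ring
      · have q1 : (x = i ∨ x = i + r) ↔ x - r = i := by omega
        have q2 : (x = j ∨ x = j + r) ↔ x - r = j := by omega
        simp only [q1, q2, if_neg hxr]; ring)
  have s1 : ∑ t ∈ range r, ((if t = i then k else 0) + (if t = j then l else 0)) = k + l := by
    rw [sum_add_distrib, sum_ite_eq', sum_ite_eq', if_pos (mem_range.2 hi), if_pos (mem_range.2 hj)]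
  have s2 : ∑ t ∈ range r, Gf r L t * ((if t = i then k else 0) + (if t = j then l else 0)) =
      Gf r L i * k + Gf r L j * l := by
    simp only [mul_add, mul_ite, mul_zero]
    rw [sum_add_distrib, sum_ite_eq', sum_ite_eq', if_pos (mem_range.2 hi), if_pos (mem_range.2 hj)]
  have s3 : ∑ t ∈ range r, ((if t = i then k else 0) + (if t = j then l else 0)) ^ 2 =
      k ^ 2 + l ^ 2 := by
    have : ∀ t, ((if t = i then k else 0) + (if t = j then l else 0)) ^ 2 =
        (if t = i then k ^ 2 else 0) + (if t = j then l ^ 2 else 0) := by
      intro t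
      by_cases h1 : t = i
      · subst h1; simp [hij]
      · by_cases h2 : t = j
        · subst h2; simp [h1]
        · simp [h1, h2]
    simp only [this]
    rw [sum_add_distrib, sum_ite_eq', sum_ite_eq', if_pos (mem_range.2 hi), if_pos (mem_range.2 hj)]
  simp only [s1, s2, s3] at e2 e3
  exact ⟨e1, e2, e3⟩

lemma Gf_nonneg (L : ℕ → ℕ) (i : ℕ) : 0 ≤ Gf r L i :=
  sum_nonneg fun _ _ => by positivity

lemma Gf_le (L : ℕ → ℕ) (i : ℕ) (hi : i < r) (m m' : ℕ) : Gf r L i ≤ tot r m L m' := by
  unfold Gf tot
  push_cast
  have : ∑ x ∈ Ioo i (i + r), (L x : ℤ) ≤ ∑ x ∈ range (2 * r), (L x : ℤ) := by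
    apply sum_le_sum_of_subset_of_nonneg
    · intro x hx
      rw [mem_Ioo] at hx
      rw [mem_range]; omega
    · intro x _ _; positivity
  have h1 : (0 : ℤ) ≤ m := by positivity
  have h2 : (0 : ℤ) ≤ m' := by positivity
  linarith

/-- exchange argument -/
lemma T1 [NeZero r] (hA : StmtALG) (hMV : StmtMV) (hD : StmtD) {p q : ZMod (2 * r)}
    {D : List (ZMod (2 * r))} {s : ℕ} (hgeo : Geo r p q D) (hz : 0 ≤ Z r D) (hs : 1 ≤ s)
    (hlen : D.length ≤ s ^ 2) {a c a' : ZMod (2 * r)} {m : ℕ} {L : ℕ → ℕ} {m' : ℕ}
    (hE : Eqw r D (wd r a c a' m L m')) (htot : tot r m L m' = D.length)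
    (hZ : Z r D ≤ Z r (wd r a c a' m L m')) (i j : ℕ) (hi : i < r) (hj : j < r) (hij : i ≠ j)
    (h1 : s + (r + 3) ≤ L j) (h2 : s + (r + 3) ≤ L (j + r)) :
    Gf r L i - Gf r L j ≤ (2 * r + 8) * s := by
  obtain ⟨-, -, -, -, hl, -, -⟩ := hA r
  obtain ⟨hD1, -⟩ := hD r p q
  set L1 : ℕ → ℕ := fun x => if x = j ∨ x = j + r then L x - (s + (r + 3)) else
    if x = i ∨ x = i + r then L x + s else L x with hL1
  obtain ⟨e1, e2, e3⟩ := pair2 hMV a c a' m L m' i j hi hj hij (s : ℤ) (-((s : ℤ) + (r + 3))) L1 (by
    intro x hx
    simp only [hL1]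
    by_cases q1 : x = j ∨ x = j + r
    · have q2 : ¬ (x = i ∨ x = i + r) := by omega
      rw [if_pos q1, if_pos q1, if_neg q2]
      have : s + (r + 3) ≤ L x := by rcases q1 with rfl | rfl <;> assumption
      push_cast [Nat.cast_sub this]; ring
    · rw [if_neg q1, if_neg q1]
      by_cases q2 : x = i ∨ x = i + r
      · rw [if_pos q2, if_pos q2]; push_cast; ring
      · rw [if_neg q2, if_neg q2]; ring)
  have hlt : Z r (wd r a c a' m L1 m') < Z r D := by
    by_contra hcon
    push Not at hcon
    have hE' : Eqw r D (wd r a c a' m L1 m') := eqt hE e1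
    have := hD1 D hgeo hz _ hE' hcon
    rw [hl] at this
    have : (D.length : ℤ) ≤ tot r m L1 m' + 2 * r + 4 := by exact_mod_cast this
    rw [e2, htot] at this
    linarith
  have hG : Gf r L j ≤ (s : ℤ) ^ 2 := by
    have := Gf_le L j hj m m'
    rw [htot] at this
    have h' : (D.length : ℤ) ≤ (s : ℤ) ^ 2 := by exact_mod_cast hlen
    linarith
  have hlt' := lt_of_lt_of_le hlt hZ
  rw [e3] at hlt'
  have hs' : (1 : ℤ) ≤ s := by exact_mod_cast hs
  have hr0 : (0 : ℤ) ≤ r := by positivity
  obtain ⟨x, hx⟩ : ∃ x : ℤ, x = Gf r L i := ⟨_, rfl⟩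
  obtain ⟨y, hy⟩ : ∃ y : ℤ, y = Gf r L j := ⟨_, rfl⟩
  rw [← hx, ← hy] at hlt' ⊢
  rw [← hy] at hG
  by_contra hcon
  push Not at hcon
  have h3 : (s : ℤ) * ((2 * r + 8) * s) ≤ s * (x - y) := by
    apply mul_le_mul_of_nonneg_left hcon.le; linarith
  have h4 : ((r : ℤ) + 3) * y ≤ (r + 3) * s ^ 2 := mul_le_mul_of_nonneg_left hG (by linarith)
  nlinarith [mul_nonneg hr0 (by linarith : (0:ℤ) ≤ s - 1), mul_nonneg hr0 (mul_nonneg (by linarith : (0:ℤ) ≤ s) (by linarith : (0:ℤ) ≤ s - 1)), mul_nonneg (by linarith : (0:ℤ) ≤ s) (by linarith : (0:ℤ) ≤ s - 1)]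

/-- cost bound from an exact realization -/
lemma cost_exact [NeZero r] (hCST : StmtCST) {p q : ZMod (2 * r)} {D : List (ZMod (2 * r))}
    (hgeo : Geo r p q D) {a c a' : ZMod (2 * r)} {m : ℕ} {L1 L' : ℕ → ℕ} {m' : ℕ}
    (hsup : ∀ x, L' x = 0 ↔ L1 x = 0) (hE : Eqw r D (wd r a c a' m L' m'))
    (htot : tot r m L' m' = D.length) (hZ : Z r (wd r a c a' m L' m') = Z r D) :
    cost r p q D ≤ D.length + ((range (2 * r)).filter (fun x => 0 < L1 x)).card + 1
      + (if ax r p a then 0 else 1) + (if ax r q a' then 0 else 1) ∧
    (∀ x < 2 * r, 0 < L1 x → (∀ x' < x, L1 x' = 0) →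
      (x = ix r c a ∨ x = ix r c (a + (r : ZMod (2 * r)))) →
      cost r p q D ≤ D.length + ((range (2 * r)).filter (fun x => 0 < L1 x)).card
      + (if ax r p a then 0 else 1) + (if ax r q a' then 0 else 1)) := by
  have hc := hgeo _ hE hZ
  obtain ⟨c1, c2⟩ := hCST r p q a c a' m L' m'
  have hcard : ((range (2 * r)).filter (fun x => 0 < L' x)) =
      ((range (2 * r)).filter (fun x => 0 < L1 x)) := by
    apply filter_congr
    intro x _
    have := hsup x
    omega
  rw [htot, hcard] at c1 c2
  refine ⟨hc.trans c1, fun x hx h1 h2 h3 => hc.trans (c2 x hx ?_ ?_ h3)⟩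
  · have := hsup x; omega
  · intro x' hx'
    exact (hsup x').2 (h2 x' hx')

end G0

open G0 in
theorem g0 (hA : StmtALG) (hP : StmtPAR) (hMV : StmtMV) (hCST : StmtCST) (hD : StmtD)
    (hEL : StmtEL) : StmtG0 := by
  intro r _ s p q D a a' c m m' U hdec
  obtain ⟨hgeo, hzn, hs, hlen, hm, hm', heq, hne, hhd, htl, hcut, hbig⟩ := hdec
  obtain ⟨w1, w2, w3⟩ := wd_data hA hP a c a' m m' U hcut
  rw [← heq] at w1 w2 w3
  set L := cnts r c U with hL
  have hL0 : ∀ x, 2 * r ≤ x → L x = 0 := by
    intro x hx
    simp only [hL, cnts]
    rw [if_neg (by omega)]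
  have hrpos : 0 < r := Nat.pos_of_ne_zero (NeZero.ne r)
  by_cases hpin : Pinned r s m L m'
  · exact Or.inl hpin
  right
  -- the cost of `D`
  have hcostD : cost r p q D = D.length + (chg r U + 2) + (if ax r p a then 0 else 1)
      + (if ax r q a' then 0 else 1) := by
    obtain ⟨m0, rfl⟩ : ∃ m0, m = m0 + 1 := ⟨m - 1, by omega⟩
    obtain ⟨m0', rfl⟩ : ∃ m0', m' = m0' + 1 := ⟨m' - 1, by omega⟩
    have hDne : D ≠ [] := by rw [heq]; simp
    have hb : brk r D = chg r D := ((hD r p q).2.2.1 D hgeo).1
    unfold cost
    rw [if_neg hDne, hb]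
    have h1 : hdc r p D = if ax r p a then 0 else 1 := by
      unfold hdc
      rw [heq, List.replicate_succ]
      rfl
    have h2 : tlc r q D = if ax r q a' then 0 else 1 := by
      unfold tlc
      have : D.getLast? = some a' := by
        rw [heq, List.getLast?_append, List.getLast?_replicate]; simp
      rw [this]
    have h3 : chg r D = chg r U + 2 := by
      obtain ⟨y, V, rfl⟩ := List.exists_cons_of_ne_nil hne
      have hy : y ≠ a := by
        rintro rfl
        exact hhd y rfl (axr y)
      obtain ⟨x, hx⟩ : ∃ x, (y :: V).getLast? = some x :=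
        ⟨(y :: V).getLast hne, List.getLast?_eq_some_getLast hne⟩
      have hxa : x ≠ a' := by
        rintro rfl
        exact htl x hx (axr x)
      rw [heq, List.append_assoc, List.cons_append, chg_front _ _ _ _ hy, ← List.cons_append,
        chg_back _ _ _ x hx hxa]
      ring
    rw [h1, h2, h3]
  have hsupp : ((range (2 * r)).filter (fun x => 0 < L x)).card = U.toFinset.card := supp_eq c U
  have hcardle := card_le_chg U
  have htots : tot r m L m' ≤ s ^ 2 := by rw [w2]; exact hlen
  -- exact realization with the same support
  obtain ⟨L', k1, k2, k3, k4⟩ : ∃ L' : ℕ → ℕ, (∀ x, L' x = 0 ↔ L x = 0) ∧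
      Eqw r D (wd r a c a' m L' m') ∧ tot r m L' m' = tot r m L m' ∧
      Z r (wd r a c a' m L' m') = Z r D := by
    rcases hEL r p q D s hgeo hzn hs hlen a c a' m L m' hL0 w1 w2.le w3 (by omega) with h | h
    · exact h
    · exact absurd ⟨0, 0, 0, fun _ => 0, m, L, m', by positivity, by simp, by simp, by simp,
        by simp, by simp, by simp, by simp, htots, by omega, h⟩ hpin
  obtain ⟨ce1, ce2⟩ := cost_exact hCST hgeo k1 k2 (k3.trans w2) k4
  have hone : chg r U + 1 ≤ U.toFinset.card := by
    rw [hcostD, hsupp] at ce1
    omega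
  refine ⟨oneRun U hone, ?_, ?_⟩
  · -- K1
    intro x hx hx0 hx1
    by_contra hcon
    have h := ce2 x hx hx0 hx1 (by tauto)
    rw [hcostD, hsupp] at h
    omega
  · -- K2
    intro i hi hi1 hi2 j hj
    obtain ⟨hjr, hj1, hj2⟩ : j < r ∧ KK r * s ≤ L j ∧ KK r * s ≤ L (j + r) := by
      simpa [Lset] using hj
    have hKs : s + (r + 3) ≤ KK r * s := by
      unfold KK
      nlinarith
    by_cases hij : i = j
    · subst hij
      rw [sub_self, abs_zero]; positivity
    have hKK : ((2 * r + 8) * s : ℤ) ≤ KK r * s := by
      unfold KK
      push_cast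
      have : (0 : ℤ) ≤ s := by positivity
      nlinarith
    have up := T1 hA hMV hD hgeo hzn hs hlen w1 w2 w3 i j hi hjr hij (by omega) (by omega)
    have lo : Gf r L j - Gf r L i ≤ KK r * s := by
      by_cases hbigi : s + (r + 3) ≤ L i ∧ s + (r + 3) ≤ L (i + r)
      · exact (T1 hA hMV hD hgeo hzn hs hlen w1 w2 w3 j i hjr hi (Ne.symm hij) hbigi.1
          hbigi.2).trans hKK
      · obtain ⟨μ, hμ⟩ : ∃ μ : ℕ, μ = min (L i) (L (i + r)) := ⟨_, rfl⟩
        have hμ1 : 0 < μ := by omega
        have hμ2 : μ < s + (r + 3) := by omega
        have hμi : μ ≤ L i := by omega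
        have hμi' : μ ≤ L (i + r) := by omega
        by_contra hcon
        push Not at hcon
        set L1 : ℕ → ℕ := fun x => if x = i ∨ x = i + r then L x - μ else
          if x = j ∨ x = j + r then L x + μ else L x with hL1
        have hL1z : ∀ x : ℕ, (L1 x : ℤ) = L x + (if x = i ∨ x = i + r then -(μ : ℤ) else 0) +
            (if x = j ∨ x = j + r then (μ : ℤ) else 0) := by
          intro x
          simp only [hL1]
          by_cases q1 : x = i ∨ x = i + r
          · have q2 : ¬ (x = j ∨ x = j + r) := by omega
            rw [if_pos q1, if_pos q1, if_neg q2]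
            have : μ ≤ L x := by rcases q1 with rfl | rfl <;> assumption
            push_cast [Nat.cast_sub this]; ring
          · rw [if_neg q1, if_neg q1]
            by_cases q2 : x = j ∨ x = j + r
            · rw [if_pos q2, if_pos q2]; push_cast; ring
            · rw [if_neg q2, if_neg q2]; ring
        obtain ⟨e1, e2, e3⟩ := pair2 hMV a c a' m L m' i j hi hjr hij (-(μ : ℤ)) (μ : ℤ) L1
          (fun x _ => hL1z x)
        have htot1 : tot r m L1 m' = tot r m L m' := by
          have : (tot r m L1 m' : ℤ) = tot r m L m' := by rw [e2]; ring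
          exact_mod_cast this
        have hZ1 : Z r D ≤ Z r (wd r a c a' m L1 m') := by
          rw [e3]
          have h1 : (μ : ℤ) * μ ≤ μ * (Gf r L j - Gf r L i) := by
            apply mul_le_mul_of_nonneg_left _ (by positivity)
            have : (μ : ℤ) ≤ KK r * s := by exact_mod_cast (hμ2.le.trans hKs)
            linarith
          nlinarith [w3]
        have hL10 : ∀ x, 2 * r ≤ x → L1 x = 0 := by
          intro x hx
          simp only [hL1]
          rw [if_neg (by omega), if_neg (by omega)]
          exact hL0 x hx
        have hsub : Lset r s L ⊆ Lset r s L1 := by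
          intro t ht
          obtain ⟨ht0, ht1, ht2⟩ : t < r ∧ KK r * s ≤ L t ∧ KK r * s ≤ L (t + r) := by
            simpa [Lset] using ht
          have hti : t ≠ i := by
            rintro rfl
            omega
          have g1 : L t ≤ L1 t := by
            simp only [hL1]
            rw [if_neg (by omega)]
            split_ifs <;> omega
          have g2 : L (t + r) ≤ L1 (t + r) := by
            simp only [hL1]
            rw [if_neg (by omega)]
            split_ifs <;> omega
          simp only [Lset, mem_filter, mem_range]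
          exact ⟨ht0, ht1.trans g1, ht2.trans g2⟩
        have hcard1 := card_le_card hsub
        have hE1 := eqt w1 e1
        rcases hEL r p q D s hgeo hzn hs hlen a c a' m L1 m' hL10 hE1 (by omega) hZ1 (by omega)
          with ⟨L'', j1, j2, j3, j4⟩ | h
        · have ce := (cost_exact hCST hgeo j1 j2 (j3.trans (htot1.trans w2)) j4).1
          have hlt : ((range (2 * r)).filter (fun x => 0 < L1 x)).card <
              ((range (2 * r)).filter (fun x => 0 < L x)).card := by
            apply card_lt_card
            have hss : ((range (2 * r)).filter (fun x => 0 < L1 x)) ⊆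
                ((range (2 * r)).filter (fun x => 0 < L x)) := by
              intro x hx
              simp only [mem_filter, mem_range] at hx ⊢
              refine ⟨hx.1, ?_⟩
              by_contra h0
              have h0' : L x = 0 := by omega
              have hx2 := hx.2
              simp only [hL1] at hx2
              by_cases q1 : x = i ∨ x = i + r
              · rw [if_pos q1] at hx2; omega
              · rw [if_neg q1] at hx2
                by_cases q2 : x = j ∨ x = j + r
                · have hK1 : 1 ≤ KK r * s := by omega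
                  rcases q2 with rfl | rfl <;> omega
                · rw [if_neg q2] at hx2; omega
            refine (Finset.ssubset_iff_of_subset hss).2 ?_
            rcases min_choice (L i) (L (i + r)) with hmc | hmc
            · refine ⟨i, ?_, ?_⟩
              · simp only [mem_filter, mem_range]; exact ⟨by omega, hi1⟩
              · simp only [mem_filter, mem_range, not_and]
                intro _
                simp only [hL1, true_or, if_true]
                omega
            · refine ⟨i + r, ?_, ?_⟩
              · simp only [mem_filter, mem_range]; exact ⟨by omega, hi2⟩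
              · simp only [mem_filter, mem_range, not_and]
                intro _
                simp only [hL1, or_true, if_true]
                omega
          rw [hcostD] at ce
          omega
        · apply hpin
          refine ⟨μ, 0, 0, fun x => if x = i ∨ x = i + r then -1 else
            if x = j ∨ x = j + r then 1 else 0, m, L1, m', ?_, by simp, by simp, ?_, ?_,
            by simp, by simp, ?_, by omega, by omega, h⟩
          · have h1 : L i ≤ tot r m L m' := by
              unfold tot
              have := single_le_sum (f := fun x => L x) (fun x _ => Nat.zero_le _)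
                (mem_range.2 (by omega : i < 2 * r))
              omega
            omega
          · intro x
            beta_reduce
            split_ifs <;> simp
          · intro x hx
            beta_reduce
            rw [if_neg (by omega), if_neg (by omega)]
          · intro x
            rw [hL1z x]
            beta_reduce
            by_cases q1 : x = i ∨ x = i + r
            · have q2 : ¬ (x = j ∨ x = j + r) := by omega
              rw [if_pos q1, if_pos q1, if_neg q2]; ring
            · rw [if_neg q1, if_neg q1]
              by_cases q2 : x = j ∨ x = j + r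
              · rw [if_pos q2, if_pos q2]; ring
              · rw [if_neg q2, if_neg q2]; ring
    rw [abs_le]
    constructor
    · linarith
    · linarith

end Pool.Agent.T6.H25.GG
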