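import Pool.Agent.T6.H25.GG.Base

/-! Module G1 of the project MP_b6554e_al (geodesic growth). -/

set_option autoImplicit false

namespace Pool.Agent.T6.H25.GG.G1

open Finset
open Pool.Agent.T6.H25.GG.Base

variable {r : ℕ}

theorem Gf_single {L L1 : ℕ → ℕ} {j y : ℕ} {k : ℤ} (hj : j < r)
    (h : ∀ x < 2 * r, (L1 x : ℤ) = L x + (if x = y then k else 0)) :
    |Gf r L1 j - Gf r L j| ≤ |k| := by
  unfold Gf
  rw [← sum_sub_distrib]
  have h1 : ∀ x ∈ Ioo j (j + r), (L1 x : ℤ) - L x = if x = y then k else 0 := by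
    intro x hx
    rw [mem_Ioo] at hx
    rw [h x (by omega)]
    ring
  rw [sum_congr rfl h1, sum_ite_eq']
  split_ifs <;> simp

theorem arith {s X G ρ : ℤ} (hs : 1 ≤ s) (hρ : 0 ≤ ρ) (hG : G ≤ s ^ 2)
    (h : s * X < ρ * G + s ^ 2 + s * ρ) : X < (2 * ρ + 1) * s := by
  by_contra hc
  push Not at hc
  have h1 : s * ((2 * ρ + 1) * s) ≤ s * X := mul_le_mul_of_nonneg_left hc (by linarith)
  have h2 : ρ * G ≤ ρ * s ^ 2 := mul_le_mul_of_nonneg_left hG hρ
  have h3 : s * ρ ≤ s ^ 2 * ρ := mul_le_mul_of_nonneg_right (by nlinarith) hρ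
  nlinarith

/-- removing a block decreases the support -/
theorem supp_lt {L L1 : ℕ → ℕ} {y : ℕ} (hy : y < 2 * r) (hLy : 0 < L y) (h1 : L1 y = 0)
    (h : ∀ x < 2 * r, 0 < L1 x → 0 < L x) : supp r L1 < supp r L := by
  unfold supp
  apply Finset.card_lt_card
  rw [Finset.ssubset_iff_of_subset]
  · exact ⟨y, by rw [mem_filter, mem_range]; exact ⟨hy, hLy⟩, by
      rw [mem_filter, h1]
      simp⟩
  · intro x hx
    rw [mem_filter, mem_range] at hx ⊢
    exact ⟨hx.1, h x hx.1 hx.2⟩

/-- `Lset` loses at most one axis when one block changes -/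
theorem card_Lset {s : ℕ} {L L1 : ℕ → ℕ} {y : ℕ} (h : ∀ x, x ≠ y → L x ≤ L1 x) :
    (Lset r s L).card ≤ (Lset r s L1).card + 1 := by
  have hsub : (Lset r s L).erase (if y < r then y else y - r) ⊆ Lset r s L1 := by
    intro i hi
    rw [mem_erase, mem_Lset] at hi
    obtain ⟨h1, h2, h3, h4⟩ := hi
    rw [mem_Lset]
    have hiy : i ≠ y := by
      rintro rfl
      rw [if_pos h2] at h1
      exact h1 rfl
    have hiy' : i + r ≠ y := by
      rintro rfl
      rw [if_neg (by omega)] at h1
      omega
    exact ⟨h2, h3.trans (h i hiy), h4.trans (h _ hiy')⟩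
  have h1 := Finset.card_le_card hsub
  have h2 := Finset.pred_card_le_card_erase (s := Lset r s L) (a := if y < r then y else y - r)
  omega

theorem kk3 [NeZero r] (hALG : StmtALG) (hPAR : StmtPAR) (hMV : StmtMV) (hCST : StmtCST)
    (hD : StmtD) (hEL : StmtEL) {s : ℕ} {p q : ZMod (2 * r)} {D : List (ZMod (2 * r))}
    {a a' c : ZMod (2 * r)} {m m' : ℕ} {U : List (ZMod (2 * r))}
    (h : Dec r s p q D a a' c m m' U) (hP : ¬ Pinned r s m (cnts r c U) m') :
    K3 r s c a m (cnts r c U) := by
  intro hα
  have hE := eqw hALG h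
  have hT := tot_eq hALG h
  have hZ := z_le hALG hPAR h
  have hlen := h.len
  have hs1 := h.hs
  have hbig := h.big
  have h0 := cnts_zero (r := r) c U
  obtain ⟨α, hαd⟩ : ∃ α, α = ix r c a := ⟨_, rfl⟩
  have hαlt : α < 2 * r := hαd ▸ ix_lt c a
  rw [← hαd] at hα ⊢
  obtain ⟨L1, hL1⟩ := mk (cnts r c U) (fun x => -(if x = α then (cnts r c U α : ℤ) else 0)) (by
    intro x
    by_cases hx : x = α
    · simp only [if_pos hx]
      rw [hx]
      simp
    · simp only [if_neg hx]
      simp)
  have hL1α : L1 α = 0 := by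
    have := hL1 α
    simp only [if_pos] at this
    have h2 : (L1 α : ℤ) = 0 := by rw [this]; ring
    exact_mod_cast h2
  have hL1x : ∀ x, x ≠ α → L1 x = cnts r c U x := by
    intro x hx
    have := hL1 x
    simp only [if_neg hx] at this
    have h2 : (L1 x : ℤ) = cnts r c U x := by rw [this]; ring
    exact_mod_cast h2
  have hpos : 1 ≤ Hf r (cnts r c U) α := by
    by_contra hneg
    push Not at hneg
    apply hP
    obtain ⟨e1, e2, e3⟩ := (hMV r a c a' m (cnts r c U) m').2.1 (cnts r c U α : ℤ)
      (m + cnts r c U α) L1 (by push_cast; ring) (by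
        intro x hx
        rw [hL1 x, ← hαd]
        ring)
    have hz1 : Z r D ≤ Z r (wd r a c a' (m + cnts r c U α) L1 m') := by
      rw [e3, ← hαd]
      have : (cnts r c U α : ℤ) * Hf r (cnts r c U) α ≤ 0 :=
        mul_nonpos_of_nonneg_of_nonpos (by positivity) (by linarith)
      linarith
    have hz0 : ∀ x, 2 * r ≤ x → L1 x = 0 := by
      intro x hx
      rw [hL1x x (by omega), h0 x hx]
    have hcd := card_Lset (r := r) (s := s) (L := cnts r c U) (L1 := L1) (y := α)
      (fun x hx => (hL1x x hx).ge)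
    have hsp : supp r L1 < supp r (cnts r c U) := by
      refine supp_lt hαlt hα hL1α fun x hx hx1 => ?_
      by_cases hxa : x = α
      · rw [hxa]; exact hα
      · rwa [hL1x x hxa] at hx1
    have hres := elc hCST hD hEL h hz0 (eqw_trans hE e1) (by rw [e2, hT]) hz1 (by omega) hsp
    refine ⟨cnts r c U α, 1, 0, fun x => if x = α then -1 else 0, m + cnts r c U α, L1, m', ?_,
      by simp, by simp, ?_, ?_, by push_cast; ring, by push_cast; ring, ?_, ?_, by omega, hres⟩
    · have h1 : cnts r c U α ≤ ∑ x ∈ range (2 * r), cnts r c U x :=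
        Finset.single_le_sum (fun _ _ => Nat.zero_le _) (mem_range.2 hαlt)
      unfold tot at hT
      omega
    · intro x
      try simp only
      split_ifs <;> simp
    · intro x hx
      try simp only
      rw [if_neg (by omega)]
    · intro x
      rw [hL1 x]
      try simp only
      split_ifs <;> ring
    · rw [e2, hT]
      exact hlen
  refine ⟨hpos, ?_⟩
  obtain ⟨j, hj⟩ : (Lset r s (cnts r c U)).Nonempty := by
    rw [← Finset.card_pos]
    omega
  rw [mem_Lset] at hj
  obtain ⟨hj1, hj2, hj3⟩ := hj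
  -- the front block moves into the core
  obtain ⟨M1, hM1⟩ := mk (cnts r c U) (fun x => if x = α then (m : ℤ) else 0) (by
    intro x
    split_ifs <;> positivity)
  obtain ⟨e1, e2, e3⟩ := (hMV r a c a' m (cnts r c U) m').2.1 (-(m : ℤ))
      0 M1 (by push_cast; ring) (by
        intro x hx
        rw [hM1 x, ← hαd]
        try simp only
        split_ifs <;> ring)
  have hge : ∀ x, cnts r c U x ≤ M1 x := by
    intro x
    have := hM1 x
    try simp only at this
    split_ifs at this <;> omega
  have hρ : (r : ℤ) + 3 ≤ KK r * s := by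
    have h1 : r + 3 ≤ KK r * s := by
      unfold KK
      nlinarith
    exact_mod_cast h1
  obtain ⟨M2, hM2⟩ := mk M1 (fun x => if x = j ∨ x = j + r then -((r : ℤ) + 3) else 0) (by
    intro x
    try simp only
    split_ifs with hx
    · have h1 : ((KK r * s : ℕ) : ℤ) ≤ cnts r c U x := by
        rcases hx with hx | hx
        · rw [hx]; exact_mod_cast hj2
        · rw [hx]; exact_mod_cast hj3
      have h2 : (cnts r c U x : ℤ) ≤ M1 x := by exact_mod_cast hge x
      push_cast at h1
      linarith
    · positivity)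
  obtain ⟨f1, f2, f3, f4⟩ := pair hMV a c a' 0 m' M1 M2 j (-((r : ℤ) + 3)) hj1
    (fun x _ => hM2 x)
  have htot : tot r 0 M2 m' + 2 * (r + 3) ≤ D.length := by
    zify
    rw [f2, e2, hT]
    linarith
  have hlt := d1c hALG hD h (eqw_trans (eqw_trans hE e1) f1) htot
  rw [f3, e3, ← hαd] at hlt
  have hG := Gf_le (r := r) M1 hj1 0 m'
  rw [e2, hT] at hG
  have hlen' : ((D.length : ℕ) : ℤ) ≤ (s : ℤ) ^ 2 := by exact_mod_cast hlen
  have hG' : ((r : ℤ) + 3) * Gf r M1 j ≤ ((r : ℤ) + 3) * (s : ℤ) ^ 2 :=
    mul_le_mul_of_nonneg_left (hG.trans hlen') (by positivity)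
  have hk : ((KK r : ℕ) : ℤ) = 100 * r + 1000 := by unfold KK; push_cast; ring
  rw [hk]
  have hfin : ((r : ℤ) + 3) * (s : ℤ) ^ 2 ≤ (100 * r + 1000) * (s : ℤ) ^ 2 :=
    mul_le_mul_of_nonneg_right (by linarith) (by positivity)
  linarith

theorem kk4 [NeZero r] (hALG : StmtALG) (hPAR : StmtPAR) (hMV : StmtMV) (hCST : StmtCST)
    (hD : StmtD) (hEL : StmtEL) {s : ℕ} {p q : ZMod (2 * r)} {D : List (ZMod (2 * r))}
    {a a' c : ZMod (2 * r)} {m m' : ℕ} {U : List (ZMod (2 * r))}
    (h : Dec r s p q D a a' c m m' U) (hP : ¬ Pinned r s m (cnts r c U) m') :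
    K4 r s c a m (cnts r c U) := by
  intro hα hy
  by_cases hmK : m < KK r * s
  · exact Or.inl hmK
  right
  push Not at hmK
  intro j hj
  have hE := eqw hALG h
  have hT := tot_eq hALG h
  have hZ := z_le hALG hPAR h
  have hlen := h.len
  have hs1 := h.hs
  have hbig := h.big
  have h0 := cnts_zero (r := r) c U
  rw [mem_Lset] at hj
  obtain ⟨hj1, hj2, hj3⟩ := hj
  obtain ⟨y, hyd⟩ : ∃ y, y = ix r c (a + (r : ZMod (2 * r))) := ⟨_, rfl⟩
  have hylt : y < 2 * r := hyd ▸ ix_lt c _
  have hKs : 0 < KK r * s := by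
    unfold KK
    positivity
  have hyj : y ≠ j := by
    intro he
    have h1 := ix_opp1 c a hj1 (by rw [← hyd, he])
    rw [h1] at hα
    omega
  have hyj' : y ≠ j + r := by
    intro he
    have h1 := ix_opp2 c a hj1 (by rw [← hyd, he])
    rw [h1] at hα
    omega
  rw [← hyd] at hy ⊢
  have hρK : (r + 3) + s ≤ KK r * s := by
    unfold KK
    nlinarith
  have hlen' : ((D.length : ℕ) : ℤ) ≤ (s : ℤ) ^ 2 := by exact_mod_cast hlen
  have hsZ : (1 : ℤ) ≤ s := by exact_mod_cast hs1
  have hk : ((KK r : ℕ) : ℤ) = 100 * r + 1000 := by unfold KK; push_cast; ring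
  have hfinal : (2 * ((r : ℤ) + 3) + 1) * s ≤ (KK r : ℤ) * s := by
    rw [hk]
    exact mul_le_mul_of_nonneg_right (by linarith) (by linarith)
  have hGj := Gf_le (r := r) (cnts r c U) hj1 m m'
  rw [hT] at hGj
  have hHy := Hf_abs_le (r := r) (cnts r c U) hylt m m'
  rw [hT] at hHy
  have hHy' : Hf r (cnts r c U) y ≤ (s : ℤ) ^ 2 := (le_abs_self _).trans (hHy.trans hlen')
  rw [abs_le]
  constructor
  · -- G_j - Hf y is not large
    by_cases hcase : (r + 3) + s ≤ cnts r c U y
    · -- remove s + ρ from the front and from y, add s pairs at j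
      obtain ⟨L1, hL1⟩ := mk (cnts r c U) (fun x => if x = y then -((s : ℤ) + (r + 3)) else 0) (by
        intro x
        split_ifs with hx
        · rw [hx]
          have : (((r + 3) + s : ℕ) : ℤ) ≤ cnts r c U y := by exact_mod_cast hcase
          push_cast at this
          linarith
        · positivity)
      obtain ⟨m1, hm1⟩ : ∃ m1 : ℕ, (m1 : ℤ) = m + (-((s : ℤ) + (r + 3))) :=
        ⟨m - (s + (r + 3)), by
          have : s + (r + 3) ≤ m := by omega
          push_cast [Nat.cast_sub this]
          ring⟩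
      obtain ⟨e1, e2, e3⟩ := (hMV r a c a' m (cnts r c U) m').2.2.1 (-((s : ℤ) + (r + 3))) m1 L1 hm1
        (by
          intro x hx
          rw [hL1 x, ← hyd])
      obtain ⟨L2, hL2⟩ := mk L1 (fun x => if x = j ∨ x = j + r then (s : ℤ) else 0) (by
        intro x
        try simp only
        split_ifs <;> positivity)
      obtain ⟨f1, f2, f3, f4⟩ := pair hMV a c a' m1 m' L1 L2 j (s : ℤ) hj1 (fun x _ => hL2 x)
      have htot : tot r m1 L2 m' + 2 * (r + 3) ≤ D.length := by
        zify
        rw [f2, e2, hT]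
        linarith
      have hlt := d1c hALG hD h (eqw_trans (eqw_trans hE e1) f1) htot
      rw [f3, e3, ← hyd] at hlt
      have hG1 := Gf_single (r := r) (L := cnts r c U) (L1 := L1) (j := j) (y := y) hj1
        (fun x _ => hL1 x)
      rw [abs_le, abs_neg, abs_of_nonneg (by positivity : (0 : ℤ) ≤ (s : ℤ) + (r + 3))] at hG1
      have hG2 : (s : ℤ) * (Gf r (cnts r c U) j - (s + (r + 3))) ≤ s * Gf r L1 j :=
        mul_le_mul_of_nonneg_left (by linarith [hG1.1]) (by positivity)
      have hres := arith (s := (s : ℤ)) (X := Gf r (cnts r c U) j - Hf r (cnts r c U) y)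
        (G := Hf r (cnts r c U) y) (ρ := (r : ℤ) + 3) hsZ (by positivity) hHy' (by linarith)
      linarith
    · -- remove the block y
      push Not at hcase
      by_contra hbig2
      push Not at hbig2
      apply hP
      obtain ⟨μ, hμ⟩ : ∃ μ : ℕ, μ = cnts r c U y := ⟨_, rfl⟩
      obtain ⟨L1, hL1⟩ := mk (cnts r c U) (fun x => if x = y then -(μ : ℤ) else 0) (by
        intro x
        split_ifs with hx
        · rw [hx, hμ]
          simp
        · positivity)
      obtain ⟨m1, hm1⟩ : ∃ m1 : ℕ, (m1 : ℤ) = m + (-(μ : ℤ)) :=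
        ⟨m - μ, by
          have : μ ≤ m := by omega
          push_cast [Nat.cast_sub this]
          ring⟩
      obtain ⟨e1, e2, e3⟩ := (hMV r a c a' m (cnts r c U) m').2.2.1 (-(μ : ℤ)) m1 L1 hm1
        (by
          intro x hx
          rw [hL1 x, ← hyd])
      obtain ⟨L2, hL2⟩ := mk L1 (fun x => if x = j ∨ x = j + r then (μ : ℤ) else 0) (by
        intro x
        try simp only
        split_ifs <;> positivity)
      obtain ⟨f1, f2, f3, f4⟩ := pair hMV a c a' m1 m' L1 L2 j (μ : ℤ) hj1 (fun x _ => hL2 x)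
      have htot : (tot r m1 L2 m' : ℤ) = D.length := by
        rw [f2, e2, hT]
        ring
      have htot' : tot r m1 L2 m' = D.length := by exact_mod_cast htot
      have hG1 := Gf_single (r := r) (L := cnts r c U) (L1 := L1) (j := j) (y := y) hj1
        (fun x _ => hL1 x)
      rw [abs_le, abs_neg, abs_of_nonneg (by positivity : (0 : ℤ) ≤ (μ : ℤ))] at hG1
      have hμZ : (0 : ℤ) ≤ μ := by positivity
      have hμs : (μ : ℤ) ≤ s + (r + 3) := by
        have : μ ≤ s + (r + 3) := by omega
        exact_mod_cast this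
      have hdiff : (μ : ℤ) ≤ Gf r (cnts r c U) j - Hf r (cnts r c U) y := by
        have h1 : (s : ℤ) + (r + 3) ≤ (KK r : ℤ) * s := by
          have : s + (r + 3) ≤ KK r * s := by omega
          exact_mod_cast this
        linarith
      have hz2 : Z r D ≤ Z r (wd r a c a' m1 L2 m') := by
        rw [f3, e3, ← hyd]
        have h1 : 0 ≤ (μ : ℤ) * (Gf r L1 j - Hf r (cnts r c U) y) :=
          mul_nonneg hμZ (by linarith [hG1.1])
        linarith
      have hL1y : L1 y = 0 := by
        have := hL1 y
        simp only [if_true] at this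
        have h2 : (L1 y : ℤ) = 0 := by rw [this, hμ]; ring
        exact_mod_cast h2
      have hL2y : L2 y = 0 := by
        have := hL2 y
        try simp only at this
        rw [if_neg (by push Not; exact ⟨hyj, hyj'⟩), hL1y] at this
        exact_mod_cast this
      have hL2x : ∀ x, x ≠ y → cnts r c U x ≤ L2 x := by
        intro x hx
        have h1 := hL1 x
        have h2 := hL2 x
        try simp only at h1 h2
        rw [if_neg hx, add_zero] at h1
        rw [h1] at h2
        have h3 : (cnts r c U x : ℤ) ≤ L2 x := by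
          rw [h2]
          split_ifs <;> linarith
        exact_mod_cast h3
      have hcd := card_Lset (r := r) (s := s) (L := cnts r c U) (L1 := L2) (y := y) hL2x
      have hval : ∀ x, (L2 x : ℤ) = cnts r c U x + μ * (if x = y then -1 else
          if x = j ∨ x = j + r then 1 else 0) := by
        intro x
        rw [hL2 x, hL1 x]
        try simp only
        by_cases hxy : x = y
        · rw [if_pos hxy, if_pos hxy, if_neg (by rw [hxy]; push Not; exact ⟨hyj, hyj'⟩)]
          ring
        · rw [if_neg hxy, if_neg hxy]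
          split_ifs <;> ring
      have hz0 : ∀ x, 2 * r ≤ x → L2 x = 0 := by
        intro x hx
        have h1 := hval x
        rw [if_neg (by omega), if_neg (by omega), h0 x hx] at h1
        simpa using h1
      have hsp : supp r L2 < supp r (cnts r c U) := by
        refine supp_lt hylt hy hL2y fun x hx hx1 => ?_
        by_cases hxy : x = y
        · rw [hxy]; exact hy
        · by_cases hxj : x = j ∨ x = j + r
          · rcases hxj with hxj | hxj
            · rw [hxj]; omega
            · rw [hxj]; omega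
          · have h1 := hval x
            rw [if_neg hxy, if_neg hxj, mul_zero, add_zero] at h1
            have h2 : L2 x = cnts r c U x := by exact_mod_cast h1
            rwa [h2] at hx1
      have hres := elc hCST hD hEL h hz0 (eqw_trans (eqw_trans hE e1) f1) htot'.le hz2
        (by omega) hsp
      refine ⟨μ, -1, 0, fun x => if x = y then -1 else if x = j ∨ x = j + r then 1 else 0, m1, L2,
        m', ?_, by simp, by simp, ?_, ?_, by rw [hm1]; ring, by ring, hval, ?_, by omega, hres⟩
      · have h1 : cnts r c U y ≤ ∑ x ∈ range (2 * r), cnts r c U x :=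
          Finset.single_le_sum (fun _ _ => Nat.zero_le _) (mem_range.2 hylt)
        unfold tot at hT
        omega
      · intro x
        try simp only
        split_ifs <;> simp
      · intro x hx
        try simp only
        rw [if_neg (by omega), if_neg (by omega)]
      · rw [htot']
        exact hlen
  · -- Hf y - G_j is not large
    obtain ⟨L1, hL1⟩ := mk (cnts r c U) (fun x => if x = y then (s : ℤ) else 0) (by
        intro x
        split_ifs <;> positivity)
    obtain ⟨e1, e2, e3⟩ := (hMV r a c a' m (cnts r c U) m').2.2.1 (s : ℤ) (m + s) L1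
      (by push_cast; ring) (by
          intro x hx
          rw [hL1 x, ← hyd])
    have hge : ∀ x, cnts r c U x ≤ L1 x := by
      intro x
      have := hL1 x
      try simp only at this
      split_ifs at this <;> omega
    obtain ⟨L2, hL2⟩ := mk L1 (fun x => if x = j ∨ x = j + r then -((s : ℤ) + (r + 3)) else 0) (by
      intro x
      try simp only
      split_ifs with hx
      · have h1 : KK r * s ≤ cnts r c U x := by
          rcases hx with hx | hx
          · rw [hx]; exact hj2
          · rw [hx]; exact hj3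
        have h2 := hge x
        have h3 : ((s + (r + 3) : ℕ) : ℤ) ≤ L1 x := by
          have : s + (r + 3) ≤ L1 x := by omega
          exact_mod_cast this
        push_cast at h3
        linarith
      · positivity)
    obtain ⟨f1, f2, f3, f4⟩ := pair hMV a c a' (m + s) m' L1 L2 j (-((s : ℤ) + (r + 3))) hj1
      (fun x _ => hL2 x)
    have htot : tot r (m + s) L2 m' + 2 * (r + 3) ≤ D.length := by
      zify
      rw [f2, e2, hT]
      linarith
    have hlt := d1c hALG hD h (eqw_trans (eqw_trans hE e1) f1) htot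
    rw [f3, e3, ← hyd] at hlt
    have hG1 := Gf_single (r := r) (L := cnts r c U) (L1 := L1) (j := j) (y := y) hj1
      (fun x _ => hL1 x)
    rw [abs_le, abs_of_nonneg (by positivity : (0 : ℤ) ≤ (s : ℤ))] at hG1
    have hG2 : ((s : ℤ) + (r + 3)) * Gf r L1 j ≤ ((s : ℤ) + (r + 3)) * (Gf r (cnts r c U) j + s) :=
      mul_le_mul_of_nonneg_left (by linarith [hG1.2]) (by positivity)
    have hres := arith (s := (s : ℤ)) (X := Hf r (cnts r c U) y - Gf r (cnts r c U) j)
      (G := Gf r (cnts r c U) j) (ρ := (r : ℤ) + 3) hsZ (by positivity) (hGj.trans hlen')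
      (by linarith)
    linarith

end Pool.Agent.T6.H25.GG.G1

namespace Pool.Agent.T6.H25.GG

theorem g1 (hALG : StmtALG) (hPAR : StmtPAR) (hMV : StmtMV) (hCST : StmtCST) (hD : StmtD)
    (hEL : StmtEL) : StmtG1 := by
  intro r _ s p q D a a' c m m' U h
  by_cases hP : Pinned r s m (cnts r c U) m'
  · exact Or.inl hP
  · exact Or.inr ⟨G1.kk3 hALG hPAR hMV hCST hD hEL h hP, G1.kk4 hALG hPAR hMV hCST hD hEL h hP⟩

end Pool.Agent.T6.H25.GG
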