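import Pool.Agent.T6.H25.GG.SYM

/-! Module GS of the project MP_b6554e_al: the statements at the end of the word. -/

set_option autoImplicit false

namespace Pool.Agent.T6.H25.GG

open Finset

namespace GS

/-- reflected length vector -/
def rf (r : ℕ) (L : ℕ → ℕ) : ℕ → ℕ := fun x => if x < 2 * r then L (2 * r - 1 - x) else 0

theorem rf_R (r : ℕ) (L : ℕ → ℕ) (y : ℕ) (hy : y < 2 * r) : rf r L (2 * r - 1 - y) = L y := by
  unfold rf
  rw [if_pos (by omega)]
  congr 1
  omega

theorem rf_rf (r : ℕ) (L : ℕ → ℕ) (h0 : ∀ x, 2 * r ≤ x → L x = 0) : rf r (rf r L) = L := by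
  funext x
  by_cases hx : x < 2 * r
  · have := rf_R r (rf r L) (2 * r - 1 - x) (by omega)
    rw [show 2 * r - 1 - (2 * r - 1 - x) = x by omega] at this
    rw [this, rf_R r L x hx]
  · unfold rf
    rw [if_neg hx, h0 x (not_lt.mp hx)]

theorem ix_neg (r : ℕ) [NeZero r] (c a : ZMod (2 * r)) :
    ix r (-c + 1) (-a) = 2 * r - 1 - ix r c a := by
  unfold ix
  have hr : 0 < r := Nat.pos_of_ne_zero (NeZero.ne r)
  haveI : NeZero (2 * r) := ⟨by omega⟩
  have hlt := ZMod.val_lt (a - c)
  have h : (-a - (-c + 1) : ZMod (2 * r)) = ((2 * r - 1 - (a - c).val : ℕ) : ZMod (2 * r)) := by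
    have h1 : ((2 * r - 1 - (a - c).val + 1 + (a - c).val : ℕ) : ZMod (2 * r)) = 0 := by
      rw [show 2 * r - 1 - (a - c).val + 1 + (a - c).val = 2 * r by omega]
      exact ZMod.natCast_self _
    push_cast at h1
    rw [ZMod.natCast_zmod_val] at h1
    linear_combination -h1
  rw [h, ZMod.val_natCast_of_lt (by omega)]

theorem neg_add_r (r : ℕ) (a : ZMod (2 * r)) :
    -a + (r : ZMod (2 * r)) = -(a + (r : ZMod (2 * r))) := by
  rw [neg_add, SYM.neg_r]

theorem ix_lt (r : ℕ) [NeZero r] (c a : ZMod (2 * r)) : ix r c a < 2 * r := by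
  have hr : 0 < r := Nat.pos_of_ne_zero (NeZero.ne r)
  haveI : NeZero (2 * r) := ⟨by omega⟩
  exact ZMod.val_lt _

theorem cnts_rev (r : ℕ) [NeZero r] (c : ZMod (2 * r)) (U : List (ZMod (2 * r))) :
    cnts r (-c + 1) ((U.map (fun x => -x)).reverse) = rf r (cnts r c U) := by
  funext x
  unfold cnts rf
  by_cases hx : x < 2 * r
  · rw [if_pos hx, if_pos hx]
    simp only
    rw [if_pos (by omega), List.count_reverse]
    have := List.count_map_of_injective U (fun x : ZMod (2 * r) => -x) neg_injective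
      (c + ((2 * r - 1 - x : ℕ) : ZMod (2 * r)))
    rw [← this]
    congr 1
    have h0 : ((2 * r - 1 - x : ℕ) : ZMod (2 * r)) + 1 + x = 0 := by
      have h : ((2 * r - 1 - x + 1 + x : ℕ) : ZMod (2 * r)) = 0 := by
        rw [show 2 * r - 1 - x + 1 + x = 2 * r by omega]
        exact ZMod.natCast_self _
      push_cast at h
      exact h
    linear_combination h0
  · rw [if_neg hx, if_neg hx]

theorem cnts_zero (r : ℕ) (c : ZMod (2 * r)) (U : List (ZMod (2 * r))) :
    ∀ x, 2 * r ≤ x → cnts r c U x = 0 := by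
  intro x hx
  unfold cnts
  rw [if_neg (by omega)]

theorem mem_Lset_rf (r s : ℕ) (L : ℕ → ℕ) (i : ℕ) (hi : i < r) :
    r - 1 - i ∈ Lset r s (rf r L) ↔ i ∈ Lset r s L := by
  unfold Lset
  rw [Finset.mem_filter, Finset.mem_filter, Finset.mem_range, Finset.mem_range]
  have e1 : rf r L (r - 1 - i) = L (i + r) := by
    unfold rf
    rw [if_pos (by omega)]
    congr 1
    omega
  have e2 : rf r L (r - 1 - i + r) = L i := by
    unfold rf
    rw [if_pos (by omega)]
    congr 1
    omega
  rw [e1, e2]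
  constructor
  · rintro ⟨_, h1, h2⟩
    exact ⟨hi, h2, h1⟩
  · rintro ⟨_, h1, h2⟩
    exact ⟨by omega, h2, h1⟩

theorem Lset_lt (r s : ℕ) (L : ℕ → ℕ) (i : ℕ) (h : i ∈ Lset r s L) : i < r := by
  unfold Lset at h
  rw [Finset.mem_filter, Finset.mem_range] at h
  exact h.1

theorem card_Lset_rf (r s : ℕ) (L : ℕ → ℕ) : (Lset r s (rf r L)).card = (Lset r s L).card := by
  symm
  apply Finset.card_bij (fun i _ => r - 1 - i)
  · intro i hi
    exact (mem_Lset_rf r s L i (Lset_lt r s L i hi)).mpr hi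
  · intro i hi j hj hij
    have := Lset_lt r s L i hi
    have := Lset_lt r s L j hj
    omega
  · intro j hj
    have hjr := Lset_lt r s _ j hj
    refine ⟨r - 1 - j, ?_, by omega⟩
    rw [← mem_Lset_rf r s L (r - 1 - j) (by omega)]
    rwa [show r - 1 - (r - 1 - j) = j by omega]

theorem Gf_rf (r : ℕ) (L : ℕ → ℕ) (i : ℕ) (hi : i < r) :
    Gf r (rf r L) (r - 1 - i) = Gf r L i := by
  unfold Gf
  apply Finset.sum_nbij' (fun x => 2 * r - 1 - x) (fun x => 2 * r - 1 - x)
  · intro x hx
    rw [Finset.mem_Ioo] at hx ⊢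
    omega
  · intro x hx
    rw [Finset.mem_Ioo] at hx ⊢
    omega
  · intro x hx
    rw [Finset.mem_Ioo] at hx
    omega
  · intro x hx
    rw [Finset.mem_Ioo] at hx
    omega
  · intro x hx
    rw [Finset.mem_Ioo] at hx
    unfold rf
    rw [if_pos (by omega)]

theorem Hf_rf (r : ℕ) (L : ℕ → ℕ) (y : ℕ) (hy : y < 2 * r) :
    Hf r (rf r L) (2 * r - 1 - y) = Ht r L y := by
  unfold Hf Ht
  apply Finset.sum_nbij' (fun x => 2 * r - 1 - x) (fun x => 2 * r - 1 - x)
  · intro x hx
    rw [Finset.mem_range] at hx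
    rw [Finset.mem_Ioo]
    omega
  · intro x hx
    rw [Finset.mem_Ioo] at hx
    rw [Finset.mem_range]
    omega
  · intro x hx
    rw [Finset.mem_range] at hx
    omega
  · intro x hx
    rw [Finset.mem_Ioo] at hx
    omega
  · intro x hx
    rw [Finset.mem_range] at hx
    unfold rf
    rw [if_pos (by omega)]
    congr 2
    omega

theorem tot_rf (r m : ℕ) (L : ℕ → ℕ) (m' : ℕ) : tot r m' (rf r L) m = tot r m L m' := by
  unfold tot
  have : ∑ x ∈ range (2 * r), rf r L x = ∑ x ∈ range (2 * r), L x := by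
    rw [← Finset.sum_range_reflect L (2 * r)]
    apply Finset.sum_congr rfl
    intro x hx
    rw [Finset.mem_range] at hx
    unfold rf
    rw [if_pos hx]
  rw [this]
  ring

theorem pinned_rf (r s m : ℕ) (L : ℕ → ℕ) (m' : ℕ) (h0 : ∀ x, 2 * r ≤ x → L x = 0)
    (h : Pinned r s m' (rf r L) m) : Pinned r s m L m' := by
  obtain ⟨μ, e0, e0', e, m1, L1, m1', h1, h2, h3, h4, h5, h6, h7, h8, h9, h10, h11⟩ := h
  have hL1 : ∀ x, 2 * r ≤ x → L1 x = 0 := by
    intro x hx
    have := h8 x
    rw [h5 x hx, mul_zero, add_zero] at this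
    have e : rf r L x = 0 := by
      unfold rf
      rw [if_neg (by omega)]
    rw [e] at this
    exact_mod_cast this
  refine ⟨μ, e0', e0, fun x => if x < 2 * r then e (2 * r - 1 - x) else 0, m1', rf r L1, m1,
    h1, h3, h2, ?_, ?_, h7, h6, ?_, ?_, ?_, ?_⟩
  · intro x
    by_cases hx : x < 2 * r
    · simp only [if_pos hx]
      exact h4 _
    · simp only [if_neg hx, abs_zero]
      norm_num
  · intro x hx
    simp only [if_neg (not_lt.mpr hx)]
  · intro x
    by_cases hx : x < 2 * r
    · have := h8 (2 * r - 1 - x)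
      rw [rf_R r L x hx] at this
      simp only [if_pos hx]
      unfold rf
      rw [if_pos hx, this]
    · simp only [if_neg hx, mul_zero, add_zero]
      unfold rf
      rw [if_neg hx, h0 x (not_lt.mp hx)]
  · rw [tot_rf]
    exact h9
  · rw [card_Lset_rf]
    exact h10
  · intro i hi j hj
    have hir := Lset_lt r s _ i hi
    have hjr := Lset_lt r s _ j hj
    have hi' : r - 1 - i ∈ Lset r s L1 := by
      rw [← mem_Lset_rf r s L1 _ (by omega)]
      rwa [show r - 1 - (r - 1 - i) = i by omega]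
    have hj' : r - 1 - j ∈ Lset r s L1 := by
      rw [← mem_Lset_rf r s L1 _ (by omega)]
      rwa [show r - 1 - (r - 1 - j) = j by omega]
    have := h11 _ hi' _ hj'
    rw [← Gf_rf r L1 (r - 1 - i) (by omega), ← Gf_rf r L1 (r - 1 - j) (by omega),
      show r - 1 - (r - 1 - i) = i by omega, show r - 1 - (r - 1 - j) = j by omega] at this
    exact this

theorem dec_rev (hP : StmtPAR) (r : ℕ) [NeZero r] (s : ℕ) (p q : ZMod (2 * r))
    (D : List (ZMod (2 * r)))
    (a a' c : ZMod (2 * r)) (m m' : ℕ) (U : List (ZMod (2 * r))) (h : Dec r s p q D a a' c m m' U) :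
    Dec r s (-q) (-p) ((D.map (fun x => -x)).reverse) (-a') (-a) (-c + 1) m' m
      ((U.map (fun x => -x)).reverse) where
  geo := SYM.geo_rev hP r p q D h.geo
  zn := by
    rw [SYM.Z_reverse hP, SYM.Z_neg hP, neg_neg]
    exact h.zn
  hs := h.hs
  len := by
    rw [List.length_reverse, List.length_map]
    exact h.len
  hm := h.hm'
  hm' := h.hm
  eq := by
    rw [h.eq, List.map_append, List.map_append, List.reverse_append, List.reverse_append,
      List.map_replicate, List.map_replicate, List.reverse_replicate, List.reverse_replicate,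
      List.append_assoc]
  ne := by
    intro h'
    apply h.ne
    simpa using h'
  hd := by
    intro x hx
    rw [List.head?_reverse, List.getLast?_map, Option.map_eq_some_iff] at hx
    obtain ⟨y, hy, rfl⟩ := hx
    rw [SYM.ax_neg]
    exact h.tl y hy
  tl := by
    intro x hx
    rw [List.getLast?_reverse, List.head?_map, Option.map_eq_some_iff] at hx
    obtain ⟨y, hy, rfl⟩ := hx
    rw [SYM.ax_neg]
    exact h.hd y hy
  cut := by
    rw [cnts_rev]
    have := SYM.srt_rev r c (cnts r c U)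
    rw [show (fun x => if x < 2 * r then cnts r c U (2 * r - 1 - x) else 0) =
      rf r (cnts r c U) from rfl] at this
    rw [← this, SYM.Z_reverse hP, SYM.Z_neg hP, SYM.Z_reverse hP, SYM.Z_neg hP, neg_neg, neg_neg]
    exact h.cut
  big := by
    rw [cnts_rev, card_Lset_rf]
    exact h.big

end GS

open GS in
theorem gs (hP : StmtPAR) (hG0 : StmtG0) (hG1 : StmtG1) : StmtGS := by
  intro r _ s p q D a a' c m m' U h
  have hr : 0 < r := Nat.pos_of_ne_zero (NeZero.ne r)
  have h' := dec_rev hP r s p q D a a' c m m' U h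
  have h0 := hG0 _ _ _ _ _ _ _ _ _ _ _ h'
  have h1 := hG1 _ _ _ _ _ _ _ _ _ _ _ h'
  rw [cnts_rev] at h0 h1
  set L := cnts r c U with hL
  have hL0 : ∀ x, 2 * r ≤ x → L x = 0 := cnts_zero r c U
  rcases h0 with h0 | ⟨-, k1, -⟩
  · exact Or.inl (pinned_rf r s m L m' hL0 h0)
  rcases h1 with h1 | ⟨k3, k4⟩
  · exact Or.inl (pinned_rf r s m L m' hL0 h1)
  right
  refine ⟨?_, ?_, ?_⟩
  · intro x hx hLx hx'
    have := k1 (2 * r - 1 - x) (by omega) (by rw [rf_R r L x hx]; exact hLx) (by
      intro z hz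
      have e := rf_R r L (2 * r - 1 - z) (by omega)
      rw [show 2 * r - 1 - (2 * r - 1 - z) = z by omega] at e
      rw [e]
      exact hx' _ (by omega) (by omega))
    rw [neg_add_r, ix_neg, ix_neg] at this
    have b1 := ix_lt r c a'
    have b2 := ix_lt r c (a' + (r : ZMod (2 * r)))
    omega
  · intro hpos
    have b1 := ix_lt r c a'
    unfold K3 at k3
    rw [ix_neg, rf_R r L _ b1, Hf_rf r L _ b1] at k3
    exact k3 hpos
  · intro hz hpos
    have b1 := ix_lt r c a'
    have b2 := ix_lt r c (a' + (r : ZMod (2 * r)))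
    unfold K4 at k4
    rw [neg_add_r, ix_neg, ix_neg, rf_R r L _ b1, rf_R r L _ b2, Hf_rf r L _ b2] at k4
    rcases k4 hz hpos with h | h
    · exact Or.inl h
    · right
      intro j hj
      have hjr := Lset_lt r s L j hj
      have := h (r - 1 - j) ((mem_Lset_rf r s L j hjr).mpr hj)
      rw [Gf_rf r L j hjr] at this
      exact this

end Pool.Agent.T6.H25.GG
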