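import Pool.Agent.T6.H25.GG.Stmts

/-! Module H of the project MP_b6554e_al: the main count. -/

set_option autoImplicit false

namespace Pool.Agent.T6.H25.GG
namespace H

open Finset

/-! ### Elimination of coordinates -/

/-- projection: the coordinates in `E` are replaced by zero -/
def prj (E : Finset ℕ) (f : ℕ → ℤ) : ℕ → ℤ := fun x => if x ∈ E then 0 else f x

noncomputable def cn (F : Set (ℕ → ℤ)) (E : Finset ℕ) : ℕ := (prj E '' F).ncard

/-- the function does not depend on the coordinates in `E` -/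
def Ind (φ : (ℕ → ℤ) → ℤ) (E : Finset ℕ) : Prop :=
  ∀ f g : ℕ → ℤ, (∀ j, j ∉ E → f j = g j) → φ f = φ g

lemma Ind.mono {φ : (ℕ → ℤ) → ℤ} {E E' : Finset ℕ} (h : Ind φ E') (hE : E ⊆ E') : Ind φ E := by
  intro f g hfg
  exact h f g (fun j hj => hfg j (fun hj' => hj (hE hj')))

lemma Ind_zero (E : Finset ℕ) : Ind (fun _ => 0) E := fun _ _ _ => rfl

lemma Ind_sum (S E : Finset ℕ) (k : ℕ → ℤ) (h : ∀ x ∈ S, x ∉ E) :
    Ind (fun f => ∑ x ∈ S, f x * k x) E := by
  intro f g hfg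
  refine Finset.sum_congr rfl (fun x hx => ?_)
  rw [hfg x (h x hx)]

lemma Ind_sum' (S E : Finset ℕ) (h : ∀ x ∈ S, x ∉ E) :
    Ind (fun f => ∑ x ∈ S, f x) E := by
  intro f g hfg
  refine Finset.sum_congr rfl (fun x hx => ?_)
  rw [hfg x (h x hx)]

lemma Ind_sub {φ ψ : (ℕ → ℤ) → ℤ} {E : Finset ℕ} (h : Ind φ E) (h' : Ind ψ E) :
    Ind (fun f => φ f - ψ f) E := by
  intro f g hfg
  show φ f - ψ f = φ g - ψ g
  rw [h f g hfg, h' f g hfg]

lemma Ind_mulc {φ : (ℕ → ℤ) → ℤ} {E : Finset ℕ} (h : Ind φ E) (c : ℤ) :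
    Ind (fun f => c * φ f) E := by
  intro f g hfg
  show c * φ f = c * φ g
  rw [h f g hfg]

/-- extension by zero -/
def ext (n : ℕ) (g : Fin n → ℤ) : ℕ → ℤ := fun x => if h : x < n then g ⟨x, h⟩ else 0

/-- restriction -/
def res (n : ℕ) (f : ℕ → ℤ) : Fin n → ℤ := fun i => f i

lemma res_inj (n : ℕ) : Set.InjOn (res n) {f : ℕ → ℤ | ∀ x, n ≤ x → f x = 0} := by
  intro f hf g hg hfg
  funext x
  by_cases hx : x < n
  · have := congrFun hfg ⟨x, hx⟩
    simpa [res] using this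
  · rw [hf x (by omega), hg x (by omega)]

lemma res_prj_ncard (n : ℕ) (F : Set (ℕ → ℤ)) (hs : ∀ f ∈ F, ∀ x, n ≤ x → f x = 0)
    (E : Finset ℕ) : (res n '' (prj E '' F)).ncard = cn F E := by
  unfold cn
  refine Set.InjOn.ncard_image ?_
  refine (res_inj n).mono ?_
  rintro _ ⟨f, hf, rfl⟩ x hx
  simp only [prj]
  split_ifs
  · rfl
  · exact hs f hf x hx

lemma ext_update (n : ℕ) (g : Fin n → ℤ) (i : ℕ) (hi : i < n) (t : ℤ) (x : ℕ) (hx : x ≠ i) :
    ext n (Function.update g ⟨i, hi⟩ t) x = ext n g x := by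
  unfold ext
  by_cases h : x < n
  · rw [dif_pos h, dif_pos h, Function.update_of_ne]
    intro h'
    exact hx (by simpa using congrArg Fin.val h')
  · rw [dif_neg h, dif_neg h]

lemma single (h1 : StmtH1) (n : ℕ) (F : Set (ℕ → ℤ)) (hfin : F.Finite)
    (hs : ∀ f ∈ F, ∀ x, n ≤ x → f x = 0) (E : Finset ℕ) (i : ℕ) (hi : i < n)
    (φ : (ℕ → ℤ) → ℤ) (D : ℕ) (hφ : Ind φ (insert i E)) (hD : ∀ f ∈ F, |f i - φ f| ≤ D) :
    cn F E ≤ (2 * D + 1) * cn F (insert i E) := by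
  by_cases hiE : i ∈ E
  · rw [Finset.insert_eq_of_mem hiE]
    exact Nat.le_mul_of_pos_left _ (by omega)
  · have key := h1.1 (Fin n) (res n '' (prj E '' F)) ⟨i, hi⟩
      (fun g => φ (ext n g)) D ((hfin.image _).image _) ?_ ?_
    · rw [res_prj_ncard n F hs E] at key
      have himg : (fun f : Fin n → ℤ => Function.update f ⟨i, hi⟩ 0) '' (res n '' (prj E '' F)) =
          res n '' (prj (insert i E) '' F) := by
        rw [Set.image_image, Set.image_image, Set.image_image]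
        refine Set.image_congr (fun f _ => ?_)
        funext x
        by_cases hx : x = ⟨i, hi⟩
        · subst hx
          simp [res, prj]
        · rw [Function.update_of_ne hx]
          have hx' : (x : ℕ) ≠ i := by
            intro h'
            exact hx (Fin.ext h')
          simp [res, prj, hx']
      rw [himg, res_prj_ncard n F hs] at key
      exact key
    · intro g t
      refine hφ _ _ (fun j hj => ?_)
      exact ext_update n g i hi t j (fun h => hj (by simp [h]))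
    · rintro _ ⟨_, ⟨f, hf, rfl⟩, rfl⟩
      have e1 : res n (prj E f) ⟨i, hi⟩ = f i := by simp [res, prj, hiE]
      have e2 : φ (ext n (res n (prj E f))) = φ (prj E f) := by
        refine hφ _ _ (fun j hj => ?_)
        have hjE : j ∉ E := fun h => hj (by simp [h])
        by_cases hjn : j < n
        · simp [ext, res, hjn]
        · simp only [ext, hjn, dif_neg, not_false_eq_true, prj, hjE, if_false]
          exact (hs f hf j (by omega)).symm
      have e3 : φ (prj E f) = φ f := by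
        refine hφ _ _ (fun j hj => ?_)
        have hjE : j ∉ E := fun h => hj (by simp [h])
        simp [prj, hjE]
      show |res n (prj E f) ⟨i, hi⟩ - φ (ext n (res n (prj E f)))| ≤ D
      rw [e1, e2, e3]
      exact hD f hf

lemma pair (h1 : StmtH1) (n : ℕ) (F : Set (ℕ → ℤ)) (hfin : F.Finite)
    (hs : ∀ f ∈ F, ∀ x, n ≤ x → f x = 0) (E : Finset ℕ) (u v : ℕ) (hu : u < n) (hv : v < n)
    (huv : u ≠ v) (huE : u ∉ E) (hvE : v ∉ E)
    (φ : (ℕ → ℤ) → ℤ) (ε : ℤ) (hε : ε = 1 ∨ ε = -1) (B H : ℕ) (hφ : Ind φ (insert u (insert v E)))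
    (hD : ∀ f ∈ F, 0 ≤ f u ∧ f u ≤ B ∧ 0 ≤ f v ∧ f v ≤ B ∧ f u * |ε * f v + φ f| ≤ H) :
    cn F E ≤ (4 * B + 4 + 2 * H * (Nat.log 2 (B + 1) + 2)) * cn F (insert u (insert v E)) := by
  have key := h1.2.1 (Fin n) (res n '' (prj E '' F)) ⟨u, hu⟩ ⟨v, hv⟩
      (fun g => φ (ext n g)) ε B H (by simpa using huv) ((hfin.image _).image _) hε ?_ ?_
  · rw [res_prj_ncard n F hs E] at key
    have himg : (fun f : Fin n → ℤ => Function.update (Function.update f ⟨u, hu⟩ 0) ⟨v, hv⟩ 0) ''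
        (res n '' (prj E '' F)) = res n '' (prj (insert u (insert v E)) '' F) := by
      rw [Set.image_image, Set.image_image, Set.image_image]
      refine Set.image_congr (fun f _ => ?_)
      funext x
      by_cases hx : x = ⟨v, hv⟩
      · subst hx
        simp [res, prj]
      · rw [Function.update_of_ne hx]
        have hx' : (x : ℕ) ≠ v := by
          intro h'
          exact hx (Fin.ext h')
        by_cases hy : x = ⟨u, hu⟩
        · subst hy
          simp [res, prj]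
        · rw [Function.update_of_ne hy]
          have hy' : (x : ℕ) ≠ u := by
            intro h'
            exact hy (Fin.ext h')
          simp [res, prj, hx', hy']
    rw [himg, res_prj_ncard n F hs] at key
    exact key
  · intro g t t'
    refine hφ _ _ (fun j hj => ?_)
    rw [ext_update n _ v hv t' j (fun h => hj (by simp [h])),
      ext_update n g u hu t j (fun h => hj (by simp [h]))]
  · rintro _ ⟨_, ⟨f, hf, rfl⟩, rfl⟩
    have e0 : res n (prj E f) ⟨u, hu⟩ = f u := by simp [res, prj, huE]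
    have e1 : res n (prj E f) ⟨v, hv⟩ = f v := by simp [res, prj, hvE]
    have e2 : φ (ext n (res n (prj E f))) = φ (prj E f) := by
      refine hφ _ _ (fun j hj => ?_)
      have hjE : j ∉ E := fun h => hj (by simp [h])
      by_cases hjn : j < n
      · simp [ext, res, hjn]
      · simp only [ext, hjn, dif_neg, not_false_eq_true, prj, hjE, if_false]
        exact (hs f hf j (by omega)).symm
    have e3 : φ (prj E f) = φ f := by
      refine hφ _ _ (fun j hj => ?_)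
      have hjE : j ∉ E := fun h => hj (by simp [h])
      simp [prj, hjE]
    show 0 ≤ res n (prj E f) ⟨u, hu⟩ ∧ res n (prj E f) ⟨u, hu⟩ ≤ B ∧
      0 ≤ res n (prj E f) ⟨v, hv⟩ ∧ res n (prj E f) ⟨v, hv⟩ ≤ B ∧
      res n (prj E f) ⟨u, hu⟩ * |ε * res n (prj E f) ⟨v, hv⟩ + φ (ext n (res n (prj E f)))| ≤ H
    rw [e0, e1, e2, e3]
    exact hD f hf

lemma many (h1 : StmtH1) (n : ℕ) (F : Set (ℕ → ℤ)) (hfin : F.Finite)
    (hs : ∀ f ∈ F, ∀ x, n ≤ x → f x = 0) (E S : Finset ℕ) (D : ℕ)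
    (hS : ∀ i ∈ S, i < n ∧ ∃ φ, Ind φ (E ∪ S) ∧ ∀ f ∈ F, |f i - φ f| ≤ D) :
    cn F E ≤ (2 * D + 1) ^ S.card * cn F (E ∪ S) := by
  have aux : ∀ T : Finset ℕ, T ⊆ S → cn F E ≤ (2 * D + 1) ^ T.card * cn F (E ∪ T) := by
    intro T
    induction T using Finset.induction_on with
    | empty => intro _; simp
    | insert i T hi ih =>
      intro hT
      have hT' : T ⊆ S := fun x hx => hT (Finset.mem_insert_of_mem hx)
      obtain ⟨hin, φ, hφ, hD⟩ := hS i (hT (Finset.mem_insert_self i T))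
      have h2 := single h1 n F hfin hs (E ∪ T) i hin φ D (hφ.mono ?_) hD
      · rw [Finset.card_insert_of_notMem hi, Finset.union_insert, pow_succ]
        calc cn F E ≤ (2 * D + 1) ^ T.card * cn F (E ∪ T) := ih hT'
          _ ≤ (2 * D + 1) ^ T.card * ((2 * D + 1) * cn F (insert i (E ∪ T))) :=
            Nat.mul_le_mul_left _ h2
          _ = (2 * D + 1) ^ T.card * (2 * D + 1) * cn F (insert i (E ∪ T)) := by ring
      · intro x hx
        rw [Finset.mem_insert] at hx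
        rcases hx with hx | hx
        · rw [hx]; exact Finset.mem_union_right _ (hT (Finset.mem_insert_self i T))
        · rcases Finset.mem_union.1 hx with hx | hx
          · exact Finset.mem_union_left _ hx
          · exact Finset.mem_union_right _ (hT' hx)
  exact aux S (Finset.Subset.refl S)

lemma cn_empty (F : Set (ℕ → ℤ)) : cn F ∅ = F.ncard := by
  unfold cn
  have : prj ∅ '' F = F := by
    have h : (prj ∅ : (ℕ → ℤ) → (ℕ → ℤ)) = id := by
      funext f x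
      simp [prj]
    rw [h, Set.image_id]
  rw [this]

lemma cn_full (n : ℕ) (F : Set (ℕ → ℤ)) (hs : ∀ f ∈ F, ∀ x, n ≤ x → f x = 0)
    (E : Finset ℕ) (hE : range n ⊆ E) : cn F E ≤ 1 := by
  unfold cn
  have : prj E '' F ⊆ {fun _ => 0} := by
    rintro _ ⟨f, hf, rfl⟩
    rw [Set.mem_singleton_iff]
    funext x
    simp only [prj]
    split_ifs with h
    · rfl
    · refine hs f hf x ?_
      by_contra hx
      exact h (hE (Finset.mem_range.2 (by omega)))
  calc (prj E '' F).ncard ≤ ({fun _ => 0} : Set (ℕ → ℤ)).ncard :=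
        Set.ncard_le_ncard this (Set.finite_singleton _)
    _ = 1 := Set.ncard_singleton _

/-! ### The forms and the data -/

def Gz (r : ℕ) (f : ℕ → ℤ) (i : ℕ) : ℤ := ∑ x ∈ Ioo i (i + r), f x

def Hz (r : ℕ) (f : ℕ → ℤ) (y : ℕ) : ℤ := ∑ x ∈ range y, f x * bt r (y - x)

def Htz (r : ℕ) (f : ℕ → ℤ) (y : ℕ) : ℤ := ∑ x ∈ Ioo y (2 * r), f x * bt r (x - y)

def omz (r : ℕ) (a c : ZMod (2 * r)) (f : ℕ → ℤ) : ℤ :=
  ∑ x ∈ range (2 * r), f x * b r (c + (x : ZMod (2 * r)) - a)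

/-- active axes -/
def AA (r : ℕ) (X : Finset ℕ) : Finset ℕ := (range r).filter (fun i => i ∈ X ∧ i + r ∈ X)

/-- axes that occur -/
def UU (r : ℕ) (X : Finset ℕ) : Finset ℕ := (range r).filter (fun i => i ∈ X ∨ i + r ∈ X)

structure XC (r : ℕ) (c a a' : ZMod (2 * r)) (X : Finset ℕ) (x0 xl i1 : ℕ) : Prop where
  sub : ∀ x ∈ X, x < 2 * r
  h0 : x0 ∈ X
  h0m : ∀ x ∈ X, x0 ≤ x
  hl : xl ∈ X
  hlm : ∀ x ∈ X, x ≤ xl
  i1A : i1 ∈ AA r X
  i1m : ∀ i ∈ AA r X, i1 ≤ i
  n0 : x0 ≠ ix r c a ∧ x0 ≠ ix r c (a + (r : ZMod (2 * r)))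
  nl : xl ≠ ix r c a' ∧ xl ≠ ix r c (a' + (r : ZMod (2 * r)))

structure Dt (r N : ℕ) (c a a' : ZMod (2 * r)) (X : Finset ℕ) (f : ℕ → ℤ) : Prop where
  nn : ∀ x, 0 ≤ f x
  le : ∀ x, f x ≤ (N : ℤ) ^ 10
  out : ∀ x, x < 2 * r → x ∉ X → f x = 0
  top : ∀ x, 2 * r + 2 ≤ x → f x = 0
  ch : ∀ i ∈ AA r X, ∀ j ∈ AA r X, |Gz r f i - Gz r f j| ≤ 2 * KK r * (N : ℤ) ^ 5
  k3 : ix r c a ∈ X → f (2 * r) * |Hz r f (ix r c a)| ≤ KK r * (N : ℤ) ^ 10
  k3' : ix r c a' ∈ X → f (2 * r + 1) * |Htz r f (ix r c a')| ≤ KK r * (N : ℤ) ^ 10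
  k4 : ix r c a ∉ X → ix r c (a + (r : ZMod (2 * r))) ∈ X → f (2 * r) ≤ KK r * (N : ℤ) ^ 5 ∨
    ∀ i ∈ AA r X, |Hz r f (ix r c (a + (r : ZMod (2 * r)))) - Gz r f i| ≤ 2 * KK r * (N : ℤ) ^ 5
  k4' : ix r c a' ∉ X → ix r c (a' + (r : ZMod (2 * r))) ∈ X →
    f (2 * r + 1) ≤ KK r * (N : ℤ) ^ 5 ∨
    ∀ i ∈ AA r X, |Htz r f (ix r c (a' + (r : ZMod (2 * r)))) - Gz r f i| ≤ 2 * KK r * (N : ℤ) ^ 5
  k5 : a' = a → ix r c a ∉ X → f (2 * r) * |omz r a c f| ≤ KK r * (N : ℤ) ^ 10 ∨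
    f (2 * r + 1) * |omz r a c f| ≤ KK r * (N : ℤ) ^ 10
  k6 : a' = a + (r : ZMod (2 * r)) → ix r c a ∉ X → ix r c (a + (r : ZMod (2 * r))) ∉ X →
    f (2 * r) ≤ KK r * (N : ℤ) ^ 5 ∨ f (2 * r + 1) ≤ KK r * (N : ℤ) ^ 5 ∨
    ∀ i ∈ AA r X, |omz r a c f - Gz r f i| ≤ 2 * KK r * (N : ℤ) ^ 5

def C0 (r : ℕ) : ℕ := 24 * KK r + 8

/-- everything needed about a class of data -/
structure Cl (r N : ℕ) (c a a' : ZMod (2 * r)) (X : Finset ℕ) (x0 xl i1 : ℕ)
    (F : Set (ℕ → ℤ)) : Prop where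
  h1 : StmtH1
  hN : 1 ≤ N
  hr : 0 < r
  xc : XC r c a a' X x0 xl i1
  hF : ∀ f ∈ F, Dt r N c a a' X f

section steps

variable {r N : ℕ} {c a a' : ZMod (2 * r)} {X : Finset ℕ} {x0 xl i1 : ℕ} {F : Set (ℕ → ℤ)}

lemma Cl.sub {F' : Set (ℕ → ℤ)} (K : Cl r N c a a' X x0 xl i1 F) (h : F' ⊆ F) :
    Cl r N c a a' X x0 xl i1 F' :=
  ⟨K.h1, K.hN, K.hr, K.xc, fun f hf => K.hF f (h hf)⟩

lemma fin_of (h1 : StmtH1) (n B : ℕ) (F : Set (ℕ → ℤ))
    (hF : ∀ f ∈ F, (∀ x, 0 ≤ f x ∧ f x ≤ B) ∧ ∀ x, n ≤ x → f x = 0) : F.Finite := by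
  refine Set.Finite.of_finite_image (f := res n) ?_ ((res_inj n).mono (fun f hf => (hF f hf).2))
  refine (h1.2.2 (Fin n) _ (fun _ => B) ?_).1
  rintro _ ⟨f, hf, rfl⟩ i
  exact (hF f hf).1 i

lemma Cl.fin (K : Cl r N c a a' X x0 xl i1 F) : F.Finite := by
  refine fin_of K.h1 (2 * r + 2) (N ^ 10) F (fun f hf => ⟨fun x => ⟨(K.hF f hf).nn x, ?_⟩,
    (K.hF f hf).top⟩)
  have := (K.hF f hf).le x
  push_cast
  exact this

lemma Cl.top (K : Cl r N c a a' X x0 xl i1 F) : ∀ f ∈ F, ∀ x, 2 * r + 2 ≤ x → f x = 0 :=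
  fun f hf => (K.hF f hf).top

lemma log_bound (N : ℕ) : Nat.log 2 (N ^ 10 + 1) ≤ 10 * N := by
  have h1 : N + 1 ≤ 2 ^ N := Nat.lt_two_pow_self
  have h2 : N ^ 10 + 1 ≤ (N + 1) ^ 10 := by
    have := Nat.pow_lt_pow_left (Nat.lt_succ_self N) (show (10 : ℕ) ≠ 0 by norm_num)
    exact this
  have h3 : (N + 1) ^ 10 ≤ 2 ^ (10 * N) := by
    calc (N + 1) ^ 10 ≤ (2 ^ N) ^ 10 := Nat.pow_le_pow_left h1 10
      _ = 2 ^ (10 * N) := by rw [← pow_mul]; congr 1; ring
  calc Nat.log 2 (N ^ 10 + 1) ≤ Nat.log 2 (2 ^ (10 * N)) := Nat.log_mono_right (h2.trans h3)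
    _ = 10 * N := Nat.log_pow (by norm_num) _

lemma hyp_const (r N : ℕ) (hN : 1 ≤ N) :
    4 * N ^ 10 + 4 + 2 * (KK r * N ^ 10) * (Nat.log 2 (N ^ 10 + 1) + 2) ≤ C0 r * N ^ 11 := by
  have h1 := log_bound N
  have h2 : 1 ≤ N ^ 10 := Nat.one_le_pow _ _ hN
  have h3 : N ^ 10 ≤ N ^ 11 := Nat.pow_le_pow_right hN (by norm_num)
  have h4 : 2 * (KK r * N ^ 10) * (Nat.log 2 (N ^ 10 + 1) + 2) ≤ 24 * KK r * N ^ 11 := by
    calc 2 * (KK r * N ^ 10) * (Nat.log 2 (N ^ 10 + 1) + 2)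
        ≤ 2 * (KK r * N ^ 10) * (10 * N + 2 * N) := Nat.mul_le_mul_left _ (by omega)
      _ = 24 * KK r * N ^ 11 := by ring
  unfold C0
  calc _ ≤ 4 * N ^ 11 + 4 * N ^ 11 + 24 * KK r * N ^ 11 := by omega
    _ = (24 * KK r + 8) * N ^ 11 := by ring

lemma Cl.hyp (K : Cl r N c a a' X x0 xl i1 F) (E : Finset ℕ) (u v : ℕ) (hu : u < 2 * r + 2)
    (hv : v < 2 * r + 2) (huv : u ≠ v) (huE : u ∉ E) (hvE : v ∉ E) (φ : (ℕ → ℤ) → ℤ) (ε : ℤ)
    (hε : ε = 1 ∨ ε = -1) (hφ : Ind φ (insert u (insert v E)))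
    (hD : ∀ f ∈ F, f u * |ε * f v + φ f| ≤ KK r * (N : ℤ) ^ 10) :
    cn F E ≤ C0 r * N ^ 11 * cn F (insert u (insert v E)) := by
  have h := pair K.h1 (2 * r + 2) F K.fin K.top E u v hu hv huv huE hvE φ ε hε (N ^ 10)
    (KK r * N ^ 10) hφ (fun f hf => ⟨(K.hF f hf).nn u, ?_, (K.hF f hf).nn v, ?_, ?_⟩)
  · exact h.trans (Nat.mul_le_mul_right _ (hyp_const r N K.hN))
  · have := (K.hF f hf).le u
    push_cast
    exact this
  · have := (K.hF f hf).le v
    push_cast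
    exact this
  · push_cast
    exact hD f hf

lemma Cl.lin (K : Cl r N c a a' X x0 xl i1 F) (E : Finset ℕ) (v : ℕ)
    (hv : v < 2 * r + 2) (φ : (ℕ → ℤ) → ℤ) (ε : ℤ)
    (hε : ε = 1 ∨ ε = -1) (hφ : Ind φ (insert v E))
    (hD : ∀ f ∈ F, |ε * f v + φ f| ≤ 2 * KK r * (N : ℤ) ^ 5) :
    cn F E ≤ C0 r * N ^ 5 * cn F (insert v E) := by
  have h := single K.h1 (2 * r + 2) F K.fin K.top E v hv (fun f => - ε * φ f) (2 * KK r * N ^ 5)
    (Ind_mulc hφ (-ε)) (fun f hf => ?_)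
  · refine h.trans (Nat.mul_le_mul_right _ ?_)
    have h2 : 1 ≤ N ^ 5 := Nat.one_le_pow _ _ K.hN
    unfold C0
    nlinarith [Nat.zero_le (KK r * N ^ 5)]
  · have h3 := hD f hf
    push_cast
    have h4 : |f v - -ε * φ f| = |ε * f v + φ f| := by
      rcases hε with h | h
      · subst h
        congr 1; ring
      · subst h
        rw [← abs_neg]
        congr 1; ring
    rw [h4]
    exact h3

lemma Cl.small (K : Cl r N c a a' X x0 xl i1 F) (E : Finset ℕ) (v : ℕ)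
    (hv : v < 2 * r + 2) (hD : ∀ f ∈ F, f v ≤ KK r * (N : ℤ) ^ 5) :
    cn F E ≤ C0 r * N ^ 5 * cn F (insert v E) := by
  refine K.lin E v hv (fun _ => 0) 1 (Or.inl rfl) (Ind_zero _) (fun f hf => ?_)
  have h1 := hD f hf
  have h2 := (K.hF f hf).nn v
  rw [one_mul, add_zero, abs_of_nonneg h2]
  nlinarith

lemma Cl.free (K : Cl r N c a a' X x0 xl i1 F) (E : Finset ℕ) (v : ℕ)
    (hv : v < 2 * r + 2) : cn F E ≤ C0 r * N ^ 10 * cn F (insert v E) := by
  have h := single K.h1 (2 * r + 2) F K.fin K.top E v hv (fun f => 0) (N ^ 10)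
    (Ind_zero _) (fun f hf => ?_)
  · refine h.trans (Nat.mul_le_mul_right _ ?_)
    have h2 : 1 ≤ N ^ 10 := Nat.one_le_pow _ _ K.hN
    unfold C0
    nlinarith [Nat.zero_le (KK r * N ^ 10)]
  · have h3 := (K.hF f hf).le v
    push_cast
    rw [sub_zero, abs_of_nonneg ((K.hF f hf).nn v)]
    exact h3

def Side (r N : ℕ) (F : Set (ℕ → ℤ)) (E : Finset ℕ) (u v t : ℕ) : Prop :=
  cn F E ≤ C0 r ^ 2 * N ^ (11 + 5 * t) * cn F (insert u (insert v E))

lemma C0_pos (r : ℕ) : 1 ≤ C0 r := by unfold C0; omega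

lemma Cl.side0 (K : Cl r N c a a' X x0 xl i1 F) (E : Finset ℕ) (u v : ℕ) (hu : u < 2 * r + 2)
    (hv : v < 2 * r + 2) (huv : u ≠ v) (huE : u ∉ E) (hvE : v ∉ E) (φ : (ℕ → ℤ) → ℤ) (ε : ℤ)
    (hε : ε = 1 ∨ ε = -1) (hφ : Ind φ (insert u (insert v E)))
    (hD : ∀ f ∈ F, f u * |ε * f v + φ f| ≤ KK r * (N : ℤ) ^ 10) :
    Side r N F E u v 0 := by
  refine (K.hyp E u v hu hv huv huE hvE φ ε hε hφ hD).trans (Nat.mul_le_mul_right _ ?_)
  rw [pow_two, mul_zero, add_zero]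
  refine Nat.mul_le_mul_right _ ?_
  exact Nat.le_mul_of_pos_left _ (C0_pos r)

lemma two_steps {m1 m2 m3 e1 e2 e k : ℕ} (hN : 1 ≤ N) (h1 : m1 ≤ k * N ^ e1 * m2)
    (h2 : m2 ≤ k * N ^ e2 * m3) (he : e1 + e2 ≤ e) : m1 ≤ k ^ 2 * N ^ e * m3 := by
  calc m1 ≤ k * N ^ e1 * m2 := h1
    _ ≤ k * N ^ e1 * (k * N ^ e2 * m3) := Nat.mul_le_mul_left _ h2
    _ = k ^ 2 * N ^ (e1 + e2) * m3 := by rw [pow_add]; ring
    _ ≤ k ^ 2 * N ^ e * m3 :=
      Nat.mul_le_mul_right _ (Nat.mul_le_mul_left _ (Nat.pow_le_pow_right hN he))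

lemma Cl.side1a (K : Cl r N c a a' X x0 xl i1 F) (E : Finset ℕ) (u v : ℕ) (hu : u < 2 * r + 2)
    (hv : v < 2 * r + 2) (hD : ∀ f ∈ F, f u ≤ KK r * (N : ℤ) ^ 5) :
    Side r N F E u v 1 :=
  two_steps K.hN (K.free E v hv) (K.small (insert v E) u hu hD) (by norm_num)

lemma Cl.side1b (K : Cl r N c a a' X x0 xl i1 F) (E : Finset ℕ) (u v : ℕ) (hu : u < 2 * r + 2)
    (hv : v < 2 * r + 2) (φ : (ℕ → ℤ) → ℤ) (ε : ℤ)
    (hε : ε = 1 ∨ ε = -1) (hφ : Ind φ (insert v E))
    (hD : ∀ f ∈ F, |ε * f v + φ f| ≤ 2 * KK r * (N : ℤ) ^ 5) :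
    Side r N F E u v 1 :=
  two_steps K.hN (K.lin E v hv φ ε hε hφ hD) (K.free (insert v E) u hu) (by norm_num)

lemma Cl.side2 (K : Cl r N c a a' X x0 xl i1 F) (E : Finset ℕ) (u v : ℕ) (hu : u < 2 * r + 2)
    (hv : v < 2 * r + 2) : Side r N F E u v 2 :=
  two_steps K.hN (K.free E v hv) (K.free (insert v E) u hu) (by norm_num)

/-! ### Counting axes -/

lemma card_AU (hX : ∀ x ∈ X, x < 2 * r) : X.card = (AA r X).card + (UU r X).card := by
  have e1 : AA r X = (range r).filter (fun i => i ∈ X) ∩ (range r).filter (fun i => i + r ∈ X) := by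
    unfold AA
    rw [Finset.filter_and]
  have e2 : UU r X = (range r).filter (fun i => i ∈ X) ∪ (range r).filter (fun i => i + r ∈ X) := by
    unfold UU
    rw [Finset.filter_or]
  have e3 := Finset.card_union_add_card_inter ((range r).filter (fun i => i ∈ X))
    ((range r).filter (fun i => i + r ∈ X))
  have e4 := Finset.card_filter_add_card_filter_not (s := X) (fun x => x < r)
  have e5 : X.filter (fun x => x < r) = (range r).filter (fun i => i ∈ X) := by
    ext x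
    simp only [Finset.mem_filter, Finset.mem_range]
    tauto
  have e6 : X.filter (fun x => ¬ x < r) = ((range r).filter (fun i => i + r ∈ X)).image
      (fun i => i + r) := by
    ext x
    simp only [Finset.mem_filter, Finset.mem_range, Finset.mem_image]
    constructor
    · rintro ⟨hx, hxr⟩
      have := hX x hx
      exact ⟨x - r, ⟨by omega, by rwa [Nat.sub_add_cancel (by omega)]⟩, by omega⟩
    · rintro ⟨i, ⟨hi, hiX⟩, rfl⟩
      exact ⟨hiX, by omega⟩
  have e7 : (((range r).filter (fun i => i + r ∈ X)).image (fun i => i + r)).card =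
      ((range r).filter (fun i => i + r ∈ X)).card :=
    Finset.card_image_of_injective _ (fun x y h => by simpa using h)
  rw [e5, e6, e7] at e4
  rw [← e1, ← e2] at e3
  omega

/-- weight of an axis -/
def wx (r : ℕ) (X : Finset ℕ) (i : ℕ) : ℕ :=
  (if i ∈ AA r X then 1 else 0) + (if i ∈ UU r X then 2 else 0)

lemma wx_le (r : ℕ) (X : Finset ℕ) (i : ℕ) : wx r X i ≤ 3 := by
  unfold wx
  split_ifs <;> omega

lemma sum_wx (r : ℕ) (X : Finset ℕ) :
    ∑ i ∈ range r, wx r X i = (AA r X).card + 2 * (UU r X).card := by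
  unfold wx
  rw [Finset.sum_add_distrib]
  congr 1
  · rw [Finset.sum_ite_mem, Finset.inter_eq_right.2
      (show AA r X ⊆ range r from Finset.filter_subset _ _)]
    simp
  · rw [Finset.sum_ite_mem, Finset.inter_eq_right.2
      (show UU r X ⊆ range r from Finset.filter_subset _ _)]
    simp [mul_comm]

lemma sum_wx' (r : ℕ) (X : Finset ℕ) (T : Finset ℕ) (hT : T ⊆ range r) :
    (AA r X).card + 2 * (UU r X).card + ∑ i ∈ T, (3 - wx r X i) ≤ 3 * r := by
  have h1 : ∑ i ∈ range r, (wx r X i + (3 - wx r X i)) = 3 * r := by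
    have : ∀ i ∈ range r, wx r X i + (3 - wx r X i) = 3 := fun i _ => by
      have := wx_le r X i
      omega
    rw [Finset.sum_congr rfl this]
    simp [mul_comm]
  rw [Finset.sum_add_distrib, sum_wx] at h1
  have h2 : ∑ i ∈ T, (3 - wx r X i) ≤ ∑ i ∈ range r, (3 - wx r X i) :=
    Finset.sum_le_sum_of_subset hT
  omega

lemma count_one (i t : ℕ) (hi : i < r) (h : wx r X i + t ≤ 3) :
    (AA r X).card + 2 * (UU r X).card + t ≤ 3 * r := by
  have := sum_wx' r X {i} (by simpa using hi)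
  rw [Finset.sum_singleton] at this
  omega

lemma count_two (i j t t' : ℕ) (hi : i < r) (hj : j < r) (hij : i ≠ j) (h : wx r X i + t ≤ 3)
    (h' : wx r X j + t' ≤ 3) : (AA r X).card + 2 * (UU r X).card + t + t' ≤ 3 * r := by
  have := sum_wx' r X {i, j} (by
    intro x hx
    simp only [Finset.mem_insert, Finset.mem_singleton] at hx
    rcases hx with rfl | rfl <;> simpa)
  rw [Finset.sum_pair hij] at this
  omega

/-! ### The core -/

lemma Gz_diff (f : ℕ → ℤ) (i' i : ℕ) (h : i' < i) (hi : i < i' + r) :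
    Gz r f i' - Gz r f i = f i + (∑ x ∈ Ioo i' i, f x - ∑ x ∈ Ico (i' + r) (i + r), f x) := by
  have e : ∀ p q : ℕ, Ioo p q = Ico (p + 1) q := fun p q => by
    ext x
    simp only [Finset.mem_Ioo, Finset.mem_Ico]
    omega
  unfold Gz
  rw [e, e, e, Finset.sum_Ico_eq_sub _ (show i' + 1 ≤ i' + r by omega),
    Finset.sum_Ico_eq_sub _ (show i + 1 ≤ i + r by omega),
    Finset.sum_Ico_eq_sub _ (show i' + 1 ≤ i by omega),
    Finset.sum_Ico_eq_sub _ (show i' + r ≤ i + r by omega), Finset.sum_range_succ _ i]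
  ring

lemma Cl.x0_lt (K : Cl r N c a a' X x0 xl i1 F) : x0 < r := by
  have h := K.xc.i1A
  unfold AA at h
  rw [Finset.mem_filter, Finset.mem_range] at h
  have := K.xc.h0m i1 h.2.1
  omega

lemma Cl.r_le (K : Cl r N c a a' X x0 xl i1 F) : r ≤ xl := by
  have h := K.xc.i1A
  unfold AA at h
  rw [Finset.mem_filter, Finset.mem_range] at h
  have := K.xc.hlm (i1 + r) h.2.2
  omega

lemma Cl.xl_lt (K : Cl r N c a a' X x0 xl i1 F) : xl < 2 * r := K.xc.sub xl K.xc.hl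

lemma mem_AA {i : ℕ} : i ∈ AA r X ↔ i < r ∧ i ∈ X ∧ i + r ∈ X := by
  unfold AA
  rw [Finset.mem_filter, Finset.mem_range]

lemma mem_UU {i : ℕ} : i ∈ UU r X ↔ i < r ∧ (i ∈ X ∨ i + r ∈ X) := by
  unfold UU
  rw [Finset.mem_filter, Finset.mem_range]

lemma Cl.core (K : Cl r N c a a' X x0 xl i1 F) (E0 : Finset ℕ)
    (hE0 : ∀ x, x ∈ E0 ↔ (x = 2 * r ∨ x = 2 * r + 1 ∨ x = x0 ∨ x = xl)) :
    cn F E0 ≤ C0 r ^ (((AA r X).card - 1) + ((UU r X).card - 1)) *
      N ^ (5 * ((AA r X).card - 1) + 10 * ((UU r X).card - 1)) := by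
  have hx0r := K.x0_lt
  have hxlr := K.r_le
  have hxl2 := K.xl_lt
  have hi1 := mem_AA.1 K.xc.i1A
  set Ch := (AA r X).erase i1 with hCh
  set Fr := ((X.erase x0).erase xl) \ Ch with hFr
  have hCc : Ch.card = (AA r X).card - 1 := Finset.card_erase_of_mem K.xc.i1A
  have hmem : ∀ x, x ∈ Ch → x < r ∧ x ∈ X ∧ x + r ∈ X ∧ x ≠ i1 ∧ i1 < x ∧ x0 < x ∧ x ≠ xl := by
    intro x hx
    rw [hCh, Finset.mem_erase] at hx
    have h2 := mem_AA.1 hx.2
    have h3 := K.xc.i1m x hx.2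
    have h4 := K.xc.h0m i1 hi1.2.1
    have h5 : x ≠ i1 := hx.1
    exact ⟨h2.1, h2.2.1, h2.2.2, hx.1, by omega, by omega, by omega⟩
  have hsub : Ch ⊆ (X.erase x0).erase xl := by
    intro x hx
    obtain ⟨h1, h2, h3, h4, h5, h6, h7⟩ := hmem x hx
    rw [Finset.mem_erase, Finset.mem_erase]
    exact ⟨h7, by omega, h2⟩
  have hFc : Fr.card ≤ (UU r X).card - 1 := by
    rw [hFr, Finset.card_sdiff_of_subset hsub, hCc,
      Finset.card_erase_of_mem (Finset.mem_erase.2 ⟨by omega, K.xc.hl⟩),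
      Finset.card_erase_of_mem K.xc.h0, card_AU K.xc.sub]
    have : 1 ≤ (AA r X).card := Finset.card_pos.2 ⟨i1, K.xc.i1A⟩
    omega
  -- the chain
  have s1 : cn F E0 ≤ (2 * (2 * KK r * N ^ 5) + 1) ^ Ch.card * cn F (E0 ∪ Ch) := by
    refine many K.h1 (2 * r + 2) F K.fin K.top E0 Ch (2 * KK r * N ^ 5) (fun i hi => ?_)
    obtain ⟨h1, h2, h3, h4, h5, h6, h7⟩ := hmem i hi
    refine ⟨by omega, ?_⟩
    -- predecessor
    have hne : ((AA r X).filter (fun j => j < i)).Nonempty :=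
      ⟨i1, Finset.mem_filter.2 ⟨K.xc.i1A, h5⟩⟩
    set i' := ((AA r X).filter (fun j => j < i)).max' hne with hi'
    have hi'm := Finset.max'_mem _ hne
    rw [← hi', Finset.mem_filter] at hi'm
    have hi'2 := mem_AA.1 hi'm.1
    have hmax : ∀ j ∈ AA r X, j < i → j ≤ i' := fun j hj hji =>
      Finset.le_max' _ j (Finset.mem_filter.2 ⟨hj, hji⟩)
    have hx0i' := K.xc.h0m i' hi'2.2.1
    have hxli := K.xc.hlm (i + r) h3
    refine ⟨fun f => ∑ x ∈ Ico (i' + r) (i + r), f x - ∑ x ∈ Ioo i' i, f x, ?_, ?_⟩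
    · refine Ind_sub (Ind_sum' _ _ ?_) (Ind_sum' _ _ ?_)
      · intro x hx
        rw [Finset.mem_Ico] at hx
        rw [Finset.mem_union, hE0]
        rintro (h | h)
        · omega
        · have := (hmem x h).1
          omega
      · intro x hx
        rw [Finset.mem_Ioo] at hx
        rw [Finset.mem_union, hE0]
        rintro (h | h)
        · omega
        · have h8 := hmax x (Finset.mem_of_mem_erase (hCh ▸ h)) hx.2
          omega
    · intro f hf
      have h8 := (K.hF f hf).ch i' hi'm.1 i (Finset.mem_of_mem_erase (hCh ▸ hi))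
      rw [Gz_diff f i' i hi'm.2 (by omega)] at h8
      push_cast
      have h9 : f i - (∑ x ∈ Ico (i' + r) (i + r), f x - ∑ x ∈ Ioo i' i, f x) =
        f i + (∑ x ∈ Ioo i' i, f x - ∑ x ∈ Ico (i' + r) (i + r), f x) := by ring
      rw [h9]
      exact h8
  have s2 : cn F (E0 ∪ Ch) ≤ (2 * N ^ 10 + 1) ^ Fr.card * cn F (E0 ∪ Ch ∪ Fr) := by
    refine many K.h1 (2 * r + 2) F K.fin K.top (E0 ∪ Ch) Fr (N ^ 10) (fun i hi => ⟨?_, fun _ => 0,
      Ind_zero _, fun f hf => ?_⟩)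
    · rw [hFr, Finset.mem_sdiff, Finset.mem_erase, Finset.mem_erase] at hi
      have := K.xc.sub i hi.1.2.2
      omega
    · have h3 := (K.hF f hf).le i
      push_cast
      rw [sub_zero, abs_of_nonneg ((K.hF f hf).nn i)]
      exact h3
  have s3 : cn F (E0 ∪ Ch ∪ Fr) ≤ (2 * 0 + 1) ^ ((range (2 * r)) \ X).card *
      cn F (E0 ∪ Ch ∪ Fr ∪ ((range (2 * r)) \ X)) := by
    refine many K.h1 (2 * r + 2) F K.fin K.top _ _ 0 (fun i hi => ?_)
    rw [Finset.mem_sdiff, Finset.mem_range] at hi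
    refine ⟨by omega, fun _ => 0, Ind_zero _, fun f hf => ?_⟩
    rw [(K.hF f hf).out i hi.1 hi.2]
    simp
  have s4 : cn F (E0 ∪ Ch ∪ Fr ∪ ((range (2 * r)) \ X)) ≤ 1 := by
    refine cn_full (2 * r + 2) F K.top _ (fun x hx => ?_)
    rw [Finset.mem_range] at hx
    simp only [Finset.mem_union, hE0, hFr, Finset.mem_sdiff, Finset.mem_erase, Finset.mem_range]
    by_cases h1 : x < 2 * r
    · by_cases h2 : x ∈ X
      · by_cases h3 : x = x0
        · left; left; left; right; right; left; exact h3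
        · by_cases h4 : x = xl
          · left; left; left; right; right; right; exact h4
          · by_cases h5 : x ∈ Ch
            · left; left; right; exact h5
            · left; right; exact ⟨⟨h4, h3, h2⟩, h5⟩
      · right; exact ⟨h1, h2⟩
    · left; left; left
      omega
  have c1 : 2 * (2 * KK r * N ^ 5) + 1 ≤ C0 r * N ^ 5 := by
    have h2 : 1 ≤ N ^ 5 := Nat.one_le_pow _ _ K.hN
    unfold C0
    nlinarith [Nat.zero_le (KK r * N ^ 5)]
  have c2 : 2 * N ^ 10 + 1 ≤ C0 r * N ^ 10 := by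
    have h2 : 1 ≤ N ^ 10 := Nat.one_le_pow _ _ K.hN
    unfold C0
    nlinarith [Nat.zero_le (KK r * N ^ 10)]
  have hpos : 1 ≤ C0 r * N ^ 10 := le_trans (by omega) c2
  calc cn F E0 ≤ (2 * (2 * KK r * N ^ 5) + 1) ^ Ch.card * cn F (E0 ∪ Ch) := s1
    _ ≤ (C0 r * N ^ 5) ^ Ch.card * ((2 * N ^ 10 + 1) ^ Fr.card * cn F (E0 ∪ Ch ∪ Fr)) :=
      Nat.mul_le_mul (Nat.pow_le_pow_left c1 _) s2
    _ ≤ (C0 r * N ^ 5) ^ Ch.card * ((C0 r * N ^ 10) ^ Fr.card * 1) := by
      refine Nat.mul_le_mul_left _ (Nat.mul_le_mul (Nat.pow_le_pow_left c2 _) ?_)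
      refine s3.trans ?_
      rw [mul_zero, zero_add, one_pow, one_mul]
      exact s4
    _ ≤ (C0 r * N ^ 5) ^ ((AA r X).card - 1) * ((C0 r * N ^ 10) ^ ((UU r X).card - 1) * 1) := by
      rw [hCc]
      exact Nat.mul_le_mul_left _ (Nat.mul_le_mul_right _ (Nat.pow_le_pow_right hpos hFc))
    _ = _ := by
      rw [mul_one, mul_pow, mul_pow, pow_add, pow_add, ← pow_mul, ← pow_mul]
      ring

/-- the target bound of a class -/
def MM (r N : ℕ) : ℕ := C0 r ^ (2 * r + 2) * N ^ (15 * r + 7)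

lemma Cl.fin1 (K : Cl r N c a a' X x0 xl i1 F) (E1 E0 : Finset ℕ)
    (hE0 : ∀ x, x ∈ E0 ↔ (x = 2 * r ∨ x = 2 * r + 1 ∨ x = x0 ∨ x = xl)) (t t' : ℕ)
    (h1 : cn F ∅ ≤ C0 r ^ 2 * N ^ (11 + 5 * t) * cn F E1)
    (h2 : cn F E1 ≤ C0 r ^ 2 * N ^ (11 + 5 * t') * cn F E0)
    (hc : (AA r X).card + 2 * (UU r X).card + t + t' ≤ 3 * r) : F.ncard ≤ MM r N := by
  have h3 := K.core E0 hE0
  have hA : 1 ≤ (AA r X).card := Finset.card_pos.2 ⟨i1, K.xc.i1A⟩
  have hU : 1 ≤ (UU r X).card := by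
    refine Finset.card_pos.2 ⟨i1, mem_UU.2 ?_⟩
    have := mem_AA.1 K.xc.i1A
    exact ⟨this.1, Or.inl this.2.1⟩
  have hXc : (AA r X).card + (UU r X).card ≤ 2 * r := by
    rw [← card_AU K.xc.sub]
    calc X.card ≤ (range (2 * r)).card :=
          Finset.card_le_card (fun x hx => Finset.mem_range.2 (K.xc.sub x hx))
      _ = 2 * r := Finset.card_range _
  rw [← cn_empty]
  calc cn F ∅ ≤ C0 r ^ 2 * N ^ (11 + 5 * t) * cn F E1 := h1
    _ ≤ C0 r ^ 2 * N ^ (11 + 5 * t) * (C0 r ^ 2 * N ^ (11 + 5 * t') *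
      (C0 r ^ (((AA r X).card - 1) + ((UU r X).card - 1)) *
      N ^ (5 * ((AA r X).card - 1) + 10 * ((UU r X).card - 1)))) :=
      Nat.mul_le_mul_left _ (h2.trans (Nat.mul_le_mul_left _ h3))
    _ = C0 r ^ (2 + 2 + (((AA r X).card - 1) + ((UU r X).card - 1))) *
      N ^ ((11 + 5 * t) + (11 + 5 * t') + (5 * ((AA r X).card - 1) + 10 * ((UU r X).card - 1))) := by
      rw [pow_add, pow_add, pow_add, pow_add]
      ring
    _ ≤ C0 r ^ (2 * r + 2) * N ^ (15 * r + 7) :=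
      Nat.mul_le_mul (Nat.pow_le_pow_right (C0_pos r) (by omega))
        (Nat.pow_le_pow_right K.hN (by omega))

lemma Cl.fin_se (K : Cl r N c a a' X x0 xl i1 F) (t t' : ℕ)
    (h1 : Side r N F ∅ (2 * r) x0 t) (h2 : Side r N F {2 * r, x0} (2 * r + 1) xl t')
    (hc : (AA r X).card + 2 * (UU r X).card + t + t' ≤ 3 * r) : F.ncard ≤ MM r N := by
  refine K.fin1 {2 * r, x0} _ (fun x => ?_) t t' h1 h2 hc
  simp only [Finset.mem_insert, Finset.mem_singleton]
  tauto

lemma Cl.fin_es (K : Cl r N c a a' X x0 xl i1 F) (t t' : ℕ)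
    (h1 : Side r N F ∅ (2 * r + 1) xl t') (h2 : Side r N F {2 * r + 1, xl} (2 * r) x0 t)
    (hc : (AA r X).card + 2 * (UU r X).card + t + t' ≤ 3 * r) : F.ncard ≤ MM r N := by
  refine K.fin1 {2 * r + 1, xl} _ (fun x => ?_) t' t h1 h2 (by omega)
  simp only [Finset.mem_insert, Finset.mem_singleton]
  tauto

end steps

/-! ### Indices of directions -/

lemma neZero2 (r : ℕ) [NeZero r] : NeZero (2 * r) := ⟨by have := NeZero.ne r; omega⟩

lemma ix_lt (r : ℕ) [NeZero r] (c a : ZMod (2 * r)) : ix r c a < 2 * r := by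
  have := neZero2 r
  exact ZMod.val_lt _

lemma r_val (r : ℕ) [NeZero r] : ((r : ZMod (2 * r))).val = r := by
  rw [ZMod.val_natCast, Nat.mod_eq_of_lt]
  have := NeZero.ne r
  omega

lemma ix_opp (r : ℕ) [NeZero r] (c a : ZMod (2 * r)) :
    (ix r c a < r ∧ ix r c (a + (r : ZMod (2 * r))) = ix r c a + r) ∨
      (r ≤ ix r c a ∧ ix r c (a + (r : ZMod (2 * r))) + r = ix r c a) := by
  have := neZero2 r
  have h0 := ix_lt r c a
  have h1 : ix r c (a + (r : ZMod (2 * r))) = (ix r c a + r) % (2 * r) := by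
    unfold ix
    have : a + (r : ZMod (2 * r)) - c = (a - c) + (r : ZMod (2 * r)) := by ring
    rw [this, ZMod.val_add, r_val]
  by_cases h : ix r c a < r
  · left
    refine ⟨h, ?_⟩
    rw [h1, Nat.mod_eq_of_lt (by omega)]
  · right
    refine ⟨by omega, ?_⟩
    rw [h1]
    obtain ⟨k, hk⟩ : ∃ k, ix r c a = k + r := ⟨ix r c a - r, by omega⟩
    rw [hk]
    have : k + r + r = k + 2 * r := by ring
    rw [this, Nat.add_mod_right, Nat.mod_eq_of_lt (by omega)]

lemma ix_inj (r : ℕ) [NeZero r] (c a a' : ZMod (2 * r)) (h : ix r c a = ix r c a') : a = a' := by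
  have := neZero2 r
  have := ZMod.val_injective _ h
  exact sub_left_injective this

lemma bt_pm (r d : ℕ) (h0 : d ≠ 0) (hr : d ≠ r) : bt r d = 1 ∨ bt r d = -1 := by
  unfold bt
  split_ifs with h1 h2
  · exfalso; tauto
  · left; rfl
  · right; rfl

lemma b_pm (r : ℕ) [NeZero r] (c a : ZMod (2 * r)) (x : ℕ) (hx : x < 2 * r)
    (h0 : x ≠ ix r c a) (h1 : x ≠ ix r c (a + (r : ZMod (2 * r)))) :
    b r (c + (x : ZMod (2 * r)) - a) = 1 ∨ b r (c + (x : ZMod (2 * r)) - a) = -1 := by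
  have := neZero2 r
  unfold b
  have hxv : ((x : ℕ) : ZMod (2 * r)).val = x := by
    rw [ZMod.val_natCast, Nat.mod_eq_of_lt hx]
  refine bt_pm r _ ?_ ?_
  · intro h
    rw [ZMod.val_eq_zero] at h
    apply h0
    unfold ix
    have : a - c = ((x : ℕ) : ZMod (2 * r)) := by
      have h2 : a - c = (x : ZMod (2 * r)) - (c + (x : ZMod (2 * r)) - a) := by ring
      rw [h2, h, sub_zero]
    rw [this, hxv]
  · intro h
    have h' : c + (x : ZMod (2 * r)) - a = (r : ZMod (2 * r)) := by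
      apply ZMod.val_injective
      rw [h, r_val]
    apply h1
    unfold ix
    have : a + (r : ZMod (2 * r)) - c = ((x : ℕ) : ZMod (2 * r)) := by
      rw [← h']; ring
    rw [this, hxv]

lemma opp_opp (r : ℕ) (a : ZMod (2 * r)) : a + (r : ZMod (2 * r)) + (r : ZMod (2 * r)) = a := by
  have h : (r : ZMod (2 * r)) + (r : ZMod (2 * r)) = 0 := by
    have h2 : ((2 * r : ℕ) : ZMod (2 * r)) = 0 := ZMod.natCast_self _
    push_cast at h2
    rw [← h2]; ring
  rw [add_assoc, h, add_zero]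

/-- defect exponent of a side -/
def tt (X : Finset ℕ) (y y' : ℕ) : ℕ := if y ∈ X then 0 else if y' ∈ X then 1 else 2

/-- axis of an index -/
def ia (r y : ℕ) : ℕ := if y < r then y else y - r

lemma ia_lt (r y : ℕ) (h : y < 2 * r) : ia r y < r := by
  unfold ia
  split_ifs with h1
  · exact h1
  · omega

lemma wx_ia (r : ℕ) (X : Finset ℕ) (y y' : ℕ) (hy : y < 2 * r)
    (h : (y < r ∧ y' = y + r) ∨ (r ≤ y ∧ y' + r = y)) :
    wx r X (ia r y) = (if y ∈ X ∧ y' ∈ X then 1 else 0) + (if y ∈ X ∨ y' ∈ X then 2 else 0) := by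
  have hi := ia_lt r y hy
  have e1 : ia r y ∈ AA r X ↔ (y ∈ X ∧ y' ∈ X) := by
    rw [mem_AA]
    rcases h with ⟨h1, h2⟩ | ⟨h1, h2⟩
    · have : ia r y = y := by unfold ia; rw [if_pos h1]
      rw [this, h2]
      tauto
    · have : ia r y = y' := by unfold ia; rw [if_neg (by omega)]; omega
      rw [this, h2]
      rw [this] at hi
      tauto
  have e2 : ia r y ∈ UU r X ↔ (y ∈ X ∨ y' ∈ X) := by
    rw [mem_UU]
    rcases h with ⟨h1, h2⟩ | ⟨h1, h2⟩
    · have : ia r y = y := by unfold ia; rw [if_pos h1]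
      rw [this, h2]
      tauto
    · have : ia r y = y' := by unfold ia; rw [if_neg (by omega)]; omega
      rw [this, h2]
      rw [this] at hi
      tauto
  unfold wx
  simp only [e1, e2]

section sides

variable {r N : ℕ} [NeZero r] {c a a' : ZMod (2 * r)} {X : Finset ℕ} {x0 xl i1 : ℕ}
  {F : Set (ℕ → ℤ)}

lemma split (hF : F.Finite) (P Q : (ℕ → ℤ) → Prop) (h : ∀ f ∈ F, P f ∨ Q f) (M M' : ℕ)
    (h1 : {f ∈ F | P f}.ncard ≤ M) (h2 : {f ∈ F | Q f}.ncard ≤ M') : F.ncard ≤ M + M' := by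
  have : F ⊆ {f ∈ F | P f} ∪ {f ∈ F | Q f} := by
    intro f hf
    rcases h f hf with h | h
    · exact Or.inl ⟨hf, h⟩
    · exact Or.inr ⟨hf, h⟩
  calc F.ncard ≤ ({f ∈ F | P f} ∪ {f ∈ F | Q f}).ncard :=
        Set.ncard_le_ncard this ((hF.subset (Set.sep_subset _ _)).union
          (hF.subset (Set.sep_subset _ _)))
    _ ≤ _ := Set.ncard_union_le _ _
    _ ≤ M + M' := Nat.add_le_add h1 h2

omit [NeZero r] in
lemma Hz_split (f : ℕ → ℤ) (y x : ℕ) (h : x < y) :
    Hz r f y = bt r (y - x) * f x + ∑ z ∈ (range y).erase x, f z * bt r (y - z) := by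
  unfold Hz
  rw [← Finset.add_sum_erase _ _ (Finset.mem_range.2 h)]
  ring

omit [NeZero r] in
lemma Htz_split (f : ℕ → ℤ) (y x : ℕ) (h : y < x) (hx : x < 2 * r) :
    Htz r f y = bt r (x - y) * f x + ∑ z ∈ (Ioo y (2 * r)).erase x, f z * bt r (z - y) := by
  unfold Htz
  rw [← Finset.add_sum_erase _ _ (Finset.mem_Ioo.2 ⟨h, hx⟩)]
  ring

omit [NeZero r] in
lemma omz_split (f : ℕ → ℤ) (x : ℕ) (hx : x < 2 * r) :
    omz r a c f = b r (c + (x : ZMod (2 * r)) - a) * f x +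
      ∑ z ∈ (range (2 * r)).erase x, f z * b r (c + (z : ZMod (2 * r)) - a) := by
  unfold omz
  rw [← Finset.add_sum_erase _ _ (Finset.mem_range.2 hx)]
  ring

lemma Cl.start (K : Cl r N c a a' X x0 xl i1 F) (M : ℕ)
    (h : ∀ F' ⊆ F, (∀ F'' ⊆ F', ∀ E : Finset ℕ, E ⊆ {2 * r + 1, xl} →
      Side r N F'' E (2 * r) x0 (tt X (ix r c a) (ix r c (a + (r : ZMod (2 * r)))))) →
      F'.ncard ≤ M) : F.ncard ≤ 2 * M := by
  have hx0r := K.x0_lt
  have hxlr := K.r_le
  have hxl2 := K.xl_lt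
  have hop := ix_opp r c a
  have hlt := ix_lt r c a
  have hlt' := ix_lt r c (a + (r : ZMod (2 * r)))
  have hn := K.xc.n0
  have hi1 := mem_AA.1 K.xc.i1A
  have hi1' := K.xc.h0m i1 hi1.2.1
  have hi1'' := K.xc.hlm (i1 + r) hi1.2.2
  unfold tt at h
  split_ifs at h with h1 h2
  · have h3 := K.xc.h0m _ h1
    have h4 := K.xc.hlm _ h1
    have := h F (Set.Subset.refl _) (fun F' hF' E hE => ?_)
    · omega
    · have hE' : ∀ x ∈ E, x = 2 * r + 1 ∨ x = xl := fun x hx => by simpa using hE hx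
      refine (K.sub hF').side0 E (2 * r) x0 (by omega) (by omega) (by omega) (fun hx => ?_) (fun hx => ?_)
        (fun f => ∑ z ∈ (range (ix r c a)).erase x0, f z * bt r (ix r c a - z))
        (bt r (ix r c a - x0)) (bt_pm r _ (by omega) (by omega)) ?_ ?_
      · have := hE' _ hx
        omega
      · have := hE' _ hx
        omega
      · refine Ind_sum _ _ _ (fun x hx hx' => ?_)
        rw [Finset.mem_erase, Finset.mem_range] at hx
        rw [Finset.mem_insert, Finset.mem_insert] at hx'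
        rcases hx' with hx' | hx' | hx'
        · omega
        · exact hx.1 hx'
        · have := hE' _ hx'
          omega
      · intro f hf
        rw [← Hz_split f _ x0 (by omega)]
        exact (K.hF f (hF' hf)).k3 h1
  · have h3 := K.xc.h0m _ h2
    have h4 := K.xc.hlm _ h2
    have := split K.fin (fun f => f (2 * r) ≤ KK r * (N : ℤ) ^ 5)
      (fun f => ∀ i ∈ AA r X, |Hz r f (ix r c (a + (r : ZMod (2 * r)))) - Gz r f i| ≤
        2 * KK r * (N : ℤ) ^ 5) (fun f hf => (K.hF f hf).k4 h1 h2) M M ?_ ?_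
    · omega
    · refine h _ (Set.sep_subset _ _) (fun F' hF' E hE => ?_)
      exact (K.sub (hF'.trans (Set.sep_subset _ _))).side1a E (2 * r) x0 (by omega) (by omega)
        (fun f hf => (hF' hf).2)
    · refine h _ (Set.sep_subset _ _) (fun F' hF' E hE => ?_)
      have hE' : ∀ x ∈ E, x = 2 * r + 1 ∨ x = xl := fun x hx => by simpa using hE hx
      refine (K.sub (hF'.trans (Set.sep_subset _ _))).side1b E (2 * r) x0 (by omega) (by omega)
        (fun f => ∑ z ∈ (range (ix r c (a + (r : ZMod (2 * r))))).erase x0,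
          f z * bt r (ix r c (a + (r : ZMod (2 * r))) - z) - Gz r f i1)
        (bt r (ix r c (a + (r : ZMod (2 * r))) - x0)) (bt_pm r _ (by omega) (by omega)) ?_ ?_
      · refine Ind_sub (Ind_sum _ _ _ (fun x hx hx' => ?_)) (Ind_sum' _ _ (fun x hx hx' => ?_))
        · rw [Finset.mem_erase, Finset.mem_range] at hx
          rw [Finset.mem_insert] at hx'
          rcases hx' with hx' | hx'
          · exact hx.1 hx'
          · have := hE' _ hx'
            omega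
        · rw [Finset.mem_Ioo] at hx
          rw [Finset.mem_insert] at hx'
          rcases hx' with hx' | hx'
          · omega
          · have := hE' _ hx'
            omega
      · intro f hf
        have h5 := (hF' hf).2 i1 K.xc.i1A
        rw [Hz_split f _ x0 (by omega)] at h5
        rw [← add_sub_assoc]
        exact h5
  · have := h F (Set.Subset.refl _)
      (fun F' hF' E hE => (K.sub hF').side2 E (2 * r) x0 (by omega) (by omega))
    omega

lemma Cl.stop (K : Cl r N c a a' X x0 xl i1 F) (M : ℕ)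
    (h : ∀ F' ⊆ F, (∀ F'' ⊆ F', ∀ E : Finset ℕ, E ⊆ {2 * r, x0} →
      Side r N F'' E (2 * r + 1) xl (tt X (ix r c a') (ix r c (a' + (r : ZMod (2 * r)))))) →
      F'.ncard ≤ M) : F.ncard ≤ 2 * M := by
  have hx0r := K.x0_lt
  have hxlr := K.r_le
  have hxl2 := K.xl_lt
  have hop := ix_opp r c a'
  have hlt := ix_lt r c a'
  have hlt' := ix_lt r c (a' + (r : ZMod (2 * r)))
  have hn := K.xc.nl
  have hi1 := mem_AA.1 K.xc.i1A
  have hi1' := K.xc.h0m i1 hi1.2.1
  have hi1'' := K.xc.hlm (i1 + r) hi1.2.2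
  unfold tt at h
  split_ifs at h with h1 h2
  · have h3 := K.xc.h0m _ h1
    have h4 := K.xc.hlm _ h1
    have := h F (Set.Subset.refl _) (fun F' hF' E hE => ?_)
    · omega
    · have hE' : ∀ x ∈ E, x = 2 * r ∨ x = x0 := fun x hx => by simpa using hE hx
      refine (K.sub hF').side0 E (2 * r + 1) xl (by omega) (by omega) (by omega) (fun hx => ?_)
        (fun hx => ?_)
        (fun f => ∑ z ∈ (Ioo (ix r c a') (2 * r)).erase xl, f z * bt r (z - ix r c a'))
        (bt r (xl - ix r c a')) (bt_pm r _ (by omega) (by omega)) ?_ ?_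
      · have := hE' _ hx
        omega
      · have := hE' _ hx
        omega
      · refine Ind_sum _ _ _ (fun x hx hx' => ?_)
        rw [Finset.mem_erase, Finset.mem_Ioo] at hx
        rw [Finset.mem_insert, Finset.mem_insert] at hx'
        rcases hx' with hx' | hx' | hx'
        · omega
        · exact hx.1 hx'
        · have := hE' _ hx'
          omega
      · intro f hf
        rw [← Htz_split f _ xl (by omega) (by omega)]
        exact (K.hF f (hF' hf)).k3' h1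
  · have h3 := K.xc.h0m _ h2
    have h4 := K.xc.hlm _ h2
    have := split K.fin (fun f => f (2 * r + 1) ≤ KK r * (N : ℤ) ^ 5)
      (fun f => ∀ i ∈ AA r X, |Htz r f (ix r c (a' + (r : ZMod (2 * r)))) - Gz r f i| ≤
        2 * KK r * (N : ℤ) ^ 5) (fun f hf => (K.hF f hf).k4' h1 h2) M M ?_ ?_
    · omega
    · refine h _ (Set.sep_subset _ _) (fun F' hF' E hE => ?_)
      exact (K.sub (hF'.trans (Set.sep_subset _ _))).side1a E (2 * r + 1) xl (by omega) (by omega)
        (fun f hf => (hF' hf).2)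
    · refine h _ (Set.sep_subset _ _) (fun F' hF' E hE => ?_)
      have hE' : ∀ x ∈ E, x = 2 * r ∨ x = x0 := fun x hx => by simpa using hE hx
      refine (K.sub (hF'.trans (Set.sep_subset _ _))).side1b E (2 * r + 1) xl (by omega) (by omega)
        (fun f => ∑ z ∈ (Ioo (ix r c (a' + (r : ZMod (2 * r)))) (2 * r)).erase xl,
          f z * bt r (z - ix r c (a' + (r : ZMod (2 * r)))) - Gz r f i1)
        (bt r (xl - ix r c (a' + (r : ZMod (2 * r))))) (bt_pm r _ (by omega) (by omega)) ?_ ?_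
      · refine Ind_sub (Ind_sum _ _ _ (fun x hx hx' => ?_)) (Ind_sum' _ _ (fun x hx hx' => ?_))
        · rw [Finset.mem_erase, Finset.mem_Ioo] at hx
          rw [Finset.mem_insert] at hx'
          rcases hx' with hx' | hx'
          · exact hx.1 hx'
          · have := hE' _ hx'
            omega
        · rw [Finset.mem_Ioo] at hx
          rw [Finset.mem_insert] at hx'
          rcases hx' with hx' | hx'
          · omega
          · have := hE' _ hx'
            omega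
      · intro f hf
        have h5 := (hF' hf).2 i1 K.xc.i1A
        rw [Htz_split f _ xl (by omega) (by omega)] at h5
        rw [← add_sub_assoc]
        exact h5
  · have := h F (Set.Subset.refl _)
      (fun F' hF' E hE => (K.sub hF').side2 E (2 * r + 1) xl (by omega) (by omega))
    omega

lemma Cl.generic (K : Cl r N c a a' X x0 xl i1 F)
    (hc : (AA r X).card + 2 * (UU r X).card + tt X (ix r c a) (ix r c (a + (r : ZMod (2 * r)))) +
      tt X (ix r c a') (ix r c (a' + (r : ZMod (2 * r)))) ≤ 3 * r) : F.ncard ≤ 4 * MM r N := by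
  have : F.ncard ≤ 2 * (2 * MM r N) := by
    refine K.start _ (fun F1 hF1 hs => ?_)
    refine (K.sub hF1).stop _ (fun F2 hF2 hs2 => ?_)
    exact (K.sub (hF2.trans hF1)).fin_se _ _ (hs F2 hF2 _ (Finset.empty_subset _))
      (hs2 F2 (Set.Subset.refl _) _ (Finset.Subset.refl _)) hc
  omega

/-- the hyperbola of `om` at the start -/
lemma Cl.om0 (K : Cl r N c a a' X x0 xl i1 F)
    (h : ∀ f ∈ F, f (2 * r) * |omz r a c f| ≤ KK r * (N : ℤ) ^ 10) :
    Side r N F ∅ (2 * r) x0 0 := by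
  have hx0r := K.x0_lt
  have hn := K.xc.n0
  refine K.side0 ∅ (2 * r) x0 (by omega) (by omega) (by omega) (by simp) (by simp)
    (fun f => ∑ z ∈ (range (2 * r)).erase x0, f z * b r (c + (z : ZMod (2 * r)) - a))
    (b r (c + (x0 : ZMod (2 * r)) - a)) (b_pm r c a x0 (by omega) hn.1 hn.2) ?_ ?_
  · refine Ind_sum _ _ _ (fun x hx hx' => ?_)
    rw [Finset.mem_erase, Finset.mem_range] at hx
    simp only [Finset.mem_insert, Finset.notMem_empty, or_false] at hx'
    omega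
  · intro f hf
    rw [← omz_split f x0 (by omega)]
    exact h f hf

/-- the hyperbola of `om` at the end -/
lemma Cl.om0' (K : Cl r N c a a' X x0 xl i1 F) (ha : a' = a)
    (h : ∀ f ∈ F, f (2 * r + 1) * |omz r a c f| ≤ KK r * (N : ℤ) ^ 10) :
    Side r N F ∅ (2 * r + 1) xl 0 := by
  have hxl2 := K.xl_lt
  have hn := K.xc.nl
  rw [ha] at hn
  refine K.side0 ∅ (2 * r + 1) xl (by omega) (by omega) (by omega) (by simp) (by simp)
    (fun f => ∑ z ∈ (range (2 * r)).erase xl, f z * b r (c + (z : ZMod (2 * r)) - a))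
    (b r (c + (xl : ZMod (2 * r)) - a)) (b_pm r c a xl (by omega) hn.1 hn.2) ?_ ?_
  · refine Ind_sum _ _ _ (fun x hx hx' => ?_)
    rw [Finset.mem_erase, Finset.mem_range] at hx
    simp only [Finset.mem_insert, Finset.notMem_empty, or_false] at hx'
    omega
  · intro f hf
    rw [← omz_split f xl (by omega)]
    exact h f hf

/-- linear constraint with `om` at the start -/
lemma Cl.om1 (K : Cl r N c a a' X x0 xl i1 F)
    (h : ∀ f ∈ F, ∀ i ∈ AA r X, |omz r a c f - Gz r f i| ≤ 2 * KK r * (N : ℤ) ^ 5) :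
    Side r N F ∅ (2 * r) x0 1 := by
  have hx0r := K.x0_lt
  have hn := K.xc.n0
  have hi1 := mem_AA.1 K.xc.i1A
  have hi1' := K.xc.h0m i1 hi1.2.1
  refine K.side1b ∅ (2 * r) x0 (by omega) (by omega)
    (fun f => ∑ z ∈ (range (2 * r)).erase x0, f z * b r (c + (z : ZMod (2 * r)) - a) - Gz r f i1)
    (b r (c + (x0 : ZMod (2 * r)) - a)) (b_pm r c a x0 (by omega) hn.1 hn.2) ?_ ?_
  · refine Ind_sub (Ind_sum _ _ _ (fun x hx hx' => ?_)) (Ind_sum' _ _ (fun x hx hx' => ?_))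
    · rw [Finset.mem_erase, Finset.mem_range] at hx
      simp only [Finset.mem_insert, Finset.notMem_empty, or_false] at hx'
      omega
    · rw [Finset.mem_Ioo] at hx
      simp only [Finset.mem_insert, Finset.notMem_empty, or_false] at hx'
      omega
  · intro f hf
    have h5 := h f hf i1 K.xc.i1A
    rw [omz_split f x0 (by omega)] at h5
    rw [← add_sub_assoc]
    exact h5

lemma Cl.main (K : Cl r N c a a' X x0 xl i1 F) : F.ncard ≤ 4 * MM r N := by
  have hx0r := K.x0_lt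
  have hxlr := K.r_le
  have hxl2 := K.xl_lt
  have hop := ix_opp r c a
  have hlt := ix_lt r c a
  have hlt' := ix_lt r c (a + (r : ZMod (2 * r)))
  have hop' := ix_opp r c a'
  have hl := ix_lt r c a'
  have hl' := ix_lt r c (a' + (r : ZMod (2 * r)))
  have hw := wx_ia r X _ _ hlt hop
  have hw' := wx_ia r X _ _ hl hop'
  by_cases e1 : a' = a
  · by_cases hα : ix r c a ∈ X
    · refine K.generic ?_
      have h3 := count_one (r := r) (X := X) (ia r (ix r c a)) 0 (ia_lt r _ hlt)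
        (by have := wx_le r X (ia r (ix r c a)); omega)
      rw [e1]
      unfold tt
      rw [if_pos hα]
      omega
    · have hcount : (AA r X).card + 2 * (UU r X).card +
          tt X (ix r c a) (ix r c (a + (r : ZMod (2 * r)))) ≤ 3 * r := by
        refine count_one (ia r (ix r c a)) _ (ia_lt r _ hlt) ?_
        rw [hw]
        unfold tt
        by_cases hy : ix r c (a + (r : ZMod (2 * r))) ∈ X
        · simp [hα, hy]
        · simp [hα, hy]
      have := split K.fin (fun f => f (2 * r) * |omz r a c f| ≤ KK r * (N : ℤ) ^ 10)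
        (fun f => f (2 * r + 1) * |omz r a c f| ≤ KK r * (N : ℤ) ^ 10)
        (fun f hf => (K.hF f hf).k5 e1 hα) (2 * MM r N) (2 * MM r N) ?_ ?_
      · omega
      · refine (K.sub (Set.sep_subset _ _)).stop _ (fun F2 hF2 hs2 => ?_)
        refine (K.sub (hF2.trans (Set.sep_subset _ _))).fin_se 0 _ ?_
          (hs2 F2 (Set.Subset.refl _) _ (Finset.Subset.refl _)) (by rw [e1]; omega)
        exact (K.sub (hF2.trans (Set.sep_subset _ _))).om0 (fun f hf => (hF2 hf).2)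
      · refine (K.sub (Set.sep_subset _ _)).start _ (fun F2 hF2 hs2 => ?_)
        refine (K.sub (hF2.trans (Set.sep_subset _ _))).fin_es _ 0 ?_
          (hs2 F2 (Set.Subset.refl _) _ (Finset.Subset.refl _)) (by omega)
        exact (K.sub (hF2.trans (Set.sep_subset _ _))).om0' e1 (fun f hf => (hF2 hf).2)
  · by_cases e2 : a' = a + (r : ZMod (2 * r))
    · have hopp : ix r c (a' + (r : ZMod (2 * r))) = ix r c a := by rw [e2, opp_opp]
      by_cases hX : ix r c a ∉ X ∧ ix r c (a + (r : ZMod (2 * r))) ∉ X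
      · have hc3 : (AA r X).card + 2 * (UU r X).card + 3 ≤ 3 * r := by
          refine count_one (ia r (ix r c a)) _ (ia_lt r _ hlt) ?_
          rw [hw]
          simp [hX.1, hX.2]
        have := split K.fin (fun f => f (2 * r) ≤ KK r * (N : ℤ) ^ 5)
          (fun f => f (2 * r + 1) ≤ KK r * (N : ℤ) ^ 5 ∨
            ∀ i ∈ AA r X, |omz r a c f - Gz r f i| ≤ 2 * KK r * (N : ℤ) ^ 5)
          (fun f hf => (K.hF f hf).k6 e2 hX.1 hX.2) (MM r N) (MM r N + MM r N) ?_ ?_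
        · omega
        · have K' := K.sub (Set.sep_subset F (fun f => f (2 * r) ≤ KK r * (N : ℤ) ^ 5))
          exact K'.fin_se 1 2 (K'.side1a _ _ _ (by omega) (by omega) (fun f hf => hf.2))
            (K'.side2 _ _ _ (by omega) (by omega)) (by omega)
        · refine split (K.fin.subset (Set.sep_subset _ _))
            (fun f => f (2 * r + 1) ≤ KK r * (N : ℤ) ^ 5)
            (fun f => ∀ i ∈ AA r X, |omz r a c f - Gz r f i| ≤ 2 * KK r * (N : ℤ) ^ 5)
            (fun f hf => hf.2) _ _ ?_ ?_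
          · have hsub : {f ∈ {f ∈ F | f (2 * r + 1) ≤ KK r * (N : ℤ) ^ 5 ∨
                ∀ i ∈ AA r X, |omz r a c f - Gz r f i| ≤ 2 * KK r * (N : ℤ) ^ 5} |
                f (2 * r + 1) ≤ KK r * (N : ℤ) ^ 5} ⊆ F := fun f hf => hf.1.1
            have K' := K.sub hsub
            exact K'.fin_se 2 1 (K'.side2 _ _ _ (by omega) (by omega))
              (K'.side1a _ _ _ (by omega) (by omega) (fun f hf => hf.2)) (by omega)
          · have hsub : {f ∈ {f ∈ F | f (2 * r + 1) ≤ KK r * (N : ℤ) ^ 5 ∨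
                ∀ i ∈ AA r X, |omz r a c f - Gz r f i| ≤ 2 * KK r * (N : ℤ) ^ 5} |
                ∀ i ∈ AA r X, |omz r a c f - Gz r f i| ≤ 2 * KK r * (N : ℤ) ^ 5} ⊆ F :=
              fun f hf => hf.1.1
            have K' := K.sub hsub
            exact K'.fin_se 1 2 (K'.om1 (fun f hf => hf.2))
              (K'.side2 _ _ _ (by omega) (by omega)) (by omega)
      · refine K.generic ?_
        rw [hopp, e2]
        have h3 := count_one (r := r) (X := X) (ia r (ix r c a))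
          (tt X (ix r c a) (ix r c (a + (r : ZMod (2 * r)))) +
            tt X (ix r c (a + (r : ZMod (2 * r)))) (ix r c a)) (ia_lt r _ hlt) (by
            rw [hw]
            unfold tt
            by_cases h4 : ix r c a ∈ X
            · by_cases h5 : ix r c (a + (r : ZMod (2 * r))) ∈ X
              · simp [h4, h5]
              · simp [h4, h5]
            · by_cases h5 : ix r c (a + (r : ZMod (2 * r))) ∈ X
              · simp [h4, h5]
              · exact absurd ⟨h4, h5⟩ hX)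
        omega
    · refine K.generic ?_
      refine count_two (ia r (ix r c a)) (ia r (ix r c a')) _ _ (ia_lt r _ hlt) (ia_lt r _ hl)
        ?_ ?_ ?_
      · intro h
        have h1 : ix r c a' = ix r c a ∨ ix r c a' = ix r c (a + (r : ZMod (2 * r))) := by
          unfold ia at h
          split_ifs at h <;> omega
        rcases h1 with h1 | h1
        · exact e1 (ix_inj r c _ _ h1)
        · exact e2 (ix_inj r c _ _ h1)
      · rw [hw]
        unfold tt
        by_cases h4 : ix r c a ∈ X <;>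
        by_cases h5 : ix r c (a + (r : ZMod (2 * r))) ∈ X <;> simp [h4, h5]
      · rw [hw']
        unfold tt
        by_cases h4 : ix r c a' ∈ X <;>
        by_cases h5 : ix r c (a' + (r : ZMod (2 * r))) ∈ X <;> simp [h4, h5]

end sides

/-! ### Encoding of the data -/

def enc (r : ℕ) (d : ℕ × (ℕ → ℕ) × ℕ) : ℕ → ℤ := fun x =>
  if x < 2 * r then (d.2.1 x : ℤ) else if x = 2 * r then (d.1 : ℤ)
  else if x = 2 * r + 1 then (d.2.2 : ℤ) else 0

def supp (r : ℕ) (L : ℕ → ℕ) : Finset ℕ := (range (2 * r)).filter (fun x => 0 < L x)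

lemma enc_lt (r : ℕ) (d : ℕ × (ℕ → ℕ) × ℕ) (x : ℕ) (h : x < 2 * r) :
    enc r d x = (d.2.1 x : ℤ) := by
  unfold enc
  rw [if_pos h]

lemma enc_m (r : ℕ) (d : ℕ × (ℕ → ℕ) × ℕ) : enc r d (2 * r) = (d.1 : ℤ) := by
  unfold enc
  rw [if_neg (by omega), if_pos rfl]

lemma enc_m' (r : ℕ) (d : ℕ × (ℕ → ℕ) × ℕ) : enc r d (2 * r + 1) = (d.2.2 : ℤ) := by
  unfold enc
  rw [if_neg (by omega), if_neg (by omega), if_pos rfl]

lemma Gz_enc (r : ℕ) (d : ℕ × (ℕ → ℕ) × ℕ) (i : ℕ) (h : i < r) :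
    Gz r (enc r d) i = Gf r d.2.1 i := by
  unfold Gz Gf
  refine Finset.sum_congr rfl (fun x hx => ?_)
  rw [Finset.mem_Ioo] at hx
  exact enc_lt r d x (by omega)

lemma Hz_enc (r : ℕ) (d : ℕ × (ℕ → ℕ) × ℕ) (y : ℕ) (h : y < 2 * r) :
    Hz r (enc r d) y = Hf r d.2.1 y := by
  unfold Hz Hf
  refine Finset.sum_congr rfl (fun x hx => ?_)
  rw [Finset.mem_range] at hx
  rw [enc_lt r d x (by omega)]

lemma Htz_enc (r : ℕ) (d : ℕ × (ℕ → ℕ) × ℕ) (y : ℕ) :
    Htz r (enc r d) y = Ht r d.2.1 y := by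
  unfold Htz Ht
  refine Finset.sum_congr rfl (fun x hx => ?_)
  rw [Finset.mem_Ioo] at hx
  rw [enc_lt r d x (by omega)]

lemma omz_enc (r : ℕ) (a c : ZMod (2 * r)) (d : ℕ × (ℕ → ℕ) × ℕ) :
    omz r a c (enc r d) = om r a c d.2.1 := by
  unfold omz om
  refine Finset.sum_congr rfl (fun x hx => ?_)
  rw [Finset.mem_range] at hx
  rw [enc_lt r d x (by omega)]

lemma enc_inj (r : ℕ) : Set.InjOn (enc r)
    {d : ℕ × (ℕ → ℕ) × ℕ | ∀ x, 2 * r ≤ x → d.2.1 x = 0} := by
  intro d hd d' hd' h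
  obtain ⟨m, L, m'⟩ := d
  obtain ⟨n, M, n'⟩ := d'
  have h1 := congrFun h (2 * r)
  rw [enc_m, enc_m] at h1
  have h2 := congrFun h (2 * r + 1)
  rw [enc_m', enc_m'] at h2
  have h3 : L = M := by
    funext x
    by_cases hx : x < 2 * r
    · have h4 := congrFun h x
      rw [enc_lt r _ x hx, enc_lt r _ x hx] at h4
      exact_mod_cast h4
    · have e1 := hd x (by omega)
      have e2 := hd' x (by omega)
      exact e1.trans e2.symm
  have h4 : m = n := by exact_mod_cast h1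
  have h5 : m' = n' := by exact_mod_cast h2
  rw [h3, h4, h5]

lemma enc_bd (r N : ℕ) (d : ℕ × (ℕ → ℕ) × ℕ) (h : tot r d.1 d.2.1 d.2.2 ≤ (N ^ 5) ^ 2) (x : ℕ) :
    0 ≤ enc r d x ∧ enc r d x ≤ (N : ℤ) ^ 10 := by
  have e : (N ^ 5) ^ 2 = N ^ 10 := by rw [← pow_mul]
  rw [e] at h
  unfold tot at h
  have e2 : ((N : ℤ) ^ 10) = ((N ^ 10 : ℕ) : ℤ) := by push_cast; ring
  rw [e2]
  unfold enc
  split_ifs with h1 h2 h3
  · have h4 : d.2.1 x ≤ ∑ x ∈ range (2 * r), d.2.1 x :=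
      Finset.single_le_sum (f := d.2.1) (fun _ _ => Nat.zero_le _) (Finset.mem_range.2 h1)
    constructor
    · exact Int.natCast_nonneg _
    · exact_mod_cast (by omega : d.2.1 x ≤ N ^ 10)
  · constructor
    · exact Int.natCast_nonneg _
    · exact_mod_cast (by omega : d.1 ≤ N ^ 10)
  · constructor
    · exact Int.natCast_nonneg _
    · exact_mod_cast (by omega : d.2.2 ≤ N ^ 10)
  · exact ⟨le_refl _, Int.natCast_nonneg _⟩

lemma abs_two (p q w : ℤ) (K : ℤ) (h1 : |p - w| ≤ K) (h2 : |q - w| ≤ K) : |p - q| ≤ 2 * K := by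
  rw [abs_le] at h1 h2 ⊢
  constructor <;> linarith [h1.1, h1.2, h2.1, h2.2]

lemma mem_Lset {r s : ℕ} {L : ℕ → ℕ} {j : ℕ} :
    j ∈ Lset r s L ↔ j < r ∧ KK r * s ≤ L j ∧ KK r * s ≤ L (j + r) := by
  unfold Lset
  rw [Finset.mem_filter, Finset.mem_range]

lemma mem_supp {r : ℕ} {L : ℕ → ℕ} {x : ℕ} : x ∈ supp r L ↔ x < 2 * r ∧ 0 < L x := by
  unfold supp
  rw [Finset.mem_filter, Finset.mem_range]

lemma long_ex (r N : ℕ) (hN : 1 ≤ N) (L : ℕ → ℕ) (h : 24 ≤ (Lset r (N ^ 5) L).card) :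
    ∃ j ∈ Lset r (N ^ 5) L, j ∈ AA r (supp r L) := by
  obtain ⟨j, hj⟩ := Finset.card_pos.1 (by omega : 0 < (Lset r (N ^ 5) L).card)
  refine ⟨j, hj, ?_⟩
  rw [mem_Lset] at hj
  have h5 : 1 ≤ N ^ 5 := Nat.one_le_pow _ _ hN
  have h6 : 1 ≤ KK r * N ^ 5 := by
    have : 1 ≤ KK r := by unfold KK; omega
    nlinarith
  rw [mem_AA, mem_supp, mem_supp]
  exact ⟨hj.1, ⟨by omega, by omega⟩, ⟨by omega, by omega⟩⟩

lemma dt_of (r N : ℕ) [NeZero r] (hN : 1 ≤ N) (a a' c : ZMod (2 * r)) (d : ℕ × (ℕ → ℕ) × ℕ)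
    (hd : d ∈ DataC r (N ^ 5) a a' c) : Dt r N c a a' (supp r d.2.1) (enc r d) := by
  obtain ⟨hz, ht, hbig, hK⟩ := hd
  obtain ⟨jl, hjl, hjA⟩ := long_ex r N hN d.2.1 hbig
  have hα := ix_lt r c a
  have hα2 := ix_lt r c (a + (r : ZMod (2 * r)))
  have hα3 := ix_lt r c a'
  have hα4 := ix_lt r c (a' + (r : ZMod (2 * r)))
  have hj1 := (mem_Lset.1 hjl).1
  have hnot : ∀ y, y < 2 * r → y ∉ supp r d.2.1 → d.2.1 y = 0 := by
    intro y hy hy'
    rw [mem_supp] at hy'
    omega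
  have hKl : ∀ i ∈ AA r (supp r d.2.1), |Gf r d.2.1 i - Gf r d.2.1 jl| ≤ KK r * (N : ℤ) ^ 5 := by
    intro i hi
    rw [mem_AA, mem_supp, mem_supp] at hi
    have := hK.k2 i hi.1 hi.2.1.2 hi.2.2.2 jl hjl
    push_cast at this
    exact this
  have sq : ∀ x : ℤ, x ≤ KK r * ((N ^ 5 : ℕ) : ℤ) ^ 2 → x ≤ KK r * (N : ℤ) ^ 10 := by
    intro x hx
    have e : ((N ^ 5 : ℕ) : ℤ) ^ 2 = (N : ℤ) ^ 10 := by push_cast; ring
    rwa [e] at hx
  constructor
  case nn => exact fun x => (enc_bd r N d ht x).1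
  case le => exact fun x => (enc_bd r N d ht x).2
  case out =>
    intro x hx hxX
    rw [enc_lt r d x hx, hnot x hx hxX]
    rfl
  case top =>
    intro x hx
    unfold enc
    rw [if_neg (by omega), if_neg (by omega), if_neg (by omega)]
  case ch =>
    intro i hi j hj
    rw [Gz_enc r d i (mem_AA.1 hi).1, Gz_enc r d j (mem_AA.1 hj).1, mul_assoc]
    exact abs_two _ _ _ _ (hKl i hi) (hKl j hj)
  case k3 =>
    intro h
    rw [enc_m, Hz_enc r d _ hα]
    have h2 := hK.k3 (mem_supp.1 h).2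
    rw [abs_of_nonneg (by linarith [h2.1])]
    exact sq _ h2.2
  case k3' =>
    intro h
    rw [enc_m', Htz_enc r d _]
    have h2 := hK.k3' (mem_supp.1 h).2
    rw [abs_of_nonneg (by linarith [h2.1])]
    exact sq _ h2.2
  case k4 =>
    intro h h'
    rcases hK.k4 (hnot _ hα h) (mem_supp.1 h').2 with h2 | h2
    · left
      rw [enc_m]
      exact_mod_cast h2.le
    · right
      intro i hi
      rw [Hz_enc r d _ hα2, Gz_enc r d i (mem_AA.1 hi).1, mul_assoc]
      have h3 := h2 jl hjl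
      push_cast at h3
      exact abs_two _ _ _ _ h3 (hKl i hi)
  case k4' =>
    intro h h'
    rcases hK.k4' (hnot _ hα3 h) (mem_supp.1 h').2 with h2 | h2
    · left
      rw [enc_m']
      exact_mod_cast h2.le
    · right
      intro i hi
      rw [Htz_enc r d _, Gz_enc r d i (mem_AA.1 hi).1, mul_assoc]
      have h3 := h2 jl hjl
      push_cast at h3
      exact abs_two _ _ _ _ h3 (hKl i hi)
  case k5 =>
    intro h h'
    have h2 := hK.k5 h (hnot _ hα h')
    rw [enc_m, enc_m', omz_enc]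
    rcases le_total d.1 d.2.2 with h3 | h3
    · left
      rw [min_eq_left h3] at h2
      exact sq _ h2
    · right
      rw [min_eq_right h3] at h2
      exact sq _ h2
  case k6 =>
    intro h h' h''
    rcases hK.k6 h (hnot _ hα h') (hnot _ hα2 h'') with h2 | h2 | h2
    · left
      rw [enc_m]
      exact_mod_cast h2.le
    · right; left
      rw [enc_m']
      exact_mod_cast h2.le
    · right; right
      intro i hi
      rw [omz_enc, Gz_enc r d i (mem_AA.1 hi).1, mul_assoc]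
      have h3 := h2 jl hjl
      push_cast at h3
      exact abs_two _ _ _ _ h3 (hKl i hi)

lemma xc_of (r N : ℕ) [NeZero r] (hN : 1 ≤ N) (a a' c : ZMod (2 * r)) (d : ℕ × (ℕ → ℕ) × ℕ)
    (hd : d ∈ DataC r (N ^ 5) a a' c) : ∃ x0 xl i1, XC r c a a' (supp r d.2.1) x0 xl i1 := by
  obtain ⟨hz, ht, hbig, hK⟩ := hd
  obtain ⟨jl, hjl, hjA⟩ := long_ex r N hN d.2.1 hbig
  have hne : (supp r d.2.1).Nonempty := ⟨jl, (mem_AA.1 hjA).2.1⟩
  have hneA : (AA r (supp r d.2.1)).Nonempty := ⟨jl, hjA⟩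
  refine ⟨(supp r d.2.1).min' hne, (supp r d.2.1).max' hne, (AA r (supp r d.2.1)).min' hneA,
    fun x hx => (mem_supp.1 hx).1, Finset.min'_mem _ _, fun x hx => Finset.min'_le _ _ hx,
    Finset.max'_mem _ _, fun x hx => Finset.le_max' _ _ hx, Finset.min'_mem _ _,
    fun x hx => Finset.min'_le _ _ hx, ?_, ?_⟩
  · have h1 := mem_supp.1 (Finset.min'_mem _ hne)
    refine hK.k1 _ h1.1 h1.2 (fun x' hx' => ?_)
    by_contra hne0
    have := Finset.min'_le (supp r d.2.1) x' (mem_supp.2 ⟨by omega, by omega⟩)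
    omega
  · have h1 := mem_supp.1 (Finset.max'_mem _ hne)
    refine hK.k1' _ h1.1 h1.2 (fun x' hx' hx2 => ?_)
    by_contra hne0
    have := Finset.le_max' (supp r d.2.1) x' (mem_supp.2 ⟨by omega, by omega⟩)
    omega

/-- the class of the data with support `X` -/
def FX (r N : ℕ) (a a' c : ZMod (2 * r)) (X : Finset ℕ) : Set (ℕ → ℤ) :=
  {f | ∃ d ∈ DataC r (N ^ 5) a a' c, supp r d.2.1 = X ∧ enc r d = f}

lemma FX_ncard (h1 : StmtH1) (r N : ℕ) [NeZero r] (hN : 1 ≤ N) (a a' c : ZMod (2 * r))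
    (X : Finset ℕ) : (FX r N a a' c X).ncard ≤ 4 * MM r N := by
  have hr : 0 < r := Nat.pos_of_ne_zero (NeZero.ne r)
  rcases Set.eq_empty_or_nonempty (FX r N a a' c X) with he | ⟨f, hf⟩
  · rw [he, Set.ncard_empty]
    exact Nat.zero_le _
  · obtain ⟨d, hd, hdX, _⟩ := hf
    obtain ⟨x0, xl, i1, hxc⟩ := xc_of r N hN a a' c d hd
    rw [hdX] at hxc
    refine Cl.main (X := X) (x0 := x0) (xl := xl) (i1 := i1) (c := c) (a := a) (a' := a')
      ⟨h1, hN, hr, hxc, ?_⟩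
    rintro _ ⟨d', hd', hdX', rfl⟩
    rw [← hdX']
    exact dt_of r N hN a a' c d' hd'

lemma enc_fin (h1 : StmtH1) (r N : ℕ) [NeZero r] (hN : 1 ≤ N) (a a' c : ZMod (2 * r)) :
    (enc r '' DataC r (N ^ 5) a a' c).Finite := by
  refine fin_of h1 (2 * r + 2) (N ^ 10) _ ?_
  rintro _ ⟨d, hd, rfl⟩
  refine ⟨fun x => ?_, (dt_of r N hN a a' c d hd).top⟩
  have := enc_bd r N d hd.2.1 x
  push_cast
  exact this

lemma enc_cov (r N : ℕ) (a a' c : ZMod (2 * r)) :
    enc r '' DataC r (N ^ 5) a a' c ⊆ ⋃ X ∈ (Finset.range (2 * r)).powerset, FX r N a a' c X := by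
  rintro _ ⟨d, hd, rfl⟩
  simp only [Set.mem_iUnion]
  exact ⟨supp r d.2.1, Finset.mem_powerset.2 (Finset.filter_subset _ _), d, hd, rfl, rfl⟩

lemma FX_sub (r N : ℕ) (a a' c : ZMod (2 * r)) (X : Finset ℕ) :
    FX r N a a' c X ⊆ enc r '' DataC r (N ^ 5) a a' c := by
  rintro f ⟨d, hd, _, rfl⟩
  exact ⟨d, hd, rfl⟩

lemma enc_ncard (h1 : StmtH1) (r N : ℕ) [NeZero r] (hN : 1 ≤ N) (a a' c : ZMod (2 * r)) :
    (enc r '' DataC r (N ^ 5) a a' c).ncard ≤ 2 ^ (2 * r) * (4 * MM r N) := by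
  calc (enc r '' DataC r (N ^ 5) a a' c).ncard
      ≤ (⋃ X ∈ (Finset.range (2 * r)).powerset, FX r N a a' c X).ncard := by
        refine Set.ncard_le_ncard (enc_cov r N a a' c) ?_
        exact (enc_fin h1 r N hN a a' c).subset (Set.iUnion₂_subset (fun X _ => FX_sub r N a a' c X))
    _ ≤ ∑ X ∈ (Finset.range (2 * r)).powerset, (FX r N a a' c X).ncard :=
        Finset.set_ncard_biUnion_le _ _
    _ ≤ ∑ X ∈ (Finset.range (2 * r)).powerset, 4 * MM r N :=
        Finset.sum_le_sum (fun X _ => FX_ncard h1 r N hN a a' c X)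
    _ = 2 ^ (2 * r) * (4 * MM r N) := by
        rw [Finset.sum_const, Finset.card_powerset, Finset.card_range, smul_eq_mul]

end H

/-- Module H: the main count. -/
theorem h (h1 : StmtH1) : StmtH := by
  intro r _ a a' c
  refine ⟨2 ^ (2 * r) * (4 * H.C0 r ^ (2 * r + 2)), fun N hN => ?_⟩
  have hinj : Set.InjOn (H.enc r) (DataC r (N ^ 5) a a' c) :=
    (H.enc_inj r).mono (fun d hd => hd.1)
  refine ⟨Set.Finite.of_finite_image (H.enc_fin h1 r N hN a a' c) hinj, ?_⟩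
  have h2 := H.enc_ncard h1 r N hN a a' c
  rw [Set.InjOn.ncard_image hinj] at h2
  refine h2.trans (le_of_eq ?_)
  unfold H.MM
  ring

end Pool.Agent.T6.H25.GG
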