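import Pool.Agent.T6.H25.GG.Stmts

/-! Module H1 of the project MP_b6554e_al: fibre lemmas for counting. -/

set_option autoImplicit false

namespace Pool.Agent.T6.H25.GG

open Finset

namespace H1

/-- counting by fibres -/
theorem fib {X Y Z : Type} (F : Set X) (hF : F.Finite) (g : X → Y) (k : X → Z) (n : ℕ)
    (T : Y → Finset Z) (hT : ∀ y, (T y).card ≤ n) (hk : ∀ x ∈ F, k x ∈ T (g x))
    (inj : ∀ x ∈ F, ∀ x' ∈ F, g x = g x' → k x = k x' → x = x') :
    F.ncard ≤ n * (g '' F).ncard := by
  classical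
  have e1 : F.ncard = hF.toFinset.card := Set.ncard_eq_toFinset_card F hF
  have e2 : (g '' F).ncard = (hF.toFinset.image g).card := by
    rw [← Set.ncard_coe_finset]
    congr 1
    ext y
    simp
  rw [e1, e2]
  apply Finset.card_le_mul_card_image
  intro y _
  refine le_trans ?_ (hT y)
  apply Finset.card_le_card_of_injOn k
  · intro x hx
    simp only [Finset.coe_filter, Set.Finite.mem_toFinset, Set.mem_setOf_eq] at hx
    rw [← hx.2]
    exact hk x hx.1
  · intro x hx x' hx' h
    simp only [Finset.coe_filter, Set.Finite.mem_toFinset, Set.mem_setOf_eq] at hx hx'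
    exact inj x hx.1 x' hx'.1 (hx.2.trans hx'.2.symm) h

theorem one (ι : Type) [Fintype ι] [DecidableEq ι] (F : Set (ι → ℤ)) (i : ι) (φ : (ι → ℤ) → ℤ)
    (D : ℕ) (hF : F.Finite) (hφ : ∀ f t, φ (Function.update f i t) = φ f)
    (h : ∀ f ∈ F, |f i - φ f| ≤ D) :
    F.ncard ≤ (2 * D + 1) * ((fun f => Function.update f i 0) '' F).ncard := by
  apply fib F hF (fun f => Function.update f i 0) (fun f => f i) (2 * D + 1)
    (fun g => Finset.Icc (φ g - D) (φ g + D))
  · intro y
    rw [Int.card_Icc]
    omega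
  · intro f hf
    have := abs_le.mp (h f hf)
    rw [Finset.mem_Icc]
    simp only [hφ]
    constructor <;> linarith [this.1, this.2]
  · intro f _ f' _ h1 h2
    funext x
    by_cases hx : x = i
    · subst hx; exact h2
    · have := congrFun h1 x
      simpa [Function.update_of_ne hx] using this

theorem harm (H : ℕ) : ∀ K : ℕ, ∑ x ∈ Finset.Ico 1 (2 ^ K), H / x ≤ K * H := by
  intro K
  induction K with
  | zero => simp
  | succ K ih =>
    have h1 : (1:ℕ) ≤ 2 ^ K := Nat.one_le_two_pow
    have h2 : 2 ^ K ≤ 2 ^ (K + 1) := Nat.pow_le_pow_right (by norm_num) (Nat.le_succ K)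
    rw [← Finset.sum_Ico_consecutive _ h1 h2]
    have h3 : ∑ x ∈ Finset.Ico (2 ^ K) (2 ^ (K + 1)), H / x ≤ 2 ^ K * (H / 2 ^ K) := by
      calc ∑ x ∈ Finset.Ico (2 ^ K) (2 ^ (K + 1)), H / x
          ≤ ∑ _x ∈ Finset.Ico (2 ^ K) (2 ^ (K + 1)), H / 2 ^ K := by
            apply Finset.sum_le_sum
            intro x hx
            exact Nat.div_le_div_left (Finset.mem_Ico.mp hx).1 (by positivity)
        _ = 2 ^ K * (H / 2 ^ K) := by
            rw [Finset.sum_const, Nat.card_Ico, smul_eq_mul]
            congr 1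
            rw [pow_succ]; omega
    have h4 : 2 ^ K * (H / 2 ^ K) ≤ H := Nat.mul_div_le H (2 ^ K)
    nlinarith

theorem harmB (H B : ℕ) : ∑ x ∈ Finset.Icc 1 B, H / x ≤ (Nat.log 2 (B + 1) + 1) * H := by
  refine le_trans ?_ (harm H (Nat.log 2 (B + 1) + 1))
  apply Finset.sum_le_sum_of_subset
  intro x hx
  rw [Finset.mem_Icc] at hx
  rw [Finset.mem_Ico]
  refine ⟨hx.1, ?_⟩
  have := Nat.lt_pow_succ_log_self (b := 2) (by norm_num) (B + 1)
  simp only [Nat.succ_eq_add_one] at this
  omega

/-- the set of pairs -/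
noncomputable def TT (ε c : ℤ) (B H : ℕ) : Finset (ℕ × ℤ) := by
  classical
  exact ((Finset.range (B + 1)) ×ˢ (Finset.Icc (0:ℤ) B)).filter (fun z => (z.1 : ℤ) * |ε * z.2 + c| ≤ H)

theorem TT_card (ε c : ℤ) (B H : ℕ) (hε : ε = 1 ∨ ε = -1) :
    (TT ε c B H).card ≤ 4 * B + 4 + 2 * H * (Nat.log 2 (B + 1) + 2) := by
  classical
  have h1 : (TT ε c B H).card = ∑ x ∈ Finset.range (B + 1),
      ((TT ε c B H).filter (fun z => z.1 = x)).card := by
    apply Finset.card_eq_sum_card_fiberwise
    intro z hz
    unfold TT at hz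
    simp only [Finset.coe_filter, Finset.mem_product, Set.mem_setOf_eq] at hz
    exact_mod_cast hz.1.1
  rw [h1, Finset.sum_range_succ']
  have h0 : ((TT ε c B H).filter (fun z => z.1 = 0)).card ≤ B + 1 := by
    calc ((TT ε c B H).filter (fun z => z.1 = 0)).card ≤ (Finset.Icc (0:ℤ) B).card := by
          apply Finset.card_le_card_of_injOn (fun z => z.2)
          · intro z hz
            simp only [Finset.coe_filter, Set.mem_setOf_eq] at hz
            unfold TT at hz
            simp only [Finset.mem_filter, Finset.mem_product] at hz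
            exact_mod_cast hz.1.1.2
          · intro z hz z' hz' h
            simp only [Finset.coe_filter, Set.mem_setOf_eq] at hz hz'
            exact Prod.ext (hz.2.trans hz'.2.symm) h
      _ = B + 1 := by rw [Int.card_Icc]; omega
  have h2 : ∀ x ∈ Finset.range B, ((TT ε c B H).filter (fun z => z.1 = x + 1)).card ≤
      2 * (H / (x + 1)) + 1 := by
    intro x _
    calc ((TT ε c B H).filter (fun z => z.1 = x + 1)).card
        ≤ (Finset.Icc (-((H / (x + 1) : ℕ) : ℤ)) ((H / (x + 1) : ℕ) : ℤ)).card := by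
          apply Finset.card_le_card_of_injOn (fun z => ε * z.2 + c)
          · intro z hz
            simp only [Finset.coe_filter, Set.mem_setOf_eq] at hz
            have hz1 := hz.1
            unfold TT at hz1
            simp only [Finset.mem_filter, Finset.mem_product] at hz1
            have h3 := hz1.2
            rw [hz.2] at h3
            have h4 : |ε * z.2 + c| ≤ ((H / (x + 1) : ℕ) : ℤ) := by
              rw [Int.natCast_div]
              rw [Int.le_ediv_iff_mul_le (by positivity)]
              linarith [mul_comm (|ε * z.2 + c|) (((x + 1 : ℕ)) : ℤ)]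
            have := abs_le.mp h4
            simp only [Finset.coe_Icc, Set.mem_Icc]
            exact this
          · intro z hz z' hz' h
            simp only [Finset.coe_filter, Set.mem_setOf_eq] at hz hz'
            refine Prod.ext (hz.2.trans hz'.2.symm) ?_
            simp only at h
            rcases hε with h5 | h5 <;> subst h5 <;> linarith
      _ = 2 * (H / (x + 1)) + 1 := by rw [Int.card_Icc]; omega
  have h3 : ∑ x ∈ Finset.range B, ((TT ε c B H).filter (fun z => z.1 = x + 1)).card ≤
      2 * ∑ x ∈ Finset.Icc 1 B, H / x + B := by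
    refine le_trans (Finset.sum_le_sum h2) ?_
    rw [Finset.sum_add_distrib, ← Finset.mul_sum]
    simp only [Finset.sum_const, Finset.card_range, smul_eq_mul, mul_one]
    have : ∑ x ∈ Finset.range B, H / (x + 1) = ∑ x ∈ Finset.Icc 1 B, H / x := by
      rw [Finset.range_eq_Ico, Finset.sum_Ico_add' (fun x => H / x) 0 B 1]
      congr 1
    rw [this]
  have h4 := harmB H B
  nlinarith

theorem two (ι : Type) [Fintype ι] [DecidableEq ι] (F : Set (ι → ℤ)) (u v : ι)
    (φ : (ι → ℤ) → ℤ) (ε : ℤ) (B H : ℕ) (huv : u ≠ v) (hF : F.Finite) (hε : ε = 1 ∨ ε = -1)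
    (hφ : ∀ f t t', φ (Function.update (Function.update f u t) v t') = φ f)
    (h : ∀ f ∈ F, 0 ≤ f u ∧ f u ≤ B ∧ 0 ≤ f v ∧ f v ≤ B ∧ f u * |ε * f v + φ f| ≤ H) :
    F.ncard ≤ (4 * B + 4 + 2 * H * (Nat.log 2 (B + 1) + 2)) *
      ((fun f => Function.update (Function.update f u 0) v 0) '' F).ncard := by
  classical
  apply fib F hF (fun f => Function.update (Function.update f u 0) v 0)
    (fun f => ((f u).toNat, f v)) _ (fun g => TT ε (φ g) B H)
  · intro y
    exact TT_card ε (φ y) B H hε
  · intro f hf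
    obtain ⟨h1, h2, h3, h4, h5⟩ := h f hf
    unfold TT
    simp only [Finset.mem_filter, Finset.mem_product, Finset.mem_range, Finset.mem_Icc, hφ]
    refine ⟨⟨by omega, h3, h4⟩, ?_⟩
    rw [Int.toNat_of_nonneg h1]
    exact h5
  · intro f hf f' hf' h1 h2
    have h3 := (h f hf).1
    have h4 := (h f' hf').1
    simp only [Prod.mk.injEq] at h2
    funext x
    by_cases hx : x = u
    · subst hx
      have := h2.1
      omega
    · by_cases hx' : x = v
      · subst hx'; exact h2.2
      · have := congrFun h1 x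
        simpa [Function.update_of_ne hx, Function.update_of_ne hx'] using this

theorem box (ι : Type) [Fintype ι] [DecidableEq ι] (F : Set (ι → ℤ)) (B : ι → ℕ)
    (h : ∀ f ∈ F, ∀ i, 0 ≤ f i ∧ f i ≤ B i) : F.Finite ∧ F.ncard ≤ ∏ i, (B i + 1) := by
  classical
  have hsub : F ⊆ ((Fintype.piFinset (fun i => Finset.Icc (0:ℤ) (B i)) : Finset (ι → ℤ)) :
      Set (ι → ℤ)) := by
    intro f hf
    simp only [Finset.mem_coe, Fintype.mem_piFinset, Finset.mem_Icc]
    exact h f hf
  refine ⟨(Finset.finite_toSet _).subset hsub, ?_⟩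
  refine le_trans (Set.ncard_le_ncard hsub (Finset.finite_toSet _)) ?_
  rw [Set.ncard_coe_finset, Fintype.card_piFinset]
  apply le_of_eq
  apply Finset.prod_congr rfl
  intro i _
  rw [Int.card_Icc]
  omega

end H1

theorem h1 : StmtH1 := by
  refine ⟨?_, ?_, ?_⟩
  · intro ι _ _ F i φ D hF hφ h
    exact H1.one ι F i φ D hF hφ h
  · intro ι _ _ F u v φ ε B H huv hF hε hφ h
    exact H1.two ι F u v φ ε B H huv hF hε hφ h
  · intro ι _ _ F B h
    exact H1.box ι F B h

end Pool.Agent.T6.H25.GG
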