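import Pool.Agent.T6.H25.GG.Stmts

/-! Module I: the pinned count. -/

set_option autoImplicit false

namespace Pool.Agent.T6.H25.GG

open Finset

namespace I

/-- the previous long axis -/
def pr (A : Finset ℕ) (i : ℕ) : ℕ := (A.filter (· < i)).sup id

theorem pr_mem {A : Finset ℕ} {i : ℕ} (h : (A.filter (· < i)).Nonempty) :
    pr A i ∈ A ∧ pr A i < i := by
  have h1 : pr A i ∈ A.filter (· < i) := by
    obtain ⟨b, hb, hb2⟩ := Finset.exists_mem_eq_sup (A.filter (· < i)) h id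
    unfold pr
    rw [hb2]
    exact hb
  rw [mem_filter] at h1
  exact h1

theorem pr_gap {A : Finset ℕ} {i x : ℕ} (hx : pr A i < x) (hxi : x < i) : x ∉ A := by
  intro hxA
  have h1 : x ≤ pr A i := by
    unfold pr
    exact Finset.le_sup (f := id) (mem_filter.2 ⟨hxA, hxi⟩)
  omega

theorem Gf_diff {r : ℕ} (L : ℕ → ℕ) {i i' : ℕ} (h : i < i') (h' : i' < r) :
    (L i' : ℤ) = ∑ x ∈ Ico (i + r) (i' + r), (L x : ℤ) - ∑ x ∈ Ico (i + 1) i', (L x : ℤ)
      - (Gf r L i' - Gf r L i) := by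
  have e1 : Gf r L i = ∑ x ∈ Ico (i + 1) (i + r), (L x : ℤ) := by
    unfold Gf
    apply Finset.sum_congr _ (fun _ _ => rfl)
    ext x
    simp only [mem_Ioo, mem_Ico]
    omega
  have e2 : Gf r L i' = ∑ x ∈ Ico (i' + 1) (i' + r), (L x : ℤ) := by
    unfold Gf
    apply Finset.sum_congr _ (fun _ _ => rfl)
    ext x
    simp only [mem_Ioo, mem_Ico]
    omega
  have e3 := Finset.sum_Ico_consecutive (fun x => (L x : ℤ)) (show i + 1 ≤ i' + 1 by omega)
    (show i' + 1 ≤ i + r by omega)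
  have e4 := Finset.sum_Ico_consecutive (fun x => (L x : ℤ)) (show i' + 1 ≤ i + r by omega)
    (show i + r ≤ i' + r by omega)
  have e5 := Finset.sum_Ico_succ_top (show i + 1 ≤ i' by omega) (fun x => (L x : ℤ))
  rw [e1, e2]
  linarith

open Classical in
/-- the code of an axis -/
noncomputable def cd (r : ℕ) (A : Finset ℕ) (L : ℕ → ℕ) (i : ℕ) : ℕ × ℕ :=
  if i ∈ A ∧ (A.filter (· < i)).Nonempty then
    ((Gf r L i - Gf r L (pr A i) + 1).toNat, L (i + r)) else (L i, L (i + r))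

open Classical in
/-- the possible codes -/
noncomputable def S (r s : ℕ) (A : Finset ℕ) (i : ℕ) : Finset (ℕ × ℕ) :=
  if i ∈ A then
    (if (A.filter (· < i)).Nonempty then range 3 ×ˢ range (s ^ 2 + 1)
      else range (s ^ 2 + 1) ×ˢ range (s ^ 2 + 1))
  else (range (s ^ 2 + 1) ×ˢ range (s ^ 2 + 1)).filter (fun p => min p.1 p.2 < KK r * s)

/-- the data with a given set of long axes -/
def PA (r s : ℕ) (A : Finset ℕ) : Set (ℕ × (ℕ → ℕ) × ℕ) :=
  {d | (∀ x, 2 * r ≤ x → d.2.1 x = 0) ∧ tot r d.1 d.2.1 d.2.2 ≤ s ^ 2 ∧ Lset r s d.2.1 = A ∧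
    ∀ i ∈ A, ∀ j ∈ A, |Gf r d.2.1 i - Gf r d.2.1 j| ≤ 1}

/-- the code -/
noncomputable def code (r : ℕ) (A : Finset ℕ) (d : ℕ × (ℕ → ℕ) × ℕ) :
    (ℕ × ℕ) × (Fin r → ℕ × ℕ) :=
  ((d.1, d.2.2), fun i => cd r A d.2.1 i)

/-- the codes -/
noncomputable def T (r s : ℕ) (A : Finset ℕ) : Finset ((ℕ × ℕ) × (Fin r → ℕ × ℕ)) :=
  (range (s ^ 2 + 1) ×ˢ range (s ^ 2 + 1)) ×ˢ Fintype.piFinset (fun i : Fin r => S r s A i)

theorem le_tot {r m m' : ℕ} {L : ℕ → ℕ} {x : ℕ} (hx : x < 2 * r) : L x ≤ tot r m L m' := by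
  have h1 : L x ≤ ∑ x ∈ range (2 * r), L x :=
    Finset.single_le_sum (fun _ _ => Nat.zero_le _) (mem_range.2 hx)
  unfold tot
  omega

theorem code_mem {r s : ℕ} {A : Finset ℕ} {d : ℕ × (ℕ → ℕ) × ℕ} (hd : d ∈ PA r s A) :
    code r A d ∈ T r s A := by
  obtain ⟨h1, h2, h3, h4⟩ := hd
  unfold T code
  rw [mem_product, mem_product, Fintype.mem_piFinset]
  have hm : d.1 ≤ s ^ 2 := by
    refine le_trans ?_ h2
    unfold tot
    omega
  have hm' : d.2.2 ≤ s ^ 2 := by
    refine le_trans ?_ h2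
    unfold tot
    omega
  refine ⟨⟨mem_range.2 (by show d.1 < _; omega), mem_range.2 (by show d.2.2 < _; omega)⟩, ?_⟩
  intro i
  have hi := i.2
  have hL1 : d.2.1 i ≤ s ^ 2 := (le_tot (by omega)).trans h2
  have hL2 : d.2.1 (i + r) ≤ s ^ 2 := (le_tot (by omega)).trans h2
  show cd r A d.2.1 i ∈ S r s A i
  by_cases hA : (i : ℕ) ∈ A
  · by_cases hN : (A.filter (· < (i : ℕ))).Nonempty
    · have e1 : cd r A d.2.1 i =
          ((Gf r d.2.1 i - Gf r d.2.1 (pr A i) + 1).toNat, d.2.1 (i + r)) := by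
        unfold cd
        rw [if_pos ⟨hA, hN⟩]
      have e2 : S r s A i = range 3 ×ˢ range (s ^ 2 + 1) := by
        unfold S
        rw [if_pos hA, if_pos hN]
      rw [e1, e2, mem_product, mem_range, mem_range]
      have h5 := h4 i hA (pr A i) (pr_mem hN).1
      rw [abs_le] at h5
      constructor
      · show (Gf r d.2.1 i - Gf r d.2.1 (pr A i) + 1).toNat < 3
        omega
      · show d.2.1 (i + r) < s ^ 2 + 1
        omega
    · have e1 : cd r A d.2.1 i = (d.2.1 i, d.2.1 (i + r)) := by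
        unfold cd
        rw [if_neg (fun h => hN h.2)]
      have e2 : S r s A i = range (s ^ 2 + 1) ×ˢ range (s ^ 2 + 1) := by
        unfold S
        rw [if_pos hA, if_neg hN]
      rw [e1, e2, mem_product, mem_range, mem_range]
      constructor
      · show d.2.1 i < s ^ 2 + 1
        omega
      · show d.2.1 (i + r) < s ^ 2 + 1
        omega
  · have e1 : cd r A d.2.1 i = (d.2.1 i, d.2.1 (i + r)) := by
      unfold cd
      rw [if_neg (fun h => hA h.1)]
    have e2 : S r s A i = (range (s ^ 2 + 1) ×ˢ range (s ^ 2 + 1)).filter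
        (fun p : ℕ × ℕ => min p.1 p.2 < KK r * s) := by
      unfold S
      rw [if_neg hA]
    rw [e1, e2, mem_filter, mem_product, mem_range, mem_range]
    refine ⟨⟨?_, ?_⟩, ?_⟩
    · show d.2.1 i < s ^ 2 + 1
      omega
    · show d.2.1 (i + r) < s ^ 2 + 1
      omega
    · show min (d.2.1 i) (d.2.1 (i + r)) < KK r * s
      by_contra hc
      apply hA
      rw [← h3]
      unfold Lset
      rw [mem_filter, mem_range]
      rw [not_lt, le_min_iff] at hc
      exact ⟨hi, hc⟩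

theorem code_inj {r s : ℕ} {A : Finset ℕ} : Set.InjOn (code r A) (PA r s A) := by
  rintro ⟨m, L, m'⟩ ⟨h1, h2, h3, h4⟩ ⟨n, M, n'⟩ ⟨k1, k2, k3, k4⟩ hc
  simp only at h1 h2 h3 h4 k1 k2 k3 k4
  unfold code at hc
  simp only [Prod.mk.injEq] at hc
  obtain ⟨⟨hm, hm'⟩, hc⟩ := hc
  have hcd : ∀ i, i < r → cd r A L i = cd r A M i := fun i hi => congrFun hc ⟨i, hi⟩
  have hup : ∀ i, i < r → L (i + r) = M (i + r) := by
    intro i hi
    have h5 := hcd i hi
    unfold cd at h5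
    split_ifs at h5 with hcase
    · exact (Prod.ext_iff.1 h5).2
    · exact (Prod.ext_iff.1 h5).2
  have hnp : ∀ i, i < r → ¬ (i ∈ A ∧ (A.filter (· < i)).Nonempty) → L i = M i := by
    intro i hi hcase
    have h5 := hcd i hi
    unfold cd at h5
    rw [if_neg hcase, if_neg hcase] at h5
    exact (Prod.ext_iff.1 h5).1
  have hLM : L = M := by
    funext x
    by_cases hx2 : 2 * r ≤ x
    · rw [h1 x hx2, k1 x hx2]
    · by_cases hxr : r ≤ x
      · have := hup (x - r) (by omega)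
        rwa [Nat.sub_add_cancel hxr] at this
      · by_cases hcase : x ∈ A ∧ (A.filter (· < x)).Nonempty
        · obtain ⟨hxA, hN⟩ := hcase
          obtain ⟨hp1, hp2⟩ := pr_mem hN
          have e1 := Gf_diff L hp2 (show x < r by omega)
          have e2 := Gf_diff M hp2 (show x < r by omega)
          have e3 : ∑ y ∈ Ico (pr A x + r) (x + r), (L y : ℤ) =
              ∑ y ∈ Ico (pr A x + r) (x + r), (M y : ℤ) := by
            apply Finset.sum_congr rfl
            intro y hy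
            rw [mem_Ico] at hy
            have := hup (y - r) (by omega)
            rw [Nat.sub_add_cancel (by omega)] at this
            rw [this]
          have e4 : ∑ y ∈ Ico (pr A x + 1) x, (L y : ℤ) = ∑ y ∈ Ico (pr A x + 1) x, (M y : ℤ) := by
            apply Finset.sum_congr rfl
            intro y hy
            rw [mem_Ico] at hy
            rw [hnp y (by omega) (fun h => pr_gap (by omega) hy.2 h.1)]
          have e5 : Gf r L x - Gf r L (pr A x) = Gf r M x - Gf r M (pr A x) := by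
            have h5 := hcd x (by omega)
            unfold cd at h5
            rw [if_pos ⟨hxA, hN⟩, if_pos ⟨hxA, hN⟩] at h5
            have h6 := (Prod.ext_iff.1 h5).1
            simp only at h6
            have h7 := h4 x hxA (pr A x) hp1
            have h8 := k4 x hxA (pr A x) hp1
            rw [abs_le] at h7 h8
            omega
          have : (L x : ℤ) = M x := by linarith
          exact_mod_cast this
        · exact hnp x (by omega) hcase
  subst hLM hm hm'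
  rfl

open Classical in
/-- the exponents -/
noncomputable def wg (A : Finset ℕ) (i : ℕ) : ℕ :=
  if i ∈ A then (if (A.filter (· < i)).Nonempty then 2 else 4) else 3

theorem S_card {r s : ℕ} (hs : 1 ≤ s) (A : Finset ℕ) (i : ℕ) :
    (S r s A i).card ≤ (4 * KK r) * s ^ wg A i := by
  have hs2 : 1 ≤ s ^ 2 := Nat.one_le_pow _ _ hs
  have hK : 1000 ≤ KK r := by
    unfold KK
    omega
  unfold S wg
  by_cases hA : i ∈ A
  · by_cases hN : (A.filter (· < i)).Nonempty
    · rw [if_pos hA, if_pos hN, if_pos hA, if_pos hN, card_product, card_range, card_range]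
      nlinarith
    · rw [if_pos hA, if_neg hN, if_pos hA, if_neg hN, card_product, card_range]
      have e : s ^ 4 = s ^ 2 * s ^ 2 := by ring
      rw [e]
      nlinarith [Nat.mul_le_mul hs2 hs2, Nat.zero_le (s ^ 2 * s ^ 2)]
  · rw [if_neg hA, if_neg hA]
    have h1 : (range (s ^ 2 + 1) ×ˢ range (s ^ 2 + 1)).filter
        (fun p : ℕ × ℕ => min p.1 p.2 < KK r * s) ⊆
        (range (KK r * s) ×ˢ range (s ^ 2 + 1)) ∪ (range (s ^ 2 + 1) ×ˢ range (KK r * s)) := by
      intro p hp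
      rw [mem_filter, mem_product, mem_range, mem_range] at hp
      rw [mem_union, mem_product, mem_product, mem_range, mem_range, mem_range, mem_range]
      rcases min_lt_iff.1 hp.2 with h | h
      · exact Or.inl ⟨h, hp.1.2⟩
      · exact Or.inr ⟨hp.1.1, h⟩
    refine (Finset.card_le_card h1).trans ((Finset.card_union_le _ _).trans ?_)
    rw [card_product, card_product, card_range, card_range]
    have e : s ^ 3 = s * s ^ 2 := by ring
    rw [e]
    have h2 : KK r * s * (s ^ 2 + 1) ≤ KK r * s * (2 * s ^ 2) := Nat.mul_le_mul_left _ (by omega)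
    calc KK r * s * (s ^ 2 + 1) + (s ^ 2 + 1) * (KK r * s)
        = 2 * (KK r * s * (s ^ 2 + 1)) := by ring
      _ ≤ 2 * (KK r * s * (2 * s ^ 2)) := Nat.mul_le_mul_left _ h2
      _ = 4 * KK r * (s * s ^ 2) := by ring

theorem wg_sum {r : ℕ} {A : Finset ℕ} (hA : A ⊆ range r) (hc : 20 ≤ A.card) :
    ∑ i ∈ range r, wg A i ≤ 3 * r - 18 := by
  classical
  have h1 : ∑ i ∈ range r, wg A i = ∑ i ∈ range r \ A, wg A i + ∑ i ∈ A, wg A i :=
    (Finset.sum_sdiff hA).symm
  have h2 : ∑ i ∈ range r \ A, wg A i = 3 * (r - A.card) := by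
    have : ∀ i ∈ range r \ A, wg A i = 3 := by
      intro i hi
      rw [mem_sdiff] at hi
      unfold wg
      rw [if_neg hi.2]
    rw [Finset.sum_congr rfl this, Finset.sum_const, smul_eq_mul, Finset.card_sdiff_of_subset hA,
      card_range, mul_comm]
  have h3 : ∑ i ∈ A, wg A i = 2 * A.card + 2 * (A.filter fun i => ¬ (A.filter (· < i)).Nonempty).card := by
    have : ∀ i ∈ A, wg A i = 2 + (if ¬ (A.filter (· < i)).Nonempty then 2 else 0) := by
      intro i hi
      unfold wg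
      rw [if_pos hi]
      by_cases hN : (A.filter (· < i)).Nonempty
      · rw [if_pos hN, if_neg (not_not.2 hN)]
      · rw [if_neg hN, if_pos hN]
    rw [Finset.sum_congr rfl this, Finset.sum_add_distrib, Finset.sum_const, smul_eq_mul,
      ← Finset.sum_filter, Finset.sum_const, smul_eq_mul]
    ring
  have h4 : (A.filter fun i => ¬ (A.filter (· < i)).Nonempty).card ≤ 1 := by
    rw [Finset.card_le_one]
    intro x hx y hy
    rw [mem_filter, Finset.not_nonempty_iff_eq_empty, Finset.filter_eq_empty_iff] at hx hy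
    have a1 := hx.2 hy.1
    have a2 := hy.2 hx.1
    omega
  have h5 : A.card ≤ r := by
    have := Finset.card_le_card hA
    rwa [card_range] at this
  omega

theorem T_card {r s : ℕ} (hs : 1 ≤ s) {A : Finset ℕ} (hA : A ⊆ range r) (hc : 20 ≤ A.card) :
    (T r s A).card ≤ 4 * (4 * KK r) ^ r * s ^ (3 * r - 14) := by
  have h5 : A.card ≤ r := by
    have := Finset.card_le_card hA
    rwa [card_range] at this
  have hs2 : 1 ≤ s ^ 2 := Nat.one_le_pow _ _ hs
  unfold T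
  rw [card_product, card_product, card_range, Fintype.card_piFinset]
  have h1 : ∏ i : Fin r, (S r s A i).card = ∏ i ∈ range r, (S r s A i).card :=
    Fin.prod_univ_eq_prod_range (fun i => (S r s A i).card) r
  rw [h1]
  have h2 : ∏ i ∈ range r, (S r s A i).card ≤ ∏ i ∈ range r, (4 * KK r) * s ^ wg A i :=
    Finset.prod_le_prod' fun i _ => S_card hs A i
  have h3 : ∏ i ∈ range r, (4 * KK r) * s ^ wg A i = (4 * KK r) ^ r * s ^ (∑ i ∈ range r, wg A i) := by
    rw [Finset.prod_mul_distrib, Finset.prod_const, card_range, Finset.prod_pow_eq_pow_sum]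
  have h4 : s ^ (∑ i ∈ range r, wg A i) ≤ s ^ (3 * r - 18) :=
    Nat.pow_le_pow_right hs (wg_sum hA hc)
  have h6 : (s ^ 2 + 1) * (s ^ 2 + 1) ≤ 4 * s ^ 4 := by
    have e : s ^ 4 = s ^ 2 * s ^ 2 := by ring
    rw [e]
    nlinarith
  calc (s ^ 2 + 1) * (s ^ 2 + 1) * ∏ i ∈ range r, (S r s A i).card
      ≤ (4 * s ^ 4) * ((4 * KK r) ^ r * s ^ (3 * r - 18)) := by
        apply Nat.mul_le_mul h6
        rw [h3] at h2
        exact h2.trans (Nat.mul_le_mul_left _ h4)
    _ = 4 * (4 * KK r) ^ r * (s ^ 4 * s ^ (3 * r - 18)) := by ring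
    _ = 4 * (4 * KK r) ^ r * s ^ (3 * r - 14) := by
        rw [← pow_add]
        congr 2
        omega

/-- the modified data -/
def P1 (r s : ℕ) : Set (ℕ × (ℕ → ℕ) × ℕ) :=
  {d | (∀ x, 2 * r ≤ x → d.2.1 x = 0) ∧ tot r d.1 d.2.1 d.2.2 ≤ s ^ 2 ∧
    20 ≤ (Lset r s d.2.1).card ∧
    ∀ i ∈ Lset r s d.2.1, ∀ j ∈ Lset r s d.2.1, |Gf r d.2.1 i - Gf r d.2.1 j| ≤ 1}

theorem P1_count {r s : ℕ} (hs : 1 ≤ s) :
    (P1 r s).Finite ∧ (P1 r s).ncard ≤ 2 ^ r * (4 * (4 * KK r) ^ r * s ^ (3 * r - 14)) := by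
  classical
  set I := (range r).powerset.filter (fun A => 20 ≤ A.card) with hI
  have hA : ∀ A ∈ I, (PA r s A).Finite ∧
      (PA r s A).ncard ≤ 4 * (4 * KK r) ^ r * s ^ (3 * r - 14) := by
    intro A hA
    rw [hI, mem_filter, mem_powerset] at hA
    have hfin : (↑(T r s A) : Set ((ℕ × ℕ) × (Fin r → ℕ × ℕ))).Finite := (T r s A).finite_toSet
    have hmap : Set.MapsTo (code r A) (PA r s A)
        (↑(T r s A) : Set ((ℕ × ℕ) × (Fin r → ℕ × ℕ))) :=
      fun d hd => Finset.mem_coe.2 (code_mem hd)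
    refine ⟨Set.Finite.of_injOn hmap code_inj hfin, ?_⟩
    have h1 := Set.ncard_le_ncard_of_injOn (code r A) (fun d hd => hmap hd) code_inj hfin
    rw [Set.ncard_coe_finset] at h1
    exact h1.trans (T_card hs hA.1 hA.2)
  have hsub : P1 r s ⊆ ⋃ A ∈ I, PA r s A := by
    intro d hd
    obtain ⟨h1, h2, h3, h4⟩ := hd
    rw [Set.mem_iUnion₂]
    refine ⟨Lset r s d.2.1, ?_, h1, h2, rfl, h4⟩
    rw [hI, mem_filter, mem_powerset]
    exact ⟨Finset.filter_subset _ _, h3⟩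
  have hfin2 : (⋃ A ∈ I, PA r s A).Finite := by
    have h0 : (⋃ A ∈ (I : Set (Finset ℕ)), PA r s A).Finite :=
      Set.Finite.biUnion I.finite_toSet (fun A hA' => (hA A (Finset.mem_coe.1 hA')).1)
    exact h0
  refine ⟨hfin2.subset hsub, ?_⟩
  have h1 : (P1 r s).ncard ≤ (⋃ A ∈ I, PA r s A).ncard := Set.ncard_le_ncard hsub hfin2
  have h2 : (⋃ A ∈ I, PA r s A).ncard ≤ ∑ A ∈ I, (PA r s A).ncard :=
    Finset.set_ncard_biUnion_le I _
  have h3 : ∑ A ∈ I, (PA r s A).ncard ≤ ∑ A ∈ I, 4 * (4 * KK r) ^ r * s ^ (3 * r - 14) :=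
    Finset.sum_le_sum fun A hA' => (hA A hA').2
  rw [Finset.sum_const, smul_eq_mul] at h3
  have h4 : I.card ≤ 2 ^ r := by
    refine (Finset.card_filter_le _ _).trans ?_
    rw [Finset.card_powerset, card_range]
  exact h1.trans (h2.trans (h3.trans (Nat.mul_le_mul_right _ h4)))

/-- the index of a modification -/
abbrev J (r s : ℕ) : Type := Fin (s ^ 2 + 1) × Fin 3 × Fin 3 × (Fin (2 * r) → Fin 3)

/-- undoing the modification -/
def dec (r s : ℕ) (p : J r s × (ℕ × (ℕ → ℕ) × ℕ)) : ℕ × (ℕ → ℕ) × ℕ :=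
  (((p.2.1 : ℤ) - (p.1.1 : ℕ) * (((p.1.2.1 : ℕ) : ℤ) - 1)).toNat,
    fun x => if h : x < 2 * r then
      ((p.2.2.1 x : ℤ) - (p.1.1 : ℕ) * (((p.1.2.2.2 ⟨x, h⟩ : ℕ) : ℤ) - 1)).toNat else 0,
    ((p.2.2.2 : ℤ) - (p.1.1 : ℕ) * (((p.1.2.2.1 : ℕ) : ℤ) - 1)).toNat)

theorem exists_fin {z : ℤ} (h : |z| ≤ 1) : ∃ k : Fin 3, ((k : ℕ) : ℤ) - 1 = z := by
  rw [abs_le] at h
  refine ⟨⟨(z + 1).toNat, by omega⟩, ?_⟩
  show (((z + 1).toNat : ℕ) : ℤ) - 1 = z
  omega

theorem DataP_sub (r s : ℕ) : DataP r s ⊆ dec r s '' (Set.univ ×ˢ P1 r s) := by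
  rintro ⟨m, L, m'⟩ ⟨h1, h2, h3⟩
  simp only at h1 h2 h3
  obtain ⟨μ, e0, e0', e, m1, L1, m1', hμ, he0, he0', he, hez, hm1, hm1', hL1, ht, hc, hp⟩ := h3
  obtain ⟨k0, hk0⟩ := exists_fin he0
  obtain ⟨k0', hk0'⟩ := exists_fin he0'
  choose k hk using fun x => exists_fin (he x)
  refine ⟨((⟨μ, by omega⟩, k0, k0', fun x => k x), (m1, L1, m1')), ?_, ?_⟩
  · rw [Set.mem_prod]
    refine ⟨Set.mem_univ _, ?_, ht, hc, hp⟩
    intro x hx
    show L1 x = 0
    have h4 := hL1 x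
    rw [h1 x hx, hez x hx] at h4
    simp at h4
    exact h4
  · unfold dec
    simp only [Prod.mk.injEq]
    refine ⟨?_, ?_, ?_⟩
    · rw [hk0, hm1]
      simp
    · funext x
      by_cases hx : x < 2 * r
      · rw [dif_pos hx, hk, hL1]
        simp
      · rw [dif_neg hx]
        exact (h1 x (by omega)).symm
    · rw [hk0', hm1']
      simp

end I

theorem i : StmtI := by
  intro r _ hr
  refine ⟨2 * 9 * 3 ^ (2 * r) * (2 ^ r * (4 * (4 * KK r) ^ r)), ?_⟩
  intro s hs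
  obtain ⟨hf, hn⟩ := I.P1_count (r := r) hs
  have hfin : (Set.univ ×ˢ I.P1 r s : Set (I.J r s × (ℕ × (ℕ → ℕ) × ℕ))).Finite :=
    Set.finite_univ.prod hf
  refine ⟨(hfin.image _).subset (I.DataP_sub r s), ?_⟩
  have h1 : (DataP r s).ncard ≤ (I.dec r s '' (Set.univ ×ˢ I.P1 r s)).ncard :=
    Set.ncard_le_ncard (I.DataP_sub r s) (hfin.image _)
  have h2 : (I.dec r s '' (Set.univ ×ˢ I.P1 r s)).ncard ≤
      (Set.univ ×ˢ I.P1 r s : Set (I.J r s × (ℕ × (ℕ → ℕ) × ℕ))).ncard :=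
    Set.ncard_image_le hfin
  have h3 : (Set.univ ×ˢ I.P1 r s : Set (I.J r s × (ℕ × (ℕ → ℕ) × ℕ))).ncard =
      ((s ^ 2 + 1) * (3 * (3 * 3 ^ (2 * r)))) * (I.P1 r s).ncard := by
    rw [Set.ncard_prod, Set.ncard_univ, Nat.card_eq_fintype_card]
    simp [I.J, Fintype.card_prod]
  have hs2 : 1 ≤ s ^ 2 := Nat.one_le_pow _ _ hs
  calc (DataP r s).ncard ≤ _ := h1.trans h2
    _ = ((s ^ 2 + 1) * (3 * (3 * 3 ^ (2 * r)))) * (I.P1 r s).ncard := h3
    _ ≤ ((2 * s ^ 2) * (3 * (3 * 3 ^ (2 * r)))) *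
        (2 ^ r * (4 * (4 * KK r) ^ r * s ^ (3 * r - 14))) := by
        apply Nat.mul_le_mul _ hn
        apply Nat.mul_le_mul_right
        omega
    _ = 2 * 9 * 3 ^ (2 * r) * (2 ^ r * (4 * (4 * KK r) ^ r)) * (s ^ 2 * s ^ (3 * r - 14)) := by ring
    _ = 2 * 9 * 3 ^ (2 * r) * (2 ^ r * (4 * (4 * KK r) ^ r)) * s ^ (3 * r - 12) := by
        rw [← pow_add]
        congr 2
        omega

end Pool.Agent.T6.H25.GG
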