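import Mathlib
import Pool.Agent.T6.H25.GG.Stmts

/-! Module J1: few long axes, structure. -/

set_option autoImplicit false

namespace Pool.Agent.T6.H25.GG

open Finset

namespace J1

theorem Gf_diff (r : ℕ) (L : ℕ → ℕ) (i : ℕ) (hi : i + 1 < r) :
    Gf r L i - Gf r L (i + 1) = (L (i + 1) : ℤ) - L (i + r) := by
  unfold Gf
  have h1 : Ioo i (i + r) = insert (i + 1) (Ioo (i + 1) (i + r)) := by
    ext x
    simp only [mem_insert, mem_Ioo]
    omega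
  have h2 : Ioo (i + 1) (i + 1 + r) = insert (i + r) (Ioo (i + 1) (i + r)) := by
    ext x
    simp only [mem_insert, mem_Ioo]
    omega
  rw [h1, h2, sum_insert (by simp), sum_insert (by simp)]
  ring

theorem Gf_nonneg (r : ℕ) (L : ℕ → ℕ) (i : ℕ) : 0 ≤ Gf r L i :=
  sum_nonneg fun _ _ => Int.natCast_nonneg _

theorem Gf_le (r : ℕ) (L : ℕ → ℕ) (i : ℕ) (hi : i < r) :
    Gf r L i ≤ ((∑ x ∈ range (2 * r), L x : ℕ) : ℤ) := by
  unfold Gf
  push_cast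
  apply sum_le_sum_of_subset_of_nonneg
  · intro x hx
    rw [mem_Ioo] at hx
    rw [mem_range]
    omega
  · intro _ _ _
    exact Int.natCast_nonneg _

/-- one move: `k` pairs at `j`, `k'` pairs at `j'` -/
theorem move (hD : StmtD) (hMV : StmtMV) (hALG : StmtALG) (r : ℕ) [NeZero r]
    (p q c : ZMod (2 * r)) (D : List (ZMod (2 * r))) (hG : Geo r p q D) (hZ : 0 ≤ Z r D)
    (hc : Z r D ≤ Z r (srt r c (cnts r c D))) (j j' : ℕ) (hj : j < r) (hj' : j' < r) (hjj : j ≠ j')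
    (u ρ : ℕ) (hρ : ρ = r + 3) (h1 : u + ρ ≤ cnts r c D j) (h2 : u + ρ ≤ cnts r c D (j + r)) :
    2 * (u : ℤ) * (Gf r (cnts r c D) j' - Gf r (cnts r c D) j) ≤
      2 * ρ * Gf r (cnts r c D) j + 2 * u ^ 2 + 2 * u * ρ := by
  obtain ⟨L, hL⟩ : ∃ L : ℕ → ℕ, L = cnts r c D := ⟨_, rfl⟩
  rw [← hL] at h1 h2 hc ⊢
  obtain ⟨y, hy⟩ : ∃ y : ℕ → ℤ, y = fun x => if x = j then -((u : ℤ) + ρ) else if x = j' then (u : ℤ) else 0 :=
    ⟨_, rfl⟩
  have hyj : y j = -((u : ℤ) + ρ) := by rw [hy]; simp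
  have hyj' : y j' = (u : ℤ) := by rw [hy]; simp [Ne.symm hjj]
  have hyo : ∀ x, x ≠ j → x ≠ j' → y x = 0 := by intro x hx hx'; rw [hy]; simp [hx, hx']
  have hsum : ∀ f : ℕ → ℤ, ∑ i ∈ range r, f i * y i = f j * y j + f j' * y j' := by
    intro f
    rw [← sum_subset (s₁ := {j, j'})]
    · rw [sum_pair hjj]
    · intro x hx
      rw [mem_insert, mem_singleton] at hx
      rw [mem_range]
      rcases hx with rfl | rfl <;> assumption
    · intro x _ hx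
      rw [mem_insert, mem_singleton] at hx
      push Not at hx
      rw [hyo x hx.1 hx.2, mul_zero]
  have hs1 : ∑ i ∈ range r, y i = -(ρ : ℤ) := by
    have := hsum (fun _ => 1)
    simp only [one_mul] at this
    rw [this, hyj, hyj']
    ring
  have hs2 : ∑ i ∈ range r, (y i) ^ 2 = ((u : ℤ) + ρ) ^ 2 + u ^ 2 := by
    have := hsum y
    have e : ∑ i ∈ range r, (y i) ^ 2 = ∑ i ∈ range r, y i * y i := by
      apply sum_congr rfl
      intro i _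
      ring
    rw [e, this, hyj, hyj']
    ring
  obtain ⟨L', hL'⟩ : ∃ L' : ℕ → ℕ, L' = fun x => (((L x : ℤ) + y (if x < r then x else x - r))).toNat :=
    ⟨_, rfl⟩
  have hL'x : ∀ x < 2 * r, (L' x : ℤ) = L x + y (if x < r then x else x - r) := by
    intro x hx
    rw [hL']
    simp only
    apply Int.toNat_of_nonneg
    obtain ⟨x', hx'⟩ : ∃ x', x' = if x < r then x else x - r := ⟨_, rfl⟩
    rw [← hx']
    by_cases e1 : x' = j
    · rw [e1, hyj]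
      have : u + ρ ≤ L x := by
        split_ifs at hx' with h
        · rw [← hx', e1]; exact h1
        · have : x = j + r := by omega
          rw [this]; exact h2
      omega
    · by_cases e2 : x' = j'
      · rw [e2, hyj']
        positivity
      · rw [hyo x' e1 e2]
        positivity
  have hmv := (hMV r c c c 0 L 0).1 y L' hL'x
  obtain ⟨m1, m2, m3, -⟩ := hmv
  rw [hs1] at m2 m3
  rw [hs2] at m3
  have m3' : ∑ i ∈ range r, Gf r L i * y i = Gf r L j * y j + Gf r L j' * y j' := hsum _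
  have m4 : 2 * ∑ i ∈ range r, Gf r L i * y i = 2 * (Gf r L j * y j + Gf r L j' * y j') := by rw [m3']
  rw [m4, hyj, hyj'] at m3
  have hwd : wd r c c c 0 L 0 = srt r c L := by
    unfold wd
    simp
  obtain ⟨-, -, -, -, a5, -, a7⟩ := hALG r
  have hperm : (wd r c c c 0 L 0).Perm D := by
    rw [hwd, hL]
    exact a7 c D
  have hE : Eqw r D (wd r c c c 0 L 0) := by
    intro x
    unfold wt
    rw [hperm.count_eq, hperm.count_eq]
  have hE' : Eqw r D (wd r c c c 0 L' 0) := fun x => (hE x).trans (m1 x)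
  have hlen : (wd r c c c 0 L 0).length = D.length := hperm.length_eq
  have t1 := a5 c c c 0 L 0
  have t2 := a5 c c c 0 L' 0
  by_contra hcon
  push Not at hcon
  have hZle : Z r D ≤ Z r (wd r c c c 0 L' 0) := by
    rw [m3, hwd]
    have : 0 ≤ 2 * (Gf r L j * -((u : ℤ) + ρ) + Gf r L j' * u) + (-(ρ : ℤ)) ^ 2 - (((u : ℤ) + ρ) ^ 2 + u ^ 2) := by
      nlinarith
    linarith
  have hlen2 := (hD r p q).1 D hG hZ _ hE' hZle
  rw [t2] at hlen2
  rw [← hlen, t1] at hlen2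
  omega

end J1

theorem j1 (hD : StmtD) (hMV : StmtMV) (hALG : StmtALG) : StmtJ1 := by
  intro r _ p q c D N hG hZ hrN hlen hc i hi h1 h2 h3 h4
  obtain ⟨L, hL⟩ : ∃ L : ℕ → ℕ, L = cnts r c D := ⟨_, rfl⟩
  have hN1 : 1 ≤ N := by omega
  have hN4 : N ≤ N ^ 4 := Nat.le_self_pow (by norm_num) N
  have a1 := J1.move hD hMV hALG r p q c D hG hZ hc i (i + 1) (by omega) hi (by omega) (N ^ 4) (r + 3) rfl
    (by omega) (by omega)
  have a2 := J1.move hD hMV hALG r p q c D hG hZ hc (i + 1) i hi (by omega) (by omega) (N ^ 4) (r + 3) rfl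
    (by omega) (by omega)
  rw [← hL] at a1 a2 ⊢
  rw [← J1.Gf_diff r L i hi]
  have htot : (∑ x ∈ range (2 * r), L x : ℕ) = D.length := by
    obtain ⟨-, -, -, -, a5, -, a7⟩ := hALG r
    have t1 := a5 c c c 0 L 0
    have hwd : wd r c c c 0 L 0 = srt r c L := by
      unfold wd
      simp
    have h7 := (a7 c D).length_eq
    rw [← hL, ← hwd, t1] at h7
    unfold tot at h7
    omega
  have g1 := J1.Gf_le r L i (by omega)
  have g2 := J1.Gf_le r L (i + 1) hi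
  rw [htot] at g1 g2
  have hlen' : (D.length : ℤ) ≤ (N : ℤ) ^ 10 := by exact_mod_cast hlen
  obtain ⟨g, hg⟩ : ∃ g : ℤ, g = Gf r L i := ⟨_, rfl⟩
  obtain ⟨g', hg'⟩ : ∃ g' : ℤ, g' = Gf r L (i + 1) := ⟨_, rfl⟩
  rw [← hg] at a1 a2 g1 ⊢
  rw [← hg'] at a1 a2 g2 ⊢
  have g3 : g ≤ (N : ℤ) ^ 10 := g1.trans hlen'
  have g4 : g' ≤ (N : ℤ) ^ 10 := g2.trans hlen'
  obtain ⟨n, hn⟩ : ∃ n : ℤ, n = (N : ℤ) := ⟨_, rfl⟩
  obtain ⟨ρ, hρ⟩ : ∃ ρ : ℤ, ρ = (r : ℤ) + 3 := ⟨_, rfl⟩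
  have hn1 : 1 ≤ n := by rw [hn]; exact_mod_cast hN1
  have hρn : ρ ≤ n := by rw [hn, hρ]; exact_mod_cast hrN
  have hρ0 : 3 ≤ ρ := by rw [hρ]; omega
  push_cast at a1 a2
  rw [← hn] at a1 a2 g3 g4 ⊢
  rw [← hρ] at a1 a2
  have hn4 : 1 ≤ n ^ 4 := one_le_pow₀ hn1
  have key : ∀ G G' : ℤ, G ≤ n ^ 10 → 2 * n ^ 4 * (G' - G) ≤ 2 * ρ * G + 2 * (n ^ 4) ^ 2 + 2 * n ^ 4 * ρ →
      G' - G ≤ (ρ + 2) * n ^ 6 := by
    intro G G' hG h
    have e1 : 2 * ρ * G ≤ 2 * n ^ 4 * (ρ * n ^ 6) := by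
      have : 2 * ρ * G ≤ 2 * ρ * n ^ 10 := mul_le_mul_of_nonneg_left hG (by linarith)
      calc 2 * ρ * G ≤ 2 * ρ * n ^ 10 := this
        _ = 2 * n ^ 4 * (ρ * n ^ 6) := by ring
    have e2 : 2 * n ^ 4 * (G' - G) ≤ 2 * n ^ 4 * (ρ * n ^ 6 + n ^ 4 + ρ) := by
      calc 2 * n ^ 4 * (G' - G) ≤ 2 * ρ * G + 2 * (n ^ 4) ^ 2 + 2 * n ^ 4 * ρ := h
        _ ≤ 2 * n ^ 4 * (ρ * n ^ 6) + 2 * (n ^ 4) ^ 2 + 2 * n ^ 4 * ρ := by linarith
        _ = _ := by ring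
    have e3 : G' - G ≤ ρ * n ^ 6 + n ^ 4 + ρ := le_of_mul_le_mul_left e2 (by linarith)
    have e4 : n ^ 4 ≤ n ^ 6 := pow_le_pow_right₀ hn1 (by norm_num)
    have e5 : ρ ≤ n ^ 6 := hρn.trans (le_self_pow₀ hn1 (by norm_num))
    linarith
  have k1 := key g g' g3 a1
  have k2 := key g' g g4 a2
  have hKK : (ρ + 2) * n ^ 6 ≤ (KK r : ℤ) * n ^ 6 := by
    apply mul_le_mul_of_nonneg_right _ (by positivity)
    unfold KK
    push_cast
    rw [hρ]
    linarith [Int.natCast_nonneg r]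
  rw [abs_le]
  constructor <;> linarith

end Pool.Agent.T6.H25.GG
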