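import Mathlib
import Pool.Agent.T6.H25.GG.Stmts

/-! Module J2: few long axes, count (blocks of three axes). -/

set_option autoImplicit false

namespace Pool.Agent.T6.H25.GG

open Finset

namespace J2

/-- pairs with small minimum -/
def P (N m : ℕ) : Finset (ℕ × ℕ) :=
  (range m ×ˢ range (N ^ 10 + 1)) ∪ (range (N ^ 10 + 1) ×ˢ range m)

theorem P_card (N m : ℕ) : (P N m).card ≤ 2 * m * (N ^ 10 + 1) := by
  unfold P
  refine (card_union_le _ _).trans ?_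
  rw [card_product, card_product, card_range, card_range]
  nlinarith

theorem P_mem (N m x y : ℕ) (hx : x ≤ N ^ 10) (hy : y ≤ N ^ 10) (h : x < m ∨ y < m) :
    (x, y) ∈ P N m := by
  unfold P
  rw [mem_union, mem_product, mem_product, mem_range, mem_range, mem_range, mem_range]
  rcases h with h | h
  · exact Or.inl ⟨h, Nat.lt_succ_of_le hy⟩
  · exact Or.inr ⟨Nat.lt_succ_of_le hx, h⟩

/-- a block -/
abbrev Blk : Type := (ℕ × ℕ) × (ℕ × ℕ) × (ℕ × ℕ)

/-- all blocks -/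
def SA (N : ℕ) : Finset Blk :=
  (range (N ^ 10 + 1) ×ˢ range (N ^ 10 + 1)) ×ˢ (range (N ^ 10 + 1) ×ˢ range (N ^ 10 + 1)) ×ˢ
    (range (N ^ 10 + 1) ×ˢ range (N ^ 10 + 1))

/-- blocks with the middle axis determined by the first one -/
def B1 (K N : ℕ) : Finset Blk :=
  ((P N (K * N ^ 5) ×ˢ P N (K * N ^ 5)) ×ˢ (range (K * N ^ 5) ×ˢ range (2 * (K * N ^ 6) + 1))).image
    (fun z => (z.1.1, (z.1.1.2 + z.2.2 - K * N ^ 6, z.2.1), z.1.2))

/-- blocks with the middle axis determined by the last one -/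
def B2 (K N : ℕ) : Finset Blk :=
  ((P N (K * N ^ 5) ×ˢ P N (K * N ^ 5)) ×ˢ (range (K * N ^ 5) ×ˢ range (2 * (K * N ^ 6) + 1))).image
    (fun z => (z.1.1, (z.2.1, z.1.2.1 + z.2.2 - K * N ^ 6), z.1.2))

/-- blocks without long axis -/
def SS (K N : ℕ) : Finset Blk :=
  (P N (2 * N ^ 4) ×ˢ P N (K * N ^ 5) ×ˢ P N (K * N ^ 5)) ∪
    ((P N (K * N ^ 5) ×ˢ P N (2 * N ^ 4) ×ˢ P N (K * N ^ 5)) ∪
    ((P N (K * N ^ 5) ×ˢ P N (K * N ^ 5) ×ˢ P N (2 * N ^ 4)) ∪ (B1 K N ∪ B2 K N)))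

theorem SS_mem (K N : ℕ) (x0 y0 x1 y1 x2 y2 : ℕ) (hx0 : x0 ≤ N ^ 10) (hy0 : y0 ≤ N ^ 10)
    (hx1 : x1 ≤ N ^ 10) (hy1 : y1 ≤ N ^ 10) (hx2 : x2 ≤ N ^ 10) (hy2 : y2 ≤ N ^ 10)
    (s0 : x0 < K * N ^ 5 ∨ y0 < K * N ^ 5) (s1 : x1 < K * N ^ 5 ∨ y1 < K * N ^ 5)
    (s2 : x2 < K * N ^ 5 ∨ y2 < K * N ^ 5)
    (c0 : 2 * N ^ 4 ≤ x0 → 2 * N ^ 4 ≤ y0 → 2 * N ^ 4 ≤ x1 → 2 * N ^ 4 ≤ y1 →
      |(x1 : ℤ) - y0| ≤ K * N ^ 6)
    (c1 : 2 * N ^ 4 ≤ x1 → 2 * N ^ 4 ≤ y1 → 2 * N ^ 4 ≤ x2 → 2 * N ^ 4 ≤ y2 →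
      |(x2 : ℤ) - y1| ≤ K * N ^ 6) :
    (((x0, y0), (x1, y1), (x2, y2)) : Blk) ∈ SS K N := by
  have p0 := P_mem N _ x0 y0 hx0 hy0 s0
  have p1 := P_mem N _ x1 y1 hx1 hy1 s1
  have p2 := P_mem N _ x2 y2 hx2 hy2 s2
  unfold SS
  by_cases h0 : x0 < 2 * N ^ 4 ∨ y0 < 2 * N ^ 4
  · apply mem_union_left
    rw [mem_product, mem_product]
    exact ⟨P_mem N _ x0 y0 hx0 hy0 h0, p1, p2⟩
  apply mem_union_right
  by_cases h1 : x1 < 2 * N ^ 4 ∨ y1 < 2 * N ^ 4
  · apply mem_union_left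
    rw [mem_product, mem_product]
    exact ⟨p0, P_mem N _ x1 y1 hx1 hy1 h1, p2⟩
  apply mem_union_right
  by_cases h2 : x2 < 2 * N ^ 4 ∨ y2 < 2 * N ^ 4
  · apply mem_union_left
    rw [mem_product, mem_product]
    exact ⟨p0, p1, P_mem N _ x2 y2 hx2 hy2 h2⟩
  apply mem_union_right
  push Not at h0 h1 h2
  have d0 := abs_le.1 (c0 h0.1 h0.2 h1.1 h1.2)
  have d1 := abs_le.1 (c1 h1.1 h1.2 h2.1 h2.2)
  rcases s1 with s1 | s1
  · apply mem_union_right
    unfold B2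
    rw [mem_image]
    refine ⟨(((x0, y0), (x2, y2)), (x1, y1 + K * N ^ 6 - x2)), ?_, ?_⟩
    · rw [mem_product, mem_product, mem_product, mem_range, mem_range]
      refine ⟨⟨p0, p2⟩, s1, ?_⟩
      show y1 + K * N ^ 6 - x2 < 2 * (K * N ^ 6) + 1
      have e : ((K * N ^ 6 : ℕ) : ℤ) = K * N ^ 6 := by push_cast; rfl
      obtain ⟨W, hW⟩ : ∃ W : ℕ, W = K * N ^ 6 := ⟨_, rfl⟩
      rw [← hW] at e ⊢
      rw [← e] at d1
      omega
    · have e : ((K * N ^ 6 : ℕ) : ℤ) = K * N ^ 6 := by push_cast; rfl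
      show (((x0, y0), (x1, x2 + (y1 + K * N ^ 6 - x2) - K * N ^ 6), (x2, y2)) : Blk) = _
      obtain ⟨W, hW⟩ : ∃ W : ℕ, W = K * N ^ 6 := ⟨_, rfl⟩
      rw [← hW] at e ⊢
      rw [← e] at d1
      have e2 : x2 + (y1 + W - x2) - W = y1 := by omega
      rw [e2]
  · apply mem_union_left
    unfold B1
    rw [mem_image]
    refine ⟨(((x0, y0), (x2, y2)), (y1, x1 + K * N ^ 6 - y0)), ?_, ?_⟩
    · rw [mem_product, mem_product, mem_product, mem_range, mem_range]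
      refine ⟨⟨p0, p2⟩, s1, ?_⟩
      show x1 + K * N ^ 6 - y0 < 2 * (K * N ^ 6) + 1
      have e : ((K * N ^ 6 : ℕ) : ℤ) = K * N ^ 6 := by push_cast; rfl
      obtain ⟨W, hW⟩ : ∃ W : ℕ, W = K * N ^ 6 := ⟨_, rfl⟩
      rw [← hW] at e ⊢
      rw [← e] at d0
      omega
    · have e : ((K * N ^ 6 : ℕ) : ℤ) = K * N ^ 6 := by push_cast; rfl
      show (((x0, y0), (y0 + (x1 + K * N ^ 6 - y0) - K * N ^ 6, y1), (x2, y2)) : Blk) = _
      obtain ⟨W, hW⟩ : ∃ W : ℕ, W = K * N ^ 6 := ⟨_, rfl⟩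
      rw [← hW] at e ⊢
      rw [← e] at d0
      have e2 : y0 + (x1 + W - y0) - W = x1 := by omega
      rw [e2]

theorem SA_mem (N : ℕ) (x0 y0 x1 y1 x2 y2 : ℕ) (hx0 : x0 ≤ N ^ 10) (hy0 : y0 ≤ N ^ 10)
    (hx1 : x1 ≤ N ^ 10) (hy1 : y1 ≤ N ^ 10) (hx2 : x2 ≤ N ^ 10) (hy2 : y2 ≤ N ^ 10) :
    (((x0, y0), (x1, y1), (x2, y2)) : Blk) ∈ SA N := by
  unfold SA
  simp only [mem_product, mem_range]
  omega

theorem SA_card (K N : ℕ) (hK : 1 ≤ K) (hN : 1 ≤ N) : (SA N).card ≤ 480 * K ^ 4 * N ^ 44 * N ^ 16 := by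
  unfold SA
  simp only [card_product, card_range]
  have h1 : N ^ 10 + 1 ≤ 2 * N ^ 10 := by
    have := Nat.one_le_pow 10 N hN
    omega
  have hK4 : 1 ≤ K ^ 4 := Nat.one_le_pow _ _ hK
  calc (N ^ 10 + 1) * (N ^ 10 + 1) * ((N ^ 10 + 1) * (N ^ 10 + 1) * ((N ^ 10 + 1) * (N ^ 10 + 1)))
      = (N ^ 10 + 1) ^ 6 := by ring
    _ ≤ (2 * N ^ 10) ^ 6 := Nat.pow_le_pow_left h1 6
    _ = 64 * 1 * N ^ 44 * N ^ 16 := by ring
    _ ≤ 480 * K ^ 4 * N ^ 44 * N ^ 16 := by gcongr; norm_num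

theorem SS_card (K N : ℕ) (hK : 1 ≤ K) (hN : 1 ≤ N) : (SS K N).card ≤ 480 * K ^ 4 * N ^ 44 := by
  have h1 : N ^ 10 + 1 ≤ 2 * N ^ 10 := by
    have := Nat.one_le_pow 10 N hN
    omega
  have q1 : (P N (K * N ^ 5)).card ≤ 4 * K * N ^ 15 := by
    calc (P N (K * N ^ 5)).card ≤ 2 * (K * N ^ 5) * (N ^ 10 + 1) := P_card _ _
      _ ≤ 2 * (K * N ^ 5) * (2 * N ^ 10) := Nat.mul_le_mul_left _ h1
      _ = 4 * K * N ^ 15 := by ring
  have q2 : (P N (2 * N ^ 4)).card ≤ 8 * N ^ 14 := by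
    calc (P N (2 * N ^ 4)).card ≤ 2 * (2 * N ^ 4) * (N ^ 10 + 1) := P_card _ _
      _ ≤ 2 * (2 * N ^ 4) * (2 * N ^ 10) := Nat.mul_le_mul_left _ h1
      _ = 8 * N ^ 14 := by ring
  have hK24 : K ^ 2 ≤ K ^ 4 := Nat.pow_le_pow_right hK (by norm_num)
  have hN4144 : N ^ 41 ≤ N ^ 44 := Nat.pow_le_pow_right hN (by norm_num)
  have a0 : (P N (2 * N ^ 4)).card * ((P N (K * N ^ 5)).card * (P N (K * N ^ 5)).card) ≤
      128 * K ^ 4 * N ^ 44 := by
    calc _ ≤ (8 * N ^ 14) * ((4 * K * N ^ 15) * (4 * K * N ^ 15)) :=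
          Nat.mul_le_mul q2 (Nat.mul_le_mul q1 q1)
      _ = 128 * K ^ 2 * N ^ 44 := by ring
      _ ≤ _ := by gcongr
  have bb : ((P N (K * N ^ 5)).card * (P N (K * N ^ 5)).card) *
      ((K * N ^ 5) * (2 * (K * N ^ 6) + 1)) ≤ 48 * K ^ 4 * N ^ 44 := by
    have h2 : 2 * (K * N ^ 6) + 1 ≤ 3 * (K * N ^ 6) := by
      have : 1 ≤ K * N ^ 6 := Nat.mul_pos hK (Nat.one_le_pow _ _ hN)
      omega
    calc _ ≤ ((4 * K * N ^ 15) * (4 * K * N ^ 15)) * ((K * N ^ 5) * (3 * (K * N ^ 6))) :=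
          Nat.mul_le_mul (Nat.mul_le_mul q1 q1) (Nat.mul_le_mul_left _ h2)
      _ = 48 * K ^ 4 * N ^ 41 := by ring
      _ ≤ _ := by gcongr
  have b1 : (B1 K N).card ≤ 48 * K ^ 4 * N ^ 44 := by
    unfold B1
    refine card_image_le.trans ?_
    rw [card_product, card_product, card_product, card_range, card_range]
    exact bb
  have b2 : (B2 K N).card ≤ 48 * K ^ 4 * N ^ 44 := by
    unfold B2
    refine card_image_le.trans ?_
    rw [card_product, card_product, card_product, card_range, card_range]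
    exact bb
  unfold SS
  refine (card_union_le _ _).trans ?_
  refine (Nat.add_le_add_left (card_union_le _ _) _).trans ?_
  refine (Nat.add_le_add_left (Nat.add_le_add_left (card_union_le _ _) _) _).trans ?_
  refine (Nat.add_le_add_left (Nat.add_le_add_left (Nat.add_le_add_left (card_union_le _ _) _) _) _).trans ?_
  simp only [card_product]
  have a1 : (P N (K * N ^ 5)).card * ((P N (2 * N ^ 4)).card * (P N (K * N ^ 5)).card) ≤
      128 * K ^ 4 * N ^ 44 := by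
    refine le_trans (le_of_eq ?_) a0
    ring
  have a2 : (P N (K * N ^ 5)).card * ((P N (K * N ^ 5)).card * (P N (2 * N ^ 4)).card) ≤
      128 * K ^ 4 * N ^ 44 := by
    refine le_trans (le_of_eq ?_) a0
    ring
  have e : 480 * K ^ 4 * N ^ 44 = 128 * K ^ 4 * N ^ 44 + (128 * K ^ 4 * N ^ 44 +
    (128 * K ^ 4 * N ^ 44 + (48 * K ^ 4 * N ^ 44 + 48 * K ^ 4 * N ^ 44))) := by ring
  rw [e]
  exact Nat.add_le_add a0 (Nat.add_le_add a1 (Nat.add_le_add a2 (Nat.add_le_add b1 b2)))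

/-- the blocks of `L` -/
def Phi (B : ℕ) (L : ℕ → ℕ) : Fin B → Blk := fun t =>
  ((L (3 * t), L (3 * t + 3 * B)), (L (3 * t + 1), L (3 * t + 1 + 3 * B)),
    (L (3 * t + 2), L (3 * t + 2 + 3 * B)))

theorem Phi_inj (B : ℕ) (L L' : ℕ → ℕ) (h : Phi B L = Phi B L') (hL : ∀ x, 2 * (3 * B) ≤ x → L x = 0)
    (hL' : ∀ x, 2 * (3 * B) ≤ x → L' x = 0) : L = L' := by
  funext x
  rcases Nat.lt_or_ge x (2 * (3 * B)) with hx | hx
  · have key : ∀ t : ℕ, t < B → ∀ k : ℕ, k < 3 → L (3 * t + k) = L' (3 * t + k) ∧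
        L (3 * t + k + 3 * B) = L' (3 * t + k + 3 * B) := by
      intro t ht k hk
      have h1 := congrFun h ⟨t, ht⟩
      unfold Phi at h1
      simp only [Prod.mk.injEq] at h1
      obtain ⟨⟨h2, h3⟩, ⟨h4, h5⟩, h6, h7⟩ := h1
      interval_cases k
      · exact ⟨h2, h3⟩
      · exact ⟨h4, h5⟩
      · exact ⟨h6, h7⟩
    rcases Nat.lt_or_ge x (3 * B) with hx2 | hx2
    · have h1 := (key (x / 3) (by omega) (x % 3) (by omega)).1
      have e : 3 * (x / 3) + x % 3 = x := by omega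
      rwa [e] at h1
    · have h1 := (key ((x - 3 * B) / 3) (by omega) ((x - 3 * B) % 3) (by omega)).2
      have e : 3 * ((x - 3 * B) / 3) + (x - 3 * B) % 3 + 3 * B = x := by omega
      rwa [e] at h1
  · rw [hL x hx, hL' x hx]

/-- the finite set of block data -/
def Big (B K N : ℕ) : Finset (Fin B → Blk) :=
  ((range B).powerset.filter (fun T => T.card ≤ 25)).biUnion
    (fun T => Fintype.piFinset (fun t : Fin B => if (t : ℕ) ∈ T then SA N else SS K N))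

theorem Big_card (B K N : ℕ) (hK : 1 ≤ K) (hN : 1 ≤ N) :
    (Big B K N).card ≤ (2 ^ B * (480 * K ^ 4) ^ B) * N ^ (44 * B + 416) := by
  unfold Big
  have h1 : ∀ T ∈ (range B).powerset.filter (fun T => T.card ≤ 25),
      (Fintype.piFinset (fun t : Fin B => if (t : ℕ) ∈ T then SA N else SS K N)).card ≤
        (480 * K ^ 4) ^ B * N ^ (44 * B + 416) := by
    intro T hT
    rw [mem_filter] at hT
    rw [Fintype.card_piFinset]
    calc ∏ t : Fin B, (if (t : ℕ) ∈ T then SA N else SS K N).card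
        ≤ ∏ t : Fin B, (480 * K ^ 4 * N ^ 44 * (if (t : ℕ) ∈ T then N ^ 16 else 1)) := by
          apply prod_le_prod' 
          intro t _
          split_ifs with h
          · exact SA_card K N hK hN
          · rw [mul_one]
            exact SS_card K N hK hN
      _ = (480 * K ^ 4 * N ^ 44) ^ B * (N ^ 16) ^ ((univ : Finset (Fin B)).filter (fun t : Fin B => (t : ℕ) ∈ T)).card := by
          rw [prod_mul_distrib, prod_const, card_univ, Fintype.card_fin, prod_ite, prod_const, prod_const_one,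
            mul_one]
      _ ≤ (480 * K ^ 4 * N ^ 44) ^ B * (N ^ 16) ^ 26 := by
          apply Nat.mul_le_mul_left
          apply Nat.pow_le_pow_right (Nat.one_le_pow _ _ hN)
          have h2 : ((univ : Finset (Fin B)).filter (fun t : Fin B => (t : ℕ) ∈ T)).card ≤ T.card := by
            apply card_le_card_of_injOn (fun t : Fin B => (t : ℕ))
            · intro t ht
              rw [mem_coe, mem_filter] at ht
              exact ht.2
            · intro t _ t' _ h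
              exact Fin.ext h
          omega
      _ = _ := by
          rw [mul_pow, ← pow_mul, ← pow_mul, mul_assoc, ← pow_add]
  refine card_biUnion_le.trans ?_
  refine (sum_le_card_nsmul _ _ _ h1).trans ?_
  rw [smul_eq_mul, mul_assoc]
  apply Nat.mul_le_mul_right
  refine (card_filter_le _ _).trans ?_
  rw [card_powerset, card_range]

theorem maps (B N : ℕ) (L : ℕ → ℕ) (hL : L ∈ DataJ (3 * B) N) :
    Phi B L ∈ Big B (KK (3 * B)) N := by
  obtain ⟨h0, hb, hc, hd⟩ := hL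
  unfold Big
  rw [mem_biUnion]
  refine ⟨(Lset (3 * B) (N ^ 5) L).image (fun i => i / 3), ?_, ?_⟩
  · rw [mem_filter, mem_powerset]
    constructor
    · intro t ht
      rw [mem_image] at ht
      obtain ⟨i, hi, rfl⟩ := ht
      unfold Lset at hi
      rw [mem_filter, mem_range] at hi
      rw [mem_range]
      omega
    · have := card_image_le (s := Lset (3 * B) (N ^ 5) L) (f := fun i => i / 3)
      omega
  · rw [Fintype.mem_piFinset]
    intro t
    have ht := t.2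
    split_ifs with h
    · exact SA_mem N _ _ _ _ _ _ (hb _) (hb _) (hb _) (hb _) (hb _) (hb _)
    · have short : ∀ k < 3, L (3 * t + k) < KK (3 * B) * N ^ 5 ∨
          L (3 * t + k + 3 * B) < KK (3 * B) * N ^ 5 := by
        intro k hk
        by_contra hcon
        push Not at hcon
        apply h
        rw [mem_image]
        refine ⟨3 * t + k, ?_, by omega⟩
        unfold Lset
        rw [mem_filter, mem_range]
        exact ⟨by omega, hcon.1, hcon.2⟩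
      unfold Phi
      have s0 := short 0 (by norm_num)
      have s1 := short 1 (by norm_num)
      have s2 := short 2 (by norm_num)
      refine SS_mem (KK (3 * B)) N _ _ _ _ _ _ (hb _) (hb _) (hb _) (hb _) (hb _) (hb _) s0 s1 s2 ?_ ?_
      · intro c1 c2 c3 c4
        have h2 := hd (3 * t) (by omega) c1 c2 c3 c4
        exact h2
      · intro c1 c2 c3 c4
        have h2 := hd (3 * t + 1) (by omega) c1 c2 c3 c4
        exact h2

end J2

theorem j2 : StmtJ2 := by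
  intro B _
  refine ⟨2 ^ B * (480 * (KK (3 * B)) ^ 4) ^ B, ?_⟩
  intro N hN
  have hK : 1 ≤ KK (3 * B) := by unfold KK; omega
  have hm : Set.MapsTo (J2.Phi B) (DataJ (3 * B) N) (J2.Big B (KK (3 * B)) N : Set (Fin B → J2.Blk)) :=
    fun L hL => J2.maps B N L hL
  have hi : Set.InjOn (J2.Phi B) (DataJ (3 * B) N) := by
    intro L hL L' hL' h
    exact J2.Phi_inj B L L' h hL.1 hL'.1
  refine ⟨Set.Finite.of_injOn hm hi (finite_toSet _), ?_⟩
  have h1 := Set.ncard_le_ncard_of_injOn (J2.Phi B) hm hi (finite_toSet _)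
  rw [Set.ncard_coe_finset] at h1
  exact h1.trans (J2.Big_card B (KK (3 * B)) N hK hN)

end Pool.Agent.T6.H25.GG
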