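import Pool.Agent.T6.H25.GG.Defs
import Pool.Agent.T6.H25.GG.Stmts

/-!
Module L of the project MP_b6554e_al (geodesic growth): the lower count.
-/

set_option autoImplicit false

namespace Pool.Agent.T6.H25.GG

open Finset

namespace L

lemma two_ne (r : ℕ) [NeZero r] : NeZero (2 * r) := ⟨by have := NeZero.ne r; omega⟩

lemma count_srt (r : ℕ) [NeZero r] (c : ZMod (2 * r)) (f : ℕ → ℕ) (z : ZMod (2 * r)) :
    (srt r c f).count z = f (z - c).val := by
  have := two_ne r
  unfold srt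
  rw [List.count_flatMap]
  have key : ∀ n, n ≤ 2 * r →
      ((List.range n).map (List.count z ∘
        fun i => List.replicate (f i) (c + (i : ZMod (2 * r))))).sum =
        if (z - c).val < n then f (z - c).val else 0 := by
    intro n
    induction n with
    | zero => intro _; simp
    | succ n ih =>
      intro hn
      rw [List.range_succ, List.map_append, List.sum_append, ih (by omega)]
      simp only [List.map_cons, List.map_nil, List.sum_cons, List.sum_nil, Function.comp,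
        List.count_replicate, add_zero]
      by_cases h : c + (n : ZMod (2 * r)) = z
      · subst h
        have : (c + (n : ZMod (2 * r)) - c).val = n := by
          rw [add_sub_cancel_left, ZMod.val_natCast, Nat.mod_eq_of_lt (by omega)]
        rw [this]; simp
      · have h' : (z - c).val ≠ n := by
          intro h2
          apply h
          have : ((z - c).val : ZMod (2 * r)) = z - c := ZMod.natCast_zmod_val _
          rw [← h2, this]; ring
        have h3 : ((c + (n : ZMod (2 * r))) == z) = false := by simpa using h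
        rw [h3]
        simp only [Bool.false_eq_true, if_false, add_zero]
        by_cases h4 : (z - c).val < n
        · rw [if_pos h4, if_pos (by omega)]
        · rw [if_neg h4, if_neg (by omega)]
  rw [key (2 * r) le_rfl, if_pos (ZMod.val_lt _)]

lemma length_srt (r : ℕ) (c : ZMod (2 * r)) (f : ℕ → ℕ) :
    (srt r c f).length = ∑ x ∈ range (2 * r), f x := by
  unfold srt
  have key : ∀ n, ((List.range n).flatMap
      (fun i => List.replicate (f i) (c + (i : ZMod (2 * r))))).length = ∑ x ∈ range n, f x := by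
    intro n
    induction n with
    | zero => simp
    | succ n ih =>
      rw [List.range_succ, List.flatMap_append, List.length_append, ih, Finset.sum_range_succ]
      simp
  exact key _

/-- the main part of the length at `x ≥ r` -/
def base (r M x : ℕ) : ℕ := 100 * r ^ 6 * M + (x - r + 1) * (2 * r - 1 - x) * M

/-- the lengths with parameters `v` -/
def Lv (r M : ℕ) (v : ℕ → ℕ) (x : ℕ) : ℕ :=
  if 2 * r ≤ x then 0 else if x = 0 then 100 * r ^ 6 * M + v 0 else
    if r ≤ x then base r M x + v x else base r M (r + x - 1) + v (r + x - 1) + v x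

/-- extension by zero -/
def xt (r : ℕ) (v : Fin (2 * r) → ℕ) (x : ℕ) : ℕ := if h : x < 2 * r then v ⟨x, h⟩ else 0

def num (r N x : ℕ) : ℕ := if x = 0 ∨ r ≤ x then N ^ 10 else N ^ 5
def den (r x : ℕ) : ℕ := if x = 0 ∨ r ≤ x then 100 * r ^ 2 else 8 * r ^ 3

lemma den_pos (r x : ℕ) [NeZero r] : 0 < den r x := by
  have : 0 < r := Nat.pos_of_ne_zero (NeZero.ne r)
  unfold den; split_ifs <;> positivity

lemma prod_num (r N : ℕ) (hr : 1 ≤ r) : ∏ x ∈ range (2 * r), num r N x = N ^ (15 * r + 5) := by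
  obtain ⟨k, rfl⟩ : ∃ k, r = k + 1 := ⟨r - 1, by omega⟩
  have h1 : ∀ m, m ≤ k → ∏ x ∈ range (m + 1), num (k + 1) N x = N ^ (10 + 5 * m) := by
    intro m
    induction m with
    | zero => intro _; simp [num]
    | succ m ih =>
      intro hm
      rw [Finset.prod_range_succ, ih (by omega)]
      unfold num
      rw [if_neg (by omega), ← pow_add]
      congr 1
  have h2 : ∀ m, ∏ x ∈ range (k + 1 + m), num (k + 1) N x = N ^ (10 + 5 * k + 10 * m) := by
    intro m
    induction m with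
    | zero => simpa using h1 k le_rfl
    | succ m ih =>
      rw [← add_assoc, Finset.prod_range_succ, ih]
      unfold num
      rw [if_pos (by omega), ← pow_add]
      congr 1
  have := h2 (k + 1)
  rw [show 2 * (k + 1) = k + 1 + (k + 1) by ring, this]
  congr 1; ring

lemma Lv_zero (r M : ℕ) (v : ℕ → ℕ) (hr : 1 ≤ r) : Lv r M v 0 = 100 * r ^ 6 * M + v 0 := by
  unfold Lv; rw [if_neg (by omega), if_pos rfl]

lemma Lv_high (r M : ℕ) (v : ℕ → ℕ) (hr : 1 ≤ r) {x : ℕ} (h1 : r ≤ x) (h2 : x < 2 * r) :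
    Lv r M v x = base r M x + v x := by
  unfold Lv; rw [if_neg (by omega), if_neg (by omega), if_pos h1]

lemma Lv_low (r M : ℕ) (v : ℕ → ℕ) {x : ℕ} (h1 : 1 ≤ x) (h2 : x < r) :
    Lv r M v x = base r M (r + x - 1) + v (r + x - 1) + v x := by
  unfold Lv; rw [if_neg (by omega), if_neg (by omega), if_neg (by omega)]

lemma lowPar (r N : ℕ) (hr : 1 ≤ r) (v : ℕ → ℕ) (hv : ∀ x < 2 * r, den r x * v x ≤ num r N x) :
    LowPar r (N ^ 10) (Lv r (N ^ 10) v) := by
  refine ⟨fun x hx => by unfold Lv; rw [if_pos hx], ?_, ?_, ?_⟩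
  · have h := hv 0 (by omega)
    unfold den num at h
    rw [if_pos (Or.inl rfl), if_pos (Or.inl rfl)] at h
    rw [Lv_zero r _ v hr]
    have e : ((100 * r ^ 6 * N ^ 10 + v 0 : ℕ) : ℤ) - 100 * (r : ℤ) ^ 6 * ((N ^ 10 : ℕ) : ℤ) =
      (v 0 : ℤ) := by push_cast; ring
    rw [e, abs_of_nonneg (Int.natCast_nonneg _)]
    exact_mod_cast h
  · intro i hi
    have h := hv (r + i) (by omega)
    unfold den num at h
    rw [if_pos (Or.inr (by omega)), if_pos (Or.inr (by omega))] at h
    rw [Lv_high r _ v hr (by omega) (by omega)]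
    have e : ((base r (N ^ 10) (r + i) + v (r + i) : ℕ) : ℤ) -
        (100 * (r : ℤ) ^ 6 * ((N ^ 10 : ℕ) : ℤ) +
          ((i : ℤ) + 1) * ((r : ℤ) - 1 - i) * ((N ^ 10 : ℕ) : ℤ)) = (v (r + i) : ℤ) := by
      unfold base
      obtain ⟨k, hk⟩ : ∃ k, 2 * r - 1 - (r + i) = k := ⟨_, rfl⟩
      have e1 : r + i - r + 1 = i + 1 := by omega
      have e2 : (r : ℤ) - 1 - i = (k : ℤ) := by omega
      rw [e1, hk, e2]
      push_cast; ring
    rw [e, abs_of_nonneg (Int.natCast_nonneg _)]
    exact_mod_cast h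
  · intro i hi1 hi2
    have h := hv i (by omega)
    unfold den num at h
    rw [if_neg (by omega), if_neg (by omega)] at h
    rw [Lv_low r _ v hi1 hi2, Lv_high r _ v hr (by omega) (by omega)]
    have e : ((base r (N ^ 10) (r + i - 1) + v (r + i - 1) + v i : ℕ) : ℤ) -
        ((base r (N ^ 10) (r + i - 1) + v (r + i - 1) : ℕ) : ℤ) = (v i : ℤ) := by
      push_cast; ring
    rw [e]
    have h2 : (8 * r ^ 3 * v i) ^ 2 ≤ (N ^ 5) ^ 2 := Nat.pow_le_pow_left h 2
    have h3 : 64 * r ^ 6 * (v i) ^ 2 ≤ N ^ 10 := by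
      calc 64 * r ^ 6 * (v i) ^ 2 = (8 * r ^ 3 * v i) ^ 2 := by ring
        _ ≤ (N ^ 5) ^ 2 := h2
        _ = N ^ 10 := by ring
    exact_mod_cast h3

lemma Lv_le (r N : ℕ) (hr : 1 ≤ r) (v : ℕ → ℕ) (hv : ∀ x < 2 * r, den r x * v x ≤ num r N x)
    (hN : 1 ≤ N) (x : ℕ) (hx : x < 2 * r) :
    Lv r (N ^ 10) v x ≤ (100 * r ^ 6 + 4 * r ^ 2 + 2) * N ^ 10 := by
  have hv' : ∀ y < 2 * r, v y ≤ N ^ 10 := by
    intro y hy
    have h := hv y hy
    have hd : 1 ≤ den r y := by
      unfold den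
      split_ifs
      · have : 1 ≤ r ^ 2 := Nat.one_le_pow _ _ hr
        omega
      · have : 1 ≤ r ^ 3 := Nat.one_le_pow _ _ hr
        omega
    have hn : num r N y ≤ N ^ 10 := by
      unfold num
      split_ifs
      · exact le_rfl
      · exact Nat.pow_le_pow_right hN (by norm_num)
    calc v y = 1 * v y := (one_mul _).symm
      _ ≤ den r y * v y := Nat.mul_le_mul_right _ hd
      _ ≤ num r N y := h
      _ ≤ N ^ 10 := hn
  have hb : ∀ y, y < 2 * r → base r (N ^ 10) y ≤ (100 * r ^ 6 + 4 * r ^ 2) * N ^ 10 := by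
    intro y hy
    unfold base
    have h1 : (y - r + 1) * (2 * r - 1 - y) ≤ (2 * r) * (2 * r) :=
      Nat.mul_le_mul (by omega) (by omega)
    calc 100 * r ^ 6 * N ^ 10 + (y - r + 1) * (2 * r - 1 - y) * N ^ 10
        ≤ 100 * r ^ 6 * N ^ 10 + (2 * r) * (2 * r) * N ^ 10 :=
          Nat.add_le_add_left (Nat.mul_le_mul_right _ h1) _
      _ = _ := by ring
  rcases Nat.eq_zero_or_pos x with rfl | hx0
  · rw [Lv_zero r _ v hr]
    have := hv' 0 hx
    calc 100 * r ^ 6 * N ^ 10 + v 0 ≤ 100 * r ^ 6 * N ^ 10 + N ^ 10 := by omega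
      _ ≤ 100 * r ^ 6 * N ^ 10 + N ^ 10 + (4 * r ^ 2 + 1) * N ^ 10 := Nat.le_add_right _ _
      _ = _ := by ring
  · rcases Nat.lt_or_ge x r with h | h
    · rw [Lv_low r _ v hx0 h]
      have h1 := hb (r + x - 1) (by omega)
      have h2 := hv' (r + x - 1) (by omega)
      have h3 := hv' x hx
      calc _ ≤ (100 * r ^ 6 + 4 * r ^ 2) * N ^ 10 + N ^ 10 + N ^ 10 := by omega
        _ = _ := by ring
    · rw [Lv_high r _ v hr h hx]
      have h1 := hb x hx
      have h3 := hv' x hx
      calc _ ≤ (100 * r ^ 6 + 4 * r ^ 2) * N ^ 10 + N ^ 10 := by omega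
        _ ≤ (100 * r ^ 6 + 4 * r ^ 2) * N ^ 10 + N ^ 10 + N ^ 10 := Nat.le_add_right _ _
        _ = _ := by ring

lemma Lv_inj (r M : ℕ) (hr : 1 ≤ r) (v v' : ℕ → ℕ)
    (h : ∀ x < 2 * r, Lv r M v x = Lv r M v' x) : ∀ x < 2 * r, v x = v' x := by
  have h0 : v 0 = v' 0 := by
    have := h 0 (by omega)
    rw [Lv_zero r _ v hr, Lv_zero r _ v' hr] at this
    omega
  have h1 : ∀ x, r ≤ x → x < 2 * r → v x = v' x := by
    intro x hx hx2
    have := h x hx2
    rw [Lv_high r _ v hr hx hx2, Lv_high r _ v' hr hx hx2] at this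
    omega
  intro x hx
  rcases Nat.eq_zero_or_pos x with rfl | hx0
  · exact h0
  · rcases Nat.lt_or_ge x r with h2 | h2
    · have h3 := h x hx
      rw [Lv_low r _ v hx0 h2, Lv_low r _ v' hx0 h2, h1 (r + x - 1) (by omega) (by omega)] at h3
      omega
    · exact h1 x h2 hx

lemma len_le_cost (r : ℕ) (p q : ZMod (2 * r)) (D : List (ZMod (2 * r))) :
    D.length ≤ cost r p q D := by
  unfold cost
  by_cases h : D = []
  · subst h; simp
  · rw [if_neg h]; omega

end L

open L in
theorem l (hL1 : StmtL1) (hL2 : StmtL2) : StmtL := by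
  intro r hr h2r
  have := two_ne r
  have hr1 : 1 ≤ r := by omega
  obtain ⟨M0, hM0⟩ := hL2 r h2r
  refine ⟨2 * r * (100 * r ^ 6 + 4 * r ^ 2 + 3), ∏ x ∈ range (2 * r), den r x, M0 + 1, ?_⟩
  intro N hN
  set C0 := 2 * r * (100 * r ^ 6 + 4 * r ^ 2 + 3) with hC0
  have hN1 : 1 ≤ N := by omega
  have hM : M0 ≤ N ^ 10 := by
    have : N ≤ N ^ 10 := Nat.le_self_pow (by norm_num) N
    omega
  set T : Set (List (ZMod (2 * r))) :=
    {D | cost r 0 (-1) D ≤ (C0 * N) ^ 10 ∧ Geo r 0 (-1) D} with hT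
  have hfin : T.Finite := by
    apply (List.finite_length_le (ZMod (2 * r)) ((C0 * N) ^ 10)).subset
    intro D hD
    exact le_trans (len_le_cost r 0 (-1) D) hD.1
  -- the box of parameters
  let box : Finset (Fin (2 * r) → ℕ) :=
    Fintype.piFinset (fun x => range (num r N x / den r x + 1))
  let Φ : (Fin (2 * r) → ℕ) → List (ZMod (2 * r)) := fun v => srt r 0 (Lv r (N ^ 10) (xt r v))
  have hbox : ∀ v ∈ box, ∀ x < 2 * r, den r x * xt r v x ≤ num r N x := by
    intro v hv x hx
    have h := (Fintype.mem_piFinset.1 hv) ⟨x, hx⟩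
    rw [Finset.mem_range] at h
    have h' : v ⟨x, hx⟩ ≤ num r N x / den r x := by simpa using Nat.lt_succ_iff.1 h
    unfold xt
    rw [dif_pos hx]
    calc den r x * v ⟨x, hx⟩ ≤ den r x * (num r N x / den r x) := Nat.mul_le_mul_left _ h'
      _ ≤ num r N x := Nat.mul_div_le _ _
  have hmem : ∀ v ∈ box, Φ v ∈ T := by
    intro v hv
    have hlow := lowPar r N hr1 (xt r v) (hbox v hv)
    obtain ⟨c1, c2, c3⟩ := hM0 (N ^ 10) hM _ hlow
    obtain ⟨g1, g2⟩ := hL1 r (Lv r (N ^ 10) (xt r v)) h2r c1 c2 c3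
    refine ⟨le_trans g2 ?_, g1⟩
    rw [length_srt]
    have hs : ∑ x ∈ range (2 * r), Lv r (N ^ 10) (xt r v) x ≤
        2 * r * ((100 * r ^ 6 + 4 * r ^ 2 + 2) * N ^ 10) := by
      calc ∑ x ∈ range (2 * r), Lv r (N ^ 10) (xt r v) x
          ≤ ∑ _x ∈ range (2 * r), (100 * r ^ 6 + 4 * r ^ 2 + 2) * N ^ 10 := by
            apply Finset.sum_le_sum
            intro x hx
            exact Lv_le r N hr1 _ (hbox v hv) hN1 x (Finset.mem_range.1 hx)
        _ = _ := by rw [Finset.sum_const, Finset.card_range, smul_eq_mul]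
    have h1 : 1 ≤ N ^ 10 := Nat.one_le_pow _ _ hN1
    have h2 : 2 * r ≤ 2 * r * N ^ 10 := Nat.le_mul_of_pos_right _ h1
    have h3 : C0 ≤ C0 ^ 10 := Nat.le_self_pow (by norm_num) C0
    calc _ ≤ 2 * r * ((100 * r ^ 6 + 4 * r ^ 2 + 2) * N ^ 10) + 2 * r * N ^ 10 := by omega
      _ = C0 * N ^ 10 := by rw [hC0]; ring
      _ ≤ C0 ^ 10 * N ^ 10 := Nat.mul_le_mul_right _ h3
      _ = (C0 * N) ^ 10 := (mul_pow _ _ _).symm
  have hinj : Set.InjOn Φ box := by
    intro v _ v' _ h
    have hx : ∀ x < 2 * r, Lv r (N ^ 10) (xt r v) x = Lv r (N ^ 10) (xt r v') x := by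
      intro x hx
      have h1 := count_srt r 0 (Lv r (N ^ 10) (xt r v)) (x : ZMod (2 * r))
      have h2 := count_srt r 0 (Lv r (N ^ 10) (xt r v')) (x : ZMod (2 * r))
      have h3 : ((x : ZMod (2 * r)) - 0).val = x := by
        rw [sub_zero, ZMod.val_natCast, Nat.mod_eq_of_lt hx]
      rw [h3] at h1 h2
      rw [← h1, ← h2]
      exact congrArg _ h
    have h4 := Lv_inj r (N ^ 10) hr1 _ _ hx
    funext x
    have := h4 x x.2
    simpa [xt] using this
  have hcard : box.card ≤ T.ncard := by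
    classical
    rw [← Finset.card_image_of_injOn hinj, ← Set.ncard_coe_finset]
    apply Set.ncard_le_ncard _ hfin
    intro D hD
    rw [Finset.mem_coe, Finset.mem_image] at hD
    obtain ⟨v, hv, rfl⟩ := hD
    exact hmem v hv
  calc N ^ (15 * r + 5) = ∏ x ∈ range (2 * r), num r N x := (prod_num r N hr1).symm
    _ ≤ ∏ x ∈ range (2 * r), (den r x * (num r N x / den r x + 1)) := by
        apply Finset.prod_le_prod' 
        intro x _
        exact (Nat.lt_mul_div_succ _ (den_pos r x)).le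
    _ = (∏ x ∈ range (2 * r), den r x) * ∏ x ∈ range (2 * r), (num r N x / den r x + 1) :=
        Finset.prod_mul_distrib
    _ = (∏ x ∈ range (2 * r), den r x) * box.card := by
        congr 1
        rw [Fintype.card_piFinset]
        simp only [Finset.card_range]
        rw [Finset.prod_range]
    _ ≤ _ := Nat.mul_le_mul_left _ hcard

end Pool.Agent.T6.H25.GG
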