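import Pool.Agent.T6.H25.GG.D

set_option autoImplicit false

namespace Pool.Agent.T6.H25.GG

open Finset

namespace L1

variable {r : ℕ}

lemma chg_cons_le (x : ZMod (2 * r)) (D : List (ZMod (2 * r))) : chg r (x :: D) ≤ chg r D + 1 := by
  cases D with
  | nil => simp [chg]
  | cons y D => simp only [chg]; split_ifs <;> omega

lemma chg_rep_append (m : ℕ) (x : ZMod (2 * r)) (D : List (ZMod (2 * r))) :
    chg r (List.replicate m x ++ D) ≤ chg r D + 1 := by
  induction m with
  | zero => simp
  | succ m ih =>
    rw [List.replicate_succ, List.cons_append]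
    cases m with
    | zero => simpa using chg_cons_le x D
    | succ m =>
      rw [List.replicate_succ, List.cons_append] at ih ⊢
      simp only [chg, if_true, zero_add]
      exact ih

lemma chg_rep (m : ℕ) (x : ZMod (2 * r)) : chg r (List.replicate m x) = 0 := by
  induction m with
  | zero => simp [chg]
  | succ m ih =>
    rw [List.replicate_succ]
    cases m with
    | zero => simp [chg]
    | succ m =>
      rw [List.replicate_succ] at ih ⊢
      simp only [chg, if_true, zero_add]
      exact ih

lemma chg_flat (L : ℕ → ℕ) (f : ℕ → ZMod (2 * r)) (is : List ℕ) :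
    chg r (is.flatMap (fun i => List.replicate (L i) (f i))) ≤ is.length - 1 := by
  induction is with
  | nil => simp [chg]
  | cons i is ih =>
    cases is with
    | nil => simp [chg_rep]
    | cons j is =>
      rw [List.flatMap_cons]
      refine (chg_rep_append _ _ _).trans ?_
      simp only [List.length_cons] at ih ⊢
      omega

lemma chg_srt (c : ZMod (2 * r)) (L : ℕ → ℕ) : chg r (srt r c L) ≤ 2 * r - 1 := by
  unfold srt
  refine (chg_flat L (fun i => c + (i : ZMod (2 * r))) (List.range (2 * r))).trans ?_
  simp

lemma card_le_chg (D : List (ZMod (2 * r))) : D.toFinset.card ≤ chg r D + 1 := by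
  induction D with
  | nil => simp
  | cons x D ih =>
    cases D with
    | nil => simp [chg]
    | cons y D =>
      simp only [chg]
      by_cases h : y = x
      · subst h
        have h1 : (y :: y :: D).toFinset = (y :: D).toFinset := by simp
        rw [h1]
        simpa using ih
      · rw [List.toFinset_cons]
        have := Finset.card_insert_le x (y :: D).toFinset
        simp only [h, if_false]
        omega

/-- appending antipodal pairs -/
lemma pad [NeZero r] (hP : StmtPAR) (k : ℕ) (D : List (ZMod (2 * r))) :
    ∃ D', D'.length = D.length + 2 * k ∧ Z r D' = Z r D ∧ Eqw r D D' := by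
  induction k with
  | zero => exact ⟨D, by simp, rfl, fun _ => rfl⟩
  | succ k ih =>
    obtain ⟨D', h1, h2, h3⟩ := ih
    obtain ⟨h4, h5⟩ := (hP r).2.2.2.2 D' [] 0
    refine ⟨D' ++ [0, 0 + (r : ZMod (2 * r))], ?_, ?_, ?_⟩
    · simp only [List.length_append, List.length_cons, List.length_nil]; omega
    · rw [h4, List.append_nil, h2]
    · refine GG.D.eqw_trans h3 (GG.D.eqw_symm ?_)
      simpa using h5

lemma cost_S [NeZero r] (L : ℕ → ℕ) (hr : 2 ≤ r) (hL : ∀ x < 2 * r, 0 < L x) :
    cost r 0 (-1) (srt r 0 L) ≤ (srt r 0 L).length + (2 * r - 1) := by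
  have hS : srt r 0 L = List.replicate (L 0) 0 ++
      (List.range (2 * r - 1)).flatMap (fun i => List.replicate (L (i + 1)) (((i + 1 : ℕ) : ZMod (2 * r)))) := by
    unfold srt
    obtain ⟨k, hk⟩ : ∃ k, 2 * r = k + 1 := ⟨2 * r - 1, by omega⟩
    have : List.range (2 * r) = 0 :: (List.range (2 * r - 1)).map Nat.succ := by
      rw [hk, List.range_succ_eq_map]; simp
    rw [this, List.flatMap_cons, List.flatMap_map]
    simp
  have hS' : srt r 0 L = (List.range (2 * r - 1)).flatMap (fun i => List.replicate (L i) (0 + (i : ZMod (2 * r)))) ++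
      List.replicate (L (2 * r - 1)) (-1) := by
    unfold srt
    have : List.range (2 * r) = List.range (2 * r - 1) ++ [2 * r - 1] := by
      conv_lhs => rw [show 2 * r = (2 * r - 1) + 1 by omega]
      rw [List.range_succ]
    rw [this, List.flatMap_append]
    congr 1
    simp only [List.flatMap_cons, List.flatMap_nil, List.append_nil]
    congr 1
    rw [Nat.cast_sub (by omega)]
    simp
  have hne : srt r 0 L ≠ [] := by
    rw [hS]
    have := hL 0 (by omega)
    intro h
    have h2 := (List.append_eq_nil_iff.1 h).1
    have := congrArg List.length h2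
    simp at this
    omega
  have hhd : hdc r 0 (srt r 0 L) = 0 := by
    have h0 : (srt r 0 L).head? = some 0 := by
      rw [hS, List.head?_append]
      obtain ⟨m, hm⟩ : ∃ m, L 0 = m + 1 := ⟨L 0 - 1, by have := hL 0 (by omega); omega⟩
      rw [hm, List.replicate_succ]
      simp
    unfold hdc
    rw [h0]
    simp [D.ax_refl]
  have htl : tlc r (-1) (srt r 0 L) = 0 := by
    have h0 : (srt r 0 L).getLast? = some (-1) := by
      rw [hS', List.getLast?_append]
      obtain ⟨m, hm⟩ : ∃ m, L (2 * r - 1) = m + 1 :=
        ⟨L (2 * r - 1) - 1, by have := hL (2 * r - 1) (by omega); omega⟩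
      rw [hm]
      simp [List.getLast?_replicate]
    unfold tlc
    rw [h0]
    simp [D.ax_refl]
  unfold cost
  rw [if_neg hne, hhd, htl]
  have h1 := D.brk_le_chg (srt r 0 L)
  have h2 := chg_srt (r := r) 0 L
  omega

end L1

theorem l1 (hP : StmtPAR) : StmtL1 := by
  intro r _ L hr hL h1 h2
  have hc := L1.cost_S L hr hL
  refine ⟨?_, by omega⟩
  have key : ∀ (n : ℕ) (D' : List (ZMod (2 * r))), D'.length ≤ n → Eqw r (srt r 0 L) D' →
      Z r D' = Z r (srt r 0 L) → cost r 0 (-1) (srt r 0 L) ≤ cost r 0 (-1) D' := by
    intro n
    induction n with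
    | zero =>
      intro D' hn hE hZ
      exfalso
      obtain ⟨_, k, hk⟩ := (hP r).2.2.2.1 _ _ hE
      have hlen : D'.length = 0 := by omega
      rw [hlen] at hk
      have hpos : 0 < (srt r 0 L).length := by
        have : (0 : ZMod (2 * r)) ∈ srt r 0 L := by
          unfold srt
          rw [List.mem_flatMap]
          refine ⟨0, by simp; omega, ?_⟩
          have := hL 0 (by omega)
          simp
          omega
        exact List.length_pos_of_mem this
      obtain ⟨D'', h3, h4, h5⟩ := L1.pad hP ((k - 1).toNat) D'
      have := h1 D'' (GG.D.eqw_trans hE h5) (by rw [h3, hlen]; omega)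
      rw [h4, hZ] at this
      exact lt_irrefl _ this
    | succ n ih =>
      intro D' hn hE hZ
      by_cases hanti : ∃ A B x, D' = A ++ x :: (x + (r : ZMod (2 * r))) :: B
      · obtain ⟨A, B, x, rfl⟩ := hanti
        obtain ⟨h3, h4⟩ := (hP r).2.2.2.2 A B x
        have h5 := ih (A ++ B) (by
          simp only [List.length_append, List.length_cons] at hn ⊢; omega)
          (GG.D.eqw_trans hE h4) (by rw [← h3]; exact hZ)
        exact h5.trans (GG.D.cost_cancel 0 (-1) A B x).le
      · push Not at hanti
        have hb := GG.D.brk_eq_chg D' (fun A B x h => hanti A B x h)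
        obtain ⟨_, k, hk⟩ := (hP r).2.2.2.1 _ _ hE
        by_cases hk1 : 1 ≤ k
        · exfalso
          obtain ⟨D'', h3, h4, h5⟩ := L1.pad hP ((k - 1).toNat) D'
          have := h1 D'' (GG.D.eqw_trans hE h5) (by rw [h3]; omega)
          rw [h4, hZ] at this
          exact lt_irrefl _ this
        · by_cases hall : ∃ x, D'.count x = 0
          · by_cases hlen : D'.length ≤ (srt r 0 L).length + 2 * r
            · have := h2 D' hE hlen hall
              rw [hZ] at this
              exact absurd this (lt_irrefl _)
            · have h6 := GG.D.len_le_cost 0 (-1) D'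
              omega
          · push Not at hall
            have h7 : D'.toFinset = Finset.univ := by
              ext x
              simp only [List.mem_toFinset, Finset.mem_univ, iff_true]
              by_contra hx
              exact hall x (List.count_eq_zero.2 hx)
            have h8 := L1.card_le_chg D'
            rw [h7, Finset.card_univ, ZMod.card] at h8
            have h6 := GG.D.len_le_cost 0 (-1) D'
            omega
  intro D' hE hZ
  exact key D'.length D' le_rfl hE hZ

end Pool.Agent.T6.H25.GG
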