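import Pool.Agent.T6.H25.GG.Stmts

/-!
# L2: isoperimetric inequality (MP_b6554e_al)
-/

set_option autoImplicit false

namespace Pool.Agent.T6.H25.GG

open Finset

namespace L2

/-- tail sums -/
noncomputable def Wf (r : ℕ) (w : ℕ → ℝ) (i : ℕ) : ℝ := ∑ x ∈ Ioo i r, w x

noncomputable def Sf (r : ℕ) (w : ℕ → ℝ) : ℝ := ∑ i ∈ range r, w i

noncomputable def Jf (r : ℕ) (w : ℕ → ℝ) : ℝ := ∑ i ∈ range r, Wf r w i

noncomputable def Ff (r : ℕ) (w : ℕ → ℝ) : ℝ := ∑ j ∈ range r, ∑ i ∈ range j, w i * w j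

noncomputable def Ef (r : ℕ) (w : ℕ → ℝ) : ℝ := Ff r w + ∑ i ∈ range r, (Wf r w i) ^ 2

noncomputable def lam (r i : ℕ) : ℝ := 2 * i - (r - 1)

noncomputable def Pf (r : ℕ) (w : ℕ → ℝ) : ℝ := ∑ i ∈ range r, lam r i * w i

noncomputable def Rf (r : ℕ) (w : ℕ → ℝ) : ℝ :=
  4 * r * Ef r w + r * (Sf r w) ^ 2 - (Sf r w + 2 * Jf r w) ^ 2

lemma Jf_eq (r : ℕ) (w : ℕ → ℝ) : Jf r w = ∑ j ∈ range r, (j : ℝ) * w j := by
  unfold Jf Wf
  rw [Finset.sum_comm' (t' := range r) (s' := fun x => range x)]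
  · apply Finset.sum_congr rfl
    intro x _
    rw [Finset.sum_const, card_range, nsmul_eq_mul]
  · intro i x
    simp only [mem_range, mem_Ioo]
    omega

lemma Pf_eq (r : ℕ) (w : ℕ → ℝ) : Pf r w = Sf r w + 2 * Jf r w - r * Sf r w := by
  rw [Jf_eq]
  unfold Pf Sf lam
  rw [Finset.mul_sum, Finset.mul_sum, ← Finset.sum_add_distrib, ← Finset.sum_sub_distrib]
  apply Finset.sum_congr rfl
  intro i _
  ring

lemma Zs_congr {r : ℕ} {f g : ℕ → ℤ} (h : ∀ x < 2 * r, f x = g x) : Zs r f = Zs r g := by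
  unfold Zs
  apply Finset.sum_congr rfl
  intro j hj
  rw [mem_range] at hj
  apply Finset.sum_congr rfl
  intro i hi
  rw [mem_range] at hi
  rw [h j hj, h i (by omega)]

/-- the quadratic form in the coordinates `w, y` -/
lemma Zs_form (hA : StmtALG) (r : ℕ) [NeZero r] (f : ℕ → ℤ) :
    (Zs r f : ℝ) = Ff r (fun i => (f i : ℝ) - f (i + r)) +
      2 * ∑ i ∈ range r, Wf r (fun i => (f i : ℝ) - f (i + r)) i * (f (i + r) : ℝ) +
      (∑ i ∈ range r, (f (i + r) : ℝ)) ^ 2 - ∑ i ∈ range r, (f (i + r) : ℝ) ^ 2 := by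
  have h3 := (hA r).2.2.1 (fun x => if x < r then f x - f (x + r) else 0) (fun i => f (i + r))
  have h1 : Zs r (fun x => (if x < r then f x - f (x + r) else 0) +
      f ((if x < r then x else x - r) + r)) = Zs r f := by
    apply Zs_congr
    intro x hx
    by_cases hxr : x < r
    · simp [hxr]
    · simp only [hxr, if_false]
      rw [Nat.sub_add_cancel (by omega)]
      simp
  have h2 : Zs r (fun x => if x < r then f x - f (x + r) else 0) =
      ∑ j ∈ range r, ∑ i ∈ range j, (f i - f (i + r)) * (f j - f (j + r)) := by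
    unfold Zs
    symm
    rw [← Finset.sum_subset (s₁ := range r) (s₂ := range (2 * r))]
    · apply Finset.sum_congr rfl
      intro j hj
      rw [mem_range] at hj
      apply Finset.sum_congr rfl
      intro i hi
      rw [mem_range] at hi
      have hb : bt r (j - i) = 1 := by
        unfold bt
        rw [if_neg (by omega), if_pos (by omega)]
      simp only []
      rw [if_pos (by omega), if_pos (by omega), hb, mul_one]
    · intro x hx
      rw [mem_range] at *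
      omega
    · intro j _ hj
      rw [mem_range] at hj
      apply Finset.sum_eq_zero
      intro i _
      simp only []
      rw [if_neg hj]
      ring
  have h4 : ∀ i ∈ range r, ∑ x ∈ Ioo i (i + r), (if x < r then f x - f (x + r) else 0) =
      ∑ x ∈ Ioo i r, (f x - f (x + r)) := by
    intro i hi
    rw [mem_range] at hi
    symm
    rw [← Finset.sum_subset (s₁ := Ioo i r) (s₂ := Ioo i (i + r))]
    · apply Finset.sum_congr rfl
      intro x hx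
      rw [mem_Ioo] at hx
      rw [if_pos hx.2]
    · intro x hx
      rw [mem_Ioo] at *
      omega
    · intro x hx hx'
      rw [mem_Ioo] at *
      rw [if_neg (by omega)]
  have h5 : ∑ i ∈ range r, (∑ x ∈ Ioo i (i + r), if x < r then f x - f (x + r) else 0) * f (i + r) =
      ∑ i ∈ range r, (∑ x ∈ Ioo i r, (f x - f (x + r))) * f (i + r) :=
    Finset.sum_congr rfl (fun i hi => by rw [h4 i hi])
  rw [h1, h2, h5] at h3
  rw [h3]
  unfold Ff Wf
  push_cast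
  ring

lemma sum_y (r : ℕ) (f : ℕ → ℤ) (w y : ℕ → ℝ) (T : ℝ)
    (hw : ∀ i < r, w i = (f i : ℝ) - f (i + r)) (hy : ∀ i < r, y i = f (i + r))
    (hT : T = ∑ x ∈ range (2 * r), (f x : ℝ)) :
    ∑ i ∈ range r, y i = (T - Sf r w) / 2 := by
  have h1 : T = ∑ i ∈ range r, (f i : ℝ) + ∑ i ∈ range r, (f (i + r) : ℝ) := by
    rw [hT, two_mul, Finset.sum_range_add]
    congr 1
    apply Finset.sum_congr rfl
    intro i _
    rw [add_comm]
  have h2 : Sf r w = ∑ i ∈ range r, (f i : ℝ) - ∑ i ∈ range r, (f (i + r) : ℝ) := by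
    unfold Sf
    rw [← Finset.sum_sub_distrib]
    apply Finset.sum_congr rfl
    intro i hi
    exact hw i (mem_range.1 hi)
  have h3 : ∑ i ∈ range r, y i = ∑ i ∈ range r, (f (i + r) : ℝ) :=
    Finset.sum_congr rfl (fun i hi => hy i (mem_range.1 hi))
  rw [h3, h1, h2]
  ring

/-- the completed square -/
lemma four_Zs (hA : StmtALG) (r : ℕ) [NeZero r] (f : ℕ → ℤ) (w y : ℕ → ℝ) (T : ℝ)
    (hw : ∀ i < r, w i = (f i : ℝ) - f (i + r)) (hy : ∀ i < r, y i = f (i + r))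
    (hT : T = ∑ x ∈ range (2 * r), (f x : ℝ)) :
    4 * r * (Zs r f : ℝ) = (r - 1) * T ^ 2 + 2 * T * Pf r w + Rf r w -
      4 * r * ∑ i ∈ range r,
        (y i - Wf r w i - ((T - Sf r w) / 2 - Jf r w) / r) ^ 2 := by
  have hr : (r : ℝ) ≠ 0 := by exact_mod_cast NeZero.ne r
  have e1 : Ff r (fun i => (f i : ℝ) - f (i + r)) = Ff r w := by
    unfold Ff
    apply Finset.sum_congr rfl
    intro j hj
    rw [mem_range] at hj
    apply Finset.sum_congr rfl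
    intro i hi
    rw [mem_range] at hi
    rw [hw i (by omega), hw j hj]
  have e2 : ∀ i, Wf r (fun i => (f i : ℝ) - f (i + r)) i = Wf r w i := by
    intro i
    unfold Wf
    apply Finset.sum_congr rfl
    intro j hj
    rw [mem_Ioo] at hj
    rw [hw j hj.2]
  have hY : ∑ i ∈ range r, y i = (T - Sf r w) / 2 := sum_y r f w y T hw hy hT
  have hZ := Zs_form hA r f
  rw [e1] at hZ
  simp only [e2] at hZ
  have hZ' : (Zs r f : ℝ) = Ff r w + 2 * ∑ i ∈ range r, Wf r w i * y i +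
      (∑ i ∈ range r, y i) ^ 2 - ∑ i ∈ range r, y i ^ 2 := by
    rw [hZ]
    congr 1
    · congr 1
      · congr 2
        exact Finset.sum_congr rfl (fun i hi => by rw [hy i (mem_range.1 hi)])
      · congr 1
        exact Finset.sum_congr rfl (fun i hi => by rw [hy i (mem_range.1 hi)])
    · exact Finset.sum_congr rfl (fun i hi => by rw [hy i (mem_range.1 hi)])
  have hV : ∑ i ∈ range r, (y i - Wf r w i - ((T - Sf r w) / 2 - Jf r w) / r) ^ 2 =
      ∑ i ∈ range r, y i ^ 2 - 2 * ∑ i ∈ range r, Wf r w i * y i + ∑ i ∈ range r, (Wf r w i) ^ 2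
      - ((T - Sf r w) / 2 - Jf r w) ^ 2 / r := by
    set μ := ((T - Sf r w) / 2 - Jf r w) / r with hμ
    have h1 : ∑ i ∈ range r, (y i - Wf r w i - μ) ^ 2 =
        ∑ i ∈ range r, y i ^ 2 - 2 * ∑ i ∈ range r, Wf r w i * y i +
        ∑ i ∈ range r, (Wf r w i) ^ 2 - 2 * μ * (∑ i ∈ range r, y i - Jf r w) + r * μ ^ 2 := by
      unfold Jf
      rw [Finset.mul_sum, ← Finset.sum_sub_distrib, ← Finset.sum_add_distrib,
        ← Finset.sum_sub_distrib, Finset.mul_sum, ← Finset.sum_sub_distrib]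
      have : (r : ℝ) * μ ^ 2 = ∑ i ∈ range r, μ ^ 2 := by
        rw [Finset.sum_const, card_range, nsmul_eq_mul]
      rw [this, ← Finset.sum_add_distrib]
      apply Finset.sum_congr rfl
      intro i _
      ring
    rw [h1, hY, hμ]
    field_simp
    ring
  rw [hV, hZ', hY, Pf_eq]
  unfold Rf Ef
  field_simp
  ring

/-! ### bounds -/

lemma abs_sum_le' (s : Finset ℕ) (g : ℕ → ℝ) (b : ℝ) (h : ∀ i ∈ s, |g i| ≤ b) :
    |∑ i ∈ s, g i| ≤ s.card * b := by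
  refine (Finset.abs_sum_le_sum_abs _ _).trans ?_
  refine (Finset.sum_le_sum h).trans ?_
  rw [Finset.sum_const, nsmul_eq_mul]

lemma Wf_bd {r : ℕ} {w : ℕ → ℝ} {a : ℝ} (ha : 0 ≤ a) (h : ∀ i < r, |w i| ≤ a) (i : ℕ) :
    |Wf r w i| ≤ r * a := by
  refine (abs_sum_le' (Ioo i r) w a (fun x hx => h x (mem_Ioo.1 hx).2)).trans ?_
  apply mul_le_mul_of_nonneg_right _ ha
  rw [Nat.card_Ioo]
  exact_mod_cast (by omega : r - i - 1 ≤ r)

lemma Sf_bd {r : ℕ} {w : ℕ → ℝ} {a : ℝ} (h : ∀ i < r, |w i| ≤ a) :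
    |Sf r w| ≤ r * a := by
  refine (abs_sum_le' (range r) w a (fun x hx => h x (mem_range.1 hx))).trans ?_
  rw [card_range]

lemma Jf_bd {r : ℕ} {w : ℕ → ℝ} {a : ℝ} (ha : 0 ≤ a) (h : ∀ i < r, |w i| ≤ a) :
    |Jf r w| ≤ r ^ 2 * a := by
  refine (abs_sum_le' (range r) _ (r * a) (fun x _ => Wf_bd ha h x)).trans ?_
  rw [card_range]
  exact le_of_eq (by ring)

lemma Ff_bd {r : ℕ} {w : ℕ → ℝ} {a : ℝ} (ha : 0 ≤ a) (h : ∀ i < r, |w i| ≤ a) :
    |Ff r w| ≤ r ^ 2 * a ^ 2 := by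
  refine (abs_sum_le' (range r) _ (r * a ^ 2) (fun j hj => ?_)).trans ?_
  · rw [mem_range] at hj
    refine (abs_sum_le' (range j) _ (a ^ 2) (fun i hi => ?_)).trans ?_
    · rw [mem_range] at hi
      rw [abs_mul, pow_two]
      exact mul_le_mul (h i (by omega)) (h j hj) (abs_nonneg _) ha
    · rw [card_range]
      apply mul_le_mul_of_nonneg_right _ (sq_nonneg _)
      exact_mod_cast hj.le
  · rw [card_range]
    exact le_of_eq (by ring)

lemma Ef_bd {r : ℕ} {w : ℕ → ℝ} {a : ℝ} (ha : 0 ≤ a) (h : ∀ i < r, |w i| ≤ a) :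
    |Ef r w| ≤ r ^ 2 * a ^ 2 + r ^ 3 * a ^ 2 := by
  unfold Ef
  refine (abs_add_le _ _).trans (add_le_add (Ff_bd ha h) ?_)
  refine (abs_sum_le' (range r) _ ((r * a) ^ 2) (fun j _ => ?_)).trans ?_
  · rw [abs_pow]
    exact pow_le_pow_left₀ (abs_nonneg _) (Wf_bd ha h j) 2
  · rw [card_range]
    exact le_of_eq (by ring)

lemma lam_bd {r i : ℕ} (h : i < r) : |lam r i| ≤ r := by
  unfold lam
  have h1 : (i : ℝ) + 1 ≤ r := by exact_mod_cast h
  have h2 : (0 : ℝ) ≤ i := Nat.cast_nonneg i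
  rw [abs_le]
  constructor <;> linarith

lemma Pf_bd {r : ℕ} {w : ℕ → ℝ} {a : ℝ} (h : ∀ i < r, |w i| ≤ a) :
    |Pf r w| ≤ r ^ 2 * a := by
  refine (abs_sum_le' (range r) _ (r * a) (fun j hj => ?_)).trans ?_
  · rw [mem_range] at hj
    rw [abs_mul]
    exact mul_le_mul (lam_bd hj) (h j hj) (abs_nonneg _) (Nat.cast_nonneg r)
  · rw [card_range]
    exact le_of_eq (by ring)

lemma Rf_bd {r : ℕ} (hr : 1 ≤ r) {w : ℕ → ℝ} {a : ℝ} (ha : 0 ≤ a) (h : ∀ i < r, |w i| ≤ a) :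
    |Rf r w| ≤ 18 * r ^ 4 * a ^ 2 := by
  have hr' : (1 : ℝ) ≤ r := by exact_mod_cast hr
  have h1 := Ef_bd ha h
  have h2 := Sf_bd h
  have h3 := Jf_bd ha h
  have h4 : (Sf r w) ^ 2 ≤ r ^ 2 * a ^ 2 := by
    rw [← sq_abs]
    calc |Sf r w| ^ 2 ≤ (r * a) ^ 2 := pow_le_pow_left₀ (abs_nonneg _) h2 2
      _ = _ := by ring
  have h5 : |Sf r w + 2 * Jf r w| ≤ 3 * r ^ 2 * a := by
    calc |Sf r w + 2 * Jf r w| ≤ |Sf r w| + |2 * Jf r w| := abs_add_le _ _
      _ = |Sf r w| + 2 * |Jf r w| := by rw [abs_mul, abs_of_pos (by norm_num : (0 : ℝ) < 2)]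
      _ ≤ r * a + 2 * (r ^ 2 * a) := by linarith
      _ ≤ 3 * r ^ 2 * a := by
          have q1 : (0 : ℝ) ≤ r * a := by positivity
          have q2 : (0 : ℝ) ≤ (r * a) * (r - 1) := mul_nonneg q1 (by linarith)
          nlinarith
  have h6 : (Sf r w + 2 * Jf r w) ^ 2 ≤ 9 * r ^ 4 * a ^ 2 := by
    rw [← sq_abs]
    calc |Sf r w + 2 * Jf r w| ^ 2 ≤ (3 * r ^ 2 * a) ^ 2 :=
          pow_le_pow_left₀ (abs_nonneg _) h5 2
      _ = _ := by ring
  have h7 : |4 * r * Ef r w| ≤ 4 * r * (r ^ 2 * a ^ 2 + r ^ 3 * a ^ 2) := by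
    rw [abs_mul, abs_of_nonneg (by positivity : (0:ℝ) ≤ 4 * r)]
    exact mul_le_mul_of_nonneg_left h1 (by positivity)
  have h8 : (r : ℝ) ^ 3 * a ^ 2 ≤ r ^ 4 * a ^ 2 := by
    apply mul_le_mul_of_nonneg_right _ (sq_nonneg a)
    exact pow_le_pow_right₀ hr' (by norm_num)
  have h9 : (r : ℝ) * (Sf r w) ^ 2 ≤ r * (r ^ 2 * a ^ 2) :=
    mul_le_mul_of_nonneg_left h4 (by linarith)
  have h10 : 0 ≤ (r : ℝ) * (Sf r w) ^ 2 := by positivity
  have h11 := sq_nonneg (Sf r w + 2 * Jf r w)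
  have h12 := abs_le.1 h7
  have h13 : 0 ≤ (r : ℝ) ^ 4 * a ^ 2 := by positivity
  unfold Rf
  rw [abs_le]
  constructor
  · nlinarith
  · nlinarith

/-! ### the extension of `lam` -/

noncomputable def lamt (r k : ℕ) : ℝ := (-1) ^ (k / r) * lam r (k % r)

lemma lamt_lt {r k : ℕ} (h : k < r) : lamt r k = lam r k := by
  unfold lamt
  rw [Nat.div_eq_of_lt h, Nat.mod_eq_of_lt h]
  simp

lemma lamt_add {r : ℕ} (hr : 0 < r) (k : ℕ) : lamt r (k + r) = - lamt r k := by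
  unfold lamt
  rw [Nat.add_div_right _ hr, Nat.add_mod_right, pow_succ]
  ring

lemma lamt_sq {r : ℕ} (hr : 0 < r) (γ : ℕ) :
    ∑ i ∈ range r, (lamt r (γ + i)) ^ 2 = ∑ i ∈ range r, (lam r i) ^ 2 := by
  induction γ with
  | zero =>
    apply Finset.sum_congr rfl
    intro i hi
    rw [zero_add, lamt_lt (mem_range.1 hi)]
  | succ γ ih =>
    rw [← ih]
    have h1 : ∑ i ∈ range (r + 1), (lamt r (γ + i)) ^ 2 =
        ∑ i ∈ range r, (lamt r (γ + i)) ^ 2 + (lamt r (γ + r)) ^ 2 := Finset.sum_range_succ _ _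
    have h2 : ∑ i ∈ range (r + 1), (lamt r (γ + i)) ^ 2 =
        ∑ i ∈ range r, (lamt r (γ + 1 + i)) ^ 2 + (lamt r (γ + 0)) ^ 2 := by
      rw [Finset.sum_range_succ']
      congr 1
      apply Finset.sum_congr rfl
      intro i _
      rw [add_assoc γ 1 i, add_comm 1 i]
    rw [lamt_add hr, add_zero] at *
    rw [h1, neg_sq] at h2
    linarith

/-- the rotated vector is far from the original one -/
lemma lam_gap {r : ℕ} (hr : 2 ≤ r) {γ : ℕ} (h0 : 0 < γ) (h1 : γ < 2 * r) :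
    ∑ i ∈ range r, lam r i * lamt r (γ + i) ≤ ∑ i ∈ range r, (lam r i) ^ 2 - 2 := by
  have hr' : (2 : ℝ) ≤ r := by exact_mod_cast hr
  have hex : ∃ i ∈ range r, 4 ≤ (lam r i - lamt r (γ + i)) ^ 2 := by
    rcases lt_or_ge γ r with h | h
    · refine ⟨0, mem_range.2 (by omega), ?_⟩
      rw [add_zero, lamt_lt h]
      unfold lam
      have : (1 : ℝ) ≤ γ := by exact_mod_cast h0
      push_cast
      nlinarith
    · rcases lt_or_ge γ (2 * r - 1) with h' | h'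
      · refine ⟨0, mem_range.2 (by omega), ?_⟩
        obtain ⟨δ, rfl⟩ : ∃ δ, γ = δ + r := ⟨γ - r, by omega⟩
        rw [add_zero, lamt_add (by omega), lamt_lt (by omega)]
        unfold lam
        have : (δ : ℝ) + 2 ≤ r := by exact_mod_cast (by omega : δ + 2 ≤ r)
        push_cast
        nlinarith
      · refine ⟨1, mem_range.2 (by omega), ?_⟩
        have : γ + 1 = 0 + r + r := by omega
        rw [this, lamt_add (by omega), lamt_add (by omega), lamt_lt (by omega)]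
        unfold lam
        push_cast
        nlinarith
  obtain ⟨i, hi, hi4⟩ := hex
  have h2 : (4 : ℝ) ≤ ∑ i ∈ range r, (lam r i - lamt r (γ + i)) ^ 2 :=
    hi4.trans (Finset.single_le_sum (f := fun i => (lam r i - lamt r (γ + i)) ^ 2)
      (fun j _ => sq_nonneg _) hi)
  have h3 : ∑ i ∈ range r, (lam r i - lamt r (γ + i)) ^ 2 =
      ∑ i ∈ range r, (lam r i) ^ 2 - 2 * ∑ i ∈ range r, lam r i * lamt r (γ + i) +
      ∑ i ∈ range r, (lamt r (γ + i)) ^ 2 := by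
    rw [Finset.mul_sum, ← Finset.sum_sub_distrib, ← Finset.sum_add_distrib]
    apply Finset.sum_congr rfl
    intro j _
    ring
  rw [h3, lamt_sq (by omega)] at h2
  linarith

/-! ### words -/

instance (r : ℕ) [NeZero r] : NeZero (2 * r) := ⟨by have := NeZero.ne r; omega⟩

lemma two_r (r : ℕ) (x : ZMod (2 * r)) : x + (r : ZMod (2 * r)) + (r : ZMod (2 * r)) = x := by
  have : ((r : ZMod (2 * r)) + (r : ZMod (2 * r))) = 0 := by
    have h := ZMod.natCast_self (2 * r)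
    push_cast at h
    rw [← two_mul]
    exact h
  rw [add_assoc, this, add_zero]

lemma wt_add (r : ℕ) (D : List (ZMod (2 * r))) (x : ZMod (2 * r)) :
    wt r D (x + (r : ZMod (2 * r))) = - wt r D x := by
  unfold wt
  rw [two_r]
  ring

lemma count_srt (hA : StmtALG) (r : ℕ) [NeZero r] (L : ℕ → ℕ) {k : ℕ} (hk : k < 2 * r) :
    (srt r 0 L).count (k : ZMod (2 * r)) = L k := by
  have h := (hA r).2.2.2.1 0 0 0 0 L 0 (k : ZMod (2 * r))
  have h1 : wd r 0 0 0 0 L 0 = srt r 0 L := by simp [wd]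
  rw [h1] at h
  rw [h]
  have h2 : ix r 0 (k : ZMod (2 * r)) = k := by
    unfold ix
    rw [sub_zero]
    exact ZMod.val_natCast_of_lt hk
  rw [h2]
  simp

lemma length_srt (hA : StmtALG) (r : ℕ) [NeZero r] (c : ZMod (2 * r)) (L : ℕ → ℕ) :
    (srt r c L).length = ∑ x ∈ range (2 * r), L x := by
  have h := (hA r).2.2.2.2.1 0 c 0 0 L 0
  have h1 : wd r 0 c 0 0 L 0 = srt r c L := by simp [wd]
  rw [h1] at h
  rw [h]
  simp [tot]

lemma wt_srt (hA : StmtALG) (r : ℕ) [NeZero r] (L : ℕ → ℕ) {k : ℕ} (hk : k < r) :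
    wt r (srt r 0 L) (k : ZMod (2 * r)) = (L k : ℤ) - L (k + r) := by
  unfold wt
  rw [count_srt hA r L (by omega)]
  have : ((k : ZMod (2 * r)) + (r : ZMod (2 * r))) = ((k + r : ℕ) : ZMod (2 * r)) := by push_cast; rfl
  rw [this, count_srt hA r L (by omega)]

lemma word_data (hB : StmtB) (hA : StmtALG) (r : ℕ) [NeZero r] (D D' : List (ZMod (2 * r)))
    (hE : Eqw r D D') : ∃ γ < 2 * r, ∃ f : ℕ → ℕ,
      Z r D' ≤ Zs r (fun i => (f i : ℤ)) ∧ D'.length = ∑ x ∈ range (2 * r), f x ∧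
      (∀ i < r, (f i : ℤ) - f (i + r) = wt r D ((γ + i : ℕ) : ZMod (2 * r))) ∧
      ∀ x, D'.count x = 0 → ∃ k < 2 * r, f k = 0 := by
  obtain ⟨c, hc⟩ := hB r D'
  refine ⟨c.val, ZMod.val_lt c, cnts r c D', ?_, ?_, ?_, ?_⟩
  · rw [← (hA r).1]
    exact hc
  · rw [← length_srt hA r c]
    exact ((hA r).2.2.2.2.2.2 c D').length_eq.symm
  · intro i hi
    have h1 : ((c.val + i : ℕ) : ZMod (2 * r)) = c + (i : ZMod (2 * r)) := by
      push_cast
      rw [ZMod.natCast_zmod_val]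
    rw [h1, hE]
    unfold cnts wt
    rw [if_pos (by omega), if_pos (by omega)]
    push_cast
    rw [← add_assoc]
  · intro x hx
    refine ⟨(x - c).val, ZMod.val_lt _, ?_⟩
    unfold cnts
    rw [if_pos (ZMod.val_lt _), ZMod.natCast_zmod_val, add_sub_cancel]
    exact hx

/-! ### the parameters -/

lemma lamt_bd {r : ℕ} (hr : 0 < r) (k : ℕ) : |lamt r k| ≤ r - 1 := by
  unfold lamt
  rw [abs_mul, abs_pow, abs_neg, abs_one, one_pow, one_mul]
  have h := Nat.mod_lt k hr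
  have h1 : ((k % r : ℕ) : ℝ) + 1 ≤ r := by exact_mod_cast h
  have h2 : (0 : ℝ) ≤ ((k % r : ℕ) : ℝ) := Nat.cast_nonneg _
  unfold lam
  rw [abs_le]
  constructor <;> linarith

structure Par (r : ℕ) (m : ℝ) (L : ℕ → ℕ) : Prop where
  p0 : |(L 0 : ℝ) - 100 * (r : ℝ) ^ 6 * m| ≤ m / (100 * (r : ℝ) ^ 2)
  pi : ∀ i < r, |(L (r + i) : ℝ) - (100 * (r : ℝ) ^ 6 * m + ((i : ℝ) + 1) * ((r : ℝ) - 1 - i) * m)| ≤
    m / (100 * (r : ℝ) ^ 2)
  ps : ∀ i, 1 ≤ i → i < r → ((L i : ℝ) - L (r + i - 1)) ^ 2 ≤ m / (64 * (r : ℝ) ^ 6)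
  pd : ∀ i, 1 ≤ i → i < r → |(L i : ℝ) - L (r + i - 1)| ≤ m / (100 * (r : ℝ) ^ 2)

lemma par_of {r M : ℕ} {L : ℕ → ℕ} (hr : 2 ≤ r) (hM : 40 ≤ M) (h : LowPar r M L) :
    Par r (M : ℝ) L := by
  have hr' : (2 : ℝ) ≤ r := by exact_mod_cast hr
  have hM' : (40 : ℝ) ≤ M := by exact_mod_cast hM
  obtain ⟨_, h0, h1, h2⟩ := h
  have ps : ∀ i, 1 ≤ i → i < r →
      ((L i : ℝ) - L (r + i - 1)) ^ 2 ≤ M / (64 * (r : ℝ) ^ 6) := by
    intro i hi hir
    rw [le_div_iff₀ (by positivity)]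
    have := h2 i hi hir
    have h' : (64 * (r : ℝ) ^ 6 * ((L i : ℝ) - (L (r + i - 1) : ℝ)) ^ 2) ≤ (M : ℝ) := by
      exact_mod_cast this
    linarith
  refine ⟨?_, ?_, ps, ?_⟩
  · rw [le_div_iff₀ (by positivity)]
    have h' : 100 * (r : ℝ) ^ 2 * |(L 0 : ℝ) - 100 * (r : ℝ) ^ 6 * (M : ℝ)| ≤ (M : ℝ) := by
      exact_mod_cast h0
    linarith
  · intro i hi
    rw [le_div_iff₀ (by positivity)]
    have h' : 100 * (r : ℝ) ^ 2 * |(L (r + i) : ℝ) - (100 * (r : ℝ) ^ 6 * (M : ℝ) +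
        ((i : ℝ) + 1) * ((r : ℝ) - 1 - i) * M)| ≤ (M : ℝ) := by
      exact_mod_cast h1 i hi
    linarith
  · intro i hi hir
    apply abs_le_of_sq_le_sq _ (by positivity)
    refine (ps i hi hir).trans ?_
    rw [div_pow, div_le_div_iff₀ (by positivity) (by positivity)]
    have h4 : (4 : ℝ) ≤ (r : ℝ) ^ 2 := by nlinarith
    have h5 : (10000 : ℝ) ≤ 64 * (r : ℝ) ^ 2 * M := by nlinarith
    calc (M : ℝ) * (100 * (r : ℝ) ^ 2) ^ 2 = 10000 * ((M : ℝ) * (r : ℝ) ^ 4) := by ring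
      _ ≤ (64 * (r : ℝ) ^ 2 * M) * ((M : ℝ) * (r : ℝ) ^ 4) := by
          apply mul_le_mul_of_nonneg_right h5 (by positivity)
      _ = (M : ℝ) ^ 2 * (64 * (r : ℝ) ^ 6) := by ring

section par

variable {r : ℕ} {m : ℝ} {L : ℕ → ℕ}

lemma small (hr : 2 ≤ r) (hm : 1 ≤ m) : m / (100 * (r : ℝ) ^ 2) ≤ m / 400 := by
  have hr' : (2 : ℝ) ≤ r := by exact_mod_cast hr
  apply div_le_div_of_nonneg_left (by linarith) (by norm_num)
  nlinarith

lemma base_pos (hr : 2 ≤ r) (hm : 1 ≤ m) : 6400 * m ≤ 100 * (r : ℝ) ^ 6 * m := by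
  have hr' : (2 : ℝ) ≤ r := by exact_mod_cast hr
  have : (2 : ℝ) ^ 6 ≤ (r : ℝ) ^ 6 := pow_le_pow_left₀ (by norm_num) hr' 6
  nlinarith

lemma Lhi_ge (hr : 2 ≤ r) (hm : 1 ≤ m) (hP : Par r m L) {i : ℕ} (hi : i < r) :
    99 * (r : ℝ) ^ 6 * m + m / 400 ≤ (L (r + i) : ℝ) := by
  have h1 := (abs_le.1 (hP.pi i hi)).1
  have h2 := small hr hm
  have h3 : (0 : ℝ) ≤ ((i : ℝ) + 1) * ((r : ℝ) - 1 - i) * m := by
    have : (i : ℝ) + 1 ≤ r := by exact_mod_cast hi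
    have h4 : (0 : ℝ) ≤ i := Nat.cast_nonneg i
    exact mul_nonneg (mul_nonneg (by linarith) (by linarith)) (by linarith)
  have h5 := base_pos hr hm
  linarith

lemma L_pos (hr : 2 ≤ r) (hm : 1 ≤ m) (hP : Par r m L) : ∀ x < 2 * r, 0 < L x := by
  intro x hx
  have h5 := base_pos hr hm
  have h2 := small hr hm
  have : (0 : ℝ) < L x := by
    rcases lt_or_ge x r with h | h
    · rcases Nat.eq_zero_or_pos x with rfl | h'
      · have h1 := (abs_le.1 hP.p0).1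
        linarith
      · have h1 := (abs_le.1 (hP.pd x h' h)).1
        have h3 := Lhi_ge hr hm hP (i := x - 1) (by omega)
        have h4 : r + (x - 1) = r + x - 1 := by omega
        rw [h4] at h3
        linarith
    · have h3 := Lhi_ge hr hm hP (i := x - r) (by omega)
      have h4 : r + (x - r) = x := by omega
      rw [h4] at h3
      linarith
  exact_mod_cast this

lemma T_ge (hr : 2 ≤ r) (hm : 1 ≤ m) (hP : Par r m L) :
    99 * (r : ℝ) ^ 7 * m ≤ ∑ x ∈ range (2 * r), (L x : ℝ) := by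
  rw [two_mul, Finset.sum_range_add]
  have h1 : (0 : ℝ) ≤ ∑ x ∈ range r, (L x : ℝ) := Finset.sum_nonneg (fun _ _ => Nat.cast_nonneg _)
  have h2 : ∑ _x ∈ range r, (99 * (r : ℝ) ^ 6 * m) ≤ ∑ x ∈ range r, (L (r + x) : ℝ) := by
    apply Finset.sum_le_sum
    intro x hx
    have := Lhi_ge hr hm hP (mem_range.1 hx)
    linarith
  rw [Finset.sum_const, card_range, nsmul_eq_mul] at h2
  calc 99 * (r : ℝ) ^ 7 * m = r * (99 * (r : ℝ) ^ 6 * m) := by ring
    _ ≤ _ := by linarith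

lemma wt_lam (hA : StmtALG) [NeZero r] (hr : 2 ≤ r) (hm : 1 ≤ m) (hP : Par r m L) (k : ℕ) :
    |(wt r (srt r 0 L) (k : ZMod (2 * r)) : ℝ) - m * lamt r k| ≤ 3 * (m / (100 * (r : ℝ) ^ 2)) := by
  induction k using Nat.strong_induction_on with
  | _ k ih =>
    rcases lt_or_ge k r with h | h
    · rw [wt_srt hA r L h, lamt_lt h]
      have h1 := abs_le.1 (hP.pi k h)
      have h0 : (0 : ℝ) ≤ m / (100 * (r : ℝ) ^ 2) := by positivity
      rw [add_comm r k] at h1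
      unfold lam
      push_cast
      rcases Nat.eq_zero_or_pos k with rfl | hk
      · have h2 := abs_le.1 hP.p0
        rw [abs_le]
        rw [zero_add] at *
        push_cast at h1 ⊢
        constructor <;> nlinarith
      · have h2 := abs_le.1 (hP.pd k hk h)
        have h3 := abs_le.1 (hP.pi (k - 1) (by omega))
        have h4 : r + (k - 1) = r + k - 1 := by omega
        rw [h4] at h3
        have h5 : ((k - 1 : ℕ) : ℝ) = (k : ℝ) - 1 := by
          rw [Nat.cast_sub hk]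
          simp
        rw [h5] at h3
        rw [abs_le]
        constructor <;> nlinarith
    · obtain ⟨j, rfl⟩ : ∃ j, k = j + r := ⟨k - r, by omega⟩
      have h1 := ih j (by omega)
      push_cast
      rw [wt_add, lamt_add (by omega)]
      push_cast
      rw [← abs_neg]
      convert h1 using 2
      ring

lemma wt_bd (hA : StmtALG) [NeZero r] (hr : 2 ≤ r) (hm : 1 ≤ m) (hP : Par r m L) (k : ℕ) :
    |(wt r (srt r 0 L) (k : ZMod (2 * r)) : ℝ)| ≤ r * m := by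
  have h1 := wt_lam hA hr hm hP k
  have h2 := lamt_bd (r := r) (by omega) k
  have h3 := small hr hm
  have h4 : |m * lamt r k| ≤ m * (r - 1) := by
    rw [abs_mul, abs_of_nonneg (by linarith : (0:ℝ) ≤ m)]
    exact mul_le_mul_of_nonneg_left h2 (by linarith)
  have h5 : |(wt r (srt r 0 L) (k : ZMod (2 * r)) : ℝ)| ≤
      |(wt r (srt r 0 L) (k : ZMod (2 * r)) : ℝ) - m * lamt r k| + |m * lamt r k| := by
    have := abs_add_le ((wt r (srt r 0 L) (k : ZMod (2 * r)) : ℝ) - m * lamt r k) (m * lamt r k)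
    simpa using this
  linarith

/-! ### the inner products -/

lemma P_err (hA : StmtALG) [NeZero r] (hr : 2 ≤ r) (hm : 1 ≤ m) (hP : Par r m L) (γ : ℕ) :
    |Pf r (fun i => (wt r (srt r 0 L) ((γ + i : ℕ) : ZMod (2 * r)) : ℝ)) -
      m * ∑ i ∈ range r, lam r i * lamt r (γ + i)| ≤ 3 * m / 100 := by
  have hr' : (2 : ℝ) ≤ r := by exact_mod_cast hr
  have h1 : Pf r (fun i => (wt r (srt r 0 L) ((γ + i : ℕ) : ZMod (2 * r)) : ℝ)) -
      m * ∑ i ∈ range r, lam r i * lamt r (γ + i) =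
      ∑ i ∈ range r, lam r i * ((wt r (srt r 0 L) ((γ + i : ℕ) : ZMod (2 * r)) : ℝ) -
        m * lamt r (γ + i)) := by
    unfold Pf
    rw [Finset.mul_sum, ← Finset.sum_sub_distrib]
    apply Finset.sum_congr rfl
    intro i _
    ring
  rw [h1]
  refine (abs_sum_le' (range r) _ (r * (3 * (m / (100 * (r : ℝ) ^ 2)))) (fun i hi => ?_)).trans ?_
  · rw [abs_mul]
    exact mul_le_mul (lam_bd (mem_range.1 hi)) (wt_lam hA hr hm hP _) (abs_nonneg _) (by linarith)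
  · rw [card_range]
    apply le_of_eq
    field_simp

lemma P0_pos (hA : StmtALG) [NeZero r] (hr : 2 ≤ r) (hm : 1 ≤ m) (hP : Par r m L) :
    0 ≤ Pf r (fun i => (wt r (srt r 0 L) ((0 + i : ℕ) : ZMod (2 * r)) : ℝ)) := by
  have hr' : (2 : ℝ) ≤ r := by exact_mod_cast hr
  have h1 := (abs_le.1 (P_err hA hr hm hP 0)).1
  have h2 : ∑ i ∈ range r, lam r i * lamt r (0 + i) = ∑ i ∈ range r, (lam r i) ^ 2 := by
    apply Finset.sum_congr rfl
    intro i hi
    rw [zero_add, lamt_lt (mem_range.1 hi)]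
    ring
  have h3 : (1 : ℝ) ≤ ∑ i ∈ range r, (lam r i) ^ 2 := by
    have : (lam r 0) ^ 2 ≤ ∑ i ∈ range r, (lam r i) ^ 2 :=
      Finset.single_le_sum (f := fun i => (lam r i) ^ 2)
        (fun j _ => sq_nonneg _) (mem_range.2 (by omega))
    refine le_trans ?_ this
    unfold lam
    push_cast
    nlinarith
  rw [h2] at h1
  nlinarith

lemma P_gap (hA : StmtALG) [NeZero r] (hr : 2 ≤ r) (hm : 1 ≤ m) (hP : Par r m L) {γ : ℕ}
    (h0 : 0 < γ) (hγ : γ < 2 * r) :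
    Pf r (fun i => (wt r (srt r 0 L) ((γ + i : ℕ) : ZMod (2 * r)) : ℝ)) ≤
      Pf r (fun i => (wt r (srt r 0 L) ((0 + i : ℕ) : ZMod (2 * r)) : ℝ)) - m := by
  have h1 := (abs_le.1 (P_err hA hr hm hP 0)).1
  have h1' := (abs_le.1 (P_err hA hr hm hP γ)).2
  have h2 : ∑ i ∈ range r, lam r i * lamt r (0 + i) = ∑ i ∈ range r, (lam r i) ^ 2 := by
    apply Finset.sum_congr rfl
    intro i hi
    rw [zero_add, lamt_lt (mem_range.1 hi)]
    ring
  rw [h2] at h1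
  have h3 := lam_gap hr h0 hγ
  have h4 := mul_le_mul_of_nonneg_left h3 (by linarith : (0:ℝ) ≤ m)
  nlinarith

/-! ### the lower bound for the area of the standard word -/

lemma var_le (v : ℕ → ℝ) (r : ℕ) (μ t : ℝ) (h : ∑ i ∈ range r, v i = r * μ) :
    ∑ i ∈ range r, (v i - μ) ^ 2 ≤ ∑ i ∈ range r, (v i - t) ^ 2 := by
  have h1 : ∑ i ∈ range r, (v i - t) ^ 2 = ∑ i ∈ range r, (v i - μ) ^ 2 +
      2 * (μ - t) * (∑ i ∈ range r, v i - r * μ) + r * (μ - t) ^ 2 := by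
    have e1 : (r : ℝ) * μ = ∑ i ∈ range r, μ := by
      rw [Finset.sum_const, card_range, nsmul_eq_mul]
    have e2 : (r : ℝ) * (μ - t) ^ 2 = ∑ i ∈ range r, (μ - t) ^ 2 := by
      rw [Finset.sum_const, card_range, nsmul_eq_mul]
    rw [e1, e2, ← Finset.sum_sub_distrib, Finset.mul_sum, ← Finset.sum_add_distrib,
      ← Finset.sum_add_distrib]
    apply Finset.sum_congr rfl
    intro i _
    ring
  rw [h1, h]
  have : 0 ≤ (r : ℝ) * (μ - t) ^ 2 := by positivity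
  linarith

lemma Z_lower (hA : StmtALG) [NeZero r] (hr : 2 ≤ r) (hm : 1 ≤ m) (hP : Par r m L)
    (w : ℕ → ℝ) (T : ℝ) (hw : ∀ i < r, w i = (L i : ℝ) - L (i + r))
    (hT : T = ∑ x ∈ range (2 * r), (L x : ℝ)) :
    (r - 1) * T ^ 2 + 2 * T * Pf r w + Rf r w - m / 8 ≤ 4 * r * (Z r (srt r 0 L) : ℝ) := by
  have hr' : (2 : ℝ) ≤ r := by exact_mod_cast hr
  rw [(hA r).1]
  set y : ℕ → ℝ := fun i => (L (i + r) : ℝ) with hy
  have hT' : T = ∑ x ∈ range (2 * r), (((L x : ℕ) : ℤ) : ℝ) := by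
    rw [hT]
    apply Finset.sum_congr rfl
    intro x _
    push_cast
    rfl
  have hw' : ∀ i < r, w i = (((L i : ℕ) : ℤ) : ℝ) - (((L (i + r) : ℕ) : ℤ) : ℝ) := by
    intro i hi
    rw [hw i hi]
    push_cast
    rfl
  have hy' : ∀ i < r, y i = (((L (i + r) : ℕ) : ℤ) : ℝ) := by
    intro i hi
    rw [hy]
    push_cast
    rfl
  have h4 := four_Zs hA r (fun i => (L i : ℤ)) w y T hw' hy' hT'
  rw [h4]
  set μ := ((T - Sf r w) / 2 - Jf r w) / r with hμ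
  set v : ℕ → ℝ := fun i => y i - Wf r w i with hv
  have hsum : ∑ i ∈ range r, v i = r * μ := by
    rw [hv, Finset.sum_sub_distrib, sum_y r (fun i => (L i : ℤ)) w y T hw' hy' hT', hμ]
    unfold Jf
    field_simp
  have hvar := var_le v r μ (v 0) hsum
  set η := √(m / (64 * (r : ℝ) ^ 6)) with hη
  have hη0 : 0 ≤ η := Real.sqrt_nonneg _
  have hη2 : η ^ 2 = m / (64 * (r : ℝ) ^ 6) := Real.sq_sqrt (by positivity)
  have hstep : ∀ i, i < r → |v i - v 0| ≤ i * η := by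
    intro i
    induction i with
    | zero => intro _; simp
    | succ i ih =>
      intro hi
      have h1 := ih (by omega)
      have h2 : Wf r w i = w (i + 1) + Wf r w (i + 1) := by
        unfold Wf
        have : Ioo i r = insert (i + 1) (Ioo (i + 1) r) := by
          ext x
          simp only [mem_Ioo, mem_insert]
          omega
        rw [this, Finset.sum_insert (by simp)]
      have h3 : v (i + 1) - v i = (L (i + 1) : ℝ) - L (r + (i + 1) - 1) := by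
        rw [hv]
        simp only []
        rw [h2, hw (i + 1) hi, hy]
        simp only []
        have : r + (i + 1) - 1 = i + r := by omega
        rw [this]
        ring
      have h5 : |v (i + 1) - v i| ≤ η := by
        rw [h3]
        exact Real.abs_le_sqrt (hP.ps (i + 1) (by omega) hi)
      calc |v (i + 1) - v 0| = |(v (i + 1) - v i) + (v i - v 0)| := by ring_nf
        _ ≤ |v (i + 1) - v i| + |v i - v 0| := abs_add_le _ _
        _ ≤ η + i * η := by linarith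
        _ = ((i + 1 : ℕ) : ℝ) * η := by push_cast; ring
  have hvar2 : ∑ i ∈ range r, (v i - v 0) ^ 2 ≤ r * (r * η) ^ 2 := by
    have : ∑ i ∈ range r, (v i - v 0) ^ 2 ≤ ∑ _i ∈ range r, ((r : ℝ) * η) ^ 2 := by
      apply Finset.sum_le_sum
      intro i hi
      rw [mem_range] at hi
      rw [← sq_abs]
      apply pow_le_pow_left₀ (abs_nonneg _)
      refine (hstep i hi).trans ?_
      apply mul_le_mul_of_nonneg_right _ hη0
      exact_mod_cast hi.le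
    rw [Finset.sum_const, card_range, nsmul_eq_mul] at this
    exact this
  have hfin : 4 * r * ((r : ℝ) * (r * η) ^ 2) ≤ m / 8 := by
    have h1 : 4 * (r : ℝ) * (r * (r * η) ^ 2) = 4 * r ^ 4 * η ^ 2 := by ring
    rw [h1, hη2]
    have h2 : 4 * (r : ℝ) ^ 4 * (m / (64 * r ^ 6)) = m / (16 * (r : ℝ) ^ 2) := by
      field_simp
      ring
    rw [h2]
    apply div_le_div_of_nonneg_left (by linarith) (by norm_num)
    nlinarith
  have h6 : 4 * (r : ℝ) * ∑ i ∈ range r, (v i - μ) ^ 2 ≤ 4 * r * (r * (r * η) ^ 2) :=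
    mul_le_mul_of_nonneg_left (hvar.trans hvar2) (by positivity)
  have h7 : ∑ i ∈ range r, (y i - Wf r w i - μ) ^ 2 = ∑ i ∈ range r, (v i - μ) ^ 2 := rfl
  rw [h7]
  linarith

/-! ### the upper bounds -/

lemma Z_upper1 (hA : StmtALG) [NeZero r] (f : ℕ → ℕ) (w : ℕ → ℝ) (T : ℝ)
    (hw : ∀ i < r, w i = (f i : ℝ) - f (i + r))
    (hT : T = ∑ x ∈ range (2 * r), (f x : ℝ)) :
    4 * r * (Zs r (fun i => (f i : ℤ)) : ℝ) ≤ (r - 1) * T ^ 2 + 2 * T * Pf r w + Rf r w := by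
  have h4 := four_Zs hA r (fun i => (f i : ℤ)) w (fun i => (f (i + r) : ℝ)) T
    (fun i hi => by rw [hw i hi]; push_cast; rfl) (fun i hi => by push_cast; rfl)
    (by rw [hT]; apply Finset.sum_congr rfl; intro x _; push_cast; rfl)
  rw [h4]
  have : 0 ≤ 4 * (r : ℝ) * ∑ i ∈ range r, ((f (i + r) : ℝ) - Wf r w i -
      ((T - Sf r w) / 2 - Jf r w) / r) ^ 2 := by positivity
  linarith

lemma Z_upper2 (hA : StmtALG) [NeZero r] (hr : 2 ≤ r) (f : ℕ → ℕ) (w : ℕ → ℝ) (T a : ℝ)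
    (hw : ∀ i < r, w i = (f i : ℝ) - f (i + r)) (ha : 0 ≤ a) (hwa : ∀ i < r, |w i| ≤ a)
    (hT : T = ∑ x ∈ range (2 * r), (f x : ℝ)) {k : ℕ} (hk : k < 2 * r) (hfk : f k = 0) :
    4 * r * (Zs r (fun i => (f i : ℤ)) : ℝ) ≤ (r - 1) * T ^ 2 - T ^ 2 / r + 2 * T * (r ^ 2 * a)
      + 12 * r * a * T + 18 * r ^ 4 * a ^ 2 := by
  have hr' : (2 : ℝ) ≤ r := by exact_mod_cast hr
  have hT0 : 0 ≤ T := by rw [hT]; exact Finset.sum_nonneg (fun _ _ => Nat.cast_nonneg _)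
  have h4 := four_Zs hA r (fun i => (f i : ℤ)) w (fun i => (f (i + r) : ℝ)) T
    (fun i hi => by rw [hw i hi]; push_cast; rfl) (fun i hi => by push_cast; rfl)
    (by rw [hT]; apply Finset.sum_congr rfl; intro x _; push_cast; rfl)
  rw [h4]
  set μ := ((T - Sf r w) / 2 - Jf r w) / r with hμ
  obtain ⟨i, hi, hv⟩ : ∃ i < r, |(f (i + r) : ℝ) - Wf r w i| ≤ a + r * a := by
    rcases lt_or_ge k r with h | h
    · refine ⟨k, h, ?_⟩
      have h1 : (f (k + r) : ℝ) = - w k := by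
        rw [hw k h, hfk]
        simp
      rw [h1]
      calc |-w k - Wf r w k| ≤ |-w k| + |Wf r w k| := abs_sub _ _
        _ ≤ a + r * a := by
            rw [abs_neg]
            exact add_le_add (hwa k h) (Wf_bd ha hwa k)
    · refine ⟨k - r, by omega, ?_⟩
      have h1 : k - r + r = k := by omega
      rw [h1, hfk]
      have := Wf_bd ha hwa (k - r)
      simp only [Nat.cast_zero, zero_sub, abs_neg]
      linarith
  have hS := Sf_bd hwa
  have hJ := Jf_bd ha hwa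
  have hPf := Pf_bd hwa
  have hRf := Rf_bd (by omega : 1 ≤ r) ha hwa
  have hμ2 : |μ - T / (2 * r)| ≤ a / 2 + r * a := by
    have e1 : μ - T / (2 * r) = -((Sf r w / 2 + Jf r w) / r) := by
      rw [hμ]
      field_simp
      ring
    rw [e1, abs_neg, abs_div, abs_of_pos (by linarith : (0:ℝ) < r), div_le_iff₀ (by linarith)]
    calc |Sf r w / 2 + Jf r w| ≤ |Sf r w / 2| + |Jf r w| := abs_add_le _ _
      _ ≤ r * a / 2 + r ^ 2 * a := by
          rw [abs_div, abs_of_pos (by norm_num : (0:ℝ) < 2)]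
          linarith
      _ = (a / 2 + r * a) * r := by ring
  have hsq : T ^ 2 / (4 * r ^ 2) - 3 * T * a ≤ ((f (i + r) : ℝ) - Wf r w i - μ) ^ 2 := by
    set v := (f (i + r) : ℝ) - Wf r w i with hvdef
    have e1 : |(μ - v) - T / (2 * r)| ≤ 3 * r * a := by
      have : |(μ - v) - T / (2 * r)| ≤ |μ - T / (2 * r)| + |v| := by
        have h : (μ - v) - T / (2 * r) = (μ - T / (2 * r)) - v := by ring
        rw [h]
        exact abs_sub _ _
      nlinarith [mul_nonneg (by linarith : (0:ℝ) ≤ (r:ℝ) - 2) ha]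
    set e := (μ - v) - T / (2 * r) with he
    have e2 : (v - μ) ^ 2 = (T / (2 * r) + e) ^ 2 := by rw [he]; ring
    rw [e2]
    have e3 : (T / (2 * r) + e) ^ 2 = T ^ 2 / (4 * r ^ 2) + (T / r) * e + e ^ 2 := by
      field_simp
      ring
    rw [e3]
    have e4 : 0 ≤ T / r := by positivity
    have e5 := (abs_le.1 e1).1
    have e6 : (T / r) * (-(3 * r * a)) ≤ (T / r) * e := mul_le_mul_of_nonneg_left e5 e4
    have e7 : (T / r) * (-(3 * r * a)) = - (3 * T * a) := by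
      field_simp
    nlinarith [sq_nonneg e]
  have hone : ((f (i + r) : ℝ) - Wf r w i - μ) ^ 2 ≤
      ∑ i ∈ range r, ((f (i + r) : ℝ) - Wf r w i - μ) ^ 2 :=
    Finset.single_le_sum (f := fun i => ((f (i + r) : ℝ) - Wf r w i - μ) ^ 2)
      (fun j _ => sq_nonneg _) (mem_range.2 hi)
  have h8 := mul_le_mul_of_nonneg_left (hsq.trans hone) (by positivity : (0:ℝ) ≤ 4 * r)
  have h9 : 4 * (r : ℝ) * (T ^ 2 / (4 * r ^ 2) - 3 * T * a) = T ^ 2 / r - 12 * r * a * T := by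
    field_simp
    ring
  rw [h9] at h8
  have h10 : 2 * T * Pf r w ≤ 2 * T * (r ^ 2 * a) :=
    mul_le_mul_of_nonneg_left (abs_le.1 hPf).2 (by linarith)
  have h11 := (abs_le.1 hRf).2
  linarith

/-! ### arithmetic -/

lemma arith1 {ρ m T P0 Pc R0 Rc : ℝ} (hρ : 2 ≤ ρ) (hm : 1 ≤ m) (hT : 99 * ρ ^ 7 * m ≤ T)
    (hP0 : 0 ≤ P0) (h : (Pc = P0 ∧ Rc = R0) ∨ (Pc ≤ P0 - m ∧ |Rc| ≤ 18 * ρ ^ 6 * m ^ 2 ∧
      |R0| ≤ 18 * ρ ^ 6 * m ^ 2)) :
    (ρ - 1) * (T - 2) ^ 2 + 2 * (T - 2) * Pc + Rc < (ρ - 1) * T ^ 2 + 2 * T * P0 + R0 - m / 8 := by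
  have h7 : (128 : ℝ) ≤ ρ ^ 7 := by
    have := pow_le_pow_left₀ (by norm_num : (0:ℝ) ≤ 2) hρ 7
    norm_num at this
    exact this
  have hTm : 12672 * m ≤ T := by nlinarith
  have h1 : 4 * T - 4 ≤ (ρ - 1) * (4 * T - 4) := by nlinarith
  rcases h with ⟨rfl, rfl⟩ | ⟨h2, h3, h4⟩
  · nlinarith
  · have h5 := (abs_le.1 h3).2
    have h6 := (abs_le.1 h4).1
    have h8 : 2 * (T - 2) * Pc ≤ 2 * (T - 2) * (P0 - m) :=
      mul_le_mul_of_nonneg_left h2 (by linarith)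
    have h9 : 36 * ρ ^ 6 * m ^ 2 ≤ T * m := by
      have h10 : 36 * ρ ^ 6 * m ≤ T := by
        have : ρ ^ 7 * m = ρ * (ρ ^ 6 * m) := by ring
        have h11 : 0 ≤ ρ ^ 6 * m := by positivity
        nlinarith
      calc 36 * ρ ^ 6 * m ^ 2 = (36 * ρ ^ 6 * m) * m := by ring
        _ ≤ T * m := mul_le_mul_of_nonneg_right h10 (by linarith)
    nlinarith

lemma arith2 {ρ m T T' P0 R0 : ℝ} (hρ : 2 ≤ ρ) (hm : 1 ≤ m) (hT : 99 * ρ ^ 7 * m ≤ T)
    (hT'0 : 0 ≤ T') (hT' : T' ≤ T + 2 * ρ)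
    (hP0 : 0 ≤ P0) (hR0 : |R0| ≤ 18 * ρ ^ 6 * m ^ 2) :
    (ρ - 1) * T' ^ 2 - T' ^ 2 / ρ + 2 * T' * (ρ ^ 2 * (ρ * m)) + 12 * ρ * (ρ * m) * T' +
      18 * ρ ^ 4 * (ρ * m) ^ 2 < (ρ - 1) * T ^ 2 + 2 * T * P0 + R0 - m / 8 := by
  have h7 : (128 : ℝ) ≤ ρ ^ 7 := by
    have := pow_le_pow_left₀ (by norm_num : (0:ℝ) ≤ 2) hρ 7
    norm_num at this
    exact this
  have hTm : 12672 * m ≤ T := by nlinarith
  have h0 := (abs_le.1 hR0).1
  have hcoef : 0 ≤ ρ - 1 - 1 / ρ := by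
    have : 1 / ρ ≤ 1 / 2 := one_div_le_one_div_of_le (by norm_num) hρ
    linarith
  have h1 : (ρ - 1) * T' ^ 2 - T' ^ 2 / ρ ≤ (ρ - 1) * (T + 2 * ρ) ^ 2 - (T + 2 * ρ) ^ 2 / ρ := by
    have h2 : T' ^ 2 ≤ (T + 2 * ρ) ^ 2 := pow_le_pow_left₀ hT'0 hT' 2
    have h3 := mul_le_mul_of_nonneg_left h2 hcoef
    have e1 : (ρ - 1 - 1 / ρ) * T' ^ 2 = (ρ - 1) * T' ^ 2 - T' ^ 2 / ρ := by ring
    have e2 : (ρ - 1 - 1 / ρ) * (T + 2 * ρ) ^ 2 =
        (ρ - 1) * (T + 2 * ρ) ^ 2 - (T + 2 * ρ) ^ 2 / ρ := by ring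
    rw [e1, e2] at h3
    exact h3
  have h2 : (ρ - 1) * (T + 2 * ρ) ^ 2 - (T + 2 * ρ) ^ 2 / ρ =
      (ρ - 1) * T ^ 2 - T ^ 2 / ρ + (ρ - 1) * (4 * ρ * T + 4 * ρ ^ 2) - 4 * T - 4 * ρ := by
    field_simp
    ring
  have h3 : 99 * ρ ^ 6 * m * T ≤ T ^ 2 / ρ := by
    rw [le_div_iff₀ (by linarith)]
    have : 99 * ρ ^ 6 * m * T * ρ = (99 * ρ ^ 7 * m) * T := by ring
    rw [this, pow_two]
    exact mul_le_mul_of_nonneg_right hT (by nlinarith)
  have hTpos : 0 < T := by nlinarith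
  -- size comparisons
  set X := ρ ^ 6 * m * T with hX
  have hρ2 : 4 ≤ ρ ^ 2 := by nlinarith
  have hρ3 : 8 ≤ ρ ^ 3 := by
    have := pow_le_pow_left₀ (by norm_num : (0:ℝ) ≤ 2) hρ 3
    norm_num at this
    exact this
  have hρ4 : 16 ≤ ρ ^ 4 := by
    have := pow_le_pow_left₀ (by norm_num : (0:ℝ) ≤ 2) hρ 4
    norm_num at this
    exact this
  have c1 : ρ ^ 2 * T ≤ X / 16 := by
    have : 16 * (ρ ^ 2 * T) ≤ X := by
      calc 16 * (ρ ^ 2 * T) ≤ ρ ^ 4 * (ρ ^ 2 * T) :=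
            mul_le_mul_of_nonneg_right hρ4 (by positivity)
        _ = 1 * (ρ ^ 6 * T) := by ring
        _ ≤ m * (ρ ^ 6 * T) := mul_le_mul_of_nonneg_right hm (by positivity)
        _ = X := by rw [hX]; ring
    linarith
  have c2 : ρ ^ 3 * m * T ≤ X / 8 := by
    have : 8 * (ρ ^ 3 * m * T) ≤ X := by
      calc 8 * (ρ ^ 3 * m * T) ≤ ρ ^ 3 * (ρ ^ 3 * m * T) :=
            mul_le_mul_of_nonneg_right hρ3 (by positivity)
        _ = X := by rw [hX]; ring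
    linarith
  have c3 : ρ ^ 6 * m ^ 2 ≤ X / 12672 := by
    have h : (ρ ^ 6 * m) * (12672 * m) ≤ (ρ ^ 6 * m) * T :=
      mul_le_mul_of_nonneg_left hTm (by positivity)
    have : 12672 * (ρ ^ 6 * m ^ 2) ≤ X := by
      calc 12672 * (ρ ^ 6 * m ^ 2) = (ρ ^ 6 * m) * (12672 * m) := by ring
        _ ≤ X := h
    linarith
  have c4 : ρ ^ 3 ≤ T := by
    have h : ρ ^ 3 ≤ ρ ^ 7 := pow_le_pow_right₀ (by linarith) (by norm_num)
    nlinarith
  have c5 : ρ ^ 4 * m ≤ T := by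
    have h : ρ ^ 4 ≤ ρ ^ 7 := pow_le_pow_right₀ (by linarith) (by norm_num)
    have h' : ρ ^ 4 * m ≤ ρ ^ 7 * m := mul_le_mul_of_nonneg_right h (by linarith)
    have h'' : 0 ≤ ρ ^ 7 * m := by positivity
    linarith
  have c6 : T ≤ X / 64 := by
    have h : T ≤ ρ ^ 2 * T / 4 := by nlinarith
    linarith
  have c7 : 2 * T' * (ρ ^ 2 * (ρ * m)) + 12 * ρ * (ρ * m) * T' ≤
      8 * ρ ^ 3 * m * (T + 2 * ρ) := by
    have h : ρ ^ 2 * m ≤ ρ ^ 3 * m / 2 := by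
      have : ρ ^ 3 * m = ρ * (ρ ^ 2 * m) := by ring
      have : 0 ≤ ρ ^ 2 * m := by positivity
      nlinarith
    have h' : 2 * T' * (ρ ^ 2 * (ρ * m)) + 12 * ρ * (ρ * m) * T' =
        (2 * (ρ ^ 3 * m) + 12 * (ρ ^ 2 * m)) * T' := by ring
    rw [h']
    calc (2 * (ρ ^ 3 * m) + 12 * (ρ ^ 2 * m)) * T' ≤ (8 * (ρ ^ 3 * m)) * T' :=
          mul_le_mul_of_nonneg_right (by linarith) hT'0
      _ ≤ (8 * (ρ ^ 3 * m)) * (T + 2 * ρ) :=
          mul_le_mul_of_nonneg_left hT' (by positivity)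
      _ = _ := by ring
  have c8 : 8 * ρ ^ 3 * m * (T + 2 * ρ) = 8 * (ρ ^ 3 * m * T) + 16 * (ρ ^ 4 * m) := by ring
  have c9 : 18 * ρ ^ 4 * (ρ * m) ^ 2 = 18 * (ρ ^ 6 * m ^ 2) := by ring
  have c10 : (ρ - 1) * (4 * ρ * T + 4 * ρ ^ 2) ≤ 4 * (ρ ^ 2 * T) + 4 * ρ ^ 3 := by
    nlinarith [mul_pos (by linarith : 0 < ρ) hTpos, sq_nonneg ρ]
  have c11 : 0 ≤ 2 * T * P0 := by positivity
  have c12 : m / 8 ≤ T := by linarith
  have hXpos : 0 < X := by positivity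
  have h3' : 99 * X ≤ T ^ 2 / ρ := by
    calc 99 * X = 99 * ρ ^ 6 * m * T := by rw [hX]; ring
      _ ≤ _ := h3
  rw [c9]
  linarith

end par

end L2

theorem l2 (hB : StmtB) (hA : StmtALG) : StmtL2 := by
  intro r _ hr
  refine ⟨40, fun M hM L hL => ?_⟩
  have hP := L2.par_of hr hM hL
  set m : ℝ := (M : ℝ) with hmdef
  have hm40 : (40 : ℝ) ≤ m := by rw [hmdef]; exact_mod_cast hM
  have hm : 1 ≤ m := by linarith
  have hr' : (2 : ℝ) ≤ r := by exact_mod_cast hr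
  have hpos := L2.L_pos hr hm hP
  set D := srt r 0 L with hD
  have hlen : D.length = ∑ x ∈ range (2 * r), L x := L2.length_srt hA r 0 L
  set T : ℝ := ∑ x ∈ range (2 * r), (L x : ℝ) with hT
  have hlenT : (D.length : ℝ) = T := by rw [hlen, hT]; push_cast; rfl
  have hTge : 99 * (r : ℝ) ^ 7 * m ≤ T := L2.T_ge hr hm hP
  set w0 : ℕ → ℝ := fun i => (wt r D ((0 + i : ℕ) : ZMod (2 * r)) : ℝ) with hw0
  have hw0' : ∀ i < r, w0 i = (L i : ℝ) - L (i + r) := by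
    intro i hi
    rw [hw0]
    simp only [zero_add]
    rw [hD, L2.wt_srt hA r L hi]
    push_cast
    rfl
  have hlow := L2.Z_lower hA hr hm hP w0 T hw0' hT
  have hP0 : 0 ≤ L2.Pf r w0 := L2.P0_pos hA hr hm hP
  have hbd : ∀ γ : ℕ, ∀ i < r, |(wt r D ((γ + i : ℕ) : ZMod (2 * r)) : ℝ)| ≤ r * m :=
    fun γ i _ => L2.wt_bd hA hr hm hP (γ + i)
  have hRb : ∀ γ : ℕ, |L2.Rf r (fun i => (wt r D ((γ + i : ℕ) : ZMod (2 * r)) : ℝ))| ≤
      18 * (r : ℝ) ^ 6 * m ^ 2 := by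
    intro γ
    have h := L2.Rf_bd (by omega : 1 ≤ r) (by positivity : (0:ℝ) ≤ r * m) (hbd γ)
    calc _ ≤ 18 * (r : ℝ) ^ 4 * (r * m) ^ 2 := h
      _ = _ := by ring
  refine ⟨hpos, ?_, ?_⟩
  · intro D' hE hlen'
    obtain ⟨γ, hγ, f, hZ, hlf, hwf, _⟩ := L2.word_data hB hA r D D' hE
    set w : ℕ → ℝ := fun i => (wt r D ((γ + i : ℕ) : ZMod (2 * r)) : ℝ) with hw
    have hw' : ∀ i < r, w i = (f i : ℝ) - f (i + r) := by
      intro i hi
      rw [hw]
      simp only []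
      rw [← hwf i hi]
      push_cast
      rfl
    have hT' : (D'.length : ℝ) = ∑ x ∈ range (2 * r), (f x : ℝ) := by
      rw [hlf]; push_cast; rfl
    have hTT : (D'.length : ℝ) = T - 2 := by
      rw [← hlenT, ← hlen']
      push_cast
      ring
    have hup := L2.Z_upper1 hA f w (D'.length : ℝ) hw' hT'
    rw [hTT] at hup
    have har := L2.arith1 hr' hm hTge hP0 (Pc := L2.Pf r w) (R0 := L2.Rf r w0)
      (Rc := L2.Rf r w) (by
        rcases Nat.eq_zero_or_pos γ with h0 | h0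
        · left
          subst h0
          exact ⟨rfl, rfl⟩
        · right
          exact ⟨L2.P_gap hA hr hm hP h0 hγ, hRb γ, hRb 0⟩)
    have h1 : (Z r D' : ℝ) ≤ (Zs r (fun i => (f i : ℤ)) : ℝ) := by exact_mod_cast hZ
    have h2 : 4 * (r : ℝ) * (Z r D' : ℝ) < 4 * r * (Z r D : ℝ) := by
      have h3 := mul_le_mul_of_nonneg_left h1 (by positivity : (0:ℝ) ≤ 4 * r)
      linarith
    have h4 : (Z r D' : ℝ) < (Z r D : ℝ) := lt_of_mul_lt_mul_left h2 (by positivity)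
    exact_mod_cast h4
  · intro D' hE hlen' ⟨x, hx⟩
    obtain ⟨γ, hγ, f, hZ, hlf, hwf, hmiss⟩ := L2.word_data hB hA r D D' hE
    obtain ⟨k, hk, hfk⟩ := hmiss x hx
    set w : ℕ → ℝ := fun i => (wt r D ((γ + i : ℕ) : ZMod (2 * r)) : ℝ) with hw
    have hw' : ∀ i < r, w i = (f i : ℝ) - f (i + r) := by
      intro i hi
      rw [hw]
      simp only []
      rw [← hwf i hi]
      push_cast
      rfl
    have hT' : (D'.length : ℝ) = ∑ x ∈ range (2 * r), (f x : ℝ) := by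
      rw [hlf]; push_cast; rfl
    have hTT : (D'.length : ℝ) ≤ T + 2 * r := by
      rw [← hlenT]
      exact_mod_cast hlen'
    have hup := L2.Z_upper2 hA hr f w (D'.length : ℝ) (r * m) hw' (by positivity) (hbd γ) hT' hk hfk
    have har := L2.arith2 hr' hm hTge (Nat.cast_nonneg D'.length) hTT hP0 (hRb 0)
    have h1 : (Z r D' : ℝ) ≤ (Zs r (fun i => (f i : ℤ)) : ℝ) := by exact_mod_cast hZ
    have h2 : 4 * (r : ℝ) * (Z r D' : ℝ) < 4 * r * (Z r D : ℝ) := by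
      have h3 := mul_le_mul_of_nonneg_left h1 (by positivity : (0:ℝ) ≤ 4 * r)
      linarith
    have h4 : (Z r D' : ℝ) < (Z r D : ℝ) := lt_of_mul_lt_mul_left h2 (by positivity)
    exact_mod_cast h4

end Pool.Agent.T6.H25.GG
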