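import Pool.Agent.T6.H25.GG.Stmts

/-! Module MV of the project MP_b6554e_al: effect of the elementary moves on `wd`. -/

set_option autoImplicit false

namespace Pool.Agent.T6.H25.GG

open Finset

namespace MV

variable {r : ℕ}

lemma rpos [NeZero r] : 0 < r := Nat.pos_of_ne_zero (NeZero.ne r)

lemma rr [NeZero r] : (r : ZMod (2 * r)) + (r : ZMod (2 * r)) = 0 := by
  have : ((2 * r : ℕ) : ZMod (2 * r)) = 0 := ZMod.natCast_self _
  rw [← this]; push_cast; ring

lemma val_add_r [NeZero r] (k : ZMod (2 * r)) :
    (k + (r : ZMod (2 * r))).val = if k.val < r then k.val + r else k.val - r := by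
  have h0 := rpos (r := r)
  have h1 := ZMod.val_lt k
  rw [ZMod.val_add, ZMod.val_natCast, Nat.mod_eq_of_lt (show r < 2 * r by omega)]
  split_ifs with h
  · exact Nat.mod_eq_of_lt (by omega)
  · rw [Nat.mod_eq_sub_mod (by omega), Nat.mod_eq_of_lt (by omega)]
    omega

lemma b_add_r [NeZero r] (k : ZMod (2 * r)) : b r (k + (r : ZMod (2 * r))) = - b r k := by
  have h0 := rpos (r := r)
  have h1 := ZMod.val_lt k
  unfold b bt
  rw [val_add_r]
  split_ifs <;> omega

lemma b_neg [NeZero r] (k : ZMod (2 * r)) : b r (-k) = - b r k := by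
  have h0 := rpos (r := r)
  have h1 := ZMod.val_lt k
  unfold b bt
  rw [ZMod.neg_val]
  by_cases hk : k = 0
  · subst hk; simp
  · have hk' : k.val ≠ 0 := fun h => hk ((ZMod.val_eq_zero k).1 h)
    rw [if_neg hk]
    split_ifs <;> omega

lemma b_zero [NeZero r] : b r 0 = 0 := by simp [b, bt]

lemma b_r [NeZero r] : b r (r : ZMod (2 * r)) = 0 := by
  have := b_add_r (0 : ZMod (2 * r))
  rw [zero_add, b_zero] at this
  simpa using this

lemma b_sub_r [NeZero r] (k : ZMod (2 * r)) : b r (k - (r : ZMod (2 * r))) = - b r k := by
  have h := b_add_r (k - (r : ZMod (2 * r)))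
  rw [sub_add_cancel] at h
  rw [h]; ring

lemma ix_lt [NeZero r] (c x : ZMod (2 * r)) : ix r c x < 2 * r := ZMod.val_lt _

lemma ix_add_r [NeZero r] (c x : ZMod (2 * r)) : ix r c (x + (r : ZMod (2 * r))) =
    if ix r c x < r then ix r c x + r else ix r c x - r := by
  unfold ix
  rw [show x + (r : ZMod (2 * r)) - c = (x - c) + r by ring]
  exact val_add_r _

lemma ix_cast [NeZero r] (c x : ZMod (2 * r)) : c + ((ix r c x : ℕ) : ZMod (2 * r)) = x := by
  unfold ix
  rw [ZMod.natCast_zmod_val]
  ring

lemma ix_inj [NeZero r] {c x y : ZMod (2 * r)} : ix r c x = ix r c y ↔ x = y := by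
  constructor
  · intro h
    rw [← ix_cast c x, h, ix_cast]
  · intro h; rw [h]

lemma Zs_congr {L L' : ℕ → ℤ} (h : ∀ x < 2 * r, L x = L' x) : Zs r L = Zs r L' := by
  unfold Zs
  refine Finset.sum_congr rfl fun j hj => Finset.sum_congr rfl fun i hi => ?_
  rw [Finset.mem_range] at hj hi
  rw [h j hj, h i (by omega)]

lemma Zs_single (L : ℕ → ℤ) (p : ℕ) (hp : p < 2 * r) (z : ℤ) :
    Zs r (fun x => L x + (if x = p then z else 0)) =
      Zs r L + z * (∑ x ∈ range p, L x * bt r (p - x) + ∑ x ∈ Ioo p (2 * r), L x * bt r (x - p)) := by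
  unfold Zs
  have h1 : ∀ j ∈ range (2 * r), ∑ i ∈ range j, (L i + (if i = p then z else 0)) *
      (L j + (if j = p then z else 0)) * bt r (j - i) =
      ∑ i ∈ range j, L i * L j * bt r (j - i) +
      (∑ i ∈ range j, (if i = p then z * (L j * bt r (j - p)) else 0) +
      ∑ i ∈ range j, (if j = p then z * (L i * bt r (p - i)) else 0)) := by
    intro j _
    rw [← Finset.sum_add_distrib, ← Finset.sum_add_distrib]
    refine Finset.sum_congr rfl fun i hi => ?_
    rw [Finset.mem_range] at hi
    by_cases h1 : i = p
    · by_cases h2 : j = p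
      · omega
      · subst h1
        simp only [if_true, if_neg h2]
        ring
    · by_cases h2 : j = p
      · subst h2
        simp only [if_true, if_neg h1]
        ring
      · simp only [if_neg h1, if_neg h2]
        ring
  rw [Finset.sum_congr rfl h1, Finset.sum_add_distrib, Finset.sum_add_distrib]
  congr 1
  have h2 : ∑ j ∈ range (2 * r), ∑ i ∈ range j,
      (if i = p then z * (L j * bt r (j - p)) else 0) =
      z * ∑ x ∈ Ioo p (2 * r), L x * bt r (x - p) := by
    have e1 : ∀ j ∈ range (2 * r), ∑ i ∈ range j,
        (if i = p then z * (L j * bt r (j - p)) else 0) =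
        if p < j then z * (L j * bt r (j - p)) else 0 := by
      intro j _
      rw [Finset.sum_ite_eq' (range j) p (fun _ => z * (L j * bt r (j - p)))]
      simp only [Finset.mem_range]
    rw [Finset.sum_congr rfl e1, ← Finset.sum_filter, Finset.mul_sum]
    refine Finset.sum_congr ?_ fun _ _ => rfl
    ext x
    simp only [Finset.mem_filter, Finset.mem_range, Finset.mem_Ioo]
    tauto
  have h3 : ∑ j ∈ range (2 * r), ∑ i ∈ range j,
      (if j = p then z * (L i * bt r (p - i)) else 0) =
      z * ∑ x ∈ range p, L x * bt r (p - x) := by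
    rw [Finset.sum_eq_single p]
    · simp only [if_true]
      rw [Finset.mul_sum]
    · intro j _ hj
      simp only [if_neg hj, Finset.sum_const_zero]
    · intro h
      exact absurd (Finset.mem_range.2 hp) h
  rw [h2, h3]
  ring

lemma om_single [NeZero r] (a c : ZMod (2 * r)) (L L' : ℕ → ℕ) (p : ℕ) (hp : p < 2 * r) (z : ℤ)
    (h : ∀ x < 2 * r, (L' x : ℤ) = L x + (if x = p then z else 0)) :
    om r a c L' = om r a c L + z * b r (c + (p : ZMod (2 * r)) - a) := by
  unfold om
  have h1 : ∀ x ∈ range (2 * r), (L' x : ℤ) * b r (c + (x : ZMod (2 * r)) - a) =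
      (L x : ℤ) * b r (c + (x : ZMod (2 * r)) - a) +
        (if x = p then z * b r (c + (p : ZMod (2 * r)) - a) else 0) := by
    intro x hx
    rw [h x (Finset.mem_range.1 hx)]
    split_ifs with hxp
    · subst hxp; ring
    · ring
  rw [Finset.sum_congr rfl h1, Finset.sum_add_distrib,
    Finset.sum_ite_eq' (range (2 * r)) p (fun _ => z * b r (c + (p : ZMod (2 * r)) - a)),
    if_pos (Finset.mem_range.2 hp)]

lemma om_opp [NeZero r] (a c : ZMod (2 * r)) (L : ℕ → ℕ) :
    om r (a + (r : ZMod (2 * r))) c L = - om r a c L := by
  unfold om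
  rw [← Finset.sum_neg_distrib]
  refine Finset.sum_congr rfl fun x _ => ?_
  rw [show c + (x : ZMod (2 * r)) - (a + (r : ZMod (2 * r))) =
    (c + (x : ZMod (2 * r)) - a) - (r : ZMod (2 * r)) by ring, b_sub_r]
  ring

lemma sum_fold (f : ℕ → ℤ) (g : ℕ → ℤ) :
    ∑ x ∈ range (2 * r), f (if x < r then x else x - r) * g x =
      ∑ i ∈ range r, f i * (g i + g (r + i)) := by
  rw [two_mul, Finset.sum_range_add, ← Finset.sum_add_distrib]
  refine Finset.sum_congr rfl fun i hi => ?_
  rw [Finset.mem_range] at hi
  rw [if_pos hi, if_neg (by omega), Nat.add_sub_cancel_left]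
  ring

lemma tot_cast (m : ℕ) (L : ℕ → ℕ) (m' : ℕ) :
    (tot r m L m' : ℤ) = m + (∑ x ∈ range (2 * r), (L x : ℤ)) + m' := by
  unfold tot; push_cast; ring

end MV

open MV

theorem mv (hA : StmtALG) : StmtMV := by
  intro r _ a c a' m L m'
  obtain ⟨-, hZ, hpair, hcount, -, hom, -⟩ := hA r
  have h0 := rpos (r := r)
  refine ⟨?_, ?_, ?_, ?_, ?_, ?_⟩
  · -- pair moves
    intro y L' hL'
    have homg : ∀ a'' : ZMod (2 * r), om r a'' c L' = om r a'' c L := by
      intro a''
      unfold om
      have h1 : ∀ x ∈ range (2 * r), (L' x : ℤ) * b r (c + (x : ZMod (2 * r)) - a'') =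
          (L x : ℤ) * b r (c + (x : ZMod (2 * r)) - a'') +
          y (if x < r then x else x - r) * b r (c + (x : ZMod (2 * r)) - a'') := by
        intro x hx
        rw [hL' x (Finset.mem_range.1 hx)]
        ring
      rw [Finset.sum_congr rfl h1, Finset.sum_add_distrib,
        sum_fold y (fun x => b r (c + (x : ZMod (2 * r)) - a''))]
      have h2 : ∑ i ∈ range r, y i * (b r (c + (i : ZMod (2 * r)) - a'') +
          b r (c + ((r + i : ℕ) : ZMod (2 * r)) - a'')) = 0 := by
        refine Finset.sum_eq_zero fun i _ => ?_
        rw [show c + ((r + i : ℕ) : ZMod (2 * r)) - a'' = (c + (i : ZMod (2 * r)) - a'') +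
          (r : ZMod (2 * r)) by push_cast; ring, b_add_r]
        ring
      rw [h2, add_zero]
    refine ⟨?_, ?_, ?_, homg a⟩
    · intro x
      unfold wt
      rw [hcount, hcount, hcount, hcount]
      have e1 := hL' _ (ix_lt c x)
      have e2 := hL' _ (ix_lt c (x + (r : ZMod (2 * r))))
      have e3 : (if ix r c (x + (r : ZMod (2 * r))) < r then ix r c (x + (r : ZMod (2 * r)))
          else ix r c (x + (r : ZMod (2 * r))) - r) =
          (if ix r c x < r then ix r c x else ix r c x - r) := by
        rw [ix_add_r]
        have := ix_lt c x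
        split_ifs <;> omega
      rw [e3] at e2
      push_cast
      rw [e1, e2]
      ring
    · rw [tot_cast, tot_cast]
      have h1 : ∑ x ∈ range (2 * r), (L' x : ℤ) = ∑ x ∈ range (2 * r), (L x : ℤ) +
          ∑ x ∈ range (2 * r), y (if x < r then x else x - r) * 1 := by
        rw [← Finset.sum_add_distrib]
        refine Finset.sum_congr rfl fun x hx => ?_
        rw [hL' x (Finset.mem_range.1 hx)]
        ring
      rw [h1, sum_fold y (fun _ => 1)]
      have h2 : ∑ i ∈ range r, y i * (1 + 1) = 2 * ∑ i ∈ range r, y i := by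
        rw [Finset.mul_sum]; exact Finset.sum_congr rfl fun i _ => by ring
      rw [h2]
      ring
    · rw [hZ, hZ, homg a, homg a']
      have h1 : Zs r (fun i => (L' i : ℤ)) =
          Zs r (fun x => (L x : ℤ) + y (if x < r then x else x - r)) := Zs_congr hL'
      rw [h1, hpair (fun i => (L i : ℤ)) y]
      have h2 : ∑ i ∈ range r, (∑ x ∈ Ioo i (i + r), (L x : ℤ)) * y i =
          ∑ i ∈ range r, Gf r L i * y i := rfl
      rw [h2]
      ring
  · -- moving letters between the front block and the core
    intro k m1 L' hm1 hL'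
    have hp := ix_lt c a
    have hL'' : ∀ x < 2 * r, (L' x : ℤ) = L x + (if x = ix r c a then -k else 0) := by
      intro x hx
      rw [hL' x hx]
      split_ifs <;> ring
    have hcnt : ∀ x, ((wd r a c a' m1 L' m').count x : ℤ) = ((wd r a c a' m L m').count x : ℤ) := by
      intro x
      rw [hcount, hcount]
      push_cast
      rw [hL' _ (ix_lt c x)]
      by_cases hx : x = a
      · subst hx
        simp only [if_true]
        rw [hm1]; ring
      · have : ix r c x ≠ ix r c a := fun h => hx (ix_inj.1 h)
        simp only [if_neg hx, if_neg this]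
        ring
    refine ⟨?_, ?_, ?_⟩
    · intro x
      unfold wt
      rw [hcnt, hcnt]
    · have h1 : (tot r m1 L' m' : ℤ) = tot r m L m' := by
        rw [tot_cast, tot_cast, Finset.sum_congr rfl (fun x hx => hL'' x (Finset.mem_range.1 hx)),
          Finset.sum_add_distrib, Finset.sum_ite_eq' (range (2 * r)) (ix r c a) (fun _ => -k),
          if_pos (Finset.mem_range.2 hp), hm1]
        ring
      exact_mod_cast h1
    · rw [hZ, hZ, Zs_congr hL'', Zs_single _ _ hp, om_single a c L L' _ hp (-k) hL'',
        om_single a' c L L' _ hp (-k) hL'', ix_cast, sub_self, b_zero, hm1]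
      have h1 := hom a c L
      have h2 : b r (a' - a) = - b r (a - a') := by rw [← b_neg]; congr 1; ring
      have h3 : ∑ x ∈ range (ix r c a), (L x : ℤ) * bt r (ix r c a - x) = Hf r L (ix r c a) := rfl
      have h4 : ∑ x ∈ Ioo (ix r c a) (2 * r), (L x : ℤ) * bt r (x - ix r c a) =
        Ht r L (ix r c a) := rfl
      rw [h3, h4, h2, h1]
      ring
  · -- adding letters to the front block and the opposite letters to the core
    intro k m1 L' hm1 hL'
    have hp := ix_lt c (a + (r : ZMod (2 * r)))
    refine ⟨?_, ?_, ?_⟩
    · intro x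
      unfold wt
      rw [hcount, hcount, hcount, hcount]
      push_cast
      rw [hL' _ (ix_lt c x), hL' _ (ix_lt c (x + (r : ZMod (2 * r)))), hm1]
      have hrne : (r : ZMod (2 * r)) ≠ 0 := by
        intro h
        have h1 := congrArg ZMod.val h
        rw [ZMod.val_natCast, Nat.mod_eq_of_lt (by omega), ZMod.val_zero] at h1
        omega
      by_cases hx : x = a
      · subst hx
        have n1 : x + (r : ZMod (2 * r)) ≠ x := by
          intro h; exact hrne (by simpa using h)
        have n2 : ix r c x ≠ ix r c (x + (r : ZMod (2 * r))) := fun h => n1 (ix_inj.1 h).symm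
        simp only [if_true, if_neg n1, if_neg n2]
        ring
      · by_cases hx2 : x = a + (r : ZMod (2 * r))
        · subst hx2
          have e1 : a + (r : ZMod (2 * r)) + (r : ZMod (2 * r)) = a := by
            rw [add_assoc, rr, add_zero]
          rw [e1]
          have n2 : ix r c a ≠ ix r c (a + (r : ZMod (2 * r))) := by
            intro h; exact hx (ix_inj.1 h).symm
          simp only [if_true, if_neg hx, if_neg n2]
          ring
        · have n1 : ix r c x ≠ ix r c (a + (r : ZMod (2 * r))) := fun h => hx2 (ix_inj.1 h)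
          have n3 : x + (r : ZMod (2 * r)) ≠ a := by
            intro h
            apply hx2
            rw [← h, add_assoc, rr, add_zero]
          have n4 : ix r c (x + (r : ZMod (2 * r))) ≠ ix r c (a + (r : ZMod (2 * r))) := by
            intro h
            exact hx (add_right_cancel (ix_inj.1 h))
          simp only [if_neg hx, if_neg n1, if_neg n3, if_neg n4]
          ring
    · rw [tot_cast, tot_cast, Finset.sum_congr rfl (fun x hx => hL' x (Finset.mem_range.1 hx)),
        Finset.sum_add_distrib, Finset.sum_ite_eq' (range (2 * r)) _ (fun _ => k),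
        if_pos (Finset.mem_range.2 hp), hm1]
      ring
    · rw [hZ, hZ, Zs_congr hL', Zs_single _ _ hp, om_single a c L L' _ hp k hL',
        om_single a' c L L' _ hp k hL', ix_cast, hm1]
      have h1 := hom (a + (r : ZMod (2 * r))) c L
      rw [om_opp] at h1
      have h2 : b r (a + (r : ZMod (2 * r)) - a) = 0 := by
        rw [add_sub_cancel_left, b_r]
      have h5 : b r (a + (r : ZMod (2 * r)) - a') = b r (a' - a) := by
        rw [show a + (r : ZMod (2 * r)) - a' = -(a' - a) + (r : ZMod (2 * r)) by ring, b_add_r,
          b_neg]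
        ring
      have h3 : ∑ x ∈ range (ix r c (a + (r : ZMod (2 * r)))), (L x : ℤ) *
        bt r (ix r c (a + (r : ZMod (2 * r))) - x) = Hf r L (ix r c (a + (r : ZMod (2 * r)))) := rfl
      have h4 : ∑ x ∈ Ioo (ix r c (a + (r : ZMod (2 * r)))) (2 * r), (L x : ℤ) *
        bt r (x - ix r c (a + (r : ZMod (2 * r)))) = Ht r L (ix r c (a + (r : ZMod (2 * r)))) := rfl
      rw [h3, h4, h2, h5]
      have h6 : om r a c L = Hf r L (ix r c (a + (r : ZMod (2 * r)))) -
          Ht r L (ix r c (a + (r : ZMod (2 * r)))) := by linarith
      rw [h6]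
      ring
  · -- opposite letters at both ends
    intro ha k m1 m1' hm1 hm1'
    subst ha
    refine ⟨?_, ?_, ?_⟩
    · intro x
      unfold wt
      rw [hcount, hcount, hcount, hcount]
      push_cast
      rw [hm1, hm1']
      by_cases hx : x = a
      · subst hx
        simp only [if_true]
        by_cases hx2 : x = x + (r : ZMod (2 * r))
        · rw [← hx2]; simp only [if_true]; ring
        · have hx3 : x + (r : ZMod (2 * r)) ≠ x := fun h => hx2 h.symm
          simp only [if_neg hx2, if_neg hx3]; ring
      · by_cases hx2 : x = a + (r : ZMod (2 * r))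
        · subst hx2
          have e1 : a + (r : ZMod (2 * r)) + (r : ZMod (2 * r)) = a := by
            rw [add_assoc, rr, add_zero]
          have n1 : a ≠ a + (r : ZMod (2 * r)) := fun h => hx h.symm
          rw [e1]
          simp only [if_true, if_neg hx, if_neg n1]
          ring
        · have n3 : x + (r : ZMod (2 * r)) ≠ a := by
            intro h
            apply hx2
            rw [← h, add_assoc, rr, add_zero]
          have n4 : x + (r : ZMod (2 * r)) ≠ a + (r : ZMod (2 * r)) := by
            intro h
            exact hx (add_right_cancel h)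
          simp only [if_neg hx, if_neg hx2, if_neg n3, if_neg n4]
    · rw [tot_cast, tot_cast, hm1, hm1']
      ring
    · rw [hZ, hZ, hm1, hm1', add_sub_cancel_left, b_r, om_opp]
      ring
  · -- equal letters at both ends
    intro ha k m1 m1' hm1 hm1'
    subst ha
    refine ⟨?_, ?_, ?_⟩
    · intro x
      unfold wt
      rw [hcount, hcount, hcount, hcount]
      push_cast
      rw [hm1, hm1']
      split_ifs <;> ring
    · have h1 : (tot r m1 L m1' : ℤ) = tot r m L m' := by
        rw [tot_cast, tot_cast, hm1, hm1']
        ring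
      exact_mod_cast h1
    · rw [hZ, hZ, hm1, hm1', sub_self, b_zero]
      ring
  · -- the change of `Hf`
    intro k j y L' hj hy hyj hyjr hL'
    constructor
    · have h1 : Hf r L' y - Hf r L y =
          ∑ x ∈ range y, (if x = j ∨ x = j + r then k * bt r (y - x) else 0) := by
        unfold Hf
        rw [← Finset.sum_sub_distrib]
        refine Finset.sum_congr rfl fun x hx => ?_
        rw [hL' x (by have := Finset.mem_range.1 hx; omega)]
        split_ifs <;> ring
      have h2 : ∑ x ∈ range y, (if x = j ∨ x = j + r then k * bt r (y - x) else 0) =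
          (if j < y then k * bt r (y - j) else 0) + (if j + r < y then k * bt r (y - (j + r)) else 0) := by
        have e : ∀ x ∈ range y, (if x = j ∨ x = j + r then k * bt r (y - x) else 0) =
            (if x = j then k * bt r (y - j) else 0) +
            (if x = j + r then k * bt r (y - (j + r)) else 0) := by
          intro x _
          by_cases e1 : x = j
          · subst e1
            have : x ≠ x + r := by omega
            simp [h0.ne']
          · by_cases e2 : x = j + r
            · subst e2
              have : j + r ≠ j := by omega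
              simp [h0.ne']
            · simp [e1, e2]
        rw [Finset.sum_congr rfl e, Finset.sum_add_distrib,
          Finset.sum_ite_eq' (range y) j (fun _ => k * bt r (y - j)),
          Finset.sum_ite_eq' (range y) (j + r) (fun _ => k * bt r (y - (j + r)))]
        simp only [Finset.mem_range]
      rw [h1, h2]
      by_cases c1 : j < y
      · by_cases c2 : j + r < y
        · rw [if_pos c1, if_pos c2]
          have b1 : bt r (y - j) = -1 := by
            unfold bt
            rw [if_neg (by omega), if_neg (by omega)]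
          have b2 : bt r (y - (j + r)) = 1 := by
            unfold bt
            rw [if_neg (by omega), if_pos (by omega)]
          rw [b1, b2]
          simp
        · rw [if_pos c1, if_neg c2]
          have b1 : bt r (y - j) = 1 := by
            unfold bt
            rw [if_neg (by omega), if_pos (by omega)]
          rw [b1]
          simp
      · rw [if_neg c1, if_neg (by omega)]
        simp
    · unfold Gf
      refine Finset.sum_congr rfl fun x hx => ?_
      rw [Finset.mem_Ioo] at hx
      rw [hL' x (by omega), if_neg (by omega), add_zero]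

end Pool.Agent.T6.H25.GG
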