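import Pool.Agent.T6.H25.GG.Stmts

/-!
Geodesic growth (MP_b6554e_al), module PAR: the sign form, the area of a product, parity of the
area and of the length.
-/

set_option autoImplicit false

namespace Pool.Agent.T6.H25.GG

namespace PAR

lemma b_zero (r : ℕ) [NeZero r] : b r 0 = 0 := by
  simp [b, bt]

lemma val_neg' (r : ℕ) [NeZero r] (k : ZMod (2 * r)) :
    (-k).val = if k.val = 0 then 0 else 2 * r - k.val := by
  have : NeZero (2 * r) := ⟨by have := NeZero.ne r; omega⟩
  rw [ZMod.neg_val]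
  by_cases h : k = 0
  · simp [h]
  · have h' : k.val ≠ 0 := by rwa [Ne, ZMod.val_eq_zero]
    simp [h]

lemma val_add_r (r : ℕ) [NeZero r] (k : ZMod (2 * r)) :
    (k + (r : ZMod (2 * r))).val = if k.val < r then k.val + r else k.val - r := by
  have : NeZero (2 * r) := ⟨by have := NeZero.ne r; omega⟩
  have hr : 0 < r := Nat.pos_of_ne_zero (NeZero.ne r)
  have hk := ZMod.val_lt k
  have h1 : ((r : ℕ) : ZMod (2 * r)).val = r := ZMod.val_cast_of_lt (by omega)
  rw [ZMod.val_add, h1]
  split_ifs with h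
  · exact Nat.mod_eq_of_lt (by omega)
  · have h2 : k.val + r = (k.val - r) + 2 * r := by omega
    rw [h2, Nat.add_mod_right]
    exact Nat.mod_eq_of_lt (by omega)

lemma b_neg (r : ℕ) [NeZero r] (k : ZMod (2 * r)) : b r (-k) = - b r k := by
  have : NeZero (2 * r) := ⟨by have := NeZero.ne r; omega⟩
  have hr : 0 < r := Nat.pos_of_ne_zero (NeZero.ne r)
  have hk := ZMod.val_lt k
  unfold b
  rw [val_neg']
  unfold bt
  split_ifs <;> first | rfl | omega

lemma b_add_r (r : ℕ) [NeZero r] (k : ZMod (2 * r)) :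
    b r (k + (r : ZMod (2 * r))) = - b r k := by
  have : NeZero (2 * r) := ⟨by have := NeZero.ne r; omega⟩
  have hr : 0 < r := Nat.pos_of_ne_zero (NeZero.ne r)
  have hk := ZMod.val_lt k
  unfold b
  rw [val_add_r]
  unfold bt
  split_ifs <;> first | rfl | omega

lemma b_sub_r (r : ℕ) [NeZero r] (k : ZMod (2 * r)) :
    b r (k - (r : ZMod (2 * r))) = - b r k := by
  have h := b_add_r r (k - (r : ZMod (2 * r)))
  rw [sub_add_cancel] at h
  omega

lemma r_add_r (r : ℕ) : (r : ZMod (2 * r)) + (r : ZMod (2 * r)) = 0 := by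
  have h : ((2 * r : ℕ) : ZMod (2 * r)) = 0 := ZMod.natCast_self _
  rw [← h]
  push_cast
  ring

lemma r_ne_zero (r : ℕ) [NeZero r] : (r : ZMod (2 * r)) ≠ 0 := by
  have : NeZero (2 * r) := ⟨by have := NeZero.ne r; omega⟩
  have hr : 0 < r := Nat.pos_of_ne_zero (NeZero.ne r)
  have h1 : ((r : ℕ) : ZMod (2 * r)).val = r := ZMod.val_cast_of_lt (by omega)
  intro h
  rw [h] at h1
  simp at h1
  omega

lemma Z_append (r : ℕ) (A B : List (ZMod (2 * r))) : Z r (A ++ B) = Z r A + Z r B +
    (A.map (fun x => (B.map (fun y => b r (y - x))).sum)).sum := by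
  induction A with
  | nil => simp [Z]
  | cons x A ih =>
    simp only [List.cons_append, Z, List.map_append, List.sum_append, ih, List.map_cons,
      List.sum_cons]
    ring

lemma Z_perm (r : ℕ) [NeZero r] {D D' : List (ZMod (2 * r))} (h : D.Perm D') :
    ∃ k : ℤ, Z r D = Z r D' + 2 * k := by
  induction h with
  | nil => exact ⟨0, by ring⟩
  | cons x h ih =>
    obtain ⟨k, hk⟩ := ih
    refine ⟨k, ?_⟩
    simp only [Z]
    rw [hk, (h.map (fun y => b r (y - x))).sum_eq]
    ring
  | swap x y l =>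
    refine ⟨b r (x - y), ?_⟩
    simp only [Z, List.map_cons, List.sum_cons]
    have h : b r (y - x) = - b r (x - y) := by
      rw [← b_neg, neg_sub]
    rw [h]
    ring
  | trans _ _ ih1 ih2 =>
    obtain ⟨k1, h1⟩ := ih1
    obtain ⟨k2, h2⟩ := ih2
    exact ⟨k1 + k2, by rw [h1, h2]; ring⟩

lemma sum_pair (r : ℕ) [NeZero r] (x : ZMod (2 * r)) (B : List (ZMod (2 * r))) :
    (B.map (fun y => b r (y - x))).sum +
      (B.map (fun y => b r (y - (x + (r : ZMod (2 * r)))))).sum = 0 := by
  induction B with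
  | nil => simp
  | cons y B ih =>
    simp only [List.map_cons, List.sum_cons]
    have h : b r (y - (x + (r : ZMod (2 * r)))) = - b r (y - x) := by
      rw [← b_sub_r]
      congr 1
      ring
    rw [h]
    linarith

lemma Z_ins (r : ℕ) [NeZero r] (A B : List (ZMod (2 * r))) (x : ZMod (2 * r)) :
    Z r (A ++ x :: (x + (r : ZMod (2 * r))) :: B) = Z r (A ++ B) := by
  have h1 : Z r (x :: (x + (r : ZMod (2 * r))) :: B) = Z r B := by
    have h2 := sum_pair r x B
    simp only [Z, List.map_cons, List.sum_cons]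
    have h3 : b r (x + (r : ZMod (2 * r)) - x) = 0 := by
      have : x + (r : ZMod (2 * r)) - x = 0 + (r : ZMod (2 * r)) := by ring
      rw [this, b_add_r, b_zero]
      rfl
    rw [h3]
    linarith
  rw [Z_append, Z_append, h1]
  congr 2
  refine List.map_congr_left fun a _ => ?_
  simp only [List.map_cons, List.sum_cons]
  have h3 : b r (x + (r : ZMod (2 * r)) - a) = - b r (x - a) := by
    rw [← b_add_r]
    congr 1
    ring
  rw [h3]
  ring

lemma wt_append (r : ℕ) (A B : List (ZMod (2 * r))) (x : ZMod (2 * r)) :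
    wt r (A ++ B) x = wt r A x + wt r B x := by
  simp only [wt, List.count_append]
  push_cast
  ring

lemma wt_ins (r : ℕ) [NeZero r] (A B : List (ZMod (2 * r))) (x : ZMod (2 * r)) :
    Eqw r (A ++ x :: (x + (r : ZMod (2 * r))) :: B) (A ++ B) := by
  intro z
  rw [wt_append, wt_append]
  congr 1
  have hrr := r_add_r r
  have e1 : (x = z) ↔ (x + (r : ZMod (2 * r)) = z + (r : ZMod (2 * r))) := by
    constructor
    · rintro rfl; rfl
    · intro h; exact add_right_cancel h
  have e2 : (x + (r : ZMod (2 * r)) = z) ↔ (x = z + (r : ZMod (2 * r))) := by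
    constructor
    · rintro rfl
      rw [add_assoc, hrr, add_zero]
    · rintro rfl
      rw [add_assoc, hrr, add_zero]
  simp only [wt, List.count_cons, beq_iff_eq]
  by_cases h1 : x = z <;> by_cases h2 : x + (r : ZMod (2 * r)) = z
  · have h1' := e1.1 h1
    have h2' := e2.1 h2
    simp only [if_pos h1, if_pos h2, if_pos h1', if_pos h2']
    push_cast
    ring
  · have h1' := e1.1 h1
    have h2' := fun h => h2 (e2.2 h)
    simp only [if_pos h1, if_neg h2, if_pos h1', if_neg h2']
    push_cast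
    ring
  · have h1' := fun h => h1 (e1.2 h)
    have h2' := e2.1 h2
    simp only [if_neg h1, if_pos h2, if_neg h1', if_pos h2']
    push_cast
    ring
  · have h1' := fun h => h1 (e1.2 h)
    have h2' := fun h => h2 (e2.2 h)
    simp only [if_neg h1, if_neg h2, if_neg h1', if_neg h2']
    push_cast
    ring

lemma wt_perm (r : ℕ) {D D' : List (ZMod (2 * r))} (h : D.Perm D') : Eqw r D D' := by
  intro x
  simp only [wt, h.count_eq]

/-- a word can be reduced -/
lemma red (r : ℕ) [NeZero r] : ∀ (n : ℕ) (D : List (ZMod (2 * r))), D.length ≤ n →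
    ∃ D0 : List (ZMod (2 * r)), (∀ x ∈ D0, x + (r : ZMod (2 * r)) ∉ D0) ∧ Eqw r D D0 ∧
      (∃ k : ℤ, Z r D = Z r D0 + 2 * k) ∧ (∃ k : ℤ, (D.length : ℤ) = D0.length + 2 * k) := by
  intro n
  induction n with
  | zero =>
    intro D hD
    have : D = [] := List.length_eq_zero_iff.1 (by omega)
    subst this
    exact ⟨[], by simp, fun x => rfl, ⟨0, by ring⟩, ⟨0, by ring⟩⟩
  | succ n ih =>
    intro D hD
    by_cases h : ∀ x ∈ D, x + (r : ZMod (2 * r)) ∉ D
    · exact ⟨D, h, fun x => rfl, ⟨0, by ring⟩, ⟨0, by ring⟩⟩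
    · push Not at h
      obtain ⟨x, hx, hxr⟩ := h
      have hne : x + (r : ZMod (2 * r)) ≠ x := by
        intro h
        exact r_ne_zero r (by simpa using h)
      have h1 : x + (r : ZMod (2 * r)) ∈ D.erase x := (List.mem_erase_of_ne hne).2 hxr
      have hp : D.Perm (x :: (x + (r : ZMod (2 * r))) ::
          ((D.erase x).erase (x + (r : ZMod (2 * r))))) :=
        (List.perm_cons_erase hx).trans ((List.perm_cons_erase h1).cons x)
      set D1 := (D.erase x).erase (x + (r : ZMod (2 * r))) with hD1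
      have hlen : D.length = D1.length + 2 := by
        rw [hp.length_eq]; simp
      obtain ⟨D0, a1, a2, ⟨k, hk⟩, ⟨l, hl⟩⟩ := ih D1 (by omega)
      obtain ⟨k', hk'⟩ := Z_perm r hp
      have hz := Z_ins r [] D1 x
      have hw := wt_ins r [] D1 x
      simp only [List.nil_append] at hz hw
      refine ⟨D0, a1, fun z => ?_, ⟨k + k', ?_⟩, ⟨l + 1, ?_⟩⟩
      · rw [wt_perm r hp z, hw z, a2 z]
      · rw [hk', hz, hk]; ring
      · rw [hlen]; push_cast; rw [hl]; ring

lemma count_of_red (r : ℕ) [NeZero r] (D : List (ZMod (2 * r)))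
    (h : ∀ x ∈ D, x + (r : ZMod (2 * r)) ∉ D) (x : ZMod (2 * r)) :
    (D.count x : ℤ) = max (wt r D x) 0 := by
  unfold wt
  by_cases hx : x ∈ D
  · rw [List.count_eq_zero_of_not_mem (h x hx)]
    simp
  · rw [List.count_eq_zero_of_not_mem hx]
    simp

lemma eqw_parity (r : ℕ) [NeZero r] (D D' : List (ZMod (2 * r))) (h : Eqw r D D') :
    (∃ k : ℤ, Z r D = Z r D' + 2 * k) ∧ (∃ k : ℤ, (D.length : ℤ) = D'.length + 2 * k) := by
  obtain ⟨D0, a1, a2, ⟨k, hk⟩, ⟨l, hl⟩⟩ := red r _ D le_rfl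
  obtain ⟨D0', a1', a2', ⟨k', hk'⟩, ⟨l', hl'⟩⟩ := red r _ D' le_rfl
  have hp : D0.Perm D0' := by
    rw [List.perm_iff_count]
    intro x
    have h1 := count_of_red r D0 a1 x
    have h2 := count_of_red r D0' a1' x
    have h3 : wt r D0 x = wt r D0' x := by
      rw [← a2 x, ← a2' x, h x]
    rw [h3] at h1
    omega
  obtain ⟨j, hj⟩ := Z_perm r hp
  have hl3 := hp.length_eq
  refine ⟨⟨k - k' + j, ?_⟩, ⟨l - l', ?_⟩⟩
  · rw [hk, hk', hj]; ring
  · rw [hl, hl', hl3]; ring

end PAR

theorem par : StmtPAR := by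
  intro r _
  exact ⟨fun k => ⟨PAR.b_neg r k, PAR.b_add_r r k⟩, PAR.Z_append r, fun D D' h => PAR.Z_perm r h,
    PAR.eqw_parity r, fun A B x => ⟨PAR.Z_ins r A B x, PAR.wt_ins r A B x⟩⟩

end Pool.Agent.T6.H25.GG
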