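import Pool.Agent.T6.H25.GG.Stmts

set_option autoImplicit false

namespace Pool.Agent.T6.H25.GG

open Finset

namespace Q

variable {r : ℕ}

/-- first run of a nonempty word -/
lemma firstRun (D : List (ZMod (2 * r))) : ∀ x : ZMod (2 * r), ∃ (m : ℕ) (V : List (ZMod (2 * r))),
    x :: D = List.replicate (m + 1) x ++ V ∧
      ((V = [] ∧ chg r (x :: D) = 0) ∨ (V ≠ [] ∧ chg r (x :: D) = chg r V + 1)) := by
  induction D with
  | nil => intro x; exact ⟨0, [], by simp, Or.inl ⟨rfl, by simp [chg]⟩⟩
  | cons y D ih =>
    intro x
    by_cases h : y = x
    · subst h
      obtain ⟨m, V, h1, h2⟩ := ih y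
      refine ⟨m + 1, V, ?_, ?_⟩
      · rw [h1, List.replicate_succ (n := m + 1)]; rfl
      · simpa [chg] using h2
    · refine ⟨0, y :: D, by simp, Or.inr ⟨by simp, ?_⟩⟩
      simp [chg, h, Nat.add_comm]

lemma card_le_chg : ∀ D : List (ZMod (2 * r)), D.toFinset.card ≤ chg r D + 1 := by
  intro D
  induction D with
  | nil => simp
  | cons x D ih =>
    cases D with
    | nil => simp [chg]
    | cons y D =>
      simp only [chg]
      by_cases h : y = x
      · subst h
        have : (y :: y :: D).toFinset = (y :: D).toFinset := by simp
        rw [this]; simpa using ih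
      · simp only [h, if_false]
        have h1 : (x :: y :: D).toFinset.card ≤ (y :: D).toFinset.card + 1 := by
          rw [List.toFinset_cons]
          exact Finset.card_insert_le _ _
        omega

/-- all candidates -/
noncomputable def W [NeZero r] (n : ℕ) : ℕ → ℕ → (ZMod (2 * r) → ℕ) → Finset (List (ZMod (2 * r)))
  | 0, _, _ => {[]}
  | k + 1, e, L => ({[]} ∪ (univ : Finset (ZMod (2 * r))).biUnion (fun x =>
      (W n k e (Function.update L x 0)).image (fun V => List.replicate (L x) x ++ V))) ∪
      (if e = 0 then ∅ else (univ : Finset (ZMod (2 * r))).biUnion (fun x =>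
        (range (n + 1)).biUnion (fun m =>
        (W n k (e - 1) (Function.update L x (L x - m))).image
          (fun V => List.replicate m x ++ V))))

lemma W_card [NeZero r] (n : ℕ) : ∀ (k e : ℕ) (L : ZMod (2 * r) → ℕ),
    (W n k e L).card ≤ (1 + 4 * r) ^ k * (n + 1) ^ e := by
  intro k
  induction k with
  | zero => intro e L; simp [W, Nat.one_le_iff_ne_zero]
  | succ k ih =>
    intro e L
    have hA : ((univ : Finset (ZMod (2 * r))).biUnion (fun x =>
      (W n k e (Function.update L x 0)).image (fun V => List.replicate (L x) x ++ V))).card ≤
        2 * r * ((1 + 4 * r) ^ k * (n + 1) ^ e) := by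
      refine (Finset.card_biUnion_le).trans ?_
      refine (Finset.sum_le_card_nsmul _ _ ((1 + 4 * r) ^ k * (n + 1) ^ e) ?_).trans ?_
      · intro x _
        exact Finset.card_image_le.trans (ih e _)
      · simp [ZMod.card]
    have hB : (if e = 0 then ∅ else (univ : Finset (ZMod (2 * r))).biUnion (fun x =>
        (range (n + 1)).biUnion (fun m =>
        (W n k (e - 1) (Function.update L x (L x - m))).image
          (fun V => List.replicate m x ++ V)))).card ≤
        2 * r * ((1 + 4 * r) ^ k * (n + 1) ^ e) := by
      split_ifs with he
      · simp
      · refine (Finset.card_biUnion_le).trans ?_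
        refine (Finset.sum_le_card_nsmul _ _ ((1 + 4 * r) ^ k * (n + 1) ^ e) ?_).trans ?_
        · intro x _
          refine (Finset.card_biUnion_le).trans ?_
          refine (Finset.sum_le_card_nsmul _ _ ((1 + 4 * r) ^ k * (n + 1) ^ (e - 1)) ?_).trans ?_
          · intro m _
            exact Finset.card_image_le.trans (ih (e - 1) _)
          · obtain ⟨e', rfl⟩ : ∃ e', e = e' + 1 := ⟨e - 1, by omega⟩
            simp only [Finset.card_range, smul_eq_mul, Nat.add_sub_cancel]
            apply le_of_eq; ring
        · simp [ZMod.card]
    have h1 : 1 ≤ (1 + 4 * r) ^ k * (n + 1) ^ e := by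
      apply Nat.one_le_iff_ne_zero.2
      positivity
    simp only [W]
    refine (Finset.card_union_le _ _).trans ?_
    have h2 := Finset.card_union_le ({[]} : Finset (List (ZMod (2 * r))))
      ((univ : Finset (ZMod (2 * r))).biUnion (fun x =>
      (W n k e (Function.update L x 0)).image (fun V => List.replicate (L x) x ++ V)))
    rw [Finset.card_singleton] at h2
    have h3 : (1 + 4 * r) ^ (k + 1) * (n + 1) ^ e =
      (1 + 4 * r) ^ k * (n + 1) ^ e + 2 * r * ((1 + 4 * r) ^ k * (n + 1) ^ e) +
        2 * r * ((1 + 4 * r) ^ k * (n + 1) ^ e) := by ring
    omega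

lemma mem_W [NeZero r] (n : ℕ) : ∀ (k e : ℕ) (L : ZMod (2 * r) → ℕ) (U : List (ZMod (2 * r))),
    (∀ x, U.count x = L x) → U.length ≤ n →
    (U = [] ∨ (chg r U + 1 ≤ k ∧ chg r U + 1 ≤ U.toFinset.card + e)) → U ∈ W n k e L := by
  intro k
  induction k with
  | zero =>
    intro e L U _ _ h
    rcases h with h | h
    · simp [W, h]
    · omega
  | succ k ih =>
    intro e L U hL hn h
    rcases h with h | ⟨h1, h2⟩
    · simp [W, h]
    · cases U with
      | nil => simp [W]
      | cons x D =>
        obtain ⟨m, V, hV, hc⟩ := firstRun D x
        have hlen : (x :: D).length = m + 1 + V.length := by rw [hV]; simp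
        by_cases hx : x ∈ V
        · -- extra run
          have hVne : V ≠ [] := by rintro rfl; simp at hx
          have hc' : chg r (x :: D) = chg r V + 1 := by
            rcases hc with ⟨h3, _⟩ | ⟨_, h3⟩
            · exact absurd h3 hVne
            · exact h3
          have hfs : (x :: D).toFinset = V.toFinset := by
            rw [hV, List.toFinset_append]
            apply Finset.union_eq_right.2
            intro y hy
            rw [List.mem_toFinset] at hy ⊢
            rw [List.eq_of_mem_replicate hy]; exact hx
          rw [hfs] at h2
          have h4 := card_le_chg V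
          have he : e ≠ 0 := by omega
          have hmem : V ∈ W n k (e - 1) (Function.update L x (L x - (m + 1))) := by
            apply ih
            · intro y
              have h5 := hL y
              rw [hV, List.count_append, List.count_replicate] at h5
              by_cases hy : y = x
              · subst hy
                simp only [beq_self_eq_true, if_true] at h5
                rw [Function.update_self]; omega
              · rw [Function.update_of_ne hy]
                rw [← h5]
                simp [Ne.symm hy]
            · omega
            · right; omega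
          simp only [W]
          apply Finset.mem_union_right
          rw [if_neg he]
          simp only [Finset.mem_biUnion, Finset.mem_univ, true_and, Finset.mem_image,
            Finset.mem_range]
          exact ⟨x, m + 1, by omega, V, hmem, hV.symm⟩
        · have hm : m + 1 = L x := by
            have h5 := hL x
            rw [hV, List.count_append, List.count_replicate, List.count_eq_zero_of_not_mem hx] at h5
            simpa using h5
          have hmem : V ∈ W n k e (Function.update L x 0) := by
            apply ih
            · intro y
              by_cases hy : y = x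
              · subst hy
                rw [Function.update_self, List.count_eq_zero_of_not_mem hx]
              · rw [Function.update_of_ne hy]
                have h5 := hL y
                rw [hV, List.count_append, List.count_replicate] at h5
                rw [← h5]
                simp [Ne.symm hy]
            · omega
            · rcases hc with ⟨h3, _⟩ | ⟨_, hc'⟩
              · exact Or.inl h3
              · right
                have hfs : (x :: D).toFinset = insert x V.toFinset := by
                  rw [hV, List.toFinset_append, List.toFinset_replicate_of_ne_zero (by omega)]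
                  rfl
                rw [hfs, Finset.card_insert_of_notMem (by simpa using hx)] at h2
                omega
          simp only [W]
          apply Finset.mem_union_left
          apply Finset.mem_union_right
          simp only [Finset.mem_biUnion, Finset.mem_univ, true_and, Finset.mem_image]
          exact ⟨x, V, hmem, by rw [← hm]; exact hV.symm⟩

lemma count_eq [NeZero r] (c : ZMod (2 * r)) (U : List (ZMod (2 * r))) (x : ZMod (2 * r)) :
    U.count x = cnts r c U ((x - c).val) := by
  unfold cnts
  rw [if_pos (ZMod.val_lt _)]
  rw [ZMod.natCast_val, ZMod.cast_id]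
  congr 1
  ring

end Q

theorem q : StmtQ := by
  classical
  intro r _
  refine ⟨(1 + 4 * r) ^ (2 * r + 5), ?_⟩
  intro n c F hF
  let S : Finset (List (ZMod (2 * r))) :=
    hF.toFinset.biUnion (fun L => Q.W n (2 * r + 5) 5 (fun x => L ((x - c).val)))
  have hsub : {U : List (ZMod (2 * r)) | U.length ≤ n ∧ chg r U ≤ U.toFinset.card + 4 ∧
    cnts r c U ∈ F} ⊆ (S : Set (List (ZMod (2 * r)))) := by
    rintro U ⟨h1, h2, h3⟩
    simp only [S, Finset.coe_biUnion, Set.mem_iUnion, Finset.mem_coe, Set.Finite.mem_toFinset]
    refine ⟨cnts r c U, h3, ?_⟩
    apply Q.mem_W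
    · intro x; exact Q.count_eq c U x
    · exact h1
    · right
      have h4 : U.toFinset.card ≤ 2 * r := by
        have := Finset.card_le_univ U.toFinset
        rwa [ZMod.card] at this
      omega
  have h1 : Set.ncard {U : List (ZMod (2 * r)) | U.length ≤ n ∧ chg r U ≤ U.toFinset.card + 4 ∧
    cnts r c U ∈ F} ≤ S.card := by
    rw [← Set.ncard_coe_finset]
    exact Set.ncard_le_ncard hsub (Finset.finite_toSet S)
  refine h1.trans ?_
  refine (Finset.card_biUnion_le).trans ?_
  refine (Finset.sum_le_card_nsmul _ _ ((1 + 4 * r) ^ (2 * r + 5) * (n + 1) ^ 5) ?_).trans ?_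
  · intro L _
    exact Q.W_card n _ _ _
  · rw [smul_eq_mul, Set.ncard_eq_toFinset_card F hF]
    apply le_of_eq; ring

end Pool.Agent.T6.H25.GG
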