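import Pool.Agent.T6.H25.GG.Stmts

/-! Module SYM of the project MP_b6554e_al: the two symmetries. -/

set_option autoImplicit false

namespace Pool.Agent.T6.H25.GG

open Finset

namespace SYM

theorem rr (r : ℕ) : (r : ZMod (2 * r)) + (r : ZMod (2 * r)) = 0 := by
  have h : ((2 * r : ℕ) : ZMod (2 * r)) = 0 := ZMod.natCast_self _
  push_cast at h
  rw [← two_mul]
  exact h

theorem sum_map_neg (r : ℕ) (D : List (ZMod (2 * r))) (f : ZMod (2 * r) → ℤ) :
    (D.map (fun y => - f y)).sum = - (D.map f).sum := by
  induction D with
  | nil => simp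
  | cons x D ih =>
    rw [List.map_cons, List.map_cons, List.sum_cons, List.sum_cons, ih]
    ring

theorem neg_r (r : ℕ) : -(r : ZMod (2 * r)) = (r : ZMod (2 * r)) :=
  neg_eq_of_add_eq_zero_left (rr r)

theorem ax_symm (r : ℕ) (x y : ZMod (2 * r)) : ax r x y ↔ ax r y x := by
  unfold ax
  constructor
  · rintro (h | h)
    · exact Or.inl h.symm
    · right
      rw [h, add_assoc, rr, add_zero]
  · rintro (h | h)
    · exact Or.inl h.symm
    · right
      rw [h, add_assoc, rr, add_zero]

theorem ax_neg (r : ℕ) (x y : ZMod (2 * r)) : ax r (-x) (-y) ↔ ax r x y := by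
  unfold ax
  constructor
  · rintro (h | h)
    · exact Or.inl (neg_injective h)
    · right
      apply neg_injective
      rw [h, neg_add, neg_r]
  · rintro (h | h)
    · exact Or.inl (by rw [h])
    · right
      rw [h, neg_add, neg_r]

theorem brk_snoc (r : ℕ) (A : List (ZMod (2 * r))) (x y : ZMod (2 * r)) :
    brk r (A ++ [x] ++ [y]) = brk r (A ++ [x]) + (if ax r x y then 0 else 1) := by
  induction A with
  | nil => simp [brk]
  | cons u A ih =>
    cases A with
    | nil => simp [brk]
    | cons v A =>
      simp only [List.cons_append] at ih ⊢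
      rw [brk, brk, ih]
      ring

theorem brk_reverse (r : ℕ) (D : List (ZMod (2 * r))) : brk r D.reverse = brk r D := by
  induction D with
  | nil => rfl
  | cons x D ih =>
    cases D with
    | nil => rfl
    | cons y D =>
      rw [List.reverse_cons, List.reverse_cons, brk_snoc, brk]
      rw [List.reverse_cons] at ih
      rw [ih]
      have : (if ax r y x then 0 else 1) = (if ax r x y then 0 else 1 : ℕ) := by
        simp only [ax_symm r y x]
      rw [this]
      ring

theorem brk_neg (r : ℕ) (D : List (ZMod (2 * r))) : brk r (D.map (fun x => -x)) = brk r D := by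
  induction D with
  | nil => rfl
  | cons x D ih =>
    cases D with
    | nil => rfl
    | cons y D =>
      simp only [List.map_cons] at ih ⊢
      rw [brk, brk, ih]
      have : (if ax r (-x) (-y) then 0 else 1) = (if ax r x y then 0 else 1 : ℕ) := by
        simp only [ax_neg r x y]
      rw [this]

theorem hdc_reverse (r : ℕ) (p : ZMod (2 * r)) (D : List (ZMod (2 * r))) :
    hdc r p D.reverse = tlc r p D := by
  unfold hdc tlc
  rw [List.head?_reverse]

theorem tlc_reverse (r : ℕ) (p : ZMod (2 * r)) (D : List (ZMod (2 * r))) :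
    tlc r p D.reverse = hdc r p D := by
  unfold hdc tlc
  rw [List.getLast?_reverse]

theorem hdc_neg (r : ℕ) (p : ZMod (2 * r)) (D : List (ZMod (2 * r))) :
    hdc r (-p) (D.map (fun x => -x)) = hdc r p D := by
  unfold hdc
  rw [List.head?_map]
  cases D.head? with
  | none => rfl
  | some x => simp only [Option.map_some, ax_neg]

theorem tlc_neg (r : ℕ) (p : ZMod (2 * r)) (D : List (ZMod (2 * r))) :
    tlc r (-p) (D.map (fun x => -x)) = tlc r p D := by
  unfold tlc
  rw [List.getLast?_map]
  cases D.getLast? with
  | none => rfl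
  | some x => simp only [Option.map_some, ax_neg]

theorem cost_neg (r : ℕ) (p q : ZMod (2 * r)) (D : List (ZMod (2 * r))) :
    cost r (-p) (-q) (D.map (fun x => -x)) = cost r p q D := by
  unfold cost
  rw [hdc_neg, tlc_neg, brk_neg, List.length_map]
  by_cases hD : D = []
  · subst hD
    simp only [List.map_nil, if_true, neg_inj]
  · rw [if_neg hD, if_neg (by simpa using hD)]

theorem cost_reverse (r : ℕ) (p q : ZMod (2 * r)) (D : List (ZMod (2 * r))) :
    cost r q p D.reverse = cost r p q D := by
  unfold cost
  rw [hdc_reverse, tlc_reverse, brk_reverse, List.length_reverse]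
  by_cases hD : D = []
  · subst hD
    simp only [List.reverse_nil, if_true]
    by_cases h : p = q
    · rw [if_pos h, if_pos h.symm]
    · rw [if_neg h, if_neg (fun h' => h h'.symm)]
  · rw [if_neg hD, if_neg (by simpa using hD)]
    ring

theorem Z_neg (hP : StmtPAR) (r : ℕ) [NeZero r] (D : List (ZMod (2 * r))) :
    Z r (D.map (fun x => -x)) = - Z r D := by
  induction D with
  | nil => simp [Z]
  | cons x D ih =>
    rw [List.map_cons, Z, Z, ih, List.map_map, neg_add]
    congr 1
    rw [← sum_map_neg]
    · congr 1
      apply List.map_congr_left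
      intro y _
      simp only [Function.comp]
      rw [← ((hP r).1 (y - x)).1]
      congr 1
      ring

theorem Z_reverse (hP : StmtPAR) (r : ℕ) [NeZero r] (D : List (ZMod (2 * r))) :
    Z r D.reverse = - Z r D := by
  induction D with
  | nil => simp [Z]
  | cons x D ih =>
    rw [List.reverse_cons, (hP r).2.1, ih]
    have e1 : Z r [x] = 0 := by simp [Z]
    have e2 : (D.reverse.map (fun z => ([x].map (fun y => b r (y - z))).sum)).sum =
        - (D.map (fun y => b r (y - x))).sum := by
      rw [← sum_map_neg, List.map_reverse, List.sum_reverse]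
      congr 1
      apply List.map_congr_left
      intro y _
      rw [List.map_cons, List.map_nil, List.sum_cons, List.sum_nil, add_zero,
        ← ((hP r).1 (y - x)).1]
      congr 1
      ring
    rw [e1, e2, Z]
    ring

theorem wt_neg (r : ℕ) (D : List (ZMod (2 * r))) (x : ZMod (2 * r)) :
    wt r (D.map (fun x => -x)) x = wt r D (-x) := by
  unfold wt
  have h : ∀ y : ZMod (2 * r), (D.map (fun x => -x)).count y = D.count (-y) := by
    intro y
    have := List.count_map_of_injective D (fun x : ZMod (2 * r) => -x) neg_injective (-y)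
    simpa using this
  rw [h, h, neg_add, neg_r]

theorem wt_reverse (r : ℕ) (D : List (ZMod (2 * r))) (x : ZMod (2 * r)) :
    wt r D.reverse x = wt r D x := by
  unfold wt
  rw [List.count_reverse, List.count_reverse]

theorem negneg (r : ℕ) (D : List (ZMod (2 * r))) :
    (D.map (fun x => -x)).map (fun x => -x) = D := by
  rw [List.map_map]
  have : ((fun x : ZMod (2 * r) => -x) ∘ (fun x => -x)) = id := by
    funext x
    simp
  rw [this, List.map_id]

theorem geo_neg (hP : StmtPAR) (r : ℕ) [NeZero r] (p q : ZMod (2 * r)) (D : List (ZMod (2 * r)))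
    (h : Geo r p q D) : Geo r (-p) (-q) (D.map (fun x => -x)) := by
  intro D' hE hZ
  rw [cost_neg]
  have h1 := h (D'.map (fun x => -x)) (fun x => by
    rw [wt_neg]
    have := hE (-x)
    rw [wt_neg, neg_neg] at this
    exact this) (by
    rw [Z_neg hP, hZ, Z_neg hP, neg_neg])
  rw [← cost_neg r p q (D'.map (fun x => -x)), negneg] at h1
  exact h1

theorem geo_rev (hP : StmtPAR) (r : ℕ) [NeZero r] (p q : ZMod (2 * r)) (D : List (ZMod (2 * r)))
    (h : Geo r p q D) : Geo r (-q) (-p) ((D.map (fun x => -x)).reverse) := by
  intro D' hE hZ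
  rw [cost_reverse, cost_neg]
  have h1 := h ((D'.map (fun x => -x)).reverse) (fun x => by
    rw [wt_reverse, wt_neg]
    have := hE (-x)
    rw [wt_reverse, wt_neg, neg_neg] at this
    exact this) (by
    rw [Z_reverse hP, Z_neg hP, hZ, Z_reverse hP, Z_neg hP]
    ring)
  rw [← cost_neg r p q ((D'.map (fun x => -x)).reverse), List.map_reverse, negneg,
    cost_reverse] at h1
  exact h1

theorem srt_rev (r : ℕ) [NeZero r] (c : ZMod (2 * r)) (L : ℕ → ℕ) :
    ((srt r c L).map (fun x => -x)).reverse =
      srt r (-c + 1) (fun x => if x < 2 * r then L (2 * r - 1 - x) else 0) := by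
  unfold srt
  rw [List.map_flatMap, List.reverse_flatMap, List.range_eq_range', List.reverse_range',
    List.flatMap_map]
  rw [← List.range_eq_range']
  apply List.flatMap_congr
  intro i hi
  rw [List.mem_range] at hi
  simp only [Function.comp, List.map_replicate, List.reverse_replicate, if_pos hi]
  rw [show 0 + 2 * r - 1 - i = 2 * r - 1 - i by omega]
  congr 1
  have h0 : ((2 * r - 1 - i : ℕ) : ZMod (2 * r)) + 1 + i = 0 := by
    have h : ((2 * r - 1 - i + 1 + i : ℕ) : ZMod (2 * r)) = 0 := by
      rw [show 2 * r - 1 - i + 1 + i = 2 * r by omega]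
      exact ZMod.natCast_self _
    push_cast at h
    exact h
  linear_combination -h0

theorem wd_rev (r : ℕ) [NeZero r] (a c a' : ZMod (2 * r)) (m : ℕ) (L : ℕ → ℕ) (m' : ℕ) :
    ((wd r a c a' m L m').map (fun x => -x)).reverse =
      wd r (-a') (-c + 1) (-a) m' (fun x => if x < 2 * r then L (2 * r - 1 - x) else 0) m := by
  unfold wd
  rw [List.map_append, List.map_append, List.reverse_append, List.reverse_append, srt_rev,
    List.map_replicate, List.map_replicate, List.reverse_replicate, List.reverse_replicate,
    List.append_assoc]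

end SYM

open SYM in
theorem sym (hP : StmtPAR) : StmtSYM := by
  intro r _
  refine ⟨fun D => ⟨Z_reverse hP r D, Z_neg hP r D⟩, fun D x => ⟨wt_reverse r D x, wt_neg r D x⟩,
    fun p q D => ⟨?_, cost_neg r p q D⟩, fun p q D h => ⟨geo_rev hP r p q D h, geo_neg hP r p q D h⟩,
    fun a c a' m L m' => wd_rev r a c a' m L m'⟩
  rw [cost_reverse, cost_neg]

end Pool.Agent.T6.H25.GG
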