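import Pool.Agent.T6.H25.GG.Stmts

/-! Module U of the project MP_b6554e_al: assembly of the upper bound. -/

set_option autoImplicit false

namespace Pool.Agent.T6.H25.GG

open Finset

namespace U

variable {r : ℕ}

/-! ### lists -/

theorem split_head {α : Type*} [DecidableEq α] (D : List α) (h : D ≠ []) :
    ∃ (a : α) (m : ℕ) (V : List α), D = List.replicate m a ++ V ∧ 1 ≤ m ∧
      (V = [] ∨ ∃ x V', V = x :: V' ∧ x ≠ a) := by
  induction D with
  | nil => exact absurd rfl h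
  | cons a D ih =>
    by_cases hD : D = []
    · subst hD
      exact ⟨a, 1, [], by simp, le_refl _, Or.inl rfl⟩
    · obtain ⟨a', m, V, h1, h2, h3⟩ := ih hD
      by_cases ha : a' = a
      · subst ha
        refine ⟨a', m + 1, V, ?_, by omega, h3⟩
        rw [h1]; simp [List.replicate_succ]
      · refine ⟨a, 1, D, by simp, le_refl _, Or.inr ?_⟩
        obtain ⟨k, rfl⟩ : ∃ k, m = k + 1 := ⟨m - 1, by omega⟩
        refine ⟨a', List.replicate k a' ++ V, ?_, ha⟩
        rw [h1]; simp [List.replicate_succ]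

theorem split_both {α : Type*} [DecidableEq α] (D : List α) (h : 3 ≤ D.toFinset.card) :
    ∃ (a a' : α) (m m' : ℕ) (U : List α), D = List.replicate m a ++ U ++ List.replicate m' a' ∧
      1 ≤ m ∧ 1 ≤ m' ∧ (∃ x U', U = x :: U' ∧ x ≠ a) ∧ (∃ y U', U = U' ++ [y] ∧ y ≠ a') := by
  have hne : D ≠ [] := by
    rintro rfl
    simp at h
  obtain ⟨a, m, V, h1, h2, h3⟩ := split_head D hne
  have hV : V ≠ [] := by
    rintro rfl
    have : D.toFinset ⊆ {a} := by
      intro x hx
      rw [List.mem_toFinset, h1] at hx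
      simp at hx
      simp [hx.2]
    have := card_le_card this
    simp at this
    omega
  obtain ⟨x, V', hV1, hV2⟩ := h3.resolve_left hV
  have hVr : V.reverse ≠ [] := by simpa using hV
  obtain ⟨a', m', W, h4, h5, h6⟩ := split_head V.reverse hVr
  have hVW : V = W.reverse ++ List.replicate m' a' := by
    have := congrArg List.reverse h4
    simpa using this
  have hW : W ≠ [] := by
    rintro rfl
    have : D.toFinset ⊆ {a, a'} := by
      intro x hx
      rw [List.mem_toFinset, h1, hVW] at hx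
      simp at hx
      rcases hx with hx | hx
      · simp [hx.2]
      · simp [hx.2]
    have := card_le_card this
    have h7 := card_le_two (a := a) (b := a')
    omega
  obtain ⟨y, W', hW1, hW2⟩ := h6.resolve_left hW
  refine ⟨a, a', m, m', W.reverse, by rw [h1, hVW, List.append_assoc], h2, h5, ?_, ?_⟩
  · have h8 : W.reverse ≠ [] := by simpa using hW
    obtain ⟨z, Z', hz⟩ := List.exists_cons_of_ne_nil h8
    refine ⟨z, Z', hz, ?_⟩
    rw [hz] at hVW
    rw [hV1] at hVW
    simp at hVW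
    rw [← hVW.1]; exact hV2
  · exact ⟨y, W'.reverse, by rw [hW1]; simp, hW2⟩

theorem chg_append (A B : List (ZMod (2 * r))) (y x : ZMod (2 * r)) (h : x ≠ y) :
    chg r (A ++ y :: x :: B) = chg r (A ++ [y]) + 1 + chg r (x :: B) := by
  induction A with
  | nil => simp [chg, h]
  | cons z A ih =>
    cases A with
    | nil =>
      simp only [List.nil_append, List.cons_append] at ih ⊢
      rw [chg, ih]
      simp [chg]
      ring
    | cons w A =>
      simp only [List.cons_append] at ih ⊢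
      rw [chg, ih, chg]
      ring

theorem chg_core (a a' x y : ZMod (2 * r)) (m m' : ℕ) (U U1 U2 : List (ZMod (2 * r)))
    (hm : 1 ≤ m) (hm' : 1 ≤ m') (h1 : U = x :: U1) (hx : x ≠ a) (h2 : U = U2 ++ [y]) (hy : y ≠ a') :
    chg r U + 2 ≤ chg r (List.replicate m a ++ U ++ List.replicate m' a') := by
  obtain ⟨k, rfl⟩ : ∃ k, m = k + 1 := ⟨m - 1, by omega⟩
  obtain ⟨k', rfl⟩ : ∃ k', m' = k' + 1 := ⟨m' - 1, by omega⟩
  have e1 : List.replicate (k + 1) a ++ U ++ List.replicate (k' + 1) a' =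
      List.replicate k a ++ a :: x :: (U1 ++ List.replicate (k' + 1) a') := by
    rw [h1, List.replicate_succ']
    simp
  have e2 : x :: (U1 ++ List.replicate (k' + 1) a') = U2 ++ y :: a' :: List.replicate k' a' := by
    have : x :: (U1 ++ List.replicate (k' + 1) a') = U ++ List.replicate (k' + 1) a' := by
      rw [h1]; simp
    rw [this, h2, List.replicate_succ]
    simp
  rw [e1, chg_append _ _ _ _ hx, e2, chg_append _ _ _ _ (Ne.symm hy), ← h2]
  omega

/-! ### long axes -/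

theorem add_rr (x : ZMod (2 * r)) : x + (r : ZMod (2 * r)) + (r : ZMod (2 * r)) = x := by
  have h : (r : ZMod (2 * r)) + (r : ZMod (2 * r)) = 0 := by
    have := ZMod.natCast_self (2 * r)
    rw [← this]; push_cast; ring
  rw [add_assoc, h, add_zero]

/-- the letters on long axes -/
def T (r s : ℕ) [NeZero r] (D : List (ZMod (2 * r))) : Finset (ZMod (2 * r)) :=
  univ.filter (fun x => KK r * s ≤ D.count x ∧ KK r * s ≤ D.count (x + (r : ZMod (2 * r))))

theorem val_add_nat (c : ZMod (2 * r)) [NeZero r] (x : ZMod (2 * r)) :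
    c + (((x - c).val : ℕ) : ZMod (2 * r)) = x := by
  rw [ZMod.natCast_zmod_val]; ring

theorem mem_Lset (s : ℕ) (L : ℕ → ℕ) (i : ℕ) :
    i ∈ Lset r s L ↔ i < r ∧ KK r * s ≤ L i ∧ KK r * s ≤ L (i + r) := by
  unfold Lset
  rw [mem_filter, mem_range]

theorem T_card [NeZero r] (s : ℕ) (c : ZMod (2 * r)) (D : List (ZMod (2 * r))) :
    (T r s D).card = 2 * (Lset r s (cnts r c D)).card := by
  have hr : 0 < r := Nat.pos_of_ne_zero (NeZero.ne r)
  have key : T r s D = (Lset r s (cnts r c D)).image (fun i : ℕ => c + (i : ZMod (2 * r))) ∪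
      (Lset r s (cnts r c D)).image (fun i : ℕ => c + ((i + r : ℕ) : ZMod (2 * r))) := by
    ext x
    simp only [T, mem_filter, mem_univ, true_and, mem_union, mem_image, mem_Lset, cnts]
    constructor
    · rintro ⟨h1, h2⟩
      have hv := val_add_nat c x
      have hlt : (x - c).val < 2 * r := ZMod.val_lt _
      set v := (x - c).val with hvd
      by_cases hvr : v < r
      · left
        refine ⟨v, ⟨hvr, ?_, ?_⟩, hv⟩
        · rw [if_pos hlt, hv]; exact h1
        · rw [if_pos (by omega)]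
          have : c + ((v + r : ℕ) : ZMod (2 * r)) = x + r := by
            rw [← hv]; push_cast; ring
          rw [this]; exact h2
      · right
        refine ⟨v - r, ⟨by omega, ?_, ?_⟩, ?_⟩
        · rw [if_pos (by omega)]
          have : c + ((v - r : ℕ) : ZMod (2 * r)) = x + r := by
            have h5 : c + ((v - r : ℕ) : ZMod (2 * r)) + (r : ZMod (2 * r)) = x := by
              have : ((v - r + r : ℕ) : ZMod (2 * r)) = (v : ZMod (2 * r)) := by
                congr 1; omega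
              rw [add_assoc, ← Nat.cast_add, this, hv]
            rw [← h5, add_rr]
          rw [this]; exact h2
        · rw [if_pos (by omega)]
          have : v - r + r = v := by omega
          rw [this, hv]; exact h1
        · have : v - r + r = v := by omega
          rw [this, hv]
    · rintro (⟨i, ⟨h0, h1, h2⟩, rfl⟩ | ⟨i, ⟨h0, h1, h2⟩, rfl⟩)
      · rw [if_pos (by omega)] at h1
        rw [if_pos (by omega)] at h2
        refine ⟨h1, ?_⟩
        push_cast at h2
        rw [← add_assoc] at h2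
        exact h2
      · rw [if_pos (by omega)] at h1
        rw [if_pos (by omega)] at h2
        refine ⟨h2, ?_⟩
        push_cast
        rw [← add_assoc, add_rr]
        exact h1
  have inj : ∀ i j : ℕ, i < 2 * r → j < 2 * r →
      c + (i : ZMod (2 * r)) = c + (j : ZMod (2 * r)) → i = j := by
    intro i j hi hj h
    have h := add_left_cancel h
    have h2 := congrArg ZMod.val h
    rwa [ZMod.val_natCast_of_lt hi, ZMod.val_natCast_of_lt hj] at h2
  rw [key, card_union_of_disjoint, card_image_of_injOn, card_image_of_injOn, two_mul]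
  · intro i hi j hj h
    rw [mem_coe, mem_Lset] at hi hj
    have := inj (i + r) (j + r) (by omega) (by omega) h
    omega
  · intro i hi j hj h
    rw [mem_coe, mem_Lset] at hi hj
    exact inj i j (by omega) (by omega) h
  · rw [Finset.disjoint_left]
    intro x hx hx'
    simp only [mem_Lset, mem_image] at hx hx'
    obtain ⟨i, hi, rfl⟩ := hx
    obtain ⟨j, hj, h⟩ := hx'
    have := inj (j + r) i (by omega) (by omega) h
    omega

theorem T_drop [NeZero r] (s : ℕ) (a a' : ZMod (2 * r)) (m m' : ℕ) (U : List (ZMod (2 * r))) :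
    (T r s (List.replicate m a ++ U ++ List.replicate m' a')).card ≤ (T r s U).card + 4 := by
  have h : T r s (List.replicate m a ++ U ++ List.replicate m' a') ⊆
      T r s U ∪ {a, a + (r : ZMod (2 * r)), a', a' + (r : ZMod (2 * r))} := by
    intro x hx
    by_contra hn
    simp only [mem_union, mem_insert, mem_singleton, not_or] at hn
    obtain ⟨h0, h1, h2, h3, h4⟩ := hn
    apply h0
    simp only [T, mem_filter, mem_univ, true_and] at hx ⊢
    have c1 : ∀ y, y ≠ a → y ≠ a' →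
        (List.replicate m a ++ U ++ List.replicate m' a').count y = U.count y := by
      intro y hy hy'
      rw [List.count_append, List.count_append, List.count_replicate, List.count_replicate]
      simp [Ne.symm hy, Ne.symm hy']
    rw [c1 x h1 h3] at hx
    rw [c1 (x + (r : ZMod (2 * r)))] at hx
    · exact hx
    · intro h; apply h2; rw [← h, add_rr]
    · intro h; apply h4; rw [← h, add_rr]
  refine le_trans (card_le_card h) (le_trans (card_union_le _ _) ?_)
  have : ({a, a + (r : ZMod (2 * r)), a', a' + (r : ZMod (2 * r))} : Finset (ZMod (2 * r))).card ≤ 4 :=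
    card_le_four
  omega

theorem T_sub [NeZero r] (s : ℕ) (hs : 1 ≤ s) (D : List (ZMod (2 * r))) :
    (T r s D).card ≤ D.toFinset.card := by
  apply card_le_card
  intro x hx
  simp only [T, mem_filter, mem_univ, true_and] at hx
  rw [List.mem_toFinset, ← List.count_pos_iff]
  have : 1 ≤ KK r * s := Nat.mul_pos (by unfold KK; omega) hs
  omega

/-! ### the three families -/

/-- few long axes -/
def FJ (r N : ℕ) (c : ZMod (2 * r)) : Set (List (ZMod (2 * r))) :=
  {U | U.length ≤ N ^ 10 ∧ chg r U ≤ U.toFinset.card + 4 ∧ cnts r c U ∈ DataJ r N}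

/-- pinned -/
def FP (r N : ℕ) (t : ZMod (2 * r) × ZMod (2 * r) × ZMod (2 * r)) : Set (List (ZMod (2 * r))) :=
  ⋃ d ∈ DataP r (N ^ 5), (fun U => List.replicate d.1 t.1 ++ U ++ List.replicate d.2.2 t.2.1) ''
    {U | U.length ≤ N ^ 10 ∧ chg r U ≤ U.toFinset.card + 4 ∧
      cnts r t.2.2 U ∈ ({d.2.1} : Set (ℕ → ℕ))}

/-- constrained -/
def FC (r N : ℕ) (t : ZMod (2 * r) × ZMod (2 * r) × ZMod (2 * r)) : Set (List (ZMod (2 * r))) :=
  (fun e : List (ZMod (2 * r)) × (ℕ × (ℕ → ℕ) × ℕ) => List.replicate e.2.1 t.1 ++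
    e.1.flatMap (fun x => List.replicate (e.2.2.1 (ix r t.2.2 x)) x) ++
      List.replicate e.2.2.2 t.2.1) ''
    ({o : List (ZMod (2 * r)) | o.Nodup} ×ˢ DataC r (N ^ 5) t.1 t.2.1 t.2.2)

theorem tot_cnts [NeZero r] (hALG : StmtALG) (c : ZMod (2 * r)) (m m' : ℕ)
    (U : List (ZMod (2 * r))) : tot r m (cnts r c U) m' = m + U.length + m' := by
  obtain ⟨-, -, -, -, h1, -, h2⟩ := hALG r
  rw [← h1 0 c 0 m (cnts r c U) m']
  unfold wd
  simp only [List.length_append, List.length_replicate]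
  rw [(h2 c U).length_eq]

theorem cnts_zero (c : ZMod (2 * r)) (U : List (ZMod (2 * r))) :
    ∀ x, 2 * r ≤ x → cnts r c U x = 0 := by
  intro x hx
  unfold cnts
  rw [if_neg (by omega)]

theorem cnts_ix [NeZero r] (c x : ZMod (2 * r)) (U : List (ZMod (2 * r))) :
    cnts r c U (ix r c x) = U.count x := by
  unfold cnts ix
  rw [if_pos (ZMod.val_lt _), val_add_nat]

theorem cover [NeZero r] (hB : StmtB) (hALG : StmtALG) (hD : StmtD) (hG0 : StmtG0) (hG1 : StmtG1)
    (hG2 : StmtG2) (hGS : StmtGS) (hJ1 : StmtJ1) (p q : ZMod (2 * r)) (N : ℕ) (hN : r + 3 ≤ N)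
    (D : List (ZMod (2 * r))) (hl : D.length ≤ N ^ 10) (hg : Geo r p q D) (hz : 0 ≤ Z r D) :
    (∃ c, D ∈ FJ r N c) ∨ (∃ t, D ∈ FP r N t) ∨ (∃ t, D ∈ FC r N t) := by
  obtain ⟨-, hD2, hD3, -⟩ := hD r p q
  have hs : 1 ≤ N ^ 5 := Nat.one_le_pow _ _ (by omega)
  have hN10 : (N ^ 5) ^ 2 = N ^ 10 := by ring
  obtain ⟨c, hc⟩ := hB r D
  by_cases h26 : (Lset r (N ^ 5) (cnts r c D)).card < 26
  · left
    refine ⟨c, hl, (hD3 D hg).2, cnts_zero c D, ?_, h26, ?_⟩
    · intro x
      unfold cnts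
      split_ifs
      · exact le_trans List.count_le_length hl
      · exact Nat.zero_le _
    · exact hJ1 r p q c D N hg hz hN hl hc
  · right
    have hT := T_card (N ^ 5) c D
    have hT2 := T_sub (N ^ 5) hs D
    obtain ⟨a, a', m, m', U, hDU, hm, hm', ⟨x, U1, hx1, hx2⟩, ⟨y, U2, hy1, hy2⟩⟩ :=
      split_both D (by omega)
    obtain ⟨c', hc'⟩ := hB r U
    have hT3 := T_drop (N ^ 5) a a' m m' U
    rw [← hDU] at hT3
    have hT4 := T_card (N ^ 5) c' U
    have hlen : D.length = m + U.length + m' := by rw [hDU]; simp [add_assoc]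
    have hchg := chg_core a a' x y m m' U U1 U2 hm hm' hx1 hx2 hy1 hy2
    rw [← hDU] at hchg
    have hchgD := (hD3 D hg).2
    have hcard : D.toFinset.card ≤ U.toFinset.card + 2 := by
      have h : D.toFinset ⊆ U.toFinset ∪ {a, a'} := by
        intro z hz
        rw [List.mem_toFinset, hDU] at hz
        simp only [List.mem_append, List.mem_replicate] at hz
        simp only [mem_union, List.mem_toFinset, mem_insert, mem_singleton]
        tauto
      refine le_trans (card_le_card h) (le_trans (card_union_le _ _) ?_)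
      have := card_le_two (a := a) (b := a')
      omega
    have hdec : Dec r (N ^ 5) p q D a a' c' m m' U := by
      refine ⟨hg, hz, hs, by rw [hN10]; exact hl, hm, hm', hDU, ?_, ?_, ?_, hc', by omega⟩
      · rw [hx1]; simp
      · intro z hz'
        rw [hx1] at hz'
        simp only [List.head?_cons, Option.some.injEq] at hz'
        subst hz'
        rintro (h | h)
        · exact hx2 h
        · obtain ⟨k, rfl⟩ : ∃ k, m = k + 1 := ⟨m - 1, by omega⟩
          apply hD2 (List.replicate k a) (U1 ++ List.replicate m' a') a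
          rw [← h]
          have : List.replicate k a ++ a :: x :: (U1 ++ List.replicate m' a') = D := by
            rw [hDU, hx1, List.replicate_succ']
            simp
          rw [this]; exact hg
      · intro z hz'
        rw [hy1] at hz'
        simp only [List.getLast?_append, List.getLast?_singleton, Option.some_or,
          Option.some.injEq] at hz'
        subst hz'
        rintro (h | h)
        · exact hy2 h
        · obtain ⟨k, rfl⟩ : ∃ k, m' = k + 1 := ⟨m' - 1, by omega⟩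
          have h2 : a' = y + (r : ZMod (2 * r)) := by rw [h, add_rr]
          apply hD2 (List.replicate m a ++ U2) (List.replicate k a') y
          rw [← h2]
          have : List.replicate m a ++ U2 ++ y :: a' :: List.replicate k a' = D := by
            rw [hDU, hy1, List.replicate_succ]
            simp
          rw [this]; exact hg
    have htot : tot r m (cnts r c' U) m' ≤ (N ^ 5) ^ 2 := by
      rw [tot_cnts hALG, hN10, ← hlen]; exact hl
    by_cases hpin : Pinned r (N ^ 5) m (cnts r c' U) m'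
    · left
      refine ⟨(a, a', c'), ?_⟩
      unfold FP
      simp only [Set.mem_iUnion]
      refine ⟨(m, cnts r c' U, m'), ⟨cnts_zero c' U, htot, hpin⟩, ⟨U, ⟨?_, ?_, ?_⟩, ?_⟩⟩
      · omega
      · omega
      · simp
      · rw [hDU]
    · right
      refine ⟨(a, a', c'), ?_⟩
      obtain ⟨⟨o, ho1, ho2⟩, k1, k2⟩ := (hG0 r _ _ _ _ _ _ _ _ _ _ hdec).resolve_left hpin
      obtain ⟨k3, k4⟩ := (hG1 r _ _ _ _ _ _ _ _ _ _ hdec).resolve_left hpin
      obtain ⟨k5, k6⟩ := hG2 r _ _ _ _ _ _ _ _ _ _ hdec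
      obtain ⟨k1', k3', k4'⟩ := (hGS r _ _ _ _ _ _ _ _ _ _ hdec).resolve_left hpin
      refine ⟨(o, (m, cnts r c' U, m')), ⟨ho1, cnts_zero c' U, htot, ?_,
        ⟨k1, k1', k2, k3, k3', k4, k4', k5, k6⟩⟩, ?_⟩
      · show 24 ≤ (Lset r (N ^ 5) (cnts r c' U)).card
        omega
      · simp only [cnts_ix]
        rw [← ho2, hDU]

/-! ### counting -/

theorem finite_len [NeZero r] (n : ℕ) : {D : List (ZMod (2 * r)) | D.length ≤ n}.Finite :=
  List.finite_length_le _ n

theorem ncard_biU {ι α : Type*} (P : Set ι) (hP : P.Finite) (S : ι → Set α) (K : ℕ)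
    (h : ∀ d ∈ P, (S d).ncard ≤ K) : (⋃ d ∈ P, S d).ncard ≤ P.ncard * K := by
  classical
  have h1 : (⋃ d ∈ P, S d) = ⋃ d ∈ hP.toFinset, S d := by simp
  rw [h1]
  refine le_trans (Finset.set_ncard_biUnion_le _ _) ?_
  refine le_trans (Finset.sum_le_card_nsmul _ _ K ?_) ?_
  · intro d hd
    exact h d (by simpa using hd)
  · rw [smul_eq_mul, Set.ncard_eq_toFinset_card P hP]

theorem ncard_iU {ι α : Type*} [Fintype ι] (S : ι → Set α) (K : ι → ℕ)
    (h : ∀ d, (S d).ncard ≤ K d) : (⋃ d, S d).ncard ≤ ∑ d, K d := by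
  classical
  have h1 : (⋃ d, S d) = ⋃ d ∈ (univ : Finset ι), S d := by simp
  rw [h1]
  refine le_trans (Finset.set_ncard_biUnion_le _ _) ?_
  exact Finset.sum_le_sum (fun d _ => h d)

theorem pow_bd (N : ℕ) (hN : 1 ≤ N) : (N ^ 10 + 1) ^ 5 ≤ 32 * N ^ 50 := by
  have h : N ^ 10 + 1 ≤ 2 * N ^ 10 := by
    have : 1 ≤ N ^ 10 := Nat.one_le_pow _ _ hN
    omega
  calc (N ^ 10 + 1) ^ 5 ≤ (2 * N ^ 10) ^ 5 := Nat.pow_le_pow_left h 5
    _ = 32 * N ^ 50 := by ring

theorem comb (C1 C2 N x y : ℕ) :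
    C1 * (32 * N ^ x) * (C2 * N ^ y) = C1 * 32 * C2 * N ^ (x + y) := by
  rw [pow_add]; ring

theorem comb' (C1 C2 N x y : ℕ) :
    C2 * N ^ y * (C1 * (32 * N ^ x) * 1) = C2 * C1 * 32 * N ^ (y + x) := by
  rw [pow_add]; ring

theorem fj_bound (hQ : StmtQ) (hJ2 : StmtJ2) (B : ℕ) [NeZero (3 * B)] (hB : 457 ≤ B) :
    ∃ C : ℕ, ∀ N : ℕ, 1 ≤ N → ∀ c, (FJ (3 * B) N c).Finite ∧
      (FJ (3 * B) N c).ncard ≤ C * N ^ (45 * B + 9) := by
  obtain ⟨C1, h1⟩ := hQ (3 * B)
  obtain ⟨C2, h2⟩ := hJ2 B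
  refine ⟨C1 * 32 * C2, fun N hN c => ?_⟩
  obtain ⟨h3, h4⟩ := h2 N hN
  have h0 : 50 + (44 * B + 416) ≤ 45 * B + 9 := by linarith
  have h5 := h1 (N ^ 10) c _ h3
  refine ⟨(finite_len (r := 3 * B) (N ^ 10)).subset (fun U hU => hU.1), ?_⟩
  calc (FJ (3 * B) N c).ncard ≤ C1 * (N ^ 10 + 1) ^ 5 * (DataJ (3 * B) N).ncard := h5
    _ ≤ C1 * (32 * N ^ 50) * (C2 * N ^ (44 * B + 416)) :=
        Nat.mul_le_mul (Nat.mul_le_mul_left _ (pow_bd N hN)) h4
    _ = C1 * 32 * C2 * N ^ (50 + (44 * B + 416)) := comb _ _ _ _ _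
    _ ≤ C1 * 32 * C2 * N ^ (45 * B + 9) :=
        Nat.mul_le_mul_left _ (Nat.pow_le_pow_right hN h0)

theorem fp_bound (hQ : StmtQ) (hI : StmtI) (B : ℕ) [NeZero (3 * B)] (hB : 457 ≤ B) :
    ∃ C : ℕ, ∀ N : ℕ, 1 ≤ N → ∀ t, (FP (3 * B) N t).Finite ∧
      (FP (3 * B) N t).ncard ≤ C * N ^ (45 * B + 9) := by
  obtain ⟨C1, h1⟩ := hQ (3 * B)
  obtain ⟨C2, h2⟩ := hI (3 * B) (by omega)
  refine ⟨C2 * C1 * 32, fun N hN t => ?_⟩
  obtain ⟨h3, h4⟩ := h2 (N ^ 5) (Nat.one_le_pow _ _ hN)
  have h5 : (FP (3 * B) N t).ncard ≤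
      (DataP (3 * B) (N ^ 5)).ncard * (C1 * (N ^ 10 + 1) ^ 5 * 1) := by
    refine ncard_biU _ h3 _ _ (fun d _ => ?_)
    refine le_trans (Set.ncard_image_le ?_) ?_
    · exact (finite_len (r := 3 * B) (N ^ 10)).subset (fun U hU => hU.1)
    · have h6 := h1 (N ^ 10) t.2.2 {d.2.1} (Set.finite_singleton _)
      rw [Set.ncard_singleton] at h6
      exact h6
  have h0 : 5 * (3 * (3 * B) - 12) + 50 ≤ 45 * B + 9 := by clear h1 h2 h3 h4 h5; omega
  refine ⟨h3.biUnion (fun d _ => Set.Finite.image _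
    ((finite_len (r := 3 * B) (N ^ 10)).subset (fun U hU => hU.1))), ?_⟩
  calc (FP (3 * B) N t).ncard ≤
      (DataP (3 * B) (N ^ 5)).ncard * (C1 * (N ^ 10 + 1) ^ 5 * 1) := h5
    _ ≤ (C2 * (N ^ 5) ^ (3 * (3 * B) - 12)) * (C1 * (32 * N ^ 50) * 1) := by
        refine Nat.mul_le_mul h4 (Nat.mul_le_mul_right _ (Nat.mul_le_mul_left _ (pow_bd N hN)))
    _ = C2 * C1 * 32 * N ^ (5 * (3 * (3 * B) - 12) + 50) := by
        rw [← pow_mul]
        exact comb' _ _ _ _ _
    _ ≤ C2 * C1 * 32 * N ^ (45 * B + 9) :=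
        Nat.mul_le_mul_left _ (Nat.pow_le_pow_right hN h0)

theorem nodup_fin [NeZero r] : {o : List (ZMod (2 * r)) | o.Nodup}.Finite := by
  refine (finite_len (r := r) (Fintype.card (ZMod (2 * r)))).subset ?_
  intro o ho
  exact List.Nodup.length_le_card ho

theorem fc_bound (hH : StmtH) (B : ℕ) [NeZero (3 * B)] (t) :
    ∃ C : ℕ, ∀ N : ℕ, 1 ≤ N → (FC (3 * B) N t).Finite ∧
      (FC (3 * B) N t).ncard ≤ C * N ^ (45 * B + 9) := by
  obtain ⟨C2, h2⟩ := hH (3 * B) t.1 t.2.1 t.2.2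
  refine ⟨{o : List (ZMod (2 * (3 * B))) | o.Nodup}.ncard * C2, fun N hN => ?_⟩
  obtain ⟨h3, h4⟩ := h2 N hN
  refine ⟨(nodup_fin.prod h3).image _, ?_⟩
  refine le_trans (Set.ncard_image_le (nodup_fin.prod h3)) ?_
  rw [Set.ncard_prod]
  calc {o : List (ZMod (2 * (3 * B))) | o.Nodup}.ncard *
        (DataC (3 * B) (N ^ 5) t.1 t.2.1 t.2.2).ncard ≤
      {o : List (ZMod (2 * (3 * B))) | o.Nodup}.ncard * (C2 * N ^ (15 * (3 * B) + 7)) :=
        Nat.mul_le_mul_left _ h4
    _ ≤ {o : List (ZMod (2 * (3 * B))) | o.Nodup}.ncard * (C2 * N ^ (45 * B + 9)) :=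
        Nat.mul_le_mul_left _ (Nat.mul_le_mul_left _ (Nat.pow_le_pow_right hN (by omega)))
    _ = _ := by ring

/-- geodesics of nonnegative area -/
def S0 (r : ℕ) (p q : ZMod (2 * r)) (n : ℕ) : Set (List (ZMod (2 * r))) :=
  {D | D.length ≤ n ∧ Geo r p q D ∧ 0 ≤ Z r D}

theorem half [NeZero r] (hSYM : StmtSYM) (p q : ZMod (2 * r)) (n : ℕ) :
    geoCount r p q n ≤ (S0 r p q n).ncard + (S0 r (-p) (-q) n).ncard := by
  obtain ⟨h1, -, -, h4, -⟩ := hSYM r
  have f1 : (S0 r p q n).Finite := (finite_len n).subset (fun D hD => hD.1)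
  have f2 : (S0 r (-p) (-q) n).Finite := (finite_len n).subset (fun D hD => hD.1)
  have hsub : {D : List (ZMod (2 * r)) | D.length ≤ n ∧ Geo r p q D} ⊆
      S0 r p q n ∪ (fun D => D.map (fun x => -x)) '' S0 r (-p) (-q) n := by
    rintro D ⟨hD1, hD2⟩
    by_cases hz : 0 ≤ Z r D
    · exact Or.inl ⟨hD1, hD2, hz⟩
    · right
      refine ⟨D.map (fun x => -x), ⟨by simpa using hD1, (h4 p q D hD2).2, ?_⟩, ?_⟩
      · rw [(h1 D).2]; omega
      · simp
  unfold geoCount
  refine le_trans (Set.ncard_le_ncard hsub (f1.union (f2.image _))) ?_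
  refine le_trans (Set.ncard_union_le _ _) ?_
  exact Nat.add_le_add_left (Set.ncard_image_le f2) _

end U

theorem u (hB : StmtB) (hALG : StmtALG) (hSYM : StmtSYM) (hD : StmtD) (hG0 : StmtG0)
    (hG1 : StmtG1) (hG2 : StmtG2) (hGS : StmtGS) (hH : StmtH) (hI : StmtI) (hQ : StmtQ)
    (hJ1 : StmtJ1) (hJ2 : StmtJ2) : StmtU := by
  intro B _ hB457 p q
  obtain ⟨CJ, hCJ⟩ := U.fj_bound hQ hJ2 B hB457
  obtain ⟨CP, hCP⟩ := U.fp_bound hQ hI B hB457
  choose CC hCC using U.fc_bound hH B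
  set K : ℕ := ∑ _c : ZMod (2 * (3 * B)), CJ +
    (∑ _t : ZMod (2 * (3 * B)) × ZMod (2 * (3 * B)) × ZMod (2 * (3 * B)), CP + ∑ t, CC t) with hK
  have key : ∀ (p q : ZMod (2 * (3 * B))) (N : ℕ), 3 * B + 3 ≤ N →
      (U.S0 (3 * B) p q (N ^ 10)).ncard ≤ K * N ^ (45 * B + 9) := by
    intro p q N hN
    have hN1 : 1 ≤ N := by omega
    have hsub : U.S0 (3 * B) p q (N ^ 10) ⊆ (⋃ c, U.FJ (3 * B) N c) ∪
        ((⋃ t, U.FP (3 * B) N t) ∪ (⋃ t, U.FC (3 * B) N t)) := by
      rintro D ⟨h1, h2, h3⟩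
      rcases U.cover hB hALG hD hG0 hG1 hG2 hGS hJ1 p q N hN D h1 h2 h3 with ⟨c, h⟩ | ⟨t, h⟩ | ⟨t, h⟩
      · exact Or.inl (Set.mem_iUnion.2 ⟨c, h⟩)
      · exact Or.inr (Or.inl (Set.mem_iUnion.2 ⟨t, h⟩))
      · exact Or.inr (Or.inr (Set.mem_iUnion.2 ⟨t, h⟩))
    have f1 : (⋃ c, U.FJ (3 * B) N c).Finite := Set.finite_iUnion (fun c => (hCJ N hN1 c).1)
    have f2 : (⋃ t, U.FP (3 * B) N t).Finite := Set.finite_iUnion (fun t => (hCP N hN1 t).1)
    have f3 : (⋃ t, U.FC (3 * B) N t).Finite := Set.finite_iUnion (fun t => (hCC t N hN1).1)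
    have b1 := U.ncard_iU (U.FJ (3 * B) N) _ (fun c => (hCJ N hN1 c).2)
    have b2 := U.ncard_iU (U.FP (3 * B) N) _ (fun c => (hCP N hN1 c).2)
    have b3 := U.ncard_iU (U.FC (3 * B) N) _ (fun t => (hCC t N hN1).2)
    refine le_trans (Set.ncard_le_ncard hsub (f1.union (f2.union f3))) ?_
    refine le_trans (Set.ncard_union_le _ _) ?_
    refine le_trans (Nat.add_le_add b1 (le_trans (Set.ncard_union_le _ _) (Nat.add_le_add b2 b3))) ?_
    rw [hK, add_mul, add_mul, Finset.sum_mul, Finset.sum_mul, Finset.sum_mul]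
  refine ⟨2 * K, 3 * B + 3, fun N hN => ?_⟩
  refine le_trans (U.half hSYM p q _) ?_
  have h1 := key p q N hN
  have h2 := key (-p) (-q) N hN
  calc _ ≤ K * N ^ (45 * B + 9) + K * N ^ (45 * B + 9) := Nat.add_le_add h1 h2
    _ = _ := by ring

end Pool.Agent.T6.H25.GG
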