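import Mathlib

/-!
Geodesic growth (MP_b6554e_al): definitions and module statements.
Directions are elements of `ZMod (2*r)`; the direction `x + r` is the opposite of `x`.
-/

set_option autoImplicit false

namespace Pool.Agent.T6.H25.GG

open Finset

/-- sign of a difference `d` of directions, `0 ≤ d < 2r` -/
def bt (r d : ℕ) : ℤ := if d = 0 ∨ d = r then 0 else if d < r then 1 else -1

/-- the alternating form on directions: `om (x, y) = b (y - x)` -/
def b (r : ℕ) (k : ZMod (2 * r)) : ℤ := bt r k.val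

/-- area of a word of directions: sum over pairs `i < l` of `b (x_l - x_i)` -/
def Z (r : ℕ) : List (ZMod (2 * r)) → ℤ
  | [] => 0
  | x :: D => (D.map (fun y => b r (y - x))).sum + Z r D

/-- end point of a word (as an antisymmetric function) -/
def wt (r : ℕ) (D : List (ZMod (2 * r))) (x : ZMod (2 * r)) : ℤ :=
  (D.count x : ℤ) - (D.count (x + (r : ZMod (2 * r))) : ℤ)

/-- two words have the same end point -/
def Eqw (r : ℕ) (D D' : List (ZMod (2 * r))) : Prop := ∀ x, wt r D x = wt r D' x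

/-- same axis -/
def ax (r : ℕ) (x y : ZMod (2 * r)) : Prop := y = x ∨ y = x + (r : ZMod (2 * r))

instance (r : ℕ) (x y : ZMod (2 * r)) : Decidable (ax r x y) := by unfold ax; infer_instance

/-- number of changes of axis -/
def brk (r : ℕ) : List (ZMod (2 * r)) → ℕ
  | [] => 0
  | [_] => 0
  | x :: y :: D => (if ax r x y then 0 else 1) + brk r (y :: D)

/-- number of positions where the letter changes (number of maximal runs minus one) -/
def chg (r : ℕ) : List (ZMod (2 * r)) → ℕ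
  | [] => 0
  | [_] => 0
  | x :: y :: D => (if y = x then 0 else 1) + chg r (y :: D)

/-- cost of the beginning -/
def hdc (r : ℕ) (p : ZMod (2 * r)) (D : List (ZMod (2 * r))) : ℕ :=
  match D.head? with
  | none => 0
  | some x => if ax r p x then 0 else 1

/-- cost of the end -/
def tlc (r : ℕ) (q : ZMod (2 * r)) (D : List (ZMod (2 * r))) : ℕ :=
  match D.getLast? with
  | none => 0
  | some x => if ax r q x then 0 else 1

/-- minimal number of letters of a word of the group with path `D`, initial state `p`, final state `q` -/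
def cost (r : ℕ) (p q : ZMod (2 * r)) (D : List (ZMod (2 * r))) : ℕ :=
  if D = [] then (if p = q then 0 else 1) else D.length + brk r D + hdc r p D + tlc r q D

/-- `D` is of minimal cost among all words with the same end point and the same area -/
def Geo (r : ℕ) (p q : ZMod (2 * r)) (D : List (ZMod (2 * r))) : Prop :=
  ∀ D', Eqw r D D' → Z r D' = Z r D → cost r p q D ≤ cost r p q D'

/-- number of geodesic paths of length at most `n` -/
noncomputable def geoCount (r : ℕ) (p q : ZMod (2 * r)) (n : ℕ) : ℕ :=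
  Set.ncard {D : List (ZMod (2 * r)) | D.length ≤ n ∧ Geo r p q D}

/-- the growth function of the frozen statement -/
noncomputable def gam (G : Type) [Group G] (S : Finset G) (n : ℕ) : ℕ :=
  Set.ncard {w : List G | w.length ≤ n ∧ (∀ x ∈ w, x ∈ S ∨ x⁻¹ ∈ S) ∧
    ∀ v : List G, (∀ x ∈ v, x ∈ S ∨ x⁻¹ ∈ S) → v.prod = w.prod → w.length ≤ v.length}

/-! ### sorted words -/

/-- the sorted word `c^{L 0} (c+1)^{L 1} ... (c+2r-1)^{L (2r-1)}` -/
def srt (r : ℕ) (c : ZMod (2 * r)) (L : ℕ → ℕ) : List (ZMod (2 * r)) :=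
  (List.range (2 * r)).flatMap (fun i => List.replicate (L i) (c + (i : ZMod (2 * r))))

/-- counts of a word, indexed from the cut `c` (zero beyond `2r`) -/
def cnts (r : ℕ) (c : ZMod (2 * r)) (D : List (ZMod (2 * r))) : ℕ → ℕ :=
  fun i => if i < 2 * r then D.count (c + (i : ZMod (2 * r))) else 0

/-- word `a^m, sorted core, a'^{m'}` -/
def wd (r : ℕ) (a c a' : ZMod (2 * r)) (m : ℕ) (L : ℕ → ℕ) (m' : ℕ) : List (ZMod (2 * r)) :=
  List.replicate m a ++ srt r c L ++ List.replicate m' a'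

/-- area of a sorted word with lengths `L` -/
def Zs (r : ℕ) (L : ℕ → ℤ) : ℤ :=
  ∑ j ∈ range (2 * r), ∑ i ∈ range j, L i * L j * bt r (j - i)

/-- `ω(a, core)` -/
def om (r : ℕ) (a c : ZMod (2 * r)) (L : ℕ → ℕ) : ℤ :=
  ∑ x ∈ range (2 * r), (L x : ℤ) * b r (c + (x : ZMod (2 * r)) - a)

/-- `G_i`: sum of the lengths strictly between `i` and `i + r` -/
def Gf (r : ℕ) (L : ℕ → ℕ) (i : ℕ) : ℤ := ∑ x ∈ Ioo i (i + r), (L x : ℤ)

/-- `H_y = ω(prefix before y, y)` -/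
def Hf (r : ℕ) (L : ℕ → ℕ) (y : ℕ) : ℤ := ∑ x ∈ range y, (L x : ℤ) * bt r (y - x)

/-- `Ht_y = ω(y, suffix after y)` -/
def Ht (r : ℕ) (L : ℕ → ℕ) (y : ℕ) : ℤ := ∑ x ∈ Ioo y (2 * r), (L x : ℤ) * bt r (x - y)

/-- index of a direction in the cut order -/
def ix (r : ℕ) (c a : ZMod (2 * r)) : ℕ := (a - c).val

/-- the big constant -/
def KK (r : ℕ) : ℕ := 100 * r + 1000

/-- the long axes at scale `s` -/
def Lset (r s : ℕ) (L : ℕ → ℕ) : Finset ℕ :=
  (range r).filter (fun i => KK r * s ≤ L i ∧ KK r * s ≤ L (i + r))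

/-- total length of the data -/
def tot (r m : ℕ) (L : ℕ → ℕ) (m' : ℕ) : ℕ := m + (∑ x ∈ range (2 * r), L x) + m'

/-- the exceptional (pinned) data: a small modification of the data has all `G_i`, `i` long, equal up to `1` -/
def Pinned (r s m : ℕ) (L : ℕ → ℕ) (m' : ℕ) : Prop :=
  ∃ (μ : ℕ) (e0 e0' : ℤ) (e : ℕ → ℤ) (m1 : ℕ) (L1 : ℕ → ℕ) (m1' : ℕ),
    μ ≤ s ^ 2 ∧ |e0| ≤ 1 ∧ |e0'| ≤ 1 ∧ (∀ x, |e x| ≤ 1) ∧ (∀ x, 2 * r ≤ x → e x = 0) ∧
    (m1 : ℤ) = m + μ * e0 ∧ (m1' : ℤ) = m' + μ * e0' ∧ (∀ x, (L1 x : ℤ) = L x + μ * e x) ∧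
    tot r m1 L1 m1' ≤ s ^ 2 ∧ 20 ≤ (Lset r s L1).card ∧
    ∀ i ∈ Lset r s L1, ∀ j ∈ Lset r s L1, |Gf r L1 i - Gf r L1 j| ≤ 1

/-- first direction of the core is not on the axis of `a` -/
def K1 (r : ℕ) (c a : ZMod (2 * r)) (L : ℕ → ℕ) : Prop :=
  ∀ x < 2 * r, 0 < L x → (∀ x' < x, L x' = 0) →
    x ≠ ix r c a ∧ x ≠ ix r c (a + (r : ZMod (2 * r)))

/-- last direction of the core is not on the axis of `a'` -/
def K1' (r : ℕ) (c a' : ZMod (2 * r)) (L : ℕ → ℕ) : Prop :=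
  ∀ x < 2 * r, 0 < L x → (∀ x', x < x' → x' < 2 * r → L x' = 0) →
    x ≠ ix r c a' ∧ x ≠ ix r c (a' + (r : ZMod (2 * r)))

/-- chain constraints for all active axes -/
def K2 (r s : ℕ) (L : ℕ → ℕ) : Prop :=
  ∀ i < r, 0 < L i → 0 < L (i + r) → ∀ j ∈ Lset r s L, |Gf r L i - Gf r L j| ≤ KK r * s

def K3 (r s : ℕ) (c a : ZMod (2 * r)) (m : ℕ) (L : ℕ → ℕ) : Prop :=
  0 < L (ix r c a) → 1 ≤ Hf r L (ix r c a) ∧ m * Hf r L (ix r c a) ≤ KK r * s ^ 2

def K3' (r s : ℕ) (c a' : ZMod (2 * r)) (m' : ℕ) (L : ℕ → ℕ) : Prop :=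
  0 < L (ix r c a') → 1 ≤ Ht r L (ix r c a') ∧ m' * Ht r L (ix r c a') ≤ KK r * s ^ 2

def K4 (r s : ℕ) (c a : ZMod (2 * r)) (m : ℕ) (L : ℕ → ℕ) : Prop :=
  L (ix r c a) = 0 → 0 < L (ix r c (a + (r : ZMod (2 * r)))) →
    m < KK r * s ∨ ∀ j ∈ Lset r s L, |Hf r L (ix r c (a + (r : ZMod (2 * r)))) - Gf r L j| ≤ KK r * s

def K4' (r s : ℕ) (c a' : ZMod (2 * r)) (m' : ℕ) (L : ℕ → ℕ) : Prop :=
  L (ix r c a') = 0 → 0 < L (ix r c (a' + (r : ZMod (2 * r)))) →
    m' < KK r * s ∨ ∀ j ∈ Lset r s L, |Ht r L (ix r c (a' + (r : ZMod (2 * r)))) - Gf r L j| ≤ KK r * s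

def K5 (r s : ℕ) (c a a' : ZMod (2 * r)) (m : ℕ) (L : ℕ → ℕ) (m' : ℕ) : Prop :=
  a' = a → L (ix r c a) = 0 → (min m m' : ℕ) * |om r a c L| ≤ KK r * s ^ 2

def K6 (r s : ℕ) (c a a' : ZMod (2 * r)) (m : ℕ) (L : ℕ → ℕ) (m' : ℕ) : Prop :=
  a' = a + (r : ZMod (2 * r)) → L (ix r c a) = 0 → L (ix r c (a + (r : ZMod (2 * r)))) = 0 →
    m < KK r * s ∨ m' < KK r * s ∨ ∀ j ∈ Lset r s L, |om r a c L - Gf r L j| ≤ KK r * s

/-- the constraints satisfied by the data of a non-pinned geodesic -/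
structure Cons (r s : ℕ) (a a' c : ZMod (2 * r)) (m : ℕ) (L : ℕ → ℕ) (m' : ℕ) : Prop where
  k1 : K1 r c a L
  k1' : K1' r c a' L
  k2 : K2 r s L
  k3 : K3 r s c a m L
  k3' : K3' r s c a' m' L
  k4 : K4 r s c a m L
  k4' : K4' r s c a' m' L
  k5 : K5 r s c a a' m L m'
  k6 : K6 r s c a a' m L m'

/-- data of a geodesic word `D = a^m U a'^{m'}` (first and last runs split off) with a best cut `c`
for the core `U` and at least 24 long axes in the core -/
structure Dec (r s : ℕ) (p q : ZMod (2 * r)) (D : List (ZMod (2 * r))) (a a' c : ZMod (2 * r))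
    (m m' : ℕ) (U : List (ZMod (2 * r))) : Prop where
  geo : Geo r p q D
  zn : 0 ≤ Z r D
  hs : 1 ≤ s
  len : D.length ≤ s ^ 2
  hm : 1 ≤ m
  hm' : 1 ≤ m'
  eq : D = List.replicate m a ++ U ++ List.replicate m' a'
  ne : U ≠ []
  hd : ∀ x, U.head? = some x → ¬ ax r a x
  tl : ∀ x, U.getLast? = some x → ¬ ax r a' x
  cut : Z r U ≤ Z r (srt r c (cnts r c U))
  big : 24 ≤ (Lset r s (cnts r c U)).card

/-- `U` consists of one run for each of its letters -/
def OneRun (r : ℕ) (U : List (ZMod (2 * r))) : Prop :=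
  ∃ o : List (ZMod (2 * r)), o.Nodup ∧ U = o.flatMap (fun x => List.replicate (U.count x) x)

end Pool.Agent.T6.H25.GG
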