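import Pool.Agent.T6.H25.GG.G1

/-! Module G2 of the project MP_b6554e_al (geodesic growth). -/

set_option autoImplicit false

namespace Pool.Agent.T6.H25.GG.G2

open Finset
open Pool.Agent.T6.H25.GG.Base

variable {r : ℕ}

theorem om_abs_le (a c : ZMod (2 * r)) (L : ℕ → ℕ) (m m' : ℕ) : |om r a c L| ≤ tot r m L m' := by
  unfold om tot
  have h1 : |∑ x ∈ range (2 * r), (L x : ℤ) * b r (c + (x : ZMod (2 * r)) - a)| ≤
      ∑ x ∈ range (2 * r), (L x : ℤ) := by
    refine (abs_sum_le_sum_abs _ _).trans (sum_le_sum fun x _ => ?_)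
    rw [abs_mul, abs_of_nonneg (by positivity : (0 : ℤ) ≤ L x)]
    calc (L x : ℤ) * |b r (c + (x : ZMod (2 * r)) - a)| ≤ L x * 1 :=
          mul_le_mul_of_nonneg_left (abs_bt_le _ _) (by positivity)
      _ = L x := mul_one _
  push_cast
  linarith

theorem kk5 [NeZero r] (hALG : StmtALG) (hPAR : StmtPAR) (hMV : StmtMV)
    (hD : StmtD) {s : ℕ} {p q : ZMod (2 * r)} {D : List (ZMod (2 * r))}
    {a a' c : ZMod (2 * r)} {m m' : ℕ} {U : List (ZMod (2 * r))}
    (h : Dec r s p q D a a' c m m' U) : K5 r s c a a' m (cnts r c U) m' := by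
  intro haa _
  have hE := eqw hALG h
  have hT := tot_eq hALG h
  have hZ := z_le hALG hPAR h
  have hlen := h.len
  have hs1 := h.hs
  have hbig := h.big
  obtain ⟨j, hj⟩ : (Lset r s (cnts r c U)).Nonempty := by
    rw [← Finset.card_pos]
    omega
  rw [mem_Lset] at hj
  obtain ⟨hj1, hj2, hj3⟩ := hj
  have hlen' : ((D.length : ℕ) : ℤ) ≤ (s : ℤ) ^ 2 := by exact_mod_cast hlen
  have hk : ((KK r : ℕ) : ℤ) = 100 * r + 1000 := by unfold KK; push_cast; ring
  have hρ : r + 3 ≤ KK r * s := by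
    unfold KK
    nlinarith
  obtain ⟨M, hM⟩ := mk (cnts r c U) (fun x => if x = j ∨ x = j + r then -((r : ℤ) + 3) else 0) (by
    intro x
    try simp only
    split_ifs with hx
    · have h1 : r + 3 ≤ cnts r c U x := by
        rcases hx with hx | hx
        · rw [hx]; omega
        · rw [hx]; omega
      have h2 : ((r + 3 : ℕ) : ℤ) ≤ cnts r c U x := by exact_mod_cast h1
      push_cast at h2
      linarith
    · positivity)
  -- the common step
  have key : ∀ (m1 m1' : ℕ) (X : ℤ), Eqw r D (wd r a c a' m1 (cnts r c U) m1') →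
      tot r m1 (cnts r c U) m1' = tot r m (cnts r c U) m' →
      Z r (wd r a c a' m1 (cnts r c U) m1') = Z r (wd r a c a' m (cnts r c U) m') + 2 * X →
      X ≤ KK r * (s : ℤ) ^ 2 := by
    intro m1 m1' X e1 e2 e3
    obtain ⟨f1, f2, f3, f4⟩ := pair hMV a c a' m1 m1' (cnts r c U) M j (-((r : ℤ) + 3)) hj1
      (fun x _ => hM x)
    have htot : tot r m1 M m1' + 2 * (r + 3) ≤ D.length := by
      zify
      rw [f2, e2, hT]
      linarith
    have hlt := d1c hALG hD h (eqw_trans e1 f1) htot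
    rw [f3, e3] at hlt
    have hG := Gf_le (r := r) (cnts r c U) hj1 m m'
    rw [hT] at hG
    have hG' : ((r : ℤ) + 3) * Gf r (cnts r c U) j ≤ ((r : ℤ) + 3) * (s : ℤ) ^ 2 :=
      mul_le_mul_of_nonneg_left (hG.trans hlen') (by positivity)
    rw [hk]
    have hfin : ((r : ℤ) + 3) * (s : ℤ) ^ 2 ≤ (100 * r + 1000) * (s : ℤ) ^ 2 :=
      mul_le_mul_of_nonneg_right (by linarith) (by positivity)
    linarith
  have hMV5 := (hMV r a c a' m (cnts r c U) m').2.2.2.2.1 haa
  rcases le_total 0 (om r a c (cnts r c U)) with ho | ho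
  · rw [abs_of_nonneg ho]
    obtain ⟨e1, e2, e3⟩ := hMV5 (-(m' : ℤ)) (m + m') 0 (by push_cast; ring) (by push_cast; ring)
    have h1 := key (m + m') 0 (m' * om r a c (cnts r c U)) (eqw_trans hE e1) e2 (by rw [e3]; ring)
    refine le_trans (mul_le_mul_of_nonneg_right ?_ ho) h1
    exact_mod_cast min_le_right m m'
  · rw [abs_of_nonpos ho]
    obtain ⟨e1, e2, e3⟩ := hMV5 (m : ℤ) 0 (m' + m) (by push_cast; ring) (by push_cast; ring)
    have h1 := key 0 (m' + m) (m * -om r a c (cnts r c U)) (eqw_trans hE e1) e2 (by rw [e3]; ring)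
    refine le_trans (mul_le_mul_of_nonneg_right ?_ (by linarith)) h1
    exact_mod_cast min_le_left m m'

theorem kk6 [NeZero r] (hALG : StmtALG) (hPAR : StmtPAR) (hMV : StmtMV)
    (hD : StmtD) {s : ℕ} {p q : ZMod (2 * r)} {D : List (ZMod (2 * r))}
    {a a' c : ZMod (2 * r)} {m m' : ℕ} {U : List (ZMod (2 * r))}
    (h : Dec r s p q D a a' c m m' U) : K6 r s c a a' m (cnts r c U) m' := by
  intro haa _ _
  by_cases hmK : m < KK r * s
  · exact Or.inl hmK
  by_cases hmK' : m' < KK r * s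
  · exact Or.inr (Or.inl hmK')
  right; right
  intro j hj
  have hE := eqw hALG h
  have hT := tot_eq hALG h
  have hZ := z_le hALG hPAR h
  have hlen := h.len
  have hs1 := h.hs
  rw [mem_Lset] at hj
  obtain ⟨hj1, hj2, hj3⟩ := hj
  have hlen' : ((D.length : ℕ) : ℤ) ≤ (s : ℤ) ^ 2 := by exact_mod_cast hlen
  have hk : ((KK r : ℕ) : ℤ) = 100 * r + 1000 := by unfold KK; push_cast; ring
  have hsZ : (1 : ℤ) ≤ s := by exact_mod_cast hs1
  have hfinal : (2 * ((r : ℤ) + 3) + 1) * s ≤ (KK r : ℤ) * s := by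
    rw [hk]
    exact mul_le_mul_of_nonneg_right (by linarith) (by linarith)
  have hρK : (r + 3) + s ≤ KK r * s := by
    unfold KK
    nlinarith
  have hMV4 := (hMV r a c a' m (cnts r c U) m').2.2.2.1 haa
  have hG := Gf_le (r := r) (cnts r c U) hj1 m m'
  rw [hT] at hG
  have hO := om_abs_le a c (cnts r c U) m m'
  rw [hT] at hO
  have hO' : om r a c (cnts r c U) ≤ (s : ℤ) ^ 2 := (le_abs_self _).trans (hO.trans hlen')
  have hs2 : (0 : ℤ) ≤ (s : ℤ) ^ 2 := by positivity
  have hsρ : (0 : ℤ) ≤ (s : ℤ) * (r + 3) := by positivity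
  rw [abs_le]
  constructor
  · obtain ⟨m1, hm1⟩ : ∃ m1 : ℕ, (m1 : ℤ) = m + (-((s : ℤ) + (r + 3))) :=
      ⟨m - (s + (r + 3)), by
        have : s + (r + 3) ≤ m := by omega
        push_cast [Nat.cast_sub this]
        ring⟩
    obtain ⟨m1', hm1'⟩ : ∃ m1' : ℕ, (m1' : ℤ) = m' + (-((s : ℤ) + (r + 3))) :=
      ⟨m' - (s + (r + 3)), by
        have : s + (r + 3) ≤ m' := by omega
        push_cast [Nat.cast_sub this]
        ring⟩
    obtain ⟨e1, e2, e3⟩ := hMV4 (-((s : ℤ) + (r + 3))) m1 m1' hm1 hm1'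
    obtain ⟨L2, hL2⟩ := mk (cnts r c U) (fun x => if x = j ∨ x = j + r then (s : ℤ) else 0) (by
      intro x
      try simp only
      split_ifs <;> positivity)
    obtain ⟨f1, f2, f3, f4⟩ := pair hMV a c a' m1 m1' (cnts r c U) L2 j (s : ℤ) hj1
      (fun x _ => hL2 x)
    have htot : tot r m1 L2 m1' + 2 * (r + 3) ≤ D.length := by
      zify
      rw [f2, e2, hT]
      linarith
    have hlt := d1c hALG hD h (eqw_trans (eqw_trans hE e1) f1) htot
    rw [f3, e3] at hlt
    have hres := G1.arith (s := (s : ℤ)) (X := Gf r (cnts r c U) j - om r a c (cnts r c U))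
      (G := om r a c (cnts r c U)) (ρ := (r : ℤ) + 3) hsZ (by positivity) hO' (by linarith)
    linarith
  · obtain ⟨e1, e2, e3⟩ := hMV4 (s : ℤ) (m + s) (m' + s) (by push_cast; ring) (by push_cast; ring)
    obtain ⟨L2, hL2⟩ := mk (cnts r c U)
      (fun x => if x = j ∨ x = j + r then -((s : ℤ) + (r + 3)) else 0) (by
      intro x
      try simp only
      split_ifs with hx
      · have h1 : s + (r + 3) ≤ cnts r c U x := by
          rcases hx with hx | hx
          · rw [hx]; omega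
          · rw [hx]; omega
        have h2 : ((s + (r + 3) : ℕ) : ℤ) ≤ cnts r c U x := by exact_mod_cast h1
        push_cast at h2
        linarith
      · positivity)
    obtain ⟨f1, f2, f3, f4⟩ := pair hMV a c a' (m + s) (m' + s) (cnts r c U) L2 j
      (-((s : ℤ) + (r + 3))) hj1 (fun x _ => hL2 x)
    have htot : tot r (m + s) L2 (m' + s) + 2 * (r + 3) ≤ D.length := by
      zify
      rw [f2, e2, hT]
      linarith
    have hlt := d1c hALG hD h (eqw_trans (eqw_trans hE e1) f1) htot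
    rw [f3, e3] at hlt
    have hres := G1.arith (s := (s : ℤ)) (X := om r a c (cnts r c U) - Gf r (cnts r c U) j)
      (G := Gf r (cnts r c U) j) (ρ := (r : ℤ) + 3) hsZ (by positivity) (hG.trans hlen')
      (by linarith)
    linarith

end Pool.Agent.T6.H25.GG.G2

namespace Pool.Agent.T6.H25.GG

theorem g2 (hALG : StmtALG) (hPAR : StmtPAR) (hMV : StmtMV) (hD : StmtD) : StmtG2 := by
  intro r _ s p q D a a' c m m' U h
  exact ⟨G2.kk5 hALG hPAR hMV hD h, G2.kk6 hALG hPAR hMV hD h⟩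

end Pool.Agent.T6.H25.GG
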